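import Pool.Agent.Helper71.XD.Abs

/-!
Project XD.  Block XD-3: Russo's formula.

`av` of `f` for the weights `ρ ^ |ω| * w ω` is the quotient of `N ρ = ∑ ρ ^ |ω| w ω f ω` and `Z ρ = ∑ ρ ^ |ω| w ω > 0`, with
`ρ * N' = ∑ |ω| ρ ^ |ω| w ω f ω`; so `ρ * (N / Z)' = av (|ω| f) - av |ω| * av f`, and `|ω| = ∑ e ∈ E, op e ω` for `ω ⊆ E`.
-/

namespace Pool.Helper71.XD

variable {α : Type*} [DecidableEq α]

private theorem card_eq76 (E ω : Finset α) (h : ω ⊆ E) : ∑ e ∈ E, op e ω = (ω.card : ℝ) := by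
  unfold op
  rw [Finset.sum_ite_mem, Finset.inter_eq_right.2 h, Finset.sum_const, nsmul_eq_mul, mul_one]

omit [DecidableEq α] in
private theorem deriv_sum76 (E : Finset α) (w g : Finset α → ℝ) {ρ : ℝ} (hρ : 0 < ρ) :
    HasDerivAt (fun t : ℝ => ∑ ω ∈ E.powerset, t ^ ω.card * w ω * g ω)
      (ρ⁻¹ * ∑ ω ∈ E.powerset, ρ ^ ω.card * w ω * ((ω.card : ℝ) * g ω)) ρ := by
  have h1 : HasDerivAt (fun t : ℝ => ∑ ω ∈ E.powerset, t ^ ω.card * w ω * g ω)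
      (∑ ω ∈ E.powerset, ((ω.card : ℝ) * ρ ^ (ω.card - 1)) * w ω * g ω) ρ :=
    HasDerivAt.fun_sum fun ω _ => ((hasDerivAt_pow ω.card ρ).mul_const _).mul_const _
  convert h1 using 1
  rw [Finset.mul_sum]
  refine Finset.sum_congr rfl fun ω _ => ?_
  rcases Nat.eq_zero_or_pos ω.card with h | h
  · rw [h]
    simp
  · have h2 : ρ ^ ω.card = ρ ^ (ω.card - 1) * ρ := by
      rw [← pow_succ]
      congr 1
      omega
    rw [h2]
    field_simp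

theorem hasDerivAt_av (E : Finset α) (w : Finset α → ℝ) (hw : ∀ ω, ω ⊆ E → 0 < w ω)
    (f : Finset α → ℝ) {ρ : ℝ} (hρ : 0 < ρ) :
    HasDerivAt (fun ρ : ℝ => av E (fun ω => ρ ^ ω.card * w ω) f)
      (ρ⁻¹ * ∑ e ∈ E, cov E (fun ω => ρ ^ ω.card * w ω) f (op e)) ρ := by
  have hZ : 0 < ∑ ω ∈ E.powerset, ρ ^ ω.card * w ω :=
    Finset.sum_pos (fun ω hω => mul_pos (pow_pos hρ _) (hw ω (Finset.mem_powerset.1 hω)))
      (Finset.powerset_nonempty E)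
  have h1 := deriv_sum76 E w f hρ
  have h2 := deriv_sum76 E w (fun _ => 1) hρ
  simp only [mul_one] at h2
  have h3 := h1.div h2 hZ.ne'
  have e1 : ∑ e ∈ E, cov E (fun ω => ρ ^ ω.card * w ω) f (op e) =
      (∑ ω ∈ E.powerset, ρ ^ ω.card * w ω * ((ω.card : ℝ) * f ω)) /
          (∑ ω ∈ E.powerset, ρ ^ ω.card * w ω) -
        (∑ ω ∈ E.powerset, ρ ^ ω.card * w ω * f ω) / (∑ ω ∈ E.powerset, ρ ^ ω.card * w ω) *
          ((∑ ω ∈ E.powerset, ρ ^ ω.card * w ω * (ω.card : ℝ)) /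
            (∑ ω ∈ E.powerset, ρ ^ ω.card * w ω)) := by
    unfold cov
    rw [Finset.sum_sub_distrib, ← Finset.mul_sum, ← av_sum, ← av_sum]
    have e2 : av E (fun ω => ρ ^ ω.card * w ω) (fun ω => ∑ i ∈ E, f ω * op i ω) =
        av E (fun ω => ρ ^ ω.card * w ω) (fun ω => (ω.card : ℝ) * f ω) :=
      av_congr fun ω hω => by
        rw [← Finset.mul_sum, card_eq76 E ω hω, mul_comm]
    have e3 : av E (fun ω => ρ ^ ω.card * w ω) (fun ω => ∑ i ∈ E, op i ω) =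
        av E (fun ω => ρ ^ ω.card * w ω) (fun ω => (ω.card : ℝ)) :=
      av_congr fun ω hω => card_eq76 E ω hω
    rw [e2, e3]
    rfl
  have h4 : HasDerivAt (fun t : ℝ => av E (fun ω => t ^ ω.card * w ω) f) _ ρ := h3
  convert h4 using 1
  rw [e1]
  field_simp

end Pool.Helper71.XD
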