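import Pool.Agent.Helper71.XD.Osss
import Pool.Agent.Helper49.FK.Comp

/-!
Project XD.  Block XD-4: the tree which explores the clusters of `S` in `E'`.

PROOF.  Generalise: for all `n`, `F`, `ξ` with `(E' \ F).card = n`, `ξ ⊆ F ⊆ E'` there is a tree `T` with
`T.Computes E f F ξ` and for all `ω ⊆ E` with `ω ∩ F = ξ`, all `e ∈ T.vis ω`: `e ∈ E'` and some `s ∈ S` with
`Conn (ω ∩ E') s e.1 ∨ Conn (ω ∩ E') s (tip e)`.  Induction on `n`.
If some `e ∈ E' \ F` has `Conn ξ s e.1` or `Conn ξ s (tip e)` with `s ∈ S`: take `node e T0 T1`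
(note `ξ ⊆ ω ∩ E'`).  Otherwise take `leaf`: let `ω ∩ F = ξ = ω' ∩ F`.  The set of the vertices `v` with
`Conn ξ s v` for some `s ∈ S` is closed under the edges of `ω ∩ E'` (such an edge with an end in the set is not in
`E' \ F`, so it is in `ω ∩ F = ξ`); so `e ∈ E'` with `Conn (ω ∩ E') s e.1` or `(tip e)` has an end in this set, hence is in `F`,
and `e ∈ ω ↔ e ∈ ξ ↔ e ∈ ω'`; so `f ω = f ω'` by `hf`.
-/

namespace Pool.Helper71.XD

open Pool.Helper49.FK

private theorem exists_tree_aux (E E' : Finset Edge) (hE : E' ⊆ E) (S : Finset (ℤ × ℤ))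
    (f : Finset Edge → ℝ)
    (hf : ∀ ω ω', ω ⊆ E → ω' ⊆ E → (∀ e ∈ E', (∃ s ∈ S, Conn (ω ∩ E') s e.1 ∨
      Conn (ω ∩ E') s (tip e)) → (e ∈ ω ↔ e ∈ ω')) → f ω = f ω') :
    ∀ (n : ℕ) (F ξ : Finset Edge), (E' \ F).card = n → ξ ⊆ F → F ⊆ E' →
    ∃ T : Tree Edge, T.Computes E f F ξ ∧ ∀ ω, ω ⊆ E → ω ∩ F = ξ → ∀ e ∈ T.vis ω,
      e ∈ E' ∧ ∃ s ∈ S, Conn (ω ∩ E') s e.1 ∨ Conn (ω ∩ E') s (tip e) := by
  classical
  intro n
  induction n with
  | zero =>
    intro F ξ hcard hξ hF
    have hFE : F = E' := by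
      apply Finset.Subset.antisymm hF
      rw [← Finset.sdiff_eq_empty_iff_subset]
      exact Finset.card_eq_zero.1 hcard
    refine ⟨Tree.leaf, ?_, ?_⟩
    · intro ω ω' hω hω' h1 h2
      apply hf ω ω' hω hω'
      intro e he _
      rw [hFE] at h1 h2
      have h3 : e ∈ ω ↔ e ∈ ξ := by
        rw [← h1, Finset.mem_inter]
        exact ⟨fun h => ⟨h, he⟩, fun h => h.1⟩
      have h4 : e ∈ ω' ↔ e ∈ ξ := by
        rw [← h2, Finset.mem_inter]
        exact ⟨fun h => ⟨h, he⟩, fun h => h.1⟩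
      rw [h3, h4]
    · intro ω _ _ e he
      simp [Tree.vis] at he
  | succ n ih =>
    intro F ξ hcard hξ hF
    by_cases hex : ∃ e ∈ E' \ F, ∃ s ∈ S, Conn ξ s e.1 ∨ Conn ξ s (tip e)
    · obtain ⟨e, he, s, hs, hc⟩ := hex
      rw [Finset.mem_sdiff] at he
      have hcard' : (E' \ insert e F).card = n := by
        have h1 : E' \ insert e F = (E' \ F).erase e := by
          ext x
          simp only [Finset.mem_sdiff, Finset.mem_insert, Finset.mem_erase]
          tauto
        rw [h1, Finset.card_erase_of_mem (Finset.mem_sdiff.2 he), hcard]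
        rfl
      have hF' : insert e F ⊆ E' := Finset.insert_subset he.1 hF
      obtain ⟨T0, hT0, hv0⟩ := ih (insert e F) ξ hcard'
        (hξ.trans (Finset.subset_insert e F)) hF'
      obtain ⟨T1, hT1, hv1⟩ := ih (insert e F) (insert e ξ) hcard'
        (Finset.insert_subset_insert e hξ) hF'
      refine ⟨Tree.node e T0 T1, ⟨hE he.1, he.2, hT0, hT1⟩, ?_⟩
      intro ω hω hωF e' he'
      have hsub : ξ ⊆ ω ∩ E' := by
        rw [← hωF]
        exact Finset.inter_subset_inter_left hF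
      rw [Tree.vis, Finset.mem_insert] at he'
      rcases he' with rfl | he'
      · refine ⟨he.1, s, hs, ?_⟩
        rcases hc with hc | hc
        · exact Or.inl (Conn.mono hsub hc)
        · exact Or.inr (Conn.mono hsub hc)
      · by_cases heω : e ∈ ω
        · rw [if_pos heω] at he'
          apply hv1 ω hω _ e' he'
          rw [Finset.inter_insert_of_mem heω, hωF]
        · rw [if_neg heω] at he'
          apply hv0 ω hω _ e' he'
          rw [Finset.inter_insert_of_notMem heω, hωF]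
    · push Not at hex
      have hin : ∀ e ∈ E', ∀ s ∈ S, (Conn ξ s e.1 ∨ Conn ξ s (tip e)) → e ∈ F := by
        intro e he s hs hc
        by_contra hne
        have h1 := hex e (Finset.mem_sdiff.2 ⟨he, hne⟩) s hs
        rcases hc with hc | hc
        · exact h1.1 hc
        · exact h1.2 hc
      refine ⟨Tree.leaf, ?_, ?_⟩
      · intro ω ω' hω hω' h1 h2
        apply hf ω ω' hω hω'
        intro e he hse
        obtain ⟨s, hs, hc⟩ := hse
        have hclosed : ∀ e ∈ ω ∩ E', (e.1 ∈ {v : ℤ × ℤ | Conn ξ s v} ↔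
            tip e ∈ {v : ℤ × ℤ | Conn ξ s v}) := by
          intro e he
          rw [Finset.mem_inter] at he
          constructor
          · intro hv
            have h3 := hin e he.2 s hs (Or.inl hv)
            have h4 : e ∈ ξ := by
              rw [← h1]
              exact Finset.mem_inter.2 ⟨he.1, h3⟩
            exact Conn.trans hv (conn_edge h4)
          · intro hv
            have h3 := hin e he.2 s hs (Or.inr hv)
            have h4 : e ∈ ξ := by
              rw [← h1]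
              exact Finset.mem_inter.2 ⟨he.1, h3⟩
            exact Conn.trans hv (Conn.symm (conn_edge h4))
        have heF : e ∈ F := by
          apply hin e he s hs
          rcases hc with hc | hc
          · exact Or.inl (Conn.induct hc (S := {v : ℤ × ℤ | Conn ξ s v}) (Conn.refl ξ s) hclosed)
          · exact Or.inr (Conn.induct hc (S := {v : ℤ × ℤ | Conn ξ s v}) (Conn.refl ξ s) hclosed)
        have h3 : e ∈ ω ↔ e ∈ ξ := by
          rw [← h1, Finset.mem_inter]
          exact ⟨fun h => ⟨h, heF⟩, fun h => h.1⟩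
        have h4 : e ∈ ω' ↔ e ∈ ξ := by
          rw [← h2, Finset.mem_inter]
          exact ⟨fun h => ⟨h, heF⟩, fun h => h.1⟩
        rw [h3, h4]
      · intro ω _ _ e he
        simp [Tree.vis] at he

theorem exists_tree (E E' : Finset Edge) (hE : E' ⊆ E) (S : Finset (ℤ × ℤ)) (f : Finset Edge → ℝ)
    (hf : ∀ ω ω', ω ⊆ E → ω' ⊆ E → (∀ e ∈ E', (∃ s ∈ S, Conn (ω ∩ E') s e.1 ∨
      Conn (ω ∩ E') s (tip e)) → (e ∈ ω ↔ e ∈ ω')) → f ω = f ω') :
    ∃ T : Tree Edge, T.Computes E f ∅ ∅ ∧ ∀ ω, ω ⊆ E → ∀ e ∈ T.vis ω,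
      e ∈ E' ∧ ∃ s ∈ S, Conn (ω ∩ E') s e.1 ∨ Conn (ω ∩ E') s (tip e) := by
  obtain ⟨T, hT, hv⟩ := exists_tree_aux E E' hE S f hf _ ∅ ∅ rfl (Finset.Subset.refl _)
    (Finset.empty_subset _)
  exact ⟨T, hT, fun ω hω e he => hv ω hω (Finset.inter_empty ω) e he⟩

end Pool.Helper71.XD
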