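import Pool.Agent.Helper71.XD.Tau
import Pool.Agent.Helper71.XD.Tree
import Pool.Agent.Helper71.XD.Russo

/-!
Project XD.  Block XD-6b: the differential inequality for the wired one-arm probability.

Let `n ≥ 1`, `D = box (2n+1)`, `R = ring (2n)`, `E = edges D \ R = edges (box (2n))`, `w ω = q ^ ncl D (ω ∪ R)`,
`μ ω = ρ ^ |ω| * w ω`; then `wt q (hom ρ) D (ω ∪ R) = ρ ^ |R| * μ ω` for `ω ⊆ E`, so `Good E μ` (`good_wired`) and for an event `B`
`prW q (hom ρ) D R B = av E μ (indicator of B (ω ∪ R))` (`prW_eq_av`; a constant factor cancels in `av`).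
Let `f ω = 1` if `Arm n (0, 0) (ω ∪ R)`, which is equivalent to `Arm n (0, 0) ω` (`arm_dep`, `R` is disjoint from `edges (box n)`).
`f` is increasing, `cov E μ f f = tauW * (1 - tauW)`, and by `hasDerivAt_av` `tauW q · n` has the derivative
`d = ρ⁻¹ * ∑ e ∈ E, cov E μ f (op e)`, all covariances are `≥ 0` (`av_fkg`).
For `1 ≤ k ≤ n` apply `exists_tree` with `E' = edges (box n)`, `S = sph k` and `osss` with `g = f`:
`cov f f ≤ ∑ e ∈ E, av (1 (e ∈ vis)) * cov f (op e)`, and `av (1 (e ∈ vis)) ≤ P (∃ s ∈ sph k, Conn (ω ∩ E') s e.1) +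
P (∃ s ∈ sph k, Conn (ω ∩ E') s (tip e))` if `e ∈ E'`, and `0` otherwise.  Sum over `k` and use `reveal`:
`n * tauW * (1 - tauW) ≤ 10 * (∑ j < n, tauW j) * ∑ e ∈ E, cov f (op e) = 10 * (∑ j < n, tauW j) * ρ * d`.
HYPOTHESIS of `exists_tree`: let `ω`, `ω'` agree on the edges of `E'` which touch the clusters of `S = sph k` in `ω ∩ E'`.
Let `Arm n (0,0) ω`: `Conn (ω ∩ E') (0,0) y` with `‖y‖ = n`.  By `exit` (for `box (k - 1)`) there is `s ∈ sph k` with
`Conn (ω ∩ E') (0,0) s`.  The set of the `v` with `Conn (ω' ∩ E') s v` and `Conn (ω ∩ E') s v` is closed under the edges of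
`ω ∩ E'`, so `Conn (ω' ∩ E') (0,0) y`.  Conversely let `Arm n (0,0) ω'`; there is `s ∈ sph k` with `Conn (ω' ∩ E') (0,0) s`; the set
of the `v` with `Conn (ω ∩ E') s v` is closed under the edges of `ω' ∩ E'`, so `Conn (ω ∩ E') (0,0) y`.
-/

namespace Pool.Helper71.XD

open Pool.Helper49.FK

private theorem av_scale49 {E : Finset Edge} {μ : Finset Edge → ℝ} {c : ℝ} (hc : c ≠ 0)
    (g : Finset Edge → ℝ) : av E (fun ω => c * μ ω) g = av E μ g := by
  unfold av
  have h1 : ∑ ω ∈ E.powerset, c * μ ω * g ω = c * ∑ ω ∈ E.powerset, μ ω * g ω := by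
    rw [Finset.mul_sum]
    exact Finset.sum_congr rfl fun ω _ => by ring
  rw [h1, ← Finset.mul_sum, mul_div_mul_left _ _ hc]

private theorem av_congr_mu49 {E : Finset Edge} {μ ν : Finset Edge → ℝ}
    (h : ∀ ω, ω ⊆ E → μ ω = ν ω) (g : Finset Edge → ℝ) : av E μ g = av E ν g := by
  unfold av
  congr 1
  · exact Finset.sum_congr rfl fun ω hω => by rw [h ω (Finset.mem_powerset.1 hω)]
  · exact Finset.sum_congr rfl fun ω hω => by rw [h ω (Finset.mem_powerset.1 hω)]

private theorem mem_box49 {n : ℕ} {x : ℤ × ℤ} :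
    x ∈ box n ↔ (-(n : ℤ) ≤ x.1 ∧ x.1 ≤ n) ∧ (-(n : ℤ) ≤ x.2 ∧ x.2 ≤ n) := by
  unfold box
  rw [Finset.mem_product, Finset.mem_Icc, Finset.mem_Icc]

private theorem box_mono49 {m n : ℕ} (h : m ≤ n) : box m ⊆ box n := by
  intro x hx
  rw [mem_box49] at hx ⊢
  have : (m : ℤ) ≤ n := by exact_mod_cast h
  omega

private theorem disj49 {m n : ℕ} (h : m ≤ n) : Disjoint (ring n) (edges (box m)) := by
  rw [Finset.disjoint_left]
  intro e h1 h2
  unfold ring at h1
  exact (Finset.mem_sdiff.1 h1).2 (edges_mono (box_mono49 h) h2)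

/-- A connection from the origin to distance `n ≥ k` meets the sphere of radius `k`. -/
private theorem hit49 {η : Finset Edge} {k n : ℕ} (hk : 1 ≤ k) (hkn : k ≤ n) {y : ℤ × ℤ}
    (hy : |y.1| = n ∨ |y.2| = n) (h : Conn η (0, 0) y) : ∃ s ∈ sph k, Conn η (0, 0) s := by
  have h0 : ((0, 0) : ℤ × ℤ) ∈ box (k - 1) := by
    rw [mem_box49]
    simp only
    omega
  have hkn' : (k : ℤ) ≤ n := by exact_mod_cast hkn
  have hk1 : ((k - 1 : ℕ) : ℤ) = (k : ℤ) - 1 := by omega
  have h1 : y ∉ box (k - 1) := by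
    rw [mem_box49, hk1]
    rintro ⟨⟨h2, h3⟩, h4, h5⟩
    rcases hy with hy | hy
    · have h6 : |y.1| ≤ (k : ℤ) - 1 := abs_le.2 ⟨by linarith, h3⟩
      omega
    · have h6 : |y.2| ≤ (k : ℤ) - 1 := abs_le.2 ⟨by linarith, h5⟩
      omega
  obtain ⟨z, hz, z', hz', hc, e, he, hee⟩ := exit h0 h1 h
  have hc' : Conn η (0, 0) z := Conn.mono Finset.inter_subset_left hc
  have hzz : Conn η z z' := by
    rcases hee with ⟨h2, h3⟩ | ⟨h2, h3⟩
    · rw [← h2, ← h3]; exact conn_edge he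
    · rw [← h2, ← h3]; exact (conn_edge he).symm
  refine ⟨z', ?_, hc'.trans hzz⟩
  unfold sph
  rw [Finset.mem_filter, mem_box49]
  rw [mem_box49, hk1] at hz hz'
  have hadj : (z'.1 - z.1 = 0 ∧ |z'.2 - z.2| ≤ 1) ∨ (|z'.1 - z.1| ≤ 1 ∧ z'.2 - z.2 = 0) := by
    rcases hee with ⟨h2, h3⟩ | ⟨h2, h3⟩
    · rw [← h2, ← h3]
      unfold tip
      split_ifs
      · right; simp
      · left; simp
    · rw [← h2, ← h3]
      unfold tip
      split_ifs
      · right; simp
      · left; simp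
  have hk0 : (0 : ℤ) ≤ k := by positivity
  rcases hadj with ⟨h2, h3⟩ | ⟨h2, h3⟩
  · rw [abs_le] at h3
    refine ⟨by omega, Or.inr ?_⟩
    rcases le_total 0 z'.2 with h4 | h4
    · rw [abs_of_nonneg h4]; omega
    · rw [abs_of_nonpos h4]; omega
  · rw [abs_le] at h2
    refine ⟨by omega, Or.inl ?_⟩
    rcases le_total 0 z'.1 with h4 | h4
    · rw [abs_of_nonneg h4]; omega
    · rw [abs_of_nonpos h4]; omega

private theorem arm_iff49 (n : ℕ) (ω : Finset Edge) :
    Arm n (0, 0) ω ↔ ∃ y ∈ box n, (|y.1| = n ∨ |y.2| = n) ∧ Conn (ω ∩ edges (box n)) (0, 0) y := by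
  unfold Arm
  rw [bx_zero]
  simp only [sub_zero]

/-- The arm event is determined by the clusters of the sphere. -/
private theorem det49 {n k : ℕ} (hk : 1 ≤ k) (hkn : k ≤ n) {ω ω' : Finset Edge}
    (h : ∀ e ∈ edges (box n), (∃ s ∈ sph k, Conn (ω ∩ edges (box n)) s e.1 ∨
      Conn (ω ∩ edges (box n)) s (tip e)) → (e ∈ ω ↔ e ∈ ω')) :
    Arm n (0, 0) ω ↔ Arm n (0, 0) ω' := by
  rw [arm_iff49, arm_iff49]
  constructor
  · rintro ⟨y, hy, hyn, hc⟩
    obtain ⟨s, hs, hcs⟩ := hit49 hk hkn hyn hc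
    refine ⟨y, hy, hyn, ?_⟩
    have hcl : ∀ e ∈ ω ∩ edges (box n),
        (e.1 ∈ {v : ℤ × ℤ | Conn (ω' ∩ edges (box n)) s v ∧ Conn (ω ∩ edges (box n)) s v} ↔
          tip e ∈ {v : ℤ × ℤ | Conn (ω' ∩ edges (box n)) s v ∧ Conn (ω ∩ edges (box n)) s v}) := by
      intro e he
      have he2 := (Finset.mem_inter.1 he).2
      constructor
      · rintro ⟨h1, h2⟩
        have h3 : e ∈ ω' ∩ edges (box n) :=
          Finset.mem_inter.2 ⟨(h e he2 ⟨s, hs, Or.inl h2⟩).1 (Finset.mem_inter.1 he).1, he2⟩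
        exact ⟨h1.trans (conn_edge h3), h2.trans (conn_edge he)⟩
      · rintro ⟨h1, h2⟩
        have h3 : e ∈ ω' ∩ edges (box n) :=
          Finset.mem_inter.2 ⟨(h e he2 ⟨s, hs, Or.inr h2⟩).1 (Finset.mem_inter.1 he).1, he2⟩
        exact ⟨h1.trans (conn_edge h3).symm, h2.trans (conn_edge he).symm⟩
    have hss : s ∈ {v : ℤ × ℤ | Conn (ω' ∩ edges (box n)) s v ∧ Conn (ω ∩ edges (box n)) s v} :=
      ⟨Conn.refl _ _, Conn.refl _ _⟩
    have h1 := Conn.induct hcs.symm hss hcl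
    have h2 := Conn.induct (hcs.symm.trans hc) hss hcl
    exact h1.1.symm.trans h2.1
  · rintro ⟨y, hy, hyn, hc⟩
    obtain ⟨s, hs, hcs⟩ := hit49 hk hkn hyn hc
    refine ⟨y, hy, hyn, ?_⟩
    have hcl : ∀ e ∈ ω' ∩ edges (box n), (e.1 ∈ {v : ℤ × ℤ | Conn (ω ∩ edges (box n)) s v} ↔
        tip e ∈ {v : ℤ × ℤ | Conn (ω ∩ edges (box n)) s v}) := by
      intro e he
      have he2 := (Finset.mem_inter.1 he).2
      constructor
      · intro h1
        have h3 : e ∈ ω ∩ edges (box n) :=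
          Finset.mem_inter.2 ⟨(h e he2 ⟨s, hs, Or.inl h1⟩).2 (Finset.mem_inter.1 he).1, he2⟩
        exact Conn.trans h1 (conn_edge h3)
      · intro h1
        have h3 : e ∈ ω ∩ edges (box n) :=
          Finset.mem_inter.2 ⟨(h e he2 ⟨s, hs, Or.inr h1⟩).2 (Finset.mem_inter.1 he).1, he2⟩
        exact Conn.trans h1 (conn_edge h3).symm
    have hss : s ∈ {v : ℤ × ℤ | Conn (ω ∩ edges (box n)) s v} := Conn.refl _ _
    have h1 := Conn.induct hcs.symm hss hcl
    have h2 := Conn.induct (hcs.symm.trans hc) hss hcl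
    exact Conn.trans (Conn.symm h1) h2

open Classical in
theorem tauW_deriv {q ρ : ℝ} (hq : 1 ≤ q) (hρ : 0 < ρ) {n : ℕ} (hn : 1 ≤ n) :
    ∃ d : ℝ, HasDerivAt (fun ρ => tauW q ρ n) d ρ ∧
      (n : ℝ) * (tauW q ρ n * (1 - tauW q ρ n)) ≤
        10 * (∑ j ∈ Finset.range n, tauW q ρ j) * (ρ * d) := by
  have hq0 : 0 < q := by linarith
  set D := box (2 * n + 1) with hD
  set R := ring (2 * n) with hR
  set E := edges D \ R with hE
  set E' := edges (box n) with hE'
  have hRD : R ⊆ edges D := by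
    rw [hR, hD]
    exact Finset.sdiff_subset
  have hRE' : Disjoint R E' := disj49 (by omega)
  have hE'E : E' ⊆ E := by
    intro e he
    rw [hE, Finset.mem_sdiff]
    refine ⟨edges_mono (box_mono49 (by omega)) he, fun h => ?_⟩
    exact (Finset.disjoint_left.1 hRE') h he
  set w : Finset Edge → ℝ := fun ω => q ^ ncl D (ω ∪ R) with hw
  have hwpos : ∀ ω, ω ⊆ E → 0 < w ω := fun ω _ => pow_pos hq0 _
  have hdisj : ∀ ω, ω ⊆ E → Disjoint ω R := by
    intro ω hω
    rw [Finset.disjoint_left]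
    intro e h1 h2
    exact (Finset.mem_sdiff.1 (hω h1)).2 h2
  -- the weights
  have hwt : ∀ ρ' : ℝ, ∀ ω, ω ⊆ E →
      wt q (hom ρ') D (ω ∪ R) = ρ' ^ R.card * (ρ' ^ ω.card * w ω) := by
    intro ρ' ω hω
    unfold wt hom
    rw [Finset.prod_const, Finset.card_union_of_disjoint (hdisj ω hω), pow_add]
    simp only [hw]
    ring
  have hprW : ∀ ρ' : ℝ, 0 < ρ' → ∀ A : Finset Edge → Prop,
      prW q (hom ρ') D R A =
        av E (fun ω => ρ' ^ ω.card * w ω) (fun ω => if A (ω ∪ R) then 1 else 0) := by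
    intro ρ' hρ' A
    have hpos : ∀ e, 0 < hom ρ' e := fun e => hρ'
    rw [prW_eq_av hq0 hpos hRD, av_congr_mu49 (hwt ρ'), av_scale49 (pow_pos hρ' _).ne']
  -- the function
  set f : Finset Edge → ℝ := fun ω => if Arm n (0, 0) (ω ∪ R) then 1 else 0 with hf
  have hinter : ∀ ω : Finset Edge, (ω ∪ R) ∩ E' = ω ∩ E' := by
    intro ω
    rw [Finset.union_inter_distrib_right, Finset.disjoint_iff_inter_eq_empty.1 hRE',
      Finset.union_empty]
  have harm : ∀ ω : Finset Edge, Arm n (0, 0) (ω ∪ R) ↔ Arm n (0, 0) ω := by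
    intro ω
    rw [arm_iff49, arm_iff49, ← hE', hinter]
  have hfI : Inc E f := by
    intro a b hab _
    simp only [hf]
    by_cases h1 : Arm n (0, 0) (a ∪ R)
    · rw [if_pos h1, if_pos (arm_incr n (0, 0) _ _ (Finset.union_subset_union_left hab) h1)]
    · rw [if_neg h1]
      split_ifs <;> norm_num
  have hf01 : ∀ ω, ω ⊆ E → 0 ≤ f ω ∧ f ω ≤ 1 := by
    intro ω _
    simp only [hf]
    split_ifs <;> norm_num
  have hτ : ∀ ρ' : ℝ, 0 < ρ' → tauW q ρ' n = av E (fun ω => ρ' ^ ω.card * w ω) f := by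
    intro ρ' hρ'
    unfold tauW
    exact hprW ρ' hρ' _
  set μ : Finset Edge → ℝ := fun ω => ρ ^ ω.card * w ω with hμ
  have hgood : Good E μ := by
    have hpos : ∀ e, 0 < hom ρ e := fun e => hρ
    have h1 := good_wired hq hpos hRD
    have hc : 0 < ρ ^ R.card := pow_pos hρ _
    refine ⟨fun ω hω => mul_pos (pow_pos hρ _) (hwpos ω hω), fun a b ha hb => ?_⟩
    have h2 := h1.lsm a b ha hb
    rw [hwt ρ a ha, hwt ρ b hb, hwt ρ (a ∪ b) (Finset.union_subset ha hb),
      hwt ρ (a ∩ b) (Finset.inter_subset_left.trans ha)] at h2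
    have h3 : (ρ ^ R.card * ρ ^ R.card) * (μ a * μ b) ≤
        (ρ ^ R.card * ρ ^ R.card) * (μ (a ∪ b) * μ (a ∩ b)) := by
      simp only [hμ]
      linarith
    exact le_of_mul_le_mul_left h3 (mul_pos hc hc)
  have hder := hasDerivAt_av E w hwpos f hρ
  refine ⟨ρ⁻¹ * ∑ e ∈ E, cov E μ f (op e), ?_, ?_⟩
  · refine hder.congr_of_eventuallyEq ?_
    filter_upwards [lt_mem_nhds hρ] with ρ' hρ'
    exact hτ ρ' hρ'
  · have hρd : ρ * (ρ⁻¹ * ∑ e ∈ E, cov E μ f (op e)) = ∑ e ∈ E, cov E μ f (op e) := by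
      field_simp
    rw [hρd]
    set S := ∑ j ∈ Finset.range n, tauW q ρ j with hS
    have hS0 : 0 ≤ S := Finset.sum_nonneg fun j _ => tauW_nonneg hq hρ j
    have hcov0 : ∀ e, 0 ≤ cov E μ f (op e) := by
      intro e
      unfold cov
      have := av_fkg hgood hfI (op_inc (E := E) e)
      linarith
    have hff : cov E μ f f = tauW q ρ n * (1 - tauW q ρ n) := by
      unfold cov
      have h1 : av E μ (fun ω => f ω * f ω) = av E μ f := by
        refine av_congr fun ω _ => ?_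
        simp only [hf]
        split_ifs <;> norm_num
      rw [h1, hτ ρ hρ]
      ring
    rw [← hff]
    -- one tree for each `k`
    have htree : ∀ k ∈ Finset.Icc 1 n, ∃ v : Edge → ℝ, cov E μ f f ≤ ∑ e ∈ E, v e * cov E μ f (op e) ∧
        (∀ e ∈ E, e ∉ E' → v e = 0) ∧ ∀ e ∈ E', v e ≤
          prW q (hom ρ) D R (fun ω => ∃ s ∈ sph k, Conn (ω ∩ E') s e.1) +
            prW q (hom ρ) D R (fun ω => ∃ s ∈ sph k, Conn (ω ∩ E') s (tip e)) := by
      intro k hk
      obtain ⟨hk1, hkn⟩ := Finset.mem_Icc.1 hk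
      obtain ⟨T, hT, hvis⟩ := exists_tree E E' hE'E (sph k) f (by
        intro ω ω' _ _ h
        simp only [hf]
        rw [harm, harm, det49 hk1 hkn h])
      refine ⟨fun e => av E μ (fun ω => if e ∈ T.vis ω then 1 else 0),
        osss hgood hf01 hfI T hT, ?_, ?_⟩
      · intro e _ he'
        have h1 : av E μ (fun ω => if e ∈ T.vis ω then (1 : ℝ) else 0) = av E μ (fun _ => (0 : ℝ)) := by
          refine av_congr fun ω hω => ?_
          rw [if_neg]
          intro h2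
          exact he' (hvis ω hω e h2).1
        exact h1.trans (av_const hgood 0)
      · intro e he
        rw [hprW ρ hρ, hprW ρ hρ, ← av_add]
        refine av_le hgood fun ω hω => ?_
        simp only [hinter]
        by_cases h1 : e ∈ T.vis ω
        · obtain ⟨_, s, hs, h2⟩ := hvis ω hω e h1
          rw [if_pos h1]
          rcases h2 with h2 | h2
          · rw [if_pos (⟨s, hs, h2⟩ : ∃ s ∈ sph k, Conn (ω ∩ E') s e.1)]
            split_ifs <;> norm_num
          · rw [if_pos (⟨s, hs, h2⟩ : ∃ s ∈ sph k, Conn (ω ∩ E') s (tip e))]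
            split_ifs <;> norm_num
        · rw [if_neg h1]
          split_ifs <;> norm_num
    choose! v hv1 hv2 hv3 using htree
    have h1 : (n : ℝ) * cov E μ f f ≤ ∑ k ∈ Finset.Icc 1 n, ∑ e ∈ E, v k e * cov E μ f (op e) := by
      have h2 : (n : ℝ) * cov E μ f f = ∑ k ∈ Finset.Icc 1 n, cov E μ f f := by
        rw [Finset.sum_const, Nat.card_Icc, nsmul_eq_mul]
        simp
      rw [h2]
      exact Finset.sum_le_sum hv1
    refine h1.trans ?_
    rw [Finset.sum_comm, Finset.mul_sum]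
    refine Finset.sum_le_sum fun e he => ?_
    rw [← Finset.sum_mul]
    refine mul_le_mul_of_nonneg_right ?_ (hcov0 e)
    by_cases he' : e ∈ E'
    · have h3 : ∑ k ∈ Finset.Icc 1 n, v k e ≤ ∑ k ∈ Finset.Icc 1 n,
          (prW q (hom ρ) D R (fun ω => ∃ s ∈ sph k, Conn (ω ∩ E') s e.1) +
            prW q (hom ρ) D R (fun ω => ∃ s ∈ sph k, Conn (ω ∩ E') s (tip e))) :=
        Finset.sum_le_sum fun k hk => hv3 k hk e he'
      rw [Finset.sum_add_distrib] at h3
      have h4 := mem_edges.1 he'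
      have h5 := reveal hq hρ hn h4.1
      have h6 := reveal hq hρ hn h4.2
      simp only [← hD, ← hR, ← hE', ← hS] at h5 h6
      linarith
    · rw [Finset.sum_eq_zero fun k hk => hv2 k hk e he he']
      linarith

end Pool.Helper71.XD
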