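import Pool.Agent.Helper71.XD.PM

/-! Project XD.  Block XD-18: see the header of `PM.lean` (`piv_false`). -/

namespace Pool.Helper71.XD

open Pool.Helper49.FK

variable {q ρ ρ₁ ρ₂ : ℝ}

private theorem Fb_anti (N : ℕ) {a b : Finset Edge} (h : a ⊆ b) : Fb N b ≤ Fb N a := by
  unfold Fb
  exact_mod_cast nc_anti (sph N) (Finset.inter_subset_inter h (Finset.Subset.refl _))

private theorem Fb_le (N : ℕ) (ω : Finset Edge) : Fb N ω ≤ 8 * N + 1 := by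
  unfold Fb
  exact_mod_cast (nc_le (sph N) _).trans (sph_card N)

private theorem Fb_nonneg (N : ℕ) (ω : Finset Edge) : 0 ≤ Fb N ω := by
  unfold Fb
  exact Nat.cast_nonneg _

private theorem wt_eq (D : Finset (ℤ × ℤ)) (ρ : ℝ) :
    wt q (hom ρ) D = fun ω => ρ ^ ω.card * q ^ ncl D ω := by
  funext ω
  unfold wt hom
  rw [Finset.prod_const]

private theorem en1 (hq : 1 ≤ q) (h1 : 0 < ρ₁) (hρ : ρ₁ ≤ ρ) {D : Finset (ℤ × ℤ)} {e : Edge}
    (he : e ∈ edges D) {ω : Finset Edge} (heω : e ∉ ω) :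
    ρ₁ / q * wt q (hom ρ) D ω ≤ wt q (hom ρ) D (insert e ω) := by
  have hq0 : 0 < q := by linarith
  have hρ0 : 0 < ρ := h1.trans_le hρ
  rw [wt_eq]
  show ρ₁ / q * (ρ ^ ω.card * q ^ ncl D ω) ≤ ρ ^ (insert e ω).card * q ^ ncl D (insert e ω)
  rw [Finset.card_insert_of_notMem heω, pow_succ]
  have h2 : ncl D ω ≤ ncl D (insert e ω) + 1 := by
    by_cases hc : Conn ω e.1 (tip e)
    · rw [ncl_insert_of_conn hc]; omega
    · rw [ncl_insert_of_not_conn he hc]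
  have h3 : q ^ ncl D ω ≤ q ^ ncl D (insert e ω) * q := by
    rw [← pow_succ]
    exact pow_le_pow_right₀ hq h2
  have h4 : ρ₁ / q * (ρ ^ ω.card * q ^ ncl D ω) ≤ ρ / q * (ρ ^ ω.card * (q ^ ncl D (insert e ω) * q)) := by
    gcongr
  refine h4.trans (le_of_eq ?_)
  field_simp

private theorem en2 (hq : 1 ≤ q) (h1 : 0 < ρ) (hρ : ρ ≤ ρ₂) {D : Finset (ℤ × ℤ)} {e : Edge}
    (he : e ∈ edges D) {ω : Finset Edge} (heω : e ∉ ω) :
    ρ₂⁻¹ * wt q (hom ρ) D (insert e ω) ≤ wt q (hom ρ) D ω := by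
  have hq0 : 0 < q := by linarith
  have hρ2 : 0 < ρ₂ := h1.trans_le hρ
  rw [wt_eq]
  show ρ₂⁻¹ * (ρ ^ (insert e ω).card * q ^ ncl D (insert e ω)) ≤ ρ ^ ω.card * q ^ ncl D ω
  rw [Finset.card_insert_of_notMem heω, pow_succ]
  have h2 : ncl D (insert e ω) ≤ ncl D ω := by
    by_cases hc : Conn ω e.1 (tip e)
    · rw [ncl_insert_of_conn hc]
    · rw [← ncl_insert_of_not_conn he hc]; omega
  have h3 : q ^ ncl D (insert e ω) ≤ q ^ ncl D ω := pow_le_pow_right₀ hq h2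
  have h4 : ρ₂⁻¹ * ρ ≤ 1 := by
    rw [← div_eq_inv_mul, div_le_one hρ2]; exact hρ
  calc ρ₂⁻¹ * (ρ ^ ω.card * ρ * q ^ ncl D (insert e ω))
      = (ρ₂⁻¹ * ρ) * (ρ ^ ω.card * q ^ ncl D (insert e ω)) := by ring
    _ ≤ 1 * (ρ ^ ω.card * q ^ ncl D ω) := by gcongr
    _ = _ := one_mul _

private theorem mem_box18 {N : ℕ} {y : ℤ × ℤ} :
    y ∈ box N ↔ (-(N : ℤ) ≤ y.1 ∧ y.1 ≤ N) ∧ (-(N : ℤ) ≤ y.2 ∧ y.2 ≤ N) := by
  unfold box
  rw [Finset.mem_product, Finset.mem_Icc, Finset.mem_Icc]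

private theorem mem_bx18 {z y : ℤ × ℤ} {n : ℕ} :
    y ∈ bx z n ↔ (z.1 - n ≤ y.1 ∧ y.1 ≤ z.1 + n) ∧ (z.2 - n ≤ y.2 ∧ y.2 ≤ z.2 + n) := by
  unfold bx
  rw [Finset.mem_product, Finset.mem_Icc, Finset.mem_Icc]

private theorem card_edges_bx (z : ℤ × ℤ) (K : ℕ) : (edges (bx z K)).card ≤ 2 * (2 * K + 1) ^ 2 := by
  have h1 : (edges (bx z K)).card ≤ (bx z K ×ˢ (Finset.univ : Finset Bool)).card :=
    Finset.card_le_card (Finset.filter_subset _ _)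
  refine h1.trans ?_
  rw [Finset.card_product]
  unfold bx
  rw [Finset.card_product, Int.card_Icc, Int.card_Icc]
  have h2 : (z.1 + K + 1 - (z.1 - K)).toNat = 2 * K + 1 := by omega
  have h3 : (z.2 + K + 1 - (z.2 - K)).toNat = 2 * K + 1 := by omega
  rw [h2, h3]
  have h4 : (Finset.univ : Finset Bool).card = 2 := by decide
  rw [h4]
  ring_nf
  exact le_rfl

/-- The centres. -/
private def ctr (K : ℕ) (p : ℤ × ℤ) : ℤ × ℤ := ((2 * K + 1) * p.1, (2 * K + 1) * p.2)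

private theorem ctr_mem (K t : ℕ) {p : ℤ × ℤ}
    (hp : p ∈ Finset.Icc (-(t : ℤ)) t ×ˢ Finset.Icc (-(t : ℤ)) t) :
    ctr K p ∈ box (K + (2 * K + 1) * t - K) := by
  rw [Finset.mem_product, Finset.mem_Icc, Finset.mem_Icc] at hp
  rw [mem_box18]
  have h1 : ((K + (2 * K + 1) * t - K : ℕ) : ℤ) = (2 * K + 1) * t := by
    have : K + (2 * K + 1) * t - K = (2 * K + 1) * t := by omega
    rw [this]; push_cast; ring
  rw [h1]
  unfold ctr
  obtain ⟨⟨h2, h3⟩, h4, h5⟩ := hp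
  have hK : (0 : ℤ) ≤ 2 * K + 1 := by positivity
  refine ⟨⟨?_, ?_⟩, ?_, ?_⟩
  · show -((2 * (K : ℤ) + 1) * t) ≤ (2 * K + 1) * p.1
    nlinarith
  · show (2 * (K : ℤ) + 1) * p.1 ≤ (2 * K + 1) * t
    nlinarith
  · show -((2 * (K : ℤ) + 1) * t) ≤ (2 * K + 1) * p.2
    nlinarith
  · show (2 * (K : ℤ) + 1) * p.2 ≤ (2 * K + 1) * t
    nlinarith

private theorem ctr_disj (K : ℕ) {p p' : ℤ × ℤ} (h : p ≠ p') :
    Disjoint (edges (bx (ctr K p) K)) (edges (bx (ctr K p') K)) := by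
  rw [Finset.disjoint_left]
  intro e h1 h2
  rw [mem_edges] at h1 h2
  have h3 := h1.1
  have h4 := h2.1
  rw [mem_bx18] at h3 h4
  unfold ctr at h3 h4
  simp only at h3 h4
  apply h
  have key : ∀ i j x : ℤ, (2 * (K : ℤ) + 1) * i - K ≤ x → x ≤ (2 * K + 1) * i + K →
      (2 * (K : ℤ) + 1) * j - K ≤ x → x ≤ (2 * K + 1) * j + K → i = j := by
    intro i j x a1 a2 a3 a4
    by_contra hne
    rcases lt_or_gt_of_ne hne with h5 | h5
    · have h6 : i + 1 ≤ j := h5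
      have hK : (0 : ℤ) ≤ 2 * K + 1 := by positivity
      have h7 : (2 * (K : ℤ) + 1) * (i + 1) ≤ (2 * K + 1) * j := mul_le_mul_of_nonneg_left h6 hK
      nlinarith
    · have h6 : j + 1 ≤ i := h5
      have hK : (0 : ℤ) ≤ 2 * K + 1 := by positivity
      have h7 : (2 * (K : ℤ) + 1) * (j + 1) ≤ (2 * K + 1) * i := mul_le_mul_of_nonneg_left h6 hK
      nlinarith
  exact Prod.ext (key _ _ _ h3.1.1 h3.1.2 h4.1.1 h4.1.2) (key _ _ _ h3.2.1 h3.2.2 h4.2.1 h4.2.2)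

open Classical in
private theorem main_ineq (hq : 1 ≤ q) (h₁ : 0 < ρ₁) (hρ₁ : ρ₁ ≤ ρ) (hρ₂ : ρ ≤ ρ₂) {K t M : ℕ}
    (hM : K + (2 * K + 1) * t ≤ M)
    (h : ∀ z ∈ box (K + (2 * K + 1) * t),
      1 / 4 ≤ pr q (hom ρ) (box M) (Two K (2 * (K + (2 * K + 1) * t)) z)) :
    ρ₁ / q * (ρ₂⁻¹ / (1 + ρ₂⁻¹)) * (2 * (t : ℝ) + 1) ^ 2 ≤
      4 * (1 + (ρ₁ / q)⁻¹) ^ (2 * (2 * K + 1) ^ 2) * ∑ e ∈ edges (box M),
        -cov (edges (box M)) (wt q (hom ρ) (box M)) (Fb (K + (2 * K + 1) * t)) (op e) := by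
  set N := K + (2 * K + 1) * t with hN
  set E := edges (box M) with hE
  set μ := wt q (hom ρ) (box M) with hμ
  have hq0 : 0 < q := by linarith
  have hρ : 0 < ρ := h₁.trans_le hρ₁
  have hρ2 : 0 < ρ₂ := hρ.trans_le hρ₂
  have hG : Good E μ := good_wt hq (fun e => hρ)
  have hc1 : 0 < ρ₁ / q := by positivity
  have hc2 : 0 < ρ₂⁻¹ := by positivity
  have hanti : ∀ a b : Finset Edge, a ⊆ b → b ⊆ E → Fb N b ≤ Fb N a := fun a b hab _ => Fb_anti N hab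
  set Dv : Edge → ℝ := fun e => av E μ (fun ω => Fb N ω - Fb N (insert e ω)) with hDv
  have hD0 : ∀ e, 0 ≤ Dv e := by
    intro e
    have h5 : av E μ (fun _ => (0 : ℝ)) ≤ Dv e := by
      refine av_le hG fun ω hω => ?_
      have := Fb_anti N (Finset.subset_insert e ω)
      linarith
    rwa [av_const hG] at h5
  have hKN : K ≤ N := by omega
  have hboxNM : box N ⊆ box M := by
    intro y hy
    rw [mem_box18] at hy ⊢
    omega
  set P := (1 + (ρ₁ / q)⁻¹) ^ (2 * (2 * K + 1) ^ 2) with hP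
  have hC1 : 1 ≤ 1 + (ρ₁ / q)⁻¹ := by
    have : 0 < (ρ₁ / q)⁻¹ := by positivity
    linarith
  have hP0 : 0 < P := by positivity
  set I := Finset.Icc (-(t : ℤ)) t ×ˢ Finset.Icc (-(t : ℤ)) t with hI
  have hcardI : (I.card : ℝ) = (2 * (t : ℝ) + 1) ^ 2 := by
    rw [hI, Finset.card_product, Int.card_Icc]
    have h2 : ((t : ℤ) + 1 - -(t : ℤ)).toNat = 2 * t + 1 := by omega
    rw [h2]
    push_cast
    ring
  -- one centre
  have hone : ∀ p ∈ I, 1 / 4 ≤ P * ∑ e ∈ edges (bx (ctr K p) K), Dv e := by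
    intro p hp
    have hz := ctr_mem K t hp
    rw [← hN] at hz
    have hzN : ctr K p ∈ box N := by
      rw [mem_box18] at hz ⊢
      have : ((N - K : ℕ) : ℤ) ≤ N := by omega
      omega
    have hsub : edges (bx (ctr K p) K) ⊆ E := by
      refine edges_mono (Finset.Subset.trans ?_ hboxNM)
      intro y hy
      rw [mem_bx18] at hy
      rw [mem_box18] at hz ⊢
      have : ((N - K : ℕ) : ℤ) = (N : ℤ) - K := by omega
      omega
    have h2 := h (ctr K p) hzN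
    have h3 : pr q (hom ρ) (box M) (Two K (2 * N) (ctr K p)) ≤
        av E μ (fun ω => Fb N ω - Fb N (ω ∪ edges (bx (ctr K p) K))) := by
      unfold pr
      rw [ex_eq_av]
      refine av_le hG fun ω hω => ?_
      split_ifs with h4
      · have := two_drop hKN hz h4
        linarith
      · have := Fb_anti N (Finset.subset_union_left (s₁ := ω) (s₂ := edges (bx (ctr K p) K)))
        linarith
    have h4 := av_union_le hG hanti hc1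
      (fun e he ω hω heω => en1 hq h₁ hρ₁ he heω) (edges (bx (ctr K p) K)) hsub
    have h5 : (1 + (ρ₁ / q)⁻¹) ^ (edges (bx (ctr K p) K)).card ≤ P :=
      pow_le_pow_right₀ hC1 (card_edges_bx _ _)
    have h6 : 0 ≤ ∑ e ∈ edges (bx (ctr K p) K), Dv e := Finset.sum_nonneg fun e _ => hD0 e
    calc (1 : ℝ) / 4 ≤ _ := h2
      _ ≤ _ := h3
      _ ≤ _ := h4
      _ ≤ P * ∑ e ∈ edges (bx (ctr K p) K), Dv e := mul_le_mul_of_nonneg_right h5 h6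
  have hsum : (I.card : ℝ) * (1 / 4) ≤ P * ∑ e ∈ E, Dv e := by
    have h2 : (I.card : ℝ) * (1 / 4) ≤ ∑ p ∈ I, P * ∑ e ∈ edges (bx (ctr K p) K), Dv e := by
      rw [← nsmul_eq_mul]
      exact Finset.card_nsmul_le_sum I _ _ hone
    refine h2.trans ?_
    rw [← Finset.mul_sum]
    refine mul_le_mul_of_nonneg_left ?_ hP0.le
    rw [← Finset.sum_biUnion]
    · refine Finset.sum_le_sum_of_subset_of_nonneg ?_ fun e _ _ => hD0 e
      intro e he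
      rw [Finset.mem_biUnion] at he
      obtain ⟨p, hp, he⟩ := he
      have hz := ctr_mem K t hp
      rw [← hN] at hz
      refine edges_mono (Finset.Subset.trans ?_ hboxNM) he
      intro y hy
      rw [mem_bx18] at hy
      rw [mem_box18] at hz ⊢
      have : ((N - K : ℕ) : ℤ) = (N : ℤ) - K := by omega
      omega
    · intro p _ p' _ hpp
      exact ctr_disj K hpp
  have hcov : ρ₁ / q * (ρ₂⁻¹ / (1 + ρ₂⁻¹)) * ∑ e ∈ E, Dv e ≤ ∑ e ∈ E, -cov E μ (Fb N) (op e) := by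
    rw [Finset.mul_sum]
    refine Finset.sum_le_sum fun e he => ?_
    exact cov_piv hG hanti he hc1 (fun ω hω heω => en1 hq h₁ hρ₁ he heω) hc2
      (fun ω hω heω => en2 hq hρ hρ₂ he heω)
  have hcc : 0 < ρ₁ / q * (ρ₂⁻¹ / (1 + ρ₂⁻¹)) := by positivity
  rw [hcardI] at hsum
  calc ρ₁ / q * (ρ₂⁻¹ / (1 + ρ₂⁻¹)) * (2 * (t : ℝ) + 1) ^ 2
      = 4 * (ρ₁ / q * (ρ₂⁻¹ / (1 + ρ₂⁻¹))) * ((2 * (t : ℝ) + 1) ^ 2 * (1 / 4)) := by ring
    _ ≤ 4 * (ρ₁ / q * (ρ₂⁻¹ / (1 + ρ₂⁻¹))) * (P * ∑ e ∈ E, Dv e) :=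
        mul_le_mul_of_nonneg_left hsum (by positivity)
    _ = 4 * P * (ρ₁ / q * (ρ₂⁻¹ / (1 + ρ₂⁻¹)) * ∑ e ∈ E, Dv e) := by ring
    _ ≤ 4 * P * ∑ e ∈ E, -cov E μ (Fb N) (op e) := mul_le_mul_of_nonneg_left hcov (by positivity)

theorem piv_false {q ρ₁ ρ₂ : ℝ} (hq : 1 ≤ q) (h₁ : 0 < ρ₁) (h₁₂ : ρ₁ < ρ₂) {K : ℕ}
    (h : ∀ N : ℕ, K ≤ N → ∃ M : ℕ, N ≤ M ∧ ∀ ρ, ρ₁ ≤ ρ → ρ ≤ ρ₂ → ∀ z ∈ box N,
      1 / 4 ≤ pr q (hom ρ) (box M) (Two K (2 * N) z)) : False := by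
  have hq0 : 0 < q := by linarith
  have hρ2 : 0 < ρ₂ := h₁.trans h₁₂
  set P := (1 + (ρ₁ / q)⁻¹) ^ (2 * (2 * K + 1) ^ 2) with hP
  have hP0 : 0 < P := by positivity
  set c := ρ₁ / q * (ρ₂⁻¹ / (1 + ρ₂⁻¹)) with hc
  have hc0 : 0 < c := by positivity
  set κ := c / (4 * P) * ρ₂⁻¹ * (ρ₂ - ρ₁) with hκ
  have hκ0 : 0 < κ := by
    have : 0 < ρ₂ - ρ₁ := by linarith
    positivity
  obtain ⟨t, ht⟩ := exists_nat_gt ((8 * K + 8 * (2 * K + 1) + 1 : ℝ) / κ)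
  obtain ⟨M, hM, hh⟩ := h (K + (2 * K + 1) * t) (by omega)
  set N := K + (2 * K + 1) * t with hN
  set E := edges (box M) with hE
  set w : Finset Edge → ℝ := fun ω => q ^ ncl (box M) ω with hw
  have hwpos : ∀ ω, ω ⊆ E → 0 < w ω := fun ω _ => by
    show 0 < q ^ ncl (box M) ω
    positivity
  set G : ℝ → ℝ := fun ρ => av E (fun ω => ρ ^ ω.card * w ω) (Fb N) with hGdef
  set G' : ℝ → ℝ := fun ρ => ρ⁻¹ * ∑ e ∈ E, cov E (fun ω => ρ ^ ω.card * w ω) (Fb N) (op e) with hG'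
  have hder : ∀ ρ, 0 < ρ → HasDerivAt G (G' ρ) ρ := fun ρ hρ => hasDerivAt_av E w hwpos (Fb N) hρ
  obtain ⟨x, hx, hx'⟩ := exists_hasDerivAt_eq_slope G G' h₁₂
    (fun y hy => (hder y (h₁.trans_le hy.1)).continuousAt.continuousWithinAt)
    (fun y hy => hder y (h₁.trans hy.1))
  have hx0 : 0 < x := h₁.trans hx.1
  have key := main_ineq hq h₁ hx.1.le hx.2.le hM (hh x hx.1.le hx.2.le)
  have hwt : wt q (hom x) (box M) = fun ω => x ^ ω.card * w ω := wt_eq (box M) x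
  rw [hwt] at key
  have hs : ∑ e ∈ E, -cov E (fun ω => x ^ ω.card * w ω) (Fb N) (op e) = -(x * G' x) := by
    rw [Finset.sum_neg_distrib, hG']
    show _ = -(x * (x⁻¹ * _))
    rw [← mul_assoc, mul_inv_cancel₀ hx0.ne', one_mul]
  rw [hs] at key
  have hbnd : ∀ ρ, 0 < ρ → 0 ≤ G ρ ∧ G ρ ≤ 8 * N + 1 := by
    intro ρ hρ
    have hgood : Good E (fun ω => ρ ^ ω.card * w ω) := by
      have := good_wt (q := q) (r := hom ρ) (D := box M) hq (fun e => hρ)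
      rwa [wt_eq] at this
    constructor
    · have h5 : av E (fun ω => ρ ^ ω.card * w ω) (fun _ => (0 : ℝ)) ≤ G ρ :=
        av_le hgood fun ω _ => Fb_nonneg N ω
      rwa [av_const hgood] at h5
    · have h5 : G ρ ≤ av E (fun ω => ρ ^ ω.card * w ω) (fun _ => (8 * N + 1 : ℝ)) :=
        av_le hgood fun ω _ => Fb_le N ω
      rwa [av_const hgood] at h5
  have hb1 := (hbnd ρ₁ h₁).2
  have hb2 := (hbnd ρ₂ hρ2).1
  have hd : 0 < ρ₂ - ρ₁ := by linarith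
  rw [eq_div_iff hd.ne'] at hx'
  -- G' x * (ρ₂ - ρ₁) = G ρ₂ - G ρ₁ ≥ -(8 N + 1)
  have h6 : -(8 * (N : ℝ) + 1) ≤ G' x * (ρ₂ - ρ₁) := by linarith
  have h7 : c * (2 * (t : ℝ) + 1) ^ 2 ≤ 4 * P * (-(x * G' x)) := key
  have h8 : 0 ≤ -(x * G' x) := by
    by_contra hcon
    push Not at hcon
    have : 0 ≤ c * (2 * (t : ℝ) + 1) ^ 2 := by positivity
    nlinarith
  have h9 : -(x * G' x) ≤ ρ₂ * (-G' x) := by
    have h10 : 0 ≤ -G' x := by
      have : 0 ≤ x * (-G' x) := by linarith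
      exact nonneg_of_mul_nonneg_right this hx0
    nlinarith [hx.2]
  have h10 : c * (2 * (t : ℝ) + 1) ^ 2 * (ρ₂ - ρ₁) ≤ 4 * P * ρ₂ * (8 * N + 1) := by
    have h11 : c * (2 * (t : ℝ) + 1) ^ 2 ≤ 4 * P * (ρ₂ * (-G' x)) :=
      h7.trans (mul_le_mul_of_nonneg_left h9 (by positivity))
    have h12 : c * (2 * (t : ℝ) + 1) ^ 2 * (ρ₂ - ρ₁) ≤ 4 * P * (ρ₂ * (-G' x)) * (ρ₂ - ρ₁) :=
      mul_le_mul_of_nonneg_right h11 hd.le
    have h13 : 4 * P * (ρ₂ * (-G' x)) * (ρ₂ - ρ₁) = 4 * P * ρ₂ * (-(G' x * (ρ₂ - ρ₁))) := by ring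
    rw [h13] at h12
    refine h12.trans (mul_le_mul_of_nonneg_left (by linarith) (by positivity))
  have h14 : κ * (2 * (t : ℝ) + 1) ^ 2 ≤ 8 * N + 1 := by
    have h15 : κ * (2 * (t : ℝ) + 1) ^ 2 = (c * (2 * (t : ℝ) + 1) ^ 2 * (ρ₂ - ρ₁)) / (4 * P * ρ₂) := by
      rw [hκ]
      field_simp
    rw [h15, div_le_iff₀ (by positivity)]
    linarith
  have h16 : (8 * (N : ℝ) + 1) ≤ (8 * K + 8 * (2 * K + 1) + 1) * (2 * t + 1) := by
    rw [hN]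
    push_cast
    have hK : (0 : ℝ) ≤ K := Nat.cast_nonneg K
    have ht0 : (0 : ℝ) ≤ t := Nat.cast_nonneg t
    nlinarith [mul_nonneg hK ht0]
  have h17 : κ * (2 * (t : ℝ) + 1) ≤ 8 * K + 8 * (2 * K + 1) + 1 := by
    have h18 : κ * (2 * (t : ℝ) + 1) * (2 * t + 1) ≤ (8 * K + 8 * (2 * K + 1) + 1) * (2 * t + 1) := by
      nlinarith
    exact le_of_mul_le_mul_right h18 (by positivity)
  rw [div_lt_iff₀ hκ0] at ht
  have ht0 : (0 : ℝ) ≤ t := Nat.cast_nonneg t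
  nlinarith

end Pool.Helper71.XD
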