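import Pool.Agent.Helper71.XD.Dens

/-!
Project XD.  Block XD-9b: the wired measure at `ρ` is dominated by the free measure at every `ρ' > ρ`.

PROOF.  Let `δ > 0` be small.  The function `a = a0 q · true + a0 q · false` is monotone with values in `[0, 2]`; so there
are `ρ < ρ₁ < ρ₂ < ρ'` with `a ρ₂ - a ρ₁ ≤ δ` (take `n > 2 / δ` disjoint intervals in `(ρ, ρ')`).  By `a1_le_a0`
`a1 ρ₁ true + a1 ρ₁ false ≤ a ρ₂ ≤ a ρ₁ + δ`, and `a0 ρ₁ b ≤ a1 ρ₁ b`, so `a1 ρ₁ b ≤ a0 ρ₁ b + δ` for both `b`.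
By `a0_lim`, `a1_lim` (finitely many edges) there are `M ≤ N`, `m ≤ N`, such that at `ρ₁` for all `e ∈ edges (box m)`
`prW (box (N + 1)) (ring N) (e ∈ ω) ≤ pr (box M) (e ∈ ω) + 3 δ`.
The function `g ω = ∑ e ∈ edges (box m), 1 (e ∈ ω) - 1 (A ω)` is `Mono`: if `ω ⊆ ω'` and no edge of `edges (box m)` is added then
`A ω ↔ A ω'` (`hd`), otherwise the sum increases by at least `1`.  By `ex_mono_D` and `ex_le_exW`
`ex (box M) g ≤ ex (box (N + 1)) g ≤ exW (box (N + 1)) (ring N) g`, hence at `ρ₁`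
`prW_N A - pr_M A ≤ ∑ e ∈ edges (box m), (prW_N e - pr_M e) ≤ 3 δ * |edges (box m)| ≤ ε`.
Finally `prW_N A` at `ρ` is at most `prW_N A` at `ρ₁` (`prW_mono`) and `pr_M A` at `ρ₁` is at most `pr_M A` at `ρ'`
(`pr_mono_r`).
-/

namespace Pool.Helper71.XD

open Pool.Helper49.FK

private theorem pigeon34 {a : ℝ → ℝ} {x y δ : ℝ} (hxy : x < y) (h0 : ∀ t, x < t → 0 ≤ a t)
    (h2 : ∀ t, x < t → a t ≤ 2) (hδ : 0 < δ) :
    ∃ s t, x < s ∧ s < t ∧ t < y ∧ a t - a s ≤ δ := by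
  by_contra hc
  push Not at hc
  obtain ⟨n, hn⟩ := exists_nat_gt (2 / δ)
  have hd : 0 < y - x := sub_pos.2 hxy
  have hn2 : (0 : ℝ) < (n : ℝ) + 2 := by positivity
  set c : ℝ := (y - x) / ((n : ℝ) + 2) with hcdef
  have hc0 : 0 < c := div_pos hd hn2
  have hcn : c * ((n : ℝ) + 2) = y - x := div_mul_cancel₀ _ hn2.ne'
  have hk : ∀ k : ℕ, k ≤ n → (k : ℝ) * δ ≤ a (x + c * ((k : ℝ) + 1)) := by
    intro k
    induction k with
    | zero =>
      intro _
      have h1 : x < x + c * (((0 : ℕ) : ℝ) + 1) := by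
        have : 0 < c * (((0 : ℕ) : ℝ) + 1) := mul_pos hc0 (by positivity)
        linarith
      have h3 := h0 _ h1
      simpa using h3
    | succ k ih =>
      intro hkn
      have ih' := ih (by omega)
      have h1 : x < x + c * ((k : ℝ) + 1) := by
        have : 0 < c * ((k : ℝ) + 1) := mul_pos hc0 (by positivity)
        linarith
      have h3 : x + c * ((k : ℝ) + 1) < x + c * (((k + 1 : ℕ) : ℝ) + 1) := by
        push_cast
        have e1 : c * ((k : ℝ) + 1 + 1) = c * ((k : ℝ) + 1) + c := by ring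
        linarith
      have h4 : x + c * (((k + 1 : ℕ) : ℝ) + 1) < y := by
        have h5 : ((k + 1 : ℕ) : ℝ) ≤ (n : ℝ) := by exact_mod_cast hkn
        have h6 : c * (((k + 1 : ℕ) : ℝ) + 1) ≤ c * ((n : ℝ) + 1) :=
          mul_le_mul_of_nonneg_left (by linarith) hc0.le
        have e2 : c * ((n : ℝ) + 2) = c * ((n : ℝ) + 1) + c := by ring
        linarith
      have h7 := hc _ _ h1 h3 h4
      have e3 : ((k + 1 : ℕ) : ℝ) * δ = (k : ℝ) * δ + δ := by push_cast; ring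
      linarith
  have h8 := hk n le_rfl
  have h9 : x < x + c * ((n : ℝ) + 1) := by
    have : 0 < c * ((n : ℝ) + 1) := mul_pos hc0 (by positivity)
    linarith
  have h10 := h2 _ h9
  have h11 : 2 < (n : ℝ) * δ := by
    rwa [div_lt_iff₀ hδ] at hn
  linarith

open Classical in
private theorem mono34 {S : Finset Edge} {A : Finset Edge → Prop} (hd : Dep S A) :
    Mono (fun ω => ∑ e ∈ S, (if e ∈ ω then (1 : ℝ) else 0) - (if A ω then 1 else 0)) := by
  intro ω ω' h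
  have h1 : ∀ e ∈ S, (if e ∈ ω then (1 : ℝ) else 0) ≤ (if e ∈ ω' then (1 : ℝ) else 0) := by
    intro e _
    by_cases he : e ∈ ω
    · rw [if_pos he, if_pos (h he)]
    · rw [if_neg he]
      split_ifs <;> norm_num
  have hA1 : (if A ω' then (1 : ℝ) else 0) ≤ 1 := by split_ifs <;> norm_num
  have hA0 : 0 ≤ (if A ω then (1 : ℝ) else 0) := by split_ifs <;> norm_num
  by_cases hc : ∃ e ∈ S, e ∈ ω' ∧ e ∉ ω
  · obtain ⟨e, heS, he', he⟩ := hc
    have h2 : ∑ e ∈ S, (if e ∈ ω then (1 : ℝ) else 0) + 1 ≤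
        ∑ e ∈ S, (if e ∈ ω' then (1 : ℝ) else 0) := by
      rw [← Finset.add_sum_erase S (fun e => if e ∈ ω then (1 : ℝ) else 0) heS,
        ← Finset.add_sum_erase S (fun e => if e ∈ ω' then (1 : ℝ) else 0) heS]
      simp only [if_neg he, if_pos he']
      have h3 : ∑ e ∈ S.erase e, (if e ∈ ω then (1 : ℝ) else 0) ≤
          ∑ e ∈ S.erase e, (if e ∈ ω' then (1 : ℝ) else 0) :=
        Finset.sum_le_sum fun i hi => h1 i (Finset.mem_of_mem_erase hi)
      linarith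
    show ∑ e ∈ S, (if e ∈ ω then (1 : ℝ) else 0) - (if A ω then 1 else 0) ≤
      ∑ e ∈ S, (if e ∈ ω' then (1 : ℝ) else 0) - (if A ω' then 1 else 0)
    linarith
  · push Not at hc
    have h4 : ω ∩ S = ω' ∩ S := by
      ext e
      simp only [Finset.mem_inter]
      constructor
      · rintro ⟨h5, h6⟩
        exact ⟨h h5, h6⟩
      · rintro ⟨h5, h6⟩
        exact ⟨hc e h6 h5, h6⟩
    have h7 : A ω ↔ A ω' := by
      rw [← hd ω, ← hd ω', h4]
    have h8 : ∑ e ∈ S, (if e ∈ ω then (1 : ℝ) else 0) ≤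
        ∑ e ∈ S, (if e ∈ ω' then (1 : ℝ) else 0) := Finset.sum_le_sum h1
    show ∑ e ∈ S, (if e ∈ ω then (1 : ℝ) else 0) - (if A ω then 1 else 0) ≤
      ∑ e ∈ S, (if e ∈ ω' then (1 : ℝ) else 0) - (if A ω' then 1 else 0)
    have h9 : (if A ω then (1 : ℝ) else 0) = (if A ω' then 1 else 0) := by
      by_cases hA : A ω
      · rw [if_pos hA, if_pos (h7.1 hA)]
      · rw [if_neg hA, if_neg (fun h => hA (h7.2 h))]
    linarith

private theorem ex_sub34 {q : ℝ} {r : Edge → ℝ} {D : Finset (ℤ × ℤ)} (f g : Finset Edge → ℝ) :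
    ex q r D (fun ω => f ω - g ω) = ex q r D f - ex q r D g := by
  have h1 : (fun ω => f ω - g ω) = fun ω => f ω + (-1) * g ω := by
    funext ω
    ring
  rw [h1, ex_add, ex_const_mul (-1) (f := g)]
  ring

private theorem box_mono34 {m n : ℕ} (h : m ≤ n) : box m ⊆ box n := by
  intro x hx
  unfold box at hx ⊢
  simp only [Finset.mem_product, Finset.mem_Icc] at hx ⊢
  omega

private theorem unif34 (S : Finset Edge) (P : Edge → ℕ → Prop)
    (h : ∀ e, ∃ N₀ : ℕ, ∀ N, N₀ ≤ N → P e N) : ∃ N₀ : ℕ, ∀ e ∈ S, ∀ N, N₀ ≤ N → P e N := by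
  choose f hf using h
  exact ⟨S.sup f, fun e he N hN => hf e N ((Finset.le_sup he).trans hN)⟩

theorem wired_le_free {q ρ ρ' : ℝ} (hq : 1 ≤ q) (hρ : 0 < ρ) (hρ' : ρ < ρ') {m : ℕ}
    {A : Finset Edge → Prop} (hA : Incr A) (hd : Dep (edges (box m)) A) {ε : ℝ} (hε : 0 < ε) :
    ∃ N M : ℕ, m ≤ N ∧
      prW q (hom ρ) (box (N + 1)) (ring N) A ≤ pr q (hom ρ') (box M) A + ε := by
  classical
  set S := edges (box m) with hS
  set δ : ℝ := ε / (3 * ((S.card : ℝ) + 1)) with hδdef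
  have hc1 : (0 : ℝ) < 3 * ((S.card : ℝ) + 1) := by positivity
  have hδ : 0 < δ := div_pos hε hc1
  have hδc : δ * (3 * ((S.card : ℝ) + 1)) = ε := div_mul_cancel₀ _ hc1.ne'
  obtain ⟨ρ₁, ρ₂, h1, h12, h2, ha⟩ := pigeon34 (a := fun t => a0 q t true + a0 q t false)
    (δ := δ) hρ'
    (fun t ht => add_nonneg (a0_nonneg hq (hρ.trans ht) true) (a0_nonneg hq (hρ.trans ht) false))
    (fun t ht => by
      have e1 := a0_le_one hq (hρ.trans ht) true
      have e2 := a0_le_one hq (hρ.trans ht) false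
      show a0 q t true + a0 q t false ≤ 2
      linarith) hδ
  have ha' : a0 q ρ₂ true + a0 q ρ₂ false - (a0 q ρ₁ true + a0 q ρ₁ false) ≤ δ := ha
  have h01 : 0 < ρ₁ := hρ.trans h1
  have h3 := a1_le_a0 hq h01 h12
  have ht := a0_le_a1 hq h01 true
  have hf := a0_le_a1 hq h01 false
  have hb : ∀ b, a1 q ρ₁ b ≤ a0 q ρ₁ b + δ := by
    intro b
    cases b
    · linarith
    · linarith
  obtain ⟨N₀, hN₀⟩ := unif34 S _ (fun e => a0_lim hq h01 e hδ)
  obtain ⟨N₁, hN₁⟩ := unif34 S _ (fun e => a1_lim hq h01 e hδ)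
  set N := max m (max N₀ N₁) with hN
  have hmN : m ≤ N := le_max_left _ _
  have hN0N : N₀ ≤ N := (le_max_left _ _).trans (le_max_right _ _)
  have hN1N : N₁ ≤ N := (le_max_right _ _).trans (le_max_right _ _)
  refine ⟨N, N, hmN, ?_⟩
  have hq0 : 0 < q := lt_of_lt_of_le one_pos hq
  have hr1 : ∀ e, 0 ≤ hom ρ₁ e := fun e => h01.le
  have hr1' : ∀ e, 0 < hom ρ₁ e := fun e => h01
  have hring : ring N ⊆ edges (box (N + 1)) := by
    unfold ring
    exact Finset.sdiff_subset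
  -- the comparison at ρ₁
  have hg := mono34 hd
  have k1 := ex_mono_D (q := q) (r := hom ρ₁) hq hr1 (box_mono34 (Nat.le_succ N)) hg
  have k2 := ex_le_exW (q := q) (r := hom ρ₁) (D := box (N + 1)) (F := ring N) hq hr1' hring hg
  have k3 := k1.trans k2
  rw [ex_sub34, exW_sub, ex_sum, exW_sum] at k3
  have k4 : exW q (hom ρ₁) (box (N + 1)) (ring N) (fun ω => if A ω then 1 else 0) =
      prW q (hom ρ₁) (box (N + 1)) (ring N) A := exW_ind
  have k5 : ex q (hom ρ₁) (box N) (fun ω => if A ω then 1 else 0) =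
      pr q (hom ρ₁) (box N) A := by
    unfold pr
    congr 1
  have k6 : ∀ e : Edge, exW q (hom ρ₁) (box (N + 1)) (ring N) (fun ω => if e ∈ ω then 1 else 0) =
      prW q (hom ρ₁) (box (N + 1)) (ring N) (fun ω => e ∈ ω) := by
    intro e
    rw [← exW_ind]
    congr 1
    funext ω
    congr 1
  have k7 : ∀ e : Edge, ex q (hom ρ₁) (box N) (fun ω => if e ∈ ω then 1 else 0) =
      pr q (hom ρ₁) (box N) (fun ω => e ∈ ω) := by
    intro e
    unfold pr
    congr 1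
    funext ω
    congr 1
  rw [k4, k5] at k3
  simp only [k6, k7] at k3
  have k8 : ∑ e ∈ S, prW q (hom ρ₁) (box (N + 1)) (ring N) (fun ω => e ∈ ω) ≤
      ∑ e ∈ S, (pr q (hom ρ₁) (box N) (fun ω => e ∈ ω) + 3 * δ) := by
    refine Finset.sum_le_sum fun e he => ?_
    have e1 := hN₀ e he N hN0N
    have e2 := hN₁ e he N hN1N
    have e3 := hb e.2
    linarith
  rw [Finset.sum_add_distrib, Finset.sum_const, nsmul_eq_mul] at k8
  have k9 : (S.card : ℝ) * (3 * δ) ≤ ε := by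
    have e4 : δ * (3 * ((S.card : ℝ) + 1)) = (S.card : ℝ) * (3 * δ) + 3 * δ := by ring
    linarith
  have k10 : prW q (hom ρ₁) (box (N + 1)) (ring N) A ≤ pr q (hom ρ₁) (box N) A + ε := by
    linarith
  have k11 : prW q (hom ρ) (box (N + 1)) (ring N) A ≤ prW q (hom ρ₁) (box (N + 1)) (ring N) A :=
    prW_mono hq (fun e => hρ.le) (fun e => h1.le) (Finset.Subset.refl _) (Finset.Subset.refl _)
      hring (fun e _ => h01) hA
  have k12 : pr q (hom ρ₁) (box N) A ≤ pr q (hom ρ') (box N) A :=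
    pr_mono_r hq hr1 (fun e => (h12.trans h2).le) hA
  linarith

end Pool.Helper71.XD
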