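import Pool.Agent.Helper71.XD.Ana
import Pool.Agent.Helper71.XD.Diff
import Pool.Agent.Helper71.XD.WF
import Pool.Agent.Helper71.XD.PF

/-!
Project XD: assembly.  For `q ≥ 1`, `0 < ρ`, `ρ ^ 2 < q` the random-cluster model with odds ratio `ρ` has exponential decay
with wired boundary condition (`expW`), and the wired one-arm probabilities tend to `0` (`tau_tendsto`).
-/

namespace Pool.Helper71.XD

open Pool.Helper49.FK Filter Topology

variable {q ρ : ℝ}

private theorem arm_arm {n m : ℕ} (h : m ≤ n) {ω : Finset Edge} (hA : Arm n (0, 0) ω) :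
    Arm m (0, 0) ω := by
  obtain ⟨y, hy, hy', hc⟩ := hA
  refine arm_of_conn (hc.mono Finset.inter_subset_left) ?_
  have h1 : (m : ℤ) ≤ n := by exact_mod_cast h
  rcases hy' with h2 | h2
  · exact le_trans h1 (le_trans h2.ge (le_max_left _ _))
  · exact le_trans h1 (le_trans h2.ge (le_max_right _ _))

/-- No percolation below the self-dual point (free boundary condition). -/
theorem theta0 (hq : 1 ≤ q) (hρ : 0 < ρ) (hρq : ρ ^ 2 < q) {ε : ℝ} (hε : 0 < ε) :
    ∃ n : ℕ, ∀ N : ℕ, pr q (hom ρ) (box N) (Arm n (0, 0)) < ε := by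
  by_contra hcon
  push Not at hcon
  have hq0 : 0 ≤ q := by linarith
  obtain ⟨K, hK⟩ := two_lb (ρ₂ := Real.sqrt q) hq hρ (Real.sq_sqrt hq0).le hε hcon
  exact piv_false hq hρ (Real.lt_sqrt_of_sq_lt hρq) hK

theorem tau_tendsto (hq : 1 ≤ q) (hρ : 0 < ρ) (hρq : ρ ^ 2 < q) :
    Tendsto (fun n => tauW q ρ n) atTop (𝓝 0) := by
  obtain ⟨ρ', h1, h2⟩ := exists_between (Real.lt_sqrt_of_sq_lt hρq)
  have hρ' : 0 < ρ' := hρ.trans h1
  have hρq' : ρ' ^ 2 < q := by
    have := Real.lt_sqrt hρ'.le (y := q)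
    exact this.1 h2
  rw [Metric.tendsto_atTop]
  intro ε hε
  obtain ⟨m, hm⟩ := theta0 hq hρ' hρq' (half_pos hε)
  obtain ⟨N, M, hN, hM⟩ := wired_le_free hq hρ h1 (m := m) (A := Arm m (0, 0)) (arm_incr m _)
    (by rw [← bx_zero]; exact arm_dep m _) (half_pos hε)
  refine ⟨max N m, fun n hn => ?_⟩
  have hn1 : N ≤ n := le_trans (le_max_left _ _) hn
  have hn2 : m ≤ n := le_trans (le_max_right _ _) hn
  have h3 : tauW q ρ n ≤ prW q (hom ρ) (box (N + 1)) (ring N) (Arm m (0, 0)) := by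
    refine le_trans (prW_mono_event (by linarith) (fun e => hρ.le) _ (fun ω _ _ h => arm_arm hn2 h)) ?_
    refine prW_ring_anti hq hρ (by omega) (arm_incr m _) ?_
    refine Dep_mono ?_ (arm_dep m (0, 0))
    rw [bx_zero]
    refine edges_mono ?_
    intro x hx
    unfold box at hx ⊢
    rw [Finset.mem_product, Finset.mem_Icc, Finset.mem_Icc] at hx ⊢
    have : (m : ℤ) ≤ N := by exact_mod_cast hN
    omega
  rw [Real.dist_eq, sub_zero, abs_of_nonneg (tauW_nonneg hq hρ n)]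
  have h4 := hm M
  linarith

theorem tau_exp (hq : 1 ≤ q) (hρ : 0 < ρ) (hρq : ρ ^ 2 < q) :
    ∃ c C : ℝ, 0 < c ∧ 0 < C ∧ ∀ n : ℕ, tauW q ρ n ≤ C * Real.exp (-c * n) := by
  have hq0 : 0 ≤ q := by linarith
  have hb : 0 < Real.sqrt q := Real.sqrt_pos.2 (by linarith)
  have hc0 : 0 < ((1 + Real.sqrt q)⁻¹) ^ 4 := by positivity
  have key := sharp_lemma (t := fun n x => tauW q x n) (a := 0) (b := Real.sqrt q)
    (c := ((1 + Real.sqrt q)⁻¹) ^ 4 / (10 * Real.sqrt q)) (by positivity)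
    (fun x hx => tauW_zero hq hx.1)
    (fun n x hx => ⟨tauW_nonneg hq hx.1 n, tauW_le_one hq hx.1 n⟩)
    (fun x hx n m hnm => tauW_anti hq hx.1 hnm)
    (fun n x hx y _ hxy => tauW_mono hq hx.1 hxy n)
    (fun n hn x hx => ?_)
    (fun x hx => tau_tendsto hq hx.1 ((Real.lt_sqrt hx.1.le).1 hx.2))
  · exact key ρ ⟨hρ, Real.lt_sqrt_of_sq_lt hρq⟩
  · obtain ⟨d, hd, hd'⟩ := tauW_deriv hq hx.1 hn
    refine ⟨d, hd, ?_⟩
    set S := ∑ j ∈ Finset.range n, tauW q x j with hS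
    have hS0 : 0 ≤ S := Finset.sum_nonneg fun j _ => tauW_nonneg hq hx.1 j
    have ht0 := tauW_nonneg hq hx.1 n
    have h1 : ((1 + Real.sqrt q)⁻¹) ^ 4 ≤ 1 - tauW q x n := by
      have h2 := tauW_lt hq hx.1 hn
      have h3 : ((1 + Real.sqrt q)⁻¹) ^ 4 ≤ ((1 + x)⁻¹) ^ 4 := by
        have hx1 := hx.1
        have hx2 := hx.2
        gcongr
      linarith
    have h4 : (n : ℝ) * (tauW q x n * ((1 + Real.sqrt q)⁻¹) ^ 4) ≤ 10 * S * (x * d) := by
      refine le_trans ?_ hd'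
      gcongr
    have h5 : 0 ≤ S * d := by
      have h6 : 0 ≤ 10 * S * (x * d) := le_trans (by positivity) h4
      have h7 : 10 * S * (x * d) = (10 * x) * (S * d) := by ring
      rw [h7] at h6
      exact nonneg_of_mul_nonneg_right h6 (by have := hx.1; positivity)
    have h8 : 10 * S * (x * d) ≤ 10 * Real.sqrt q * (S * d) := by
      have h9 : x * (S * d) ≤ Real.sqrt q * (S * d) := mul_le_mul_of_nonneg_right hx.2.le h5
      nlinarith
    have h10 : (n : ℝ) * (tauW q x n * ((1 + Real.sqrt q)⁻¹) ^ 4) ≤ 10 * Real.sqrt q * (S * d) :=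
      h4.trans h8
    show ((1 + Real.sqrt q)⁻¹) ^ 4 / (10 * Real.sqrt q) * n * tauW q x n ≤ S * d
    have h11 : ((1 + Real.sqrt q)⁻¹) ^ 4 / (10 * Real.sqrt q) * n * tauW q x n =
        ((n : ℝ) * (tauW q x n * ((1 + Real.sqrt q)⁻¹) ^ 4)) / (10 * Real.sqrt q) := by
      field_simp
    rw [h11, div_le_iff₀ (by positivity)]
    linarith

/-- Exponential decay with wired boundary condition below the self-dual point. -/
theorem expW (hq : 1 ≤ q) (hρ : 0 < ρ) (hρq : ρ ^ 2 < q) : ExpW q ρ := by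
  obtain ⟨c, C, hc, hC, h⟩ := tau_exp hq hρ hρq
  refine ⟨c / 2, C * Real.exp (c / 2), by positivity, by positivity, fun n => ?_⟩
  have hpos : 0 < pr q (hom ρ) (box (n + 1)) (fun ω => ring n ⊆ ω) :=
    pr_open_pos (by linarith) (fun e => hρ.le) Finset.sdiff_subset (fun e _ => hρ)
  have h1 : prW q (hom ρ) (box (n + 1)) (ring n) (Arm n (0, 0)) ≤ tauW q ρ (n / 2) := by
    refine le_trans (prW_mono_event (by linarith) (fun e => hρ.le) _
      (fun ω _ _ h => arm_arm (Nat.div_le_self n 2) h)) ?_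
    refine prW_ring_anti hq hρ (by omega) (arm_incr _ _) ?_
    refine Dep_mono ?_ (arm_dep (n / 2) (0, 0))
    rw [bx_zero]
    refine edges_mono ?_
    intro x hx
    unfold box at hx ⊢
    rw [Finset.mem_product, Finset.mem_Icc, Finset.mem_Icc] at hx ⊢
    push_cast at hx ⊢
    omega
  have h2 : tauW q ρ (n / 2) ≤ C * Real.exp (c / 2) * Real.exp (-(c / 2) * n) := by
    refine (h (n / 2)).trans ?_
    rw [mul_assoc, ← Real.exp_add]
    refine mul_le_mul_of_nonneg_left (Real.exp_le_exp.2 ?_) hC.le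
    have h3 : (n : ℝ) ≤ 2 * ((n / 2 : ℕ) : ℝ) + 1 := by
      have : n ≤ 2 * (n / 2) + 1 := by omega
      exact_mod_cast this
    nlinarith
  have h4 := h1.trans h2
  unfold prW at h4
  rw [div_le_iff₀ hpos] at h4
  exact h4

end Pool.Helper71.XD
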