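import Mathlib

/-!
Project XD (for MP_7e0861_pr): exponential decay of FK percolation below the self-dual point.
Block XD-1: positive log-supermodular weights on the subsets of a finite set `E`.

The weight of `ω ⊆ E` is `μ ω`.  An information is a pair `(F, ξ)`, `ξ ⊆ F ⊆ E`: the edges of `F` are revealed, those of `ξ`
are open, those of `F \ ξ` closed.  `ce E μ F ξ g` is the conditional expectation of `g` given this information, `av` the
expectation, `cov` the covariance.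

* `ce_mono` (Holley): write `ω = ξ ∪ ζ`, `ζ ⊆ E \ F`; the weights `μ₁ ζ = μ (ξ ∪ ζ)` and `μ₂ ζ = μ (η ∪ ζ)` satisfy
  `μ₁ a * μ₂ b ≤ μ₁ (a ∩ b) * μ₂ (a ∪ b)` for `ξ ⊆ η` (the condition `lsm` for `ξ ∪ a` and `η ∪ b`; `a`, `b` are disjoint from
  `F ⊇ η`).  Mathlib: `four_functions_theorem` (or `Finset.four_functions_theorem`), applied to the functions `μ₁ * g`, `μ₂`,
  `μ₁`, `μ₂ * g` for a nonnegative increasing `g` (for general `g` add a constant, `g ≥ g ∅`).
* `av_fkg`: the FKG inequality, Mathlib's `fkg` or `four_functions_theorem`, for nonnegative functions; in general add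
  constants (`f ≥ f ∅` and `g ≥ g ∅` on the subsets of `E`).
-/

namespace Pool.Helper71.XD

variable {α : Type*} [DecidableEq α]

/-- `μ` is positive and log-supermodular on the subsets of `E`. -/
structure Good (E : Finset α) (μ : Finset α → ℝ) : Prop where
  pos : ∀ ω, ω ⊆ E → 0 < μ ω
  lsm : ∀ a b, a ⊆ E → b ⊆ E → μ a * μ b ≤ μ (a ∪ b) * μ (a ∩ b)

/-- Increasing on the subsets of `E`. -/
def Inc (E : Finset α) (f : Finset α → ℝ) : Prop := ∀ a b, a ⊆ b → b ⊆ E → f a ≤ f b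

/-- The sum of `μ g` over the configurations compatible with the information `(F, ξ)`. -/
noncomputable def ms (E : Finset α) (μ : Finset α → ℝ) (F ξ : Finset α) (g : Finset α → ℝ) : ℝ :=
  ∑ ω ∈ E.powerset.filter (fun ω => ω ∩ F = ξ), μ ω * g ω

/-- The conditional expectation given the information `(F, ξ)`. -/
noncomputable def ce (E : Finset α) (μ : Finset α → ℝ) (F ξ : Finset α) (g : Finset α → ℝ) : ℝ :=
  ms E μ F ξ g / ms E μ F ξ (fun _ => 1)

/-- The expectation. -/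
noncomputable def av (E : Finset α) (μ : Finset α → ℝ) (g : Finset α → ℝ) : ℝ :=
  (∑ ω ∈ E.powerset, μ ω * g ω) / ∑ ω ∈ E.powerset, μ ω

/-- The covariance. -/
noncomputable def cov (E : Finset α) (μ : Finset α → ℝ) (f g : Finset α → ℝ) : ℝ :=
  av E μ (fun ω => f ω * g ω) - av E μ f * av E μ g

/-- The indicator that `e` is open. -/
noncomputable def op (e : α) (ω : Finset α) : ℝ := if e ∈ ω then 1 else 0

variable {E : Finset α} {μ : Finset α → ℝ} {F ξ η : Finset α} {f g : Finset α → ℝ}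

theorem ms_pos (h : Good E μ) (hF : F ⊆ E) (hξ : ξ ⊆ F) : 0 < ms E μ F ξ (fun _ => 1) := by
  unfold ms
  refine Finset.sum_pos (fun ω hω => ?_) ⟨ξ, ?_⟩
  · rw [Finset.mem_filter, Finset.mem_powerset] at hω
    rw [mul_one]
    exact h.pos ω hω.1
  · rw [Finset.mem_filter, Finset.mem_powerset]
    exact ⟨hξ.trans hF, Finset.inter_eq_left.2 hξ⟩

theorem ms_nonneg (h : Good E μ) (hg : ∀ ω, ω ⊆ E → 0 ≤ g ω) : 0 ≤ ms E μ F ξ g := by
  unfold ms
  refine Finset.sum_nonneg fun ω hω => ?_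
  rw [Finset.mem_filter, Finset.mem_powerset] at hω
  exact mul_nonneg (h.pos ω hω.1).le (hg ω hω.1)

theorem ms_add : ms E μ F ξ (fun ω => f ω + g ω) = ms E μ F ξ f + ms E μ F ξ g := by
  unfold ms
  rw [← Finset.sum_add_distrib]
  exact Finset.sum_congr rfl fun ω _ => by ring

theorem ms_smul (c : ℝ) : ms E μ F ξ (fun ω => c * g ω) = c * ms E μ F ξ g := by
  unfold ms
  rw [Finset.mul_sum]
  exact Finset.sum_congr rfl fun ω _ => by ring

theorem ms_le (h : Good E μ) (hfg : ∀ ω, ω ⊆ E → ω ∩ F = ξ → f ω ≤ g ω) :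
    ms E μ F ξ f ≤ ms E μ F ξ g := by
  unfold ms
  refine Finset.sum_le_sum fun ω hω => ?_
  rw [Finset.mem_filter, Finset.mem_powerset] at hω
  exact mul_le_mul_of_nonneg_left (hfg ω hω.1 hω.2) (h.pos ω hω.1).le

theorem ms_congr (hfg : ∀ ω, ω ⊆ E → ω ∩ F = ξ → f ω = g ω) : ms E μ F ξ f = ms E μ F ξ g := by
  unfold ms
  refine Finset.sum_congr rfl fun ω hω => ?_
  rw [Finset.mem_filter, Finset.mem_powerset] at hω
  rw [hfg ω hω.1 hω.2]

theorem ms_split {e : α} (he : e ∈ E) (he' : e ∉ F) (hξ : ξ ⊆ F) :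
    ms E μ F ξ g = ms E μ (insert e F) (insert e ξ) g + ms E μ (insert e F) ξ g := by
  unfold ms
  rw [← Finset.sum_filter_add_sum_filter_not (E.powerset.filter (fun ω => ω ∩ F = ξ))
    (fun ω => e ∈ ω)]
  have hξe : e ∉ ξ := fun h => he' (hξ h)
  congr 1
  · refine Finset.sum_congr ?_ fun _ _ => rfl
    ext ω
    simp only [Finset.mem_filter]
    constructor
    · rintro ⟨⟨h1, h2⟩, h3⟩
      exact ⟨h1, by rw [Finset.inter_insert_of_mem h3, h2]⟩
    · rintro ⟨h1, h2⟩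
      have h3 : e ∈ ω := by
        have : e ∈ ω ∩ insert e F := by rw [h2]; exact Finset.mem_insert_self _ _
        exact (Finset.mem_inter.1 this).1
      refine ⟨⟨h1, ?_⟩, h3⟩
      rw [Finset.inter_insert_of_mem h3] at h2
      have h4 := congrArg (fun t => t.erase e) h2
      rwa [Finset.erase_insert hξe, Finset.erase_insert] at h4
      exact fun h => he' (Finset.mem_inter.1 h).2
  · refine Finset.sum_congr ?_ fun _ _ => rfl
    ext ω
    simp only [Finset.mem_filter]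
    constructor
    · rintro ⟨⟨h1, h2⟩, h3⟩
      exact ⟨h1, by rw [Finset.inter_insert_of_notMem h3, h2]⟩
    · rintro ⟨h1, h2⟩
      have h3 : e ∉ ω := by
        intro h
        have : e ∈ ω ∩ insert e F := Finset.mem_inter.2 ⟨h, Finset.mem_insert_self _ _⟩
        rw [h2] at this
        exact hξe this
      refine ⟨⟨h1, ?_⟩, h3⟩
      rwa [Finset.inter_insert_of_notMem h3] at h2

theorem ms_empty : ms E μ ∅ ∅ g = ∑ ω ∈ E.powerset, μ ω * g ω := by
  unfold ms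
  rw [Finset.filter_true_of_mem fun ω _ => Finset.inter_empty ω]

theorem sum_ms (hF : F ⊆ E) :
    ∑ η ∈ F.powerset, ms E μ F η g = ∑ ω ∈ E.powerset, μ ω * g ω := by
  unfold ms
  exact Finset.sum_fiberwise_of_maps_to
    (fun ω _ => Finset.mem_powerset.2 Finset.inter_subset_right) fun ω => μ ω * g ω

theorem ce_const (h : Good E μ) (hF : F ⊆ E) (hξ : ξ ⊆ F) (c : ℝ) :
    ce E μ F ξ (fun _ => c) = c := by
  have h1 : ms E μ F ξ (fun _ => c) = c * ms E μ F ξ (fun _ => 1) := by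
    rw [← ms_smul]
    simp only [mul_one]
  rw [ce, h1]
  exact mul_div_cancel_right₀ c (ms_pos h hF hξ).ne'

open scoped FinsetFamily in
private theorem xd1_four (h : Good E μ) (hf : Inc E f) (hg : Inc E g)
    (hf0 : ∀ ω, ω ⊆ E → 0 ≤ f ω) (hg0 : ∀ ω, ω ⊆ E → 0 ≤ g ω) (hξ : ξ ⊆ η) :
    ms E μ F ξ f * ms E μ F η g ≤ ms E μ F ξ (fun _ => 1) * ms E μ F η (fun ω => f ω * g ω) := by
  have hT : ∀ u : Finset α → ℝ, (∀ ω, ω ⊆ E → 0 ≤ u ω) →
      (0 : Finset α → ℝ) ≤ fun ω => if ω ⊆ E then u ω else 0 := by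
    intro u hu ω
    show (0 : ℝ) ≤ if ω ⊆ E then u ω else 0
    split_ifs with hω
    · exact hu ω hω
    · exact le_rfl
  have hμ0 : ∀ ω, ω ⊆ E → 0 ≤ μ ω := fun ω hω => (h.pos ω hω).le
  have key := Finset.four_functions_theorem (f₁ := fun ω => if ω ⊆ E then μ ω * f ω else 0)
    (f₂ := fun ω => if ω ⊆ E then μ ω * g ω else 0) (f₃ := fun ω => if ω ⊆ E then μ ω else 0)
    (f₄ := fun ω => if ω ⊆ E then μ ω * (f ω * g ω) else 0) E
    (hT _ fun ω hω => mul_nonneg (hμ0 ω hω) (hf0 ω hω))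
    (hT _ fun ω hω => mul_nonneg (hμ0 ω hω) (hg0 ω hω)) (hT _ hμ0)
    (hT _ fun ω hω => mul_nonneg (hμ0 ω hω) (mul_nonneg (hf0 ω hω) (hg0 ω hω)))
    (by
      intro s hs t ht
      have h1 : s ∩ t ⊆ E := Finset.inter_subset_left.trans hs
      have h2 : s ∪ t ⊆ E := Finset.union_subset hs ht
      simp only [hs, ht, h1, h2, if_true]
      have e1 := h.lsm s t hs ht
      have e2 := hf s (s ∪ t) Finset.subset_union_left h2
      have e3 := hg t (s ∪ t) Finset.subset_union_right h2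
      calc μ s * f s * (μ t * g t) = (μ s * μ t) * (f s * g t) := by ring
        _ ≤ (μ (s ∪ t) * μ (s ∩ t)) * (f (s ∪ t) * g (s ∪ t)) :=
          mul_le_mul e1 (mul_le_mul e2 e3 (hg0 t ht) (hf0 _ h2)) (mul_nonneg (hf0 s hs) (hg0 t ht))
            (mul_nonneg (hμ0 _ h2) (hμ0 _ h1))
        _ = μ (s ∩ t) * (μ (s ∪ t) * (f (s ∪ t) * g (s ∪ t))) := by ring)
    (𝒜 := E.powerset.filter fun ω => ω ∩ F = ξ) (ℬ := E.powerset.filter fun ω => ω ∩ F = η)
    (Finset.filter_subset _ _) (Finset.filter_subset _ _)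
  have hsum : ∀ (ζ : Finset α) (u : Finset α → ℝ),
      ∑ ω ∈ E.powerset.filter (fun ω => ω ∩ F = ζ), (if ω ⊆ E then u ω else 0) =
        ∑ ω ∈ E.powerset.filter (fun ω => ω ∩ F = ζ), u ω := by
    intro ζ u
    refine Finset.sum_congr rfl fun ω hω => ?_
    rw [if_pos (Finset.mem_powerset.1 (Finset.mem_filter.1 hω).1)]
  have hnn : ∀ (ζ : Finset α) (u : Finset α → ℝ), (∀ ω, ω ⊆ E → 0 ≤ u ω) →
      ∀ 𝒜 : Finset (Finset α), 𝒜 ⊆ E.powerset.filter (fun ω => ω ∩ F = ζ) →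
      ∑ ω ∈ 𝒜, (if ω ⊆ E then u ω else 0) ≤
        ∑ ω ∈ E.powerset.filter (fun ω => ω ∩ F = ζ), u ω := by
    intro ζ u hu 𝒜 h𝒜
    rw [← hsum]
    exact Finset.sum_le_sum_of_subset_of_nonneg h𝒜 fun ω _ _ => hT u hu ω
  have hinf : (E.powerset.filter fun ω => ω ∩ F = ξ) ⊼ (E.powerset.filter fun ω => ω ∩ F = η) ⊆
      E.powerset.filter fun ω => ω ∩ F = ξ := by
    intro ω hω
    obtain ⟨a, ha, b, hb, rfl⟩ := Finset.mem_infs.1 hω
    rw [Finset.mem_filter, Finset.mem_powerset] at ha hb ⊢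
    refine ⟨Finset.inter_subset_left.trans ha.1, ?_⟩
    show (a ∩ b) ∩ F = ξ
    have : (a ∩ b) ∩ F = (a ∩ F) ∩ (b ∩ F) := by
      ext x
      simp only [Finset.mem_inter]
      tauto
    rw [this, ha.2, hb.2]
    exact Finset.inter_eq_left.2 hξ
  have hsup : (E.powerset.filter fun ω => ω ∩ F = ξ) ⊻ (E.powerset.filter fun ω => ω ∩ F = η) ⊆
      E.powerset.filter fun ω => ω ∩ F = η := by
    intro ω hω
    obtain ⟨a, ha, b, hb, rfl⟩ := Finset.mem_sups.1 hω
    rw [Finset.mem_filter, Finset.mem_powerset] at ha hb ⊢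
    refine ⟨Finset.union_subset ha.1 hb.1, ?_⟩
    show (a ∪ b) ∩ F = η
    rw [Finset.union_inter_distrib_right, ha.2, hb.2]
    exact Finset.union_eq_right.2 hξ
  unfold ms
  rw [hsum, hsum] at key
  refine key.trans ?_
  have e1 := hnn ξ μ hμ0 _ hinf
  have e2 := hnn η (fun ω => μ ω * (f ω * g ω))
    (fun ω hω => mul_nonneg (hμ0 ω hω) (mul_nonneg (hf0 ω hω) (hg0 ω hω))) _ hsup
  simp only [mul_one]
  refine mul_le_mul e1 e2 (Finset.sum_nonneg fun ω _ => ?_) (Finset.sum_nonneg fun ω hω => ?_)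
  · exact hT _ (fun ω hω => mul_nonneg (hμ0 ω hω) (mul_nonneg (hf0 ω hω) (hg0 ω hω))) ω
  · exact hμ0 ω (Finset.mem_powerset.1 (Finset.mem_filter.1 hω).1)

private theorem xd1_inc_sub (hf : Inc E f) : Inc E (fun ω => f ω + (-(f ∅))) ∧
    ∀ ω, ω ⊆ E → 0 ≤ f ω + (-(f ∅)) := by
  refine ⟨fun a b hab hb => ?_, fun ω hω => ?_⟩
  · have := hf a b hab hb
    show f a + (-(f ∅)) ≤ f b + (-(f ∅))
    linarith
  · have := hf ∅ ω (Finset.empty_subset _) hω
    linarith

theorem ce_empty : ce E μ ∅ ∅ g = av E μ g := by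
  rw [ce, ms_empty, ms_empty, av]
  simp only [mul_one]

theorem ce_mono (h : Good E μ) (hg : Inc E g) (hξ : ξ ⊆ η) (hη : η ⊆ F) (hF : F ⊆ E) :
    ce E μ F ξ g ≤ ce E μ F η g := by
  obtain ⟨h1, h2⟩ := xd1_inc_sub hg
  have h3 := xd1_four (F := F) h h1 (g := fun _ => 1) (fun _ _ _ _ => le_rfl) h2
    (fun _ _ => zero_le_one) hξ
  have e : ∀ ζ, ms E μ F ζ (fun ω => g ω + (-(g ∅))) =
      ms E μ F ζ g + (-(g ∅)) * ms E μ F ζ (fun _ => 1) := by
    intro ζ
    rw [ms_add, ← ms_smul]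
    simp only [mul_one]
  simp only [mul_one] at h3
  rw [e, e] at h3
  rw [ce, ce, div_le_div_iff₀ (ms_pos h hF (hξ.trans hη)) (ms_pos h hF hη)]
  nlinarith [h3]

theorem av_pos_den (h : Good E μ) : 0 < ∑ ω ∈ E.powerset, μ ω := by
  exact Finset.sum_pos (fun ω hω => h.pos ω (Finset.mem_powerset.1 hω))
    ⟨∅, Finset.empty_mem_powerset _⟩

theorem av_add : av E μ (fun ω => f ω + g ω) = av E μ f + av E μ g := by
  unfold av
  rw [← add_div, ← Finset.sum_add_distrib]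
  congr 1
  exact Finset.sum_congr rfl fun ω _ => by ring

theorem av_smul (c : ℝ) : av E μ (fun ω => c * g ω) = c * av E μ g := by
  unfold av
  rw [← mul_div_assoc, Finset.mul_sum]
  congr 1
  exact Finset.sum_congr rfl fun ω _ => by ring

theorem av_const (h : Good E μ) (c : ℝ) : av E μ (fun _ => c) = c := by
  unfold av
  rw [← Finset.sum_mul]
  exact mul_div_cancel_left₀ c (av_pos_den h).ne'

theorem av_le (h : Good E μ) (hfg : ∀ ω, ω ⊆ E → f ω ≤ g ω) : av E μ f ≤ av E μ g := by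
  unfold av
  refine div_le_div_of_nonneg_right (Finset.sum_le_sum fun ω hω => ?_) (av_pos_den h).le
  have hω' := Finset.mem_powerset.1 hω
  exact mul_le_mul_of_nonneg_left (hfg ω hω') (h.pos ω hω').le

theorem av_congr (hfg : ∀ ω, ω ⊆ E → f ω = g ω) : av E μ f = av E μ g := by
  unfold av
  congr 1
  exact Finset.sum_congr rfl fun ω hω => by rw [hfg ω (Finset.mem_powerset.1 hω)]

theorem av_sum {ι : Type*} (s : Finset ι) (G : ι → Finset α → ℝ) :
    av E μ (fun ω => ∑ i ∈ s, G i ω) = ∑ i ∈ s, av E μ (G i) := by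
  unfold av
  rw [← Finset.sum_div, Finset.sum_comm]
  congr 1
  exact Finset.sum_congr rfl fun ω _ => by rw [Finset.mul_sum]

theorem av_fkg (h : Good E μ) (hf : Inc E f) (hg : Inc E g) :
    av E μ f * av E μ g ≤ av E μ (fun ω => f ω * g ω) := by
  obtain ⟨h1, h2⟩ := xd1_inc_sub hf
  obtain ⟨h3, h4⟩ := xd1_inc_sub hg
  have h5 := xd1_four (F := ∅) (ξ := ∅) (η := ∅) h h1 h3 h2 h4 le_rfl
  rw [ms_empty, ms_empty, ms_empty, ms_empty] at h5
  have hZ := av_pos_den h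
  have hd : ∀ u : Finset α → ℝ, ∑ ω ∈ E.powerset, μ ω * u ω =
      (∑ ω ∈ E.powerset, μ ω) * av E μ u := by
    intro u
    unfold av
    rw [mul_div_cancel₀ _ hZ.ne']
  rw [hd, hd, hd, hd, av_const h] at h5
  have e1 : av E μ (fun ω => f ω + (-(f ∅))) = av E μ f - f ∅ := by
    rw [av_add, av_const h]
    ring
  have e2 : av E μ (fun ω => g ω + (-(g ∅))) = av E μ g - g ∅ := by
    rw [av_add, av_const h]
    ring
  have e3 : av E μ (fun ω => (f ω + (-(f ∅))) * (g ω + (-(g ∅)))) =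
      av E μ (fun ω => f ω * g ω) - g ∅ * av E μ f - f ∅ * av E μ g + f ∅ * g ∅ := by
    have e4 : av E μ (fun ω => (f ω + (-(f ∅))) * (g ω + (-(g ∅)))) =
        av E μ (fun ω => (f ω * g ω + (-(g ∅)) * f ω) + ((-(f ∅)) * g ω + f ∅ * g ∅)) :=
      av_congr fun ω _ => by ring
    rw [e4, av_add, av_add, av_add, av_smul, av_smul, av_const h]
    ring
  rw [e1, e2, e3] at h5
  have h6 : (∑ ω ∈ E.powerset, μ ω) * (∑ ω ∈ E.powerset, μ ω) *
      ((av E μ f - f ∅) * (av E μ g - g ∅)) ≤ (∑ ω ∈ E.powerset, μ ω) * (∑ ω ∈ E.powerset, μ ω) *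
      (av E μ (fun ω => f ω * g ω) - g ∅ * av E μ f - f ∅ * av E μ g + f ∅ * g ∅) := by
    nlinarith [h5]
  have h7 := le_of_mul_le_mul_left h6 (mul_pos hZ hZ)
  nlinarith [h7]

theorem op_inc (e : α) : Inc E (op e) := by
  intro a b hab _
  unfold op
  by_cases h1 : e ∈ a
  · rw [if_pos h1, if_pos (hab h1)]
  · rw [if_neg h1]
    split_ifs <;> norm_num

end Pool.Helper71.XD
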