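import Mathlib

/-!
Project XD.  Block XD-7: the analysis lemma of Duminil-Copin, Raoufi, Tassion (pure analysis).

Write `S n x = ∑ j ∈ range n, t j x` (`S 1 x = 1`, `S n x ≥ 1` for `n ≥ 1`, monotone in `n` and `x`).
Let `x ∈ (a, b)` and `x < x₁ < x₂ < x₃ < b`.
(1) `T n x = ∑ i ∈ Icc 1 n, t i x / i` has on `[x₂, x₃]` a derivative `≥ c * ∑ i ∈ Icc 1 n, t i / S i`, and
    `t i / S i = (S (i + 1) - S i) / S i ≥ log (S (i + 1)) - log (S i)`, so the derivative is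
    `≥ c * log (S (n + 1) x) ≥ c * log (S (n + 1) x₂)`; hence `T n x₃ ≥ T n x₃ - T n x₂ ≥ c * (x₃ - x₂) * log (S (n + 1) x₂)`
    (mean value: `fun x => T n x - κ * x` is monotone on `[x₂, x₃]`, Mathlib `monotoneOn_of_deriv_nonneg`).
(2) `t i x₃ → 0` implies `T n x₃ / log n → 0` (for every `ε`: `T n x₃ ≤ C + ε * (1 + log n)`), so
    `log (S (n + 1) x₂) ≤ (1/2) * log n` for large `n`: `S n x₂ ≤ √n` for large `n`.
(3) On `[x₁, x₂]`: `S n x ≤ S n x₂`, so the derivative of `t n` is `≥ κ * t n` with `κ = c * n / S n x₂`, hence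
    `fun x => t n x * exp (-κ * x)` is monotone and `t n x₁ ≤ t n x₂ * exp (-κ * (x₂ - x₁)) ≤ exp (-c * √n * (x₂ - x₁))` for
    large `n`.
(4) `∑ n, exp (-d * √n)` converges (`exp (-d √n) ≤ C / n ^ 2`), so `S n x₁ ≤ C` for all `n`; as in (3)
    `t n x ≤ exp (-(c / C) * (x₁ - x) * n)` for `n ≥ 1`.
-/

namespace Pool.Helper71.XD

open Filter Topology

private lemma mvt {f : ℝ → ℝ} {u v κ : ℝ} (huv : u ≤ v)
    (h : ∀ y ∈ Set.Icc u v, ∃ d, HasDerivAt f d y ∧ κ ≤ d) : κ * (v - u) ≤ f v - f u := by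
  have hcont : ContinuousOn f (Set.Icc u v) := fun y hy => by
    obtain ⟨d, hd, -⟩ := h y hy
    exact hd.continuousAt.continuousWithinAt
  have hdiff : DifferentiableOn ℝ f (interior (Set.Icc u v)) := fun y hy => by
    obtain ⟨d, hd, -⟩ := h y (interior_subset hy)
    exact hd.differentiableAt.differentiableWithinAt
  refine Convex.mul_sub_le_image_sub_of_le_deriv (convex_Icc u v) hcont hdiff ?_ u
    (Set.left_mem_Icc.2 huv) v (Set.right_mem_Icc.2 huv) huv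
  intro y hy
  obtain ⟨d, hd, hk⟩ := h y (interior_subset hy)
  rw [hd.deriv]
  exact hk

private lemma gron {f : ℝ → ℝ} {u v κ : ℝ} (huv : u ≤ v)
    (h : ∀ y ∈ Set.Icc u v, ∃ d, HasDerivAt f d y ∧ κ * f y ≤ d) :
    f u ≤ f v * Real.exp (-κ * (v - u)) := by
  have h1 : (0 : ℝ) * (v - u) ≤ (fun y => f y * Real.exp (-κ * y)) v -
      (fun y => f y * Real.exp (-κ * y)) u := by
    refine mvt (f := fun y => f y * Real.exp (-κ * y)) huv fun y hy => ?_
    obtain ⟨d, hd, hk⟩ := h y hy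
    have he : HasDerivAt (fun y : ℝ => Real.exp (-κ * y)) (Real.exp (-κ * y) * (-κ)) y := by
      have h2 : HasDerivAt (fun y : ℝ => -κ * y) (-κ) y := by
        simpa using (hasDerivAt_id y).const_mul (-κ)
      exact h2.exp
    refine ⟨d * Real.exp (-κ * y) + f y * (Real.exp (-κ * y) * (-κ)), hd.mul he, ?_⟩
    have h3 : d * Real.exp (-κ * y) + f y * (Real.exp (-κ * y) * (-κ)) =
        (d - κ * f y) * Real.exp (-κ * y) := by ring
    rw [h3]
    exact mul_nonneg (sub_nonneg.2 hk) (Real.exp_pos _).le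
  simp only [zero_mul] at h1
  have h4 : f u * Real.exp (-κ * u) ≤ f v * Real.exp (-κ * v) := by linarith
  have h5 : f u = f u * Real.exp (-κ * u) * Real.exp (κ * u) := by
    rw [mul_assoc, ← Real.exp_add]
    simp
  have h6 : f v * Real.exp (-κ * (v - u)) = f v * Real.exp (-κ * v) * Real.exp (κ * u) := by
    rw [mul_assoc, ← Real.exp_add]
    congr 2
    ring
  rw [h5, h6]
  exact mul_le_mul_of_nonneg_right h4 (Real.exp_pos _).le

section

variable {t : ℕ → ℝ → ℝ} {a b c : ℝ}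

private lemma one_le_S (h0 : ∀ x ∈ Set.Ioo a b, t 0 x = 1)
    (h01 : ∀ n, ∀ x ∈ Set.Ioo a b, 0 ≤ t n x ∧ t n x ≤ 1) {x : ℝ} (hx : x ∈ Set.Ioo a b) {n : ℕ}
    (hn : 1 ≤ n) : 1 ≤ ∑ j ∈ Finset.range n, t j x := by
  calc (1 : ℝ) = t 0 x := (h0 x hx).symm
    _ ≤ ∑ j ∈ Finset.range n, t j x := Finset.single_le_sum (f := fun j => t j x)
        (fun j _ => (h01 j x hx).1) (Finset.mem_range.2 (by omega))

private lemma S_mono (hx : ∀ n, MonotoneOn (t n) (Set.Ioo a b)) {x y : ℝ} (h1 : x ∈ Set.Ioo a b)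
    (h2 : y ∈ Set.Ioo a b) (h : x ≤ y) (n : ℕ) :
    ∑ j ∈ Finset.range n, t j x ≤ ∑ j ∈ Finset.range n, t j y :=
  Finset.sum_le_sum fun j _ => hx j h1 h2 h

/-- exponential decay on an interval from a bound of the sums at its right end -/
private lemma decay (hc : 0 < c) (h0 : ∀ x ∈ Set.Ioo a b, t 0 x = 1)
    (h01 : ∀ n, ∀ x ∈ Set.Ioo a b, 0 ≤ t n x ∧ t n x ≤ 1)
    (hx : ∀ n, MonotoneOn (t n) (Set.Ioo a b))
    (hd : ∀ n, 1 ≤ n → ∀ x ∈ Set.Ioo a b, ∃ d, HasDerivAt (t n) d x ∧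
      c * n * t n x ≤ (∑ j ∈ Finset.range n, t j x) * d)
    {u v B : ℝ} (hu : u ∈ Set.Ioo a b) (hv : v ∈ Set.Ioo a b) (huv : u ≤ v) {n : ℕ} (hn : 1 ≤ n)
    (hB : ∑ j ∈ Finset.range n, t j v ≤ B) :
    t n u ≤ Real.exp (-(c * n / B) * (v - u)) := by
  have hB1 : 1 ≤ B := (one_le_S h0 h01 hv hn).trans hB
  have h1 : t n u ≤ t n v * Real.exp (-(c * n / B) * (v - u)) := by
    refine gron huv fun y hy => ?_
    have hy' : y ∈ Set.Ioo a b := ⟨hu.1.trans_le hy.1, hy.2.trans_lt hv.2⟩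
    obtain ⟨d, hd1, hd2⟩ := hd n hn y hy'
    refine ⟨d, hd1, ?_⟩
    have hS1 := one_le_S h0 h01 hy' hn
    have hS2 := (S_mono hx hy' hv hy.2 n).trans hB
    have ht := (h01 n y hy').1
    have hn0 : (0 : ℝ) ≤ n := Nat.cast_nonneg n
    have hnt : 0 ≤ c * n * t n y := by positivity
    have hd0 : 0 ≤ d := by
      by_contra hneg
      push Not at hneg
      nlinarith
    have h3 : c * n * t n y ≤ B * d := hd2.trans (mul_le_mul_of_nonneg_right hS2 hd0)
    rw [div_mul_eq_mul_div, div_le_iff₀ (by linarith)]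
    linarith
  refine h1.trans ?_
  have := (h01 n v hv).2
  exact mul_le_of_le_one_left (Real.exp_pos _).le this

/-- step (1) -/
private lemma step_one (hc : 0 < c) (h0 : ∀ x ∈ Set.Ioo a b, t 0 x = 1)
    (h01 : ∀ n, ∀ x ∈ Set.Ioo a b, 0 ≤ t n x ∧ t n x ≤ 1)
    (hx : ∀ n, MonotoneOn (t n) (Set.Ioo a b))
    (hd : ∀ n, 1 ≤ n → ∀ x ∈ Set.Ioo a b, ∃ d, HasDerivAt (t n) d x ∧
      c * n * t n x ≤ (∑ j ∈ Finset.range n, t j x) * d)
    {u v : ℝ} (hu : u ∈ Set.Ioo a b) (hv : v ∈ Set.Ioo a b) (huv : u ≤ v) (n : ℕ) :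
    c * Real.log (∑ j ∈ Finset.range (n + 1), t j u) * (v - u) ≤
      ∑ i ∈ Finset.range n, t (i + 1) v / ((i + 1 : ℕ) : ℝ) := by
  have h1 : c * Real.log (∑ j ∈ Finset.range (n + 1), t j u) * (v - u) ≤
      (fun y => ∑ i ∈ Finset.range n, t (i + 1) y / ((i + 1 : ℕ) : ℝ)) v -
      (fun y => ∑ i ∈ Finset.range n, t (i + 1) y / ((i + 1 : ℕ) : ℝ)) u := by
    refine mvt (f := fun y => ∑ i ∈ Finset.range n, t (i + 1) y / ((i + 1 : ℕ) : ℝ)) huv
      fun y hy => ?_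
    have hy' : y ∈ Set.Ioo a b := ⟨hu.1.trans_le hy.1, hy.2.trans_lt hv.2⟩
    choose D hD1 hD2 using fun i : ℕ => hd (i + 1) (by omega) y hy'
    refine ⟨∑ i ∈ Finset.range n, D i / ((i + 1 : ℕ) : ℝ), ?_, ?_⟩
    · exact HasDerivAt.fun_sum fun i _ => (hD1 i).div_const _
    · have hlog : Real.log (∑ j ∈ Finset.range (n + 1), t j u) ≤
          Real.log (∑ j ∈ Finset.range (n + 1), t j y) :=
        Real.log_le_log (lt_of_lt_of_le one_pos (one_le_S h0 h01 hu (by omega)))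
          (S_mono hx hu hy' hy.1 _)
      refine (mul_le_mul_of_nonneg_left hlog hc.le).trans ?_
      have hsum : ∀ m : ℕ, c * Real.log (∑ j ∈ Finset.range (m + 1), t j y) ≤
          ∑ i ∈ Finset.range m, D i / ((i + 1 : ℕ) : ℝ) := by
        intro m
        induction m with
        | zero => simp [h0 y hy']
        | succ m ih =>
          rw [Finset.sum_range_succ _ m, Finset.sum_range_succ _ (m + 1)]
          have hS := one_le_S h0 h01 hy' (n := m + 1) (by omega)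
          have ht := (h01 (m + 1) y hy').1
          set S := ∑ j ∈ Finset.range (m + 1), t j y with hSdef
          have hS0 : 0 < S := by linarith
          have e1 : Real.log (S + t (m + 1) y) ≤ Real.log S + t (m + 1) y / S := by
            have e2 : Real.log ((S + t (m + 1) y) / S) ≤ (S + t (m + 1) y) / S - 1 :=
              Real.log_le_sub_one_of_pos (div_pos (by linarith) hS0)
            rw [Real.log_div (by linarith) hS0.ne'] at e2
            have e3 : (S + t (m + 1) y) / S - 1 = t (m + 1) y / S := by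
              field_simp
              ring
            linarith
          have e4 : c * (t (m + 1) y / S) ≤ D m / ((m + 1 : ℕ) : ℝ) := by
            have e5 := hD2 m
            rw [← hSdef] at e5
            have hm : (0 : ℝ) < ((m + 1 : ℕ) : ℝ) := by positivity
            rw [mul_div_assoc', div_le_div_iff₀ hS0 hm]
            linarith
          have e6 := mul_le_mul_of_nonneg_left e1 hc.le
          linarith
      exact hsum n
  have h2 : 0 ≤ ∑ i ∈ Finset.range n, t (i + 1) u / ((i + 1 : ℕ) : ℝ) :=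
    Finset.sum_nonneg fun i _ => div_nonneg (h01 _ u hu).1 (Nat.cast_nonneg _)
  simp only at h1
  linarith

/-- step (2) -/
private lemma step_two (hc : 0 < c) (h0 : ∀ x ∈ Set.Ioo a b, t 0 x = 1)
    (h01 : ∀ n, ∀ x ∈ Set.Ioo a b, 0 ≤ t n x ∧ t n x ≤ 1)
    (hx : ∀ n, MonotoneOn (t n) (Set.Ioo a b))
    (hd : ∀ n, 1 ≤ n → ∀ x ∈ Set.Ioo a b, ∃ d, HasDerivAt (t n) d x ∧
      c * n * t n x ≤ (∑ j ∈ Finset.range n, t j x) * d)
    {u v : ℝ} (hu : u ∈ Set.Ioo a b) (hv : v ∈ Set.Ioo a b) (huv : u < v)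
    (hlim : Tendsto (fun n => t n v) atTop (𝓝 0)) :
    ∀ᶠ n : ℕ in atTop, ∑ j ∈ Finset.range n, t j u ≤ √n := by
  set ε := c * (v - u) / 4 with hε
  have hε0 : 0 < ε := by
    have : 0 < v - u := sub_pos.2 huv
    positivity
  obtain ⟨M, hM⟩ := eventually_atTop.1 (hlim.eventually_lt_const hε0)
  have hlog : ∀ᶠ n : ℕ in atTop, ((M : ℝ) + ε) / ε ≤ Real.log n :=
    (Real.tendsto_log_atTop.comp tendsto_natCast_atTop_atTop).eventually_ge_atTop _
  filter_upwards [hlog, eventually_ge_atTop 1] with n hn hn1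
  have hT : ∑ i ∈ Finset.range n, t (i + 1) v / ((i + 1 : ℕ) : ℝ) ≤ M + ε * (1 + Real.log n) := by
    have h1 : ∀ i ∈ Finset.range n, t (i + 1) v / ((i + 1 : ℕ) : ℝ) ≤
        (if i < M then 1 else 0) + ε * (((i + 1 : ℕ) : ℝ))⁻¹ := by
      intro i _
      have hi : (1 : ℝ) ≤ ((i + 1 : ℕ) : ℝ) := by
        push_cast
        have : (0 : ℝ) ≤ i := Nat.cast_nonneg i
        linarith
      have hi0 : (0 : ℝ) < ((i + 1 : ℕ) : ℝ) := by linarith
      have hpos : 0 ≤ ε * (((i + 1 : ℕ) : ℝ))⁻¹ := by positivity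
      split_ifs with h
      · have h2 : t (i + 1) v / ((i + 1 : ℕ) : ℝ) ≤ 1 := by
          rw [div_le_one hi0]
          exact ((h01 (i + 1) v hv).2).trans hi
        linarith
      · rw [zero_add, div_eq_mul_inv]
        exact mul_le_mul_of_nonneg_right (hM (i + 1) (by omega)).le (by positivity)
    refine (Finset.sum_le_sum h1).trans ?_
    rw [Finset.sum_add_distrib, ← Finset.mul_sum]
    have h3 : ∑ i ∈ Finset.range n, (if i < M then (1 : ℝ) else 0) ≤ M := by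
      rw [← Finset.sum_filter, Finset.sum_const, nsmul_eq_mul, mul_one]
      have : ((Finset.range n).filter fun i => i < M) ⊆ Finset.range M := by
        intro i hi
        simp only [Finset.mem_filter, Finset.mem_range] at hi ⊢
        exact hi.2
      exact_mod_cast (Finset.card_le_card this).trans (by simp)
    have h4 : ∑ i ∈ Finset.range n, (((i + 1 : ℕ) : ℝ))⁻¹ ≤ 1 + Real.log n := by
      have := harmonic_le_one_add_log n
      simpa [harmonic] using this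
    have h5 := mul_le_mul_of_nonneg_left h4 hε0.le
    linarith
  have h6 := (step_one hc h0 h01 hx hd hu hv huv.le n).trans hT
  have hS : 1 ≤ ∑ j ∈ Finset.range (n + 1), t j u := one_le_S h0 h01 hu (by omega)
  have h7 : (M : ℝ) + ε ≤ ε * Real.log n := by
    rw [div_le_iff₀ hε0] at hn
    linarith
  have h8 : c * (v - u) * Real.log (∑ j ∈ Finset.range (n + 1), t j u) ≤
      c * (v - u) * (Real.log n / 2) := by
    have : ε * Real.log n = c * (v - u) * (Real.log n / 4) := by rw [hε]; ring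
    nlinarith
  have h9 : Real.log (∑ j ∈ Finset.range (n + 1), t j u) ≤ Real.log n / 2 :=
    le_of_mul_le_mul_left h8 (mul_pos hc (sub_pos.2 huv))
  have hn0 : (0 : ℝ) < n := by exact_mod_cast hn1
  rw [← Real.log_sqrt hn0.le] at h9
  have h10 := (Real.log_le_log_iff (by linarith) (Real.sqrt_pos.2 hn0)).1 h9
  refine le_trans ?_ h10
  rw [Finset.sum_range_succ]
  linarith [(h01 n u hu).1]

/-- step (4): the sums are bounded -/
private lemma step_four (hc : 0 < c) (h0 : ∀ x ∈ Set.Ioo a b, t 0 x = 1)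
    (h01 : ∀ n, ∀ x ∈ Set.Ioo a b, 0 ≤ t n x ∧ t n x ≤ 1)
    (hx : ∀ n, MonotoneOn (t n) (Set.Ioo a b))
    (hd : ∀ n, 1 ≤ n → ∀ x ∈ Set.Ioo a b, ∃ d, HasDerivAt (t n) d x ∧
      c * n * t n x ≤ (∑ j ∈ Finset.range n, t j x) * d)
    {u v : ℝ} (hu : u ∈ Set.Ioo a b) (hv : v ∈ Set.Ioo a b) (huv : u < v)
    (hev : ∀ᶠ n : ℕ in atTop, ∑ j ∈ Finset.range n, t j v ≤ √n) :
    ∃ B : ℝ, 1 ≤ B ∧ ∀ n, ∑ j ∈ Finset.range n, t j u ≤ B := by
  obtain ⟨M, hM⟩ := eventually_atTop.1 hev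
  set δ := c * (v - u) with hδ
  have hδ0 : 0 < δ := mul_pos hc (sub_pos.2 huv)
  set K := 24 / δ ^ 4 with hK
  have hK0 : 0 ≤ K := by positivity
  have hb : ∀ j, t j u ≤ (if j < M + 1 then 1 else 0) + K * (1 / (j : ℝ) ^ 2) := by
    intro j
    have hpos : 0 ≤ K * (1 / (j : ℝ) ^ 2) := by positivity
    split_ifs with h
    · linarith [(h01 j u hu).2]
    · have hj1 : 1 ≤ j := by omega
      have hj0 : (0 : ℝ) < j := by exact_mod_cast hj1
      have h1 := decay hc h0 h01 hx hd hu hv huv.le hj1 (hM j (by omega))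
      have hsq : √(j : ℝ) * √(j : ℝ) = j := Real.mul_self_sqrt hj0.le
      have hs0 : 0 < √(j : ℝ) := Real.sqrt_pos.2 hj0
      have h2 : -(c * j / √(j : ℝ)) * (v - u) = -(δ * √(j : ℝ)) := by
        have : c * j / √(j : ℝ) = c * √(j : ℝ) := by
          rw [div_eq_iff hs0.ne', mul_assoc, hsq]
        rw [this, hδ]
        ring
      rw [h2] at h1
      refine h1.trans ?_
      rw [zero_add]
      have h3 := Real.pow_div_factorial_le_exp (δ * √(j : ℝ)) (by positivity) 4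
      have h4 : (δ * √(j : ℝ)) ^ 4 = δ ^ 4 * (j : ℝ) ^ 2 := by
        rw [mul_pow]
        congr 1
        calc √(j : ℝ) ^ 4 = (√(j : ℝ) * √(j : ℝ)) ^ 2 := by ring
          _ = (j : ℝ) ^ 2 := by rw [hsq]
      rw [h4] at h3
      have h5 : (0 : ℝ) < δ ^ 4 * (j : ℝ) ^ 2 := by positivity
      rw [Real.exp_neg, hK]
      have h6 : (δ ^ 4 * (j : ℝ) ^ 2 / 24)⁻¹ = 24 / δ ^ 4 * (1 / (j : ℝ) ^ 2) := by
        field_simp
      rw [← h6]
      refine inv_anti₀ (by positivity) ?_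
      have h7 : ((Nat.factorial 4 : ℕ) : ℝ) = 24 := by norm_num [Nat.factorial]
      rw [h7] at h3
      exact h3
  have hsm : Summable fun j : ℕ => 1 / (j : ℝ) ^ 2 := Real.summable_one_div_nat_pow.2 (by norm_num)
  refine ⟨(M + 1 : ℕ) + K * ∑' j : ℕ, 1 / (j : ℝ) ^ 2, ?_, ?_⟩
  · have h1 : 0 ≤ ∑' j : ℕ, 1 / (j : ℝ) ^ 2 := tsum_nonneg fun j => by positivity
    have h2 : (0 : ℝ) ≤ M := Nat.cast_nonneg M
    have h3 := mul_nonneg hK0 h1
    push_cast
    linarith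
  · intro n
    refine (Finset.sum_le_sum fun j _ => hb j).trans ?_
    rw [Finset.sum_add_distrib, ← Finset.mul_sum]
    have h3 : ∑ i ∈ Finset.range n, (if i < M + 1 then (1 : ℝ) else 0) ≤ (M + 1 : ℕ) := by
      rw [← Finset.sum_filter, Finset.sum_const, nsmul_eq_mul, mul_one]
      have : ((Finset.range n).filter fun i => i < M + 1) ⊆ Finset.range (M + 1) := by
        intro i hi
        simp only [Finset.mem_filter, Finset.mem_range] at hi ⊢
        exact hi.2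
      exact_mod_cast (Finset.card_le_card this).trans (by simp)
    have h4 : ∑ j ∈ Finset.range n, 1 / (j : ℝ) ^ 2 ≤ ∑' j : ℕ, 1 / (j : ℝ) ^ 2 :=
      hsm.sum_le_tsum _ fun j _ => by positivity
    have h5 := mul_le_mul_of_nonneg_left h4 hK0
    linarith

end

theorem sharp_lemma {t : ℕ → ℝ → ℝ} {a b c : ℝ} (hc : 0 < c)
    (h0 : ∀ x ∈ Set.Ioo a b, t 0 x = 1)
    (h01 : ∀ n, ∀ x ∈ Set.Ioo a b, 0 ≤ t n x ∧ t n x ≤ 1)
    (hn : ∀ x ∈ Set.Ioo a b, ∀ n m, n ≤ m → t m x ≤ t n x)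
    (hx : ∀ n, MonotoneOn (t n) (Set.Ioo a b))
    (hd : ∀ n, 1 ≤ n → ∀ x ∈ Set.Ioo a b, ∃ d, HasDerivAt (t n) d x ∧
      c * n * t n x ≤ (∑ j ∈ Finset.range n, t j x) * d)
    (hlim : ∀ x ∈ Set.Ioo a b, Tendsto (fun n => t n x) atTop (𝓝 0)) :
    ∀ x ∈ Set.Ioo a b, ∃ c' C : ℝ, 0 < c' ∧ 0 < C ∧ ∀ n : ℕ, t n x ≤ C * Real.exp (-c' * n) := by
  intro x hxab
  obtain ⟨x₁, h1, h1b⟩ := exists_between hxab.2
  obtain ⟨x₂, h2, h2b⟩ := exists_between h1b
  obtain ⟨x₃, h3, h3b⟩ := exists_between h2b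
  have m1 : x₁ ∈ Set.Ioo a b := ⟨hxab.1.trans h1, h1b⟩
  have m2 : x₂ ∈ Set.Ioo a b := ⟨m1.1.trans h2, h2b⟩
  have m3 : x₃ ∈ Set.Ioo a b := ⟨m2.1.trans h3, h3b⟩
  have hev := step_two hc h0 h01 hx hd m2 m3 h3 (hlim x₃ m3)
  obtain ⟨B, hB1, hB⟩ := step_four hc h0 h01 hx hd m1 m2 h2 hev
  refine ⟨c / B * (x₁ - x), 1, mul_pos (div_pos hc (by linarith)) (sub_pos.2 h1), one_pos, ?_⟩
  intro n
  rw [one_mul]
  rcases Nat.eq_zero_or_pos n with rfl | hn1
  · simp [h0 x hxab]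
  · refine (decay hc h0 h01 hx hd hxab m1 h1.le hn1 (hB n)).trans (le_of_eq ?_)
    congr 1
    ring

end Pool.Helper71.XD
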