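import Pool.Agent.Helper49.FK.Cond

/-!
Project XD.  Block XD-10a: the domain Markov inequality.

`dom_markov`: let `D ⊆ D'`, `A` increasing, `B` an event which depends only on the edges not inside `D`.  For a fixed
`ζ ⊆ edges D' \ edges D` with `B ζ` (equivalently `B (ω ∪ ζ)` for all `ω ⊆ edges D`) and `a, b ⊆ edges D`:
`wt D a * wt D' (b ∪ ζ) ≤ wt D (a ∩ b) * wt D' (a ∪ b ∪ ζ)`, because `ncl D' a = ncl D a + |D' \ D|` (`ncl_sdiff`), the same for
`a ∩ b`, and `ncl_super` in `D'` for `a` and `b ∪ ζ`, whose intersection is `a ∩ b`.  By the four functions theorem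
(`wt D a * 1_A a`, `wt D' (b ∪ ζ)`, `wt D`, `wt D' (· ∪ ζ) * 1_A (· ∪ ζ)`):
`(∑ a, wt D a * 1_A a) * (∑ b, wt D' (b ∪ ζ)) ≤ (∑ a, wt D a) * (∑ b, wt D' (b ∪ ζ) * 1_A (b ∪ ζ))`.
Sum over `ζ` with `B ζ` (the configurations `ω' ⊆ edges D'` are the `b ∪ ζ`).
-/

namespace Pool.Helper71.XD

open Pool.Helper49.FK

private theorem split_sum (U W : Finset Edge) (hUW : Disjoint U W) (g : Finset Edge → ℝ) :
    ∑ ω ∈ (U ∪ W).powerset, g ω = ∑ ζ ∈ W.powerset, ∑ b ∈ U.powerset, g (b ∪ ζ) := by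
  rw [← Finset.sum_product']
  refine Finset.sum_bij' (fun ω _ => (ω ∩ W, ω ∩ U)) (fun p _ => p.2 ∪ p.1) ?_ ?_ ?_ ?_ ?_
  · intro ω hω
    rw [Finset.mem_product, Finset.mem_powerset, Finset.mem_powerset]
    exact ⟨Finset.inter_subset_right, Finset.inter_subset_right⟩
  · intro p hp
    rw [Finset.mem_product, Finset.mem_powerset, Finset.mem_powerset] at hp
    rw [Finset.mem_powerset]
    exact Finset.union_subset_union hp.2 hp.1
  · intro ω hω
    rw [Finset.mem_powerset] at hω
    ext x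
    simp only [Finset.mem_union, Finset.mem_inter]
    constructor
    · rintro (⟨h, _⟩ | ⟨h, _⟩) <;> exact h
    · intro h
      rcases Finset.mem_union.1 (hω h) with h1 | h1
      · exact Or.inl ⟨h, h1⟩
      · exact Or.inr ⟨h, h1⟩
  · intro p hp
    rw [Finset.mem_product, Finset.mem_powerset, Finset.mem_powerset] at hp
    have hd1 : ∀ x, x ∈ p.2 → x ∉ W := fun x hx hW => Finset.disjoint_left.1 hUW (hp.2 hx) hW
    have hd2 : ∀ x, x ∈ p.1 → x ∉ U := fun x hx hU => Finset.disjoint_left.1 hUW hU (hp.1 hx)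
    refine Prod.ext ?_ ?_
    · ext x
      simp only [Finset.mem_inter, Finset.mem_union]
      constructor
      · rintro ⟨h | h, h'⟩
        · exact absurd h' (hd1 x h)
        · exact h
      · exact fun h => ⟨Or.inr h, hp.1 h⟩
    · ext x
      simp only [Finset.mem_inter, Finset.mem_union]
      constructor
      · rintro ⟨h | h, h'⟩
        · exact h
        · exact absurd h' (hd2 x h)
      · exact fun h => ⟨Or.inl h, hp.2 h⟩
  · intro ω hω
    rw [Finset.mem_powerset] at hω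
    congr 1
    ext x
    simp only [Finset.mem_union, Finset.mem_inter]
    constructor
    · intro h
      rcases Finset.mem_union.1 (hω h) with h1 | h1
      · exact Or.inl ⟨h, h1⟩
      · exact Or.inr ⟨h, h1⟩
    · rintro (⟨h, _⟩ | ⟨h, _⟩) <;> exact h

private theorem wt_ext {q : ℝ} {r : Edge → ℝ} {D D' : Finset (ℤ × ℤ)} (hD : D ⊆ D') {a : Finset Edge}
    (ha : a ⊆ edges D) : wt q r D' a = wt q r D a * q ^ (D' \ D).card := by
  have h1 : D' \ (D' \ D) = D := by
    ext x
    simp only [Finset.mem_sdiff, not_and, not_not]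
    exact ⟨fun h => h.2 h.1, fun h => ⟨hD h, fun _ => h⟩⟩
  have h2 := ncl_sdiff (D := D') (V := D' \ D) (ω := a) (by rw [h1]; exact ha)
  have h3 : (D' \ D) ∩ D' = D' \ D := Finset.inter_eq_left.2 Finset.sdiff_subset
  rw [h1, h3] at h2
  unfold wt
  rw [h2, pow_add, mul_assoc]

open scoped FinsetFamily in
open Classical in
private theorem step {q : ℝ} {r : Edge → ℝ} {D D' : Finset (ℤ × ℤ)} (hq : 1 ≤ q)
    (hr : ∀ e, 0 ≤ r e) (hD : D ⊆ D') {A : Finset Edge → Prop} (hA : Incr A) {ζ : Finset Edge}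
    (hζ : ζ ⊆ edges D' \ edges D) :
    (∑ a ∈ (edges D).powerset, wt q r D a * (if A a then 1 else 0)) *
        ∑ b ∈ (edges D).powerset, wt q r D' (b ∪ ζ) ≤
      (∑ a ∈ (edges D).powerset, wt q r D a) *
        ∑ b ∈ (edges D).powerset, wt q r D' (b ∪ ζ) * (if A (b ∪ ζ) then 1 else 0) := by
  have hq0 : 0 < q := by linarith
  have hn : ∀ (D : Finset (ℤ × ℤ)) (a : Finset Edge), 0 ≤ wt q r D a := fun D a => wt_nonneg hq0 hr a
  have hi : ∀ P : Prop, 0 ≤ (if P then (1 : ℝ) else 0) := by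
    intro P
    split_ifs <;> norm_num
  have key := Finset.four_functions_theorem
    (f₁ := fun a => wt q r D a * (if A a then (1 : ℝ) else 0))
    (f₂ := fun b => wt q r D' (b ∪ ζ))
    (f₃ := fun a => wt q r D a)
    (f₄ := fun b => wt q r D' (b ∪ ζ) * (if A (b ∪ ζ) then (1 : ℝ) else 0)) (edges D)
    (fun a => mul_nonneg (hn D a) (hi _)) (fun b => hn D' _) (fun a => hn D a)
    (fun b => mul_nonneg (hn D' _) (hi _))
    (by
      intro a ha b hb
      show wt q r D a * (if A a then (1 : ℝ) else 0) * wt q r D' (b ∪ ζ) ≤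
        wt q r D (a ∩ b) * (wt q r D' (a ∪ b ∪ ζ) * (if A (a ∪ b ∪ ζ) then (1 : ℝ) else 0))
      by_cases hAa : A a
      · have hA2 : A (a ∪ b ∪ ζ) :=
          hA a _ (Finset.subset_union_left.trans Finset.subset_union_left) hAa
        rw [if_pos hAa, if_pos hA2, mul_one, mul_one]
        have haD' : a ⊆ edges D' := ha.trans (edges_mono hD)
        have hbD' : b ∪ ζ ⊆ edges D' :=
          Finset.union_subset (hb.trans (edges_mono hD)) (hζ.trans Finset.sdiff_subset)
        have h1 := wt_super hq hr haD' hbD'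
        have h2 : a ∩ (b ∪ ζ) = a ∩ b := by
          ext x
          simp only [Finset.mem_inter, Finset.mem_union]
          constructor
          · rintro ⟨h3, h4 | h4⟩
            · exact ⟨h3, h4⟩
            · exact absurd (ha h3) (Finset.mem_sdiff.1 (hζ h4)).2
          · rintro ⟨h3, h4⟩
            exact ⟨h3, Or.inl h4⟩
        rw [h2, ← Finset.union_assoc, wt_ext hD ha,
          wt_ext hD (Finset.inter_subset_left.trans ha)] at h1
        have hk : 0 < q ^ (D' \ D).card := pow_pos hq0 _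
        have h5 : (wt q r D a * wt q r D' (b ∪ ζ)) * q ^ (D' \ D).card ≤
            (wt q r D (a ∩ b) * wt q r D' (a ∪ b ∪ ζ)) * q ^ (D' \ D).card := by
          calc (wt q r D a * wt q r D' (b ∪ ζ)) * q ^ (D' \ D).card
              = wt q r D a * q ^ (D' \ D).card * wt q r D' (b ∪ ζ) := by ring
            _ ≤ _ := h1
            _ = _ := by ring
        exact le_of_mul_le_mul_right h5 hk
      · rw [if_neg hAa, mul_zero, zero_mul]
        exact mul_nonneg (hn _ _) (mul_nonneg (hn _ _) (hi _)))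
    (𝒜 := (edges D).powerset) (ℬ := (edges D).powerset) subset_rfl subset_rfl
  refine key.trans ?_
  have hinf : (edges D).powerset ⊼ (edges D).powerset ⊆ (edges D).powerset := by
    intro ω hω
    obtain ⟨a, ha, b, hb, rfl⟩ := Finset.mem_infs.1 hω
    rw [Finset.mem_powerset] at ha ⊢
    exact Finset.inter_subset_left.trans ha
  have hsup : (edges D).powerset ⊻ (edges D).powerset ⊆ (edges D).powerset := by
    intro ω hω
    obtain ⟨a, ha, b, hb, rfl⟩ := Finset.mem_sups.1 hω
    rw [Finset.mem_powerset] at ha hb ⊢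
    exact Finset.union_subset ha hb
  refine mul_le_mul (Finset.sum_le_sum_of_subset_of_nonneg hinf fun a _ _ => hn D a)
    (Finset.sum_le_sum_of_subset_of_nonneg hsup fun b _ _ => mul_nonneg (hn D' _) (hi _))
    (Finset.sum_nonneg fun b _ => mul_nonneg (hn D' _) (hi _)) (Finset.sum_nonneg fun a _ => hn D a)

theorem dom_markov {q : ℝ} {r : Edge → ℝ} {D D' : Finset (ℤ × ℤ)} (hq : 1 ≤ q) (hr : ∀ e, 0 ≤ r e)
    (hD : D ⊆ D') {A B : Finset Edge → Prop} (hA : Incr A) (hB : ∀ ω, B ω ↔ B (ω \ edges D)) :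
    pr q r D A * pr q r D' B ≤ pr q r D' (fun ω => A ω ∧ B ω) := by
  classical
  have hq0 : 0 < q := by linarith
  have hZ : 0 < Z q r D := Z_pos hq0 hr
  have hZ' : 0 < Z q r D' := Z_pos hq0 hr
  have hU : edges D ∪ (edges D' \ edges D) = edges D' :=
    Finset.union_sdiff_of_subset (edges_mono hD)
  have hdis : Disjoint (edges D) (edges D' \ edges D) := Finset.disjoint_sdiff
  have hBz : ∀ ζ ⊆ edges D' \ edges D, ∀ b ⊆ edges D, (B (b ∪ ζ) ↔ B ζ) := by
    intro ζ hζ b hb
    have h1 : (b ∪ ζ) \ edges D = ζ := by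
      ext x
      simp only [Finset.mem_sdiff, Finset.mem_union]
      constructor
      · rintro ⟨h | h, h'⟩
        · exact absurd (hb h) h'
        · exact h
      · intro h
        exact ⟨Or.inr h, (Finset.mem_sdiff.1 (hζ h)).2⟩
    rw [hB (b ∪ ζ), h1]
  have e1 : ∑ ω ∈ (edges D').powerset, wt q r D' ω * (if B ω then (1 : ℝ) else 0) =
      ∑ ζ ∈ (edges D' \ edges D).powerset, (if B ζ then (1 : ℝ) else 0) *
        ∑ b ∈ (edges D).powerset, wt q r D' (b ∪ ζ) := by
    rw [← hU, split_sum _ _ hdis]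
    rw [hU]
    refine Finset.sum_congr rfl fun ζ hζ => ?_
    rw [Finset.mul_sum]
    refine Finset.sum_congr rfl fun b hb => ?_
    have h1 := hBz ζ (Finset.mem_powerset.1 hζ) b (Finset.mem_powerset.1 hb)
    by_cases h2 : B ζ
    · rw [if_pos h2, if_pos (h1.2 h2)]; ring
    · rw [if_neg h2, if_neg (fun h3 => h2 (h1.1 h3))]; ring
  have e2 : ∑ ω ∈ (edges D').powerset, wt q r D' ω * (if A ω ∧ B ω then (1 : ℝ) else 0) =
      ∑ ζ ∈ (edges D' \ edges D).powerset, (if B ζ then (1 : ℝ) else 0) *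
        ∑ b ∈ (edges D).powerset, wt q r D' (b ∪ ζ) * (if A (b ∪ ζ) then (1 : ℝ) else 0) := by
    rw [← hU, split_sum _ _ hdis]
    rw [hU]
    refine Finset.sum_congr rfl fun ζ hζ => ?_
    rw [Finset.mul_sum]
    refine Finset.sum_congr rfl fun b hb => ?_
    have h1 := hBz ζ (Finset.mem_powerset.1 hζ) b (Finset.mem_powerset.1 hb)
    by_cases h2 : B ζ
    · by_cases h4 : A (b ∪ ζ)
      · rw [if_pos h2, if_pos ⟨h4, h1.2 h2⟩, if_pos h4]; ring
      · rw [if_pos h2, if_neg (fun h5 => h4 h5.1), if_neg h4]; ring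
    · rw [if_neg h2, if_neg (fun h3 => h2 (h1.1 h3.2))]; ring
  unfold pr ex
  have key : (∑ a ∈ (edges D).powerset, wt q r D a * (if A a then (1 : ℝ) else 0)) *
      (∑ ω ∈ (edges D').powerset, wt q r D' ω * (if B ω then (1 : ℝ) else 0)) ≤
      Z q r D * ∑ ω ∈ (edges D').powerset, wt q r D' ω * (if A ω ∧ B ω then (1 : ℝ) else 0) := by
    rw [e1, e2, Finset.mul_sum, Finset.mul_sum]
    refine Finset.sum_le_sum fun ζ hζ => ?_
    have h1 := step hq hr hD hA (Finset.mem_powerset.1 hζ)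
    by_cases h2 : B ζ
    · rw [if_pos h2, one_mul, one_mul]
      unfold Z
      exact h1
    · rw [if_neg h2, zero_mul, zero_mul, mul_zero, mul_zero]
  rw [div_mul_div_comm, div_le_div_iff₀ (mul_pos hZ hZ') hZ']
  calc _ = ((∑ a ∈ (edges D).powerset, wt q r D a * (if A a then (1 : ℝ) else 0)) *
      (∑ ω ∈ (edges D').powerset, wt q r D' ω * (if B ω then (1 : ℝ) else 0))) * Z q r D' := by
        congr 2
    _ ≤ (Z q r D * ∑ ω ∈ (edges D').powerset, wt q r D' ω *
        (if A ω ∧ B ω then (1 : ℝ) else 0)) * Z q r D' := mul_le_mul_of_nonneg_right key hZ'.le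
    _ = _ := by
        rw [mul_comm (Z q r D), mul_assoc]
        congr 1
        exact Finset.sum_congr rfl fun _ _ => by congr

end Pool.Helper71.XD
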