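import Pool.Agent.Helper71.XD.Jen

/-!
Project XD.  Block XD-9a: edge densities of the free and of the wired infinite-volume measures.

* `pr_le_a0`: `D ⊆ bx e.1 L` for large `L`; `pr_mono_D` and the translation by `e.1` (`exists_tr`, `pr_aut`).
* `a1_le_prW`: for `e ∈ edges (box N)` and large `L` (`box (N + 1) ⊆ bx e.1 L`):
  `a1 ≤ prW (box (L + 1)) (ring L) (((0,0), b) ∈ ω) = prW (bx e.1 (L + 1)) (rg e.1 L) (e ∈ ω) ≤ prW (box (N + 1)) (ring N) (e ∈ ω)`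
  (`prW_ring_edge`, `prW_le_ring` with `x = (0,0)`, `m = N`).
* `a0_lim`, `a1_lim`: choose `N` nearly optimal for the edge at the origin; for large `N'` the box `bx e.1 N` is inside
  `box N'`; monotonicity in the domain (`pr_mono_D`, `prW_le_ring` with `x = e.1`).
* `a1_le_a0`: sum `a1_le_prW` and `pr_le_a0` over `e ∈ edges (box N)` in `edge_sum_le`: there are `2 N (2 N + 1)` edges of each
  direction, so `2 N (2 N + 1) * (a1 ρ₁ true + a1 ρ₁ false) ≤ 2 N (2 N + 1) * (a0 ρ₂ true + a0 ρ₂ false) + C * (8 N + 1)`; let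
  `N → ∞`.
-/

namespace Pool.Helper71.XD

open Pool.Helper49.FK

/-- Edge density of the free measure. -/
noncomputable def a0 (q ρ : ℝ) (b : Bool) : ℝ :=
  ⨆ N : ℕ, pr q (hom ρ) (box N) (fun ω => ((0, 0), b) ∈ ω)

/-- Edge density of the wired measure. -/
noncomputable def a1 (q ρ : ℝ) (b : Bool) : ℝ :=
  ⨅ N : ℕ, prW q (hom ρ) (box (N + 1)) (ring N) (fun ω => ((0, 0), b) ∈ ω)

variable {q ρ : ℝ}

private theorem incr53 (e : Edge) : Incr (fun ω => e ∈ ω) := fun _ _ h h' => h h'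

private theorem dep53 {e : Edge} {F : Finset Edge} (h : e ∈ F) : Dep F (fun ω => e ∈ ω) := by
  intro ω
  exact ⟨fun h' => (Finset.mem_inter.1 h').1, fun h' => Finset.mem_inter.2 ⟨h', h⟩⟩

private theorem mem_bx53 {x y : ℤ × ℤ} {n : ℕ} :
    y ∈ bx x n ↔ (x.1 - n ≤ y.1 ∧ y.1 ≤ x.1 + n) ∧ x.2 - n ≤ y.2 ∧ y.2 ≤ x.2 + n := by
  unfold bx
  rw [Finset.mem_product, Finset.mem_Icc, Finset.mem_Icc]

/-- a finite set is contained in all large boxes around `x` -/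
private theorem exists_bx53 (D : Finset (ℤ × ℤ)) (x : ℤ × ℤ) :
    ∃ L : ℕ, ∀ L', L ≤ L' → D ⊆ bx x L' := by
  classical
  refine ⟨∑ p ∈ D, ((p.1 - x.1).natAbs + (p.2 - x.2).natAbs), fun L' hL' p hp => ?_⟩
  have h := Finset.single_le_sum
    (f := fun p : ℤ × ℤ => (p.1 - x.1).natAbs + (p.2 - x.2).natAbs) (fun _ _ => Nat.zero_le _) hp
  have h1 : (p.1 - x.1).natAbs + (p.2 - x.2).natAbs ≤ L' := le_trans h hL'
  rw [mem_bx53]
  refine ⟨⟨?_, ?_⟩, ?_, ?_⟩ <;> omega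

private theorem exists_box53 (D : Finset (ℤ × ℤ)) : ∃ L : ℕ, ∀ L', L ≤ L' → D ⊆ box L' := by
  obtain ⟨L, hL⟩ := exists_bx53 D (0, 0)
  exact ⟨L, fun L' hL' => bx_zero L' ▸ hL L' hL'⟩

/-- translation of the box -/
private theorem box_tr53 {a : Aut} {x : ℤ × ℤ} (ha : ∀ y, a.g y = y + x) (N : ℕ) :
    (box N).map a.g.toEmbedding = bx x N := by
  rw [← bx_zero]
  ext y
  rw [Finset.mem_map, mem_bx53]
  constructor
  · rintro ⟨z, hz, rfl⟩
    rw [mem_bx53] at hz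
    simp only [Equiv.coe_toEmbedding, ha, Prod.fst_add, Prod.snd_add]
    refine ⟨⟨?_, ?_⟩, ?_, ?_⟩ <;> omega
  · intro h
    refine ⟨y - x, ?_, ?_⟩
    · rw [mem_bx53]
      simp only [Prod.fst_sub, Prod.snd_sub]
      refine ⟨⟨?_, ?_⟩, ?_, ?_⟩ <;> omega
    · simp only [Equiv.coe_toEmbedding, ha, sub_add_cancel]

private theorem pr_tr53 (e : Edge) (N : ℕ) :
    pr q (hom ρ) (bx e.1 N) (fun ω => e ∈ ω) =
      pr q (hom ρ) (box N) (fun ω => ((0, 0), e.2) ∈ ω) := by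
  obtain ⟨a, ha, hae⟩ := exists_tr e.1
  have h0 : a.ge ((0, 0), e.2) = e := by
    rw [hae]
    refine Prod.ext ?_ rfl
    simp only
    exact zero_add _
  rw [← box_tr53 ha N, pr_aut]
  refine pr_congr fun ω _ => ?_
  have h1 := Finset.mem_map' a.ge.toEmbedding (a := ((0, 0), e.2)) (s := ω)
  rw [Equiv.coe_toEmbedding, h0] at h1
  exact h1

private theorem bdd53 (hq : 1 ≤ q) (hρ : 0 < ρ) (b : Bool) :
    BddAbove (Set.range fun N : ℕ => pr q (hom ρ) (box N) (fun ω => ((0, 0), b) ∈ ω)) :=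
  ⟨1, by
    rintro _ ⟨N, rfl⟩
    exact pr_le_one (by linarith) (fun _ => hρ.le) _⟩

theorem pr_le_a0 (hq : 1 ≤ q) (hρ : 0 < ρ) (D : Finset (ℤ × ℤ)) (e : Edge) :
    pr q (hom ρ) D (fun ω => e ∈ ω) ≤ a0 q ρ e.2 := by
  obtain ⟨L, hL⟩ := exists_bx53 D e.1
  have h1 := pr_mono_D (r := hom ρ) hq (fun _ => hρ.le) (hL L le_rfl) (incr53 e)
  rw [pr_tr53] at h1
  exact h1.trans (le_ciSup (bdd53 hq hρ e.2) L)

theorem a0_nonneg (hq : 1 ≤ q) (hρ : 0 < ρ) (b : Bool) : 0 ≤ a0 q ρ b :=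
  (pr_nonneg (by linarith) (fun _ => hρ.le) _).trans (le_ciSup (bdd53 hq hρ b) 0)

theorem a0_le_one (hq : 1 ≤ q) (hρ : 0 < ρ) (b : Bool) : a0 q ρ b ≤ 1 :=
  ciSup_le fun N => pr_le_one (by linarith) (fun _ => hρ.le) _

theorem a0_mono (hq : 1 ≤ q) (hρ : 0 < ρ) {ρ' : ℝ} (h : ρ ≤ ρ') (b : Bool) :
    a0 q ρ b ≤ a0 q ρ' b :=
  ciSup_mono (bdd53 hq (hρ.trans_le h) b) fun N =>
    pr_mono_r hq (fun _ => hρ.le) (fun _ => h) (incr53 _)

private theorem bddb53 (hq : 1 ≤ q) (hρ : 0 < ρ) (b : Bool) :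
    BddBelow (Set.range fun N : ℕ =>
      prW q (hom ρ) (box (N + 1)) (ring N) (fun ω => ((0, 0), b) ∈ ω)) :=
  ⟨0, by
    rintro _ ⟨N, rfl⟩
    exact prW_nonneg (by linarith) (fun _ => hρ.le) _ _⟩

theorem a1_le_prW (hq : 1 ≤ q) (hρ : 0 < ρ) {N : ℕ} {e : Edge} (he : e ∈ edges (box N)) :
    a1 q ρ e.2 ≤ prW q (hom ρ) (box (N + 1)) (ring N) (fun ω => e ∈ ω) := by
  obtain ⟨L, hL⟩ := exists_bx53 (box (N + 1)) e.1
  have h1 := ciInf_le (bddb53 hq hρ e.2) L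
  have h2 := prW_ring_edge (q := q) (ρ := ρ) e.1 L e.2
  have hsub : edges (box N) ⊆ edges (bx e.1 L) := by
    refine edges_mono ((?_ : box N ⊆ box (N + 1)).trans (hL L le_rfl))
    rw [← bx_zero, ← bx_zero]
    intro y hy
    rw [mem_bx53] at *
    push_cast
    refine ⟨⟨?_, ?_⟩, ?_, ?_⟩ <;> omega
  have h3 := prW_le_ring (q := q) (ρ := ρ) (D := bx e.1 (L + 1)) (x := (0, 0)) (m := N)
    (F := rg e.1 L) hq hρ (incr53 e) (dep53 (by rw [bx_zero]; exact he))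
    Finset.sdiff_subset (by
      rw [bx_zero]
      exact Finset.sdiff_disjoint.mono_right hsub)
  rw [bx_zero, rg_zero] at h3
  have h4 : (fun ω : Finset Edge => e ∈ ω) = fun ω => (e.1, e.2) ∈ ω := rfl
  rw [← h4] at h2
  calc a1 q ρ e.2 ≤ prW q (hom ρ) (box (L + 1)) (ring L) (fun ω => ((0, 0), e.2) ∈ ω) := h1
    _ = prW q (hom ρ) (bx e.1 (L + 1)) (rg e.1 L) (fun ω => e ∈ ω) := h2.symm
    _ ≤ _ := h3

theorem a0_lim (hq : 1 ≤ q) (hρ : 0 < ρ) (e : Edge) {ε : ℝ} (hε : 0 < ε) :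
    ∃ N₀ : ℕ, ∀ N, N₀ ≤ N → a0 q ρ e.2 - ε ≤ pr q (hom ρ) (box N) (fun ω => e ∈ ω) := by
  have h1 : a0 q ρ e.2 - ε < ⨆ N : ℕ, pr q (hom ρ) (box N) (fun ω => ((0, 0), e.2) ∈ ω) := by
    change a0 q ρ e.2 - ε < a0 q ρ e.2
    linarith
  obtain ⟨N₁, hN₁⟩ := exists_lt_of_lt_ciSup h1
  obtain ⟨N₀, hN₀⟩ := exists_box53 (bx e.1 N₁)
  refine ⟨N₀, fun N hN => hN₁.le.trans ?_⟩
  rw [← pr_tr53 e N₁]
  exact pr_mono_D hq (fun _ => hρ.le) (hN₀ N hN) (incr53 e)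

/-- in the ring around the origin the edge is open -/
private theorem prW_zero53 (hq : 1 ≤ q) (hρ : 0 < ρ) (b : Bool) :
    prW q (hom ρ) (box (0 + 1)) (ring 0) (fun ω => ((0, 0), b) ∈ ω) = 1 := by
  have hmem : ((0, 0), b) ∈ ring 0 := by
    unfold ring
    rw [Finset.mem_sdiff, mem_edges, mem_edges, ← bx_zero, ← bx_zero, mem_bx53, mem_bx53,
      mem_bx53, mem_bx53]
    cases b <;> simp [tip]
  have h0 : (0 : ℝ) < q := by linarith
  unfold prW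
  have h1 : pr q (hom ρ) (box (0 + 1)) (fun ω => ring 0 ⊆ ω ∧ ((0, 0), b) ∈ ω) =
      pr q (hom ρ) (box (0 + 1)) (fun ω => ring 0 ⊆ ω) :=
    pr_congr fun ω _ => ⟨fun h => h.1, fun h => ⟨h, h hmem⟩⟩
  rw [h1]
  refine div_self (pr_open_pos h0 (fun _ => hρ.le) Finset.sdiff_subset fun _ _ => hρ).ne'

private theorem mem_edges_bx53 (e : Edge) {m : ℕ} (hm : 1 ≤ m) : e ∈ edges (bx e.1 m) := by
  rw [mem_edges, mem_bx53, mem_bx53]
  unfold tip
  split_ifs <;> simp only <;> refine ⟨⟨⟨?_, ?_⟩, ?_, ?_⟩, ⟨?_, ?_⟩, ?_, ?_⟩ <;> omega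

theorem a1_lim (hq : 1 ≤ q) (hρ : 0 < ρ) (e : Edge) {ε : ℝ} (hε : 0 < ε) :
    ∃ N₀ : ℕ, ∀ N, N₀ ≤ N → prW q (hom ρ) (box (N + 1)) (ring N) (fun ω => e ∈ ω) ≤
      a1 q ρ e.2 + ε := by
  have h1 : (⨅ N : ℕ, prW q (hom ρ) (box (N + 1)) (ring N) (fun ω => ((0, 0), e.2) ∈ ω)) <
      a1 q ρ e.2 + ε := by
    change a1 q ρ e.2 < a1 q ρ e.2 + ε
    linarith
  obtain ⟨N₁, hN₁⟩ := exists_lt_of_ciInf_lt h1
  rcases Nat.eq_zero_or_pos N₁ with h0 | h0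
  · rw [h0, prW_zero53 hq hρ] at hN₁
    exact ⟨0, fun N _ => (prW_le_one (by linarith) (fun _ => hρ.le) _ _).trans hN₁.le⟩
  · obtain ⟨N₀, hN₀⟩ := exists_box53 (bx e.1 N₁)
    refine ⟨N₀, fun N hN => le_trans ?_ hN₁.le⟩
    have h2 := prW_ring_edge (q := q) (ρ := ρ) e.1 N₁ e.2
    have h3 := prW_le_ring (q := q) (ρ := ρ) (D := box (N + 1)) (x := e.1) (m := N₁)
      (F := ring N) hq hρ (incr53 e) (dep53 (mem_edges_bx53 e h0)) Finset.sdiff_subset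
      (Finset.sdiff_disjoint.mono_right (edges_mono (hN₀ N hN)))
    exact h3.trans h2.le

theorem a0_le_a1 (hq : 1 ≤ q) (hρ : 0 < ρ) (b : Bool) : a0 q ρ b ≤ a1 q ρ b := by
  refine ciSup_le fun N => le_ciInf fun M => ?_
  rcases Nat.eq_zero_or_pos M with h0 | h0
  · rw [h0, prW_zero53 hq hρ]
    exact pr_le_one (by linarith) (fun _ => hρ.le) _
  · have h1 := prW_le_ring (q := q) (ρ := ρ) (D := box N) (x := (0, 0)) (m := M) (F := ∅)
      hq hρ (incr53 ((0, 0), b)) (dep53 (mem_edges_bx53 ((0, 0), b) h0)) (Finset.empty_subset _)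
      (Finset.disjoint_empty_left _)
    have hq0 : (0 : ℝ) < q := by linarith
    have hr : ∀ e, 0 ≤ hom ρ e := fun _ => hρ.le
    rw [prW_empty hq0 hr, bx_zero, rg_zero] at h1
    exact h1

/-- the number of the edges of each direction -/
private theorem card_dir53 (N : ℕ) (b : Bool) :
    ((edges (box N)).filter fun e => e.2 = b).card = 2 * N * (2 * N + 1) := by
  have hb : ∀ y : ℤ × ℤ, y ∈ box N ↔ (-(N : ℤ) ≤ y.1 ∧ y.1 ≤ N) ∧ -(N : ℤ) ≤ y.2 ∧ y.2 ≤ N := by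
    intro y
    unfold box
    rw [Finset.mem_product, Finset.mem_Icc, Finset.mem_Icc]
  cases b
  · have h : ((edges (box N)).filter fun e => e.2 = false) =
        (Finset.Icc (-(N : ℤ)) N ×ˢ Finset.Icc (-(N : ℤ)) (N - 1)) ×ˢ {false} := by
      ext ⟨⟨x, y⟩, b⟩
      rw [Finset.mem_filter, mem_edges, hb, hb, Finset.mem_product, Finset.mem_product,
        Finset.mem_Icc, Finset.mem_Icc, Finset.mem_singleton]
      cases b
      · simp only [tip]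
        constructor
        · rintro ⟨h1, -⟩
          simp only [Bool.false_eq_true, if_false] at h1
          refine ⟨⟨⟨?_, ?_⟩, ?_, ?_⟩, trivial⟩ <;> omega
        · rintro ⟨h1, -⟩
          simp only [Bool.false_eq_true, if_false]
          refine ⟨⟨⟨⟨?_, ?_⟩, ?_, ?_⟩, ⟨?_, ?_⟩, ?_, ?_⟩, trivial⟩ <;> omega
      · simp
    rw [h, Finset.card_product, Finset.card_product, Int.card_Icc, Int.card_Icc,
      Finset.card_singleton, mul_one]
    have h1 : ((N : ℤ) + 1 - -(N : ℤ)).toNat = 2 * N + 1 := by omega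
    have h2 : ((N : ℤ) - 1 + 1 - -(N : ℤ)).toNat = 2 * N := by omega
    rw [h1, h2, mul_comm]
  · have h : ((edges (box N)).filter fun e => e.2 = true) =
        (Finset.Icc (-(N : ℤ)) (N - 1) ×ˢ Finset.Icc (-(N : ℤ)) N) ×ˢ {true} := by
      ext ⟨⟨x, y⟩, b⟩
      rw [Finset.mem_filter, mem_edges, hb, hb, Finset.mem_product, Finset.mem_product,
        Finset.mem_Icc, Finset.mem_Icc, Finset.mem_singleton]
      cases b
      · simp
      · simp only [tip]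
        constructor
        · rintro ⟨h1, -⟩
          simp only [if_true] at h1
          refine ⟨⟨⟨?_, ?_⟩, ?_, ?_⟩, trivial⟩ <;> omega
        · rintro ⟨h1, -⟩
          simp only [if_true]
          refine ⟨⟨⟨⟨?_, ?_⟩, ?_, ?_⟩, ⟨?_, ?_⟩, ?_, ?_⟩, trivial⟩ <;> omega
    rw [h, Finset.card_product, Finset.card_product, Int.card_Icc, Int.card_Icc,
      Finset.card_singleton, mul_one]
    have h1 : ((N : ℤ) + 1 - -(N : ℤ)).toNat = 2 * N + 1 := by omega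
    have h2 : ((N : ℤ) - 1 + 1 - -(N : ℤ)).toNat = 2 * N := by omega
    rw [h1, h2]

private theorem sum_dir53 (N : ℕ) (f : Bool → ℝ) :
    ∑ e ∈ edges (box N), f e.2 = (2 * N * (2 * N + 1) : ℕ) * (f true + f false) := by
  rw [← Finset.sum_filter_add_sum_filter_not (edges (box N)) (fun e => e.2 = true)]
  have h1 : ∑ e ∈ (edges (box N)).filter (fun e => e.2 = true), f e.2 =
      (2 * N * (2 * N + 1) : ℕ) * f true := by
    rw [← card_dir53 N true, ← nsmul_eq_mul, ← Finset.sum_const]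
    refine Finset.sum_congr rfl fun e he => ?_
    rw [(Finset.mem_filter.1 he).2]
  have h2 : ∑ e ∈ (edges (box N)).filter (fun e => ¬ e.2 = true), f e.2 =
      (2 * N * (2 * N + 1) : ℕ) * f false := by
    have h3 : ((edges (box N)).filter fun e => ¬ e.2 = true) =
        (edges (box N)).filter fun e => e.2 = false := by
      refine Finset.filter_congr fun e _ => ?_
      rw [Bool.not_eq_true]
    rw [h3, ← card_dir53 N false, ← nsmul_eq_mul, ← Finset.sum_const]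
    refine Finset.sum_congr rfl fun e he => ?_
    rw [(Finset.mem_filter.1 he).2]
  rw [h1, h2]
  ring

theorem a1_le_a0 (hq : 1 ≤ q) {ρ₁ ρ₂ : ℝ} (h₁ : 0 < ρ₁) (h₁₂ : ρ₁ < ρ₂) :
    a1 q ρ₁ true + a1 q ρ₁ false ≤ a0 q ρ₂ true + a0 q ρ₂ false := by
  obtain ⟨C, hC⟩ : ∃ C, C = Real.log q / Real.log (ρ₂ / ρ₁) := ⟨_, rfl⟩
  have hC0 : 0 ≤ C := by
    rw [hC]
    exact div_nonneg (Real.log_nonneg hq)
      (Real.log_nonneg ((one_le_div h₁).2 h₁₂.le))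
  obtain ⟨A, hA⟩ : ∃ A, A = a1 q ρ₁ true + a1 q ρ₁ false := ⟨_, rfl⟩
  obtain ⟨B, hB⟩ : ∃ B, B = a0 q ρ₂ true + a0 q ρ₂ false := ⟨_, rfl⟩
  rw [← hA, ← hB]
  have key : ∀ N : ℕ, (2 * N * (2 * N + 1) : ℕ) * A ≤ (2 * N * (2 * N + 1) : ℕ) * B +
      (8 * N + 1) * C := by
    intro N
    have h1 := edge_sum_le hq h₁ h₁₂ N
    have h2 : ∑ e ∈ edges (box N), a1 q ρ₁ e.2 ≤
        ∑ e ∈ edges (box N), prW q (hom ρ₁) (box (N + 1)) (ring N) (fun ω => e ∈ ω) :=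
      Finset.sum_le_sum fun e he => a1_le_prW hq h₁ he
    have h3 : ∑ e ∈ edges (box N), pr q (hom ρ₂) (box N) (fun ω => e ∈ ω) ≤
        ∑ e ∈ edges (box N), a0 q ρ₂ e.2 :=
      Finset.sum_le_sum fun e _ => pr_le_a0 hq (h₁.trans h₁₂) _ e
    rw [sum_dir53 N (fun b => a1 q ρ₁ b)] at h2
    rw [sum_dir53 N (fun b => a0 q ρ₂ b)] at h3
    rw [mul_div_assoc, ← hC] at h1
    rw [← hA] at h2
    rw [← hB] at h3
    linarith
  by_contra hlt
  push Not at hlt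
  obtain ⟨δ, hδ⟩ : ∃ δ, δ = A - B := ⟨_, rfl⟩
  have hδ0 : 0 < δ := by rw [hδ]; linarith
  obtain ⟨N, hN⟩ := exists_nat_gt (9 * C / (4 * δ))
  have hN0 : (0 : ℝ) ≤ 9 * C / (4 * δ) := by positivity
  have hNpos : (0 : ℝ) < N := lt_of_le_of_lt hN0 hN
  have hN1 : (1 : ℝ) ≤ N := by
    have : 0 < N := by exact_mod_cast hNpos
    exact_mod_cast this
  have h1 := key N
  push_cast at h1
  have h2 : 2 * (N : ℝ) * (2 * N + 1) * δ ≤ (8 * N + 1) * C := by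
    rw [hδ]
    linarith
  rw [div_lt_iff₀ (by positivity)] at hN
  -- `9 C < 4 N δ`
  have h3 : (8 * (N : ℝ) + 1) * C ≤ 9 * N * C :=
    mul_le_mul_of_nonneg_right (by linarith) hC0
  have h4 : 9 * (N : ℝ) * C < N * (N * (4 * δ)) := by
    have := mul_lt_mul_of_pos_left hN hNpos
    linarith
  have h5 : (N : ℝ) * (N * (4 * δ)) ≤ 2 * (N : ℝ) * (2 * N + 1) * δ := by
    have h6 : 0 ≤ 2 * (N : ℝ) * δ := by positivity
    linarith
  linarith

end Pool.Helper71.XD
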