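import Pool.Agent.Helper71.XD.Par
import Pool.Agent.Helper49.FK.Comp

/-!
Project XD.  Block XD-13: Euler's formula for the percolation configurations in the box and duality of the weights.

`D = box M`, the dual domain is the set of the faces `dbox M = [-M - 1, M] ^ 2`; the dual configuration of `ω ⊆ edges D` is
`ds M ω = edges (dbox M) \ ω.image du`.

PROOF of `euler`.  `du` maps `edges (box M)` into `edges (dbox M)` and is injective.  For `e ∈ edges (box M) \ ω`:
`ds M ω = insert (du e) (ds M (insert e ω))`.  Put `Δ ω = ncl D ω + |ω| - ncl (dbox M) (ds M ω)` (an integer).  By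
`ncl_insert_of_conn`, `ncl_insert_of_not_conn` (for `e` and for `du e`)
`Δ (insert e ω) - Δ ω = 1 - [¬ Conn ω e] - [¬ Conn (ds M (insert e ω)) (du e)] ≤ 0` by `not_both`.  So `Δ` is nonincreasing
when edges are added: `Δ (edges D) ≤ Δ ω ≤ Δ ∅`.  And `Δ ∅ = |D| - ncl (dbox M) (edges (dbox M)) = |D| - 1`
(the grid is connected), `Δ (edges D) = 1 + |edges D| - ncl (dbox M) (ds M (edges D)) ≥ |D| - 1`, because
`|edges D| = 2 (2M) (2M + 1)`, `|D| = (2M + 1) ^ 2` and `ncl (dbox M) (ds M (edges D)) ≤ 1 + (2M) ^ 2` (the outermost faces, those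
with a coordinate `-M - 1` or `M`, are joined to each other by the edges which do not cross edges of `D`).
PROOF of `wt_dual`: `wt q (hom ρ) D ω = ρ ^ |ω| * q ^ ncl D ω`, `ncl D ω = ncl (dbox M) (ds M ω) + |D| - 1 - |ω|` and
`|ds M ω| = |edges (dbox M)| - |ω|`.
-/

namespace Pool.Helper71.XD

open Pool.Helper49.FK

/-- The faces of the box and around it. -/
noncomputable def dbox (M : ℕ) : Finset (ℤ × ℤ) :=
  Finset.Icc (-(M : ℤ) - 1) M ×ˢ Finset.Icc (-(M : ℤ) - 1) M

/-- The dual configuration. -/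
noncomputable def ds (M : ℕ) (ω : Finset Edge) : Finset Edge := edges (dbox M) \ ω.image du

private theorem mem_box26 {M : ℕ} {x : ℤ × ℤ} :
    x ∈ box M ↔ (-(M : ℤ) ≤ x.1 ∧ x.1 ≤ M) ∧ (-(M : ℤ) ≤ x.2 ∧ x.2 ≤ M) := by
  unfold box
  rw [Finset.mem_product, Finset.mem_Icc, Finset.mem_Icc]

private theorem mem_dbox26 {M : ℕ} {x : ℤ × ℤ} :
    x ∈ dbox M ↔ (-(M : ℤ) - 1 ≤ x.1 ∧ x.1 ≤ M) ∧ (-(M : ℤ) - 1 ≤ x.2 ∧ x.2 ≤ M) := by
  unfold dbox
  rw [Finset.mem_product, Finset.mem_Icc, Finset.mem_Icc]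

private theorem tip_t26 (x : ℤ × ℤ) : tip (x, true) = (x.1 + 1, x.2) := rfl

private theorem tip_f26 (x : ℤ × ℤ) : tip (x, false) = (x.1, x.2 + 1) := rfl

private theorem du_t26 (x : ℤ × ℤ) : du (x, true) = ((x.1, x.2 - 1), false) := rfl

private theorem du_f26 (x : ℤ × ℤ) : du (x, false) = ((x.1 - 1, x.2), true) := rfl

theorem du_mem {M : ℕ} {e : Edge} (he : e ∈ edges (box M)) : du e ∈ edges (dbox M) := by
  obtain ⟨x, b⟩ := e
  rw [mem_edges, mem_box26, mem_box26] at he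
  rw [mem_edges, mem_dbox26, mem_dbox26]
  cases b
  · rw [tip_f26] at he
    rw [du_f26, tip_t26]
    simp only at he ⊢
    refine ⟨⟨⟨?_, ?_⟩, ?_, ?_⟩, ⟨?_, ?_⟩, ?_, ?_⟩ <;> omega
  · rw [tip_t26] at he
    rw [du_t26, tip_f26]
    simp only at he ⊢
    refine ⟨⟨⟨?_, ?_⟩, ?_, ?_⟩, ⟨?_, ?_⟩, ?_, ?_⟩ <;> omega

private theorem du_inj26 {e e' : Edge} (h : du e = du e') : e = e' := by
  rw [← dv_du e, ← dv_du e', h]

/-- A full rectangle is connected. -/
theorem rect_conn {a b c d : ℤ} {x y : ℤ × ℤ} (hx : x ∈ Finset.Icc a b ×ˢ Finset.Icc c d)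
    (hy : y ∈ Finset.Icc a b ×ˢ Finset.Icc c d) :
    Conn (edges (Finset.Icc a b ×ˢ Finset.Icc c d)) x y := by
  have hm : ∀ z : ℤ × ℤ, z ∈ Finset.Icc a b ×ˢ Finset.Icc c d ↔
      (a ≤ z.1 ∧ z.1 ≤ b) ∧ (c ≤ z.2 ∧ z.2 ≤ d) := by
    intro z
    rw [Finset.mem_product, Finset.mem_Icc, Finset.mem_Icc]
  have hh : ∀ (n : ℕ) (p : ℤ × ℤ), p ∈ Finset.Icc a b ×ˢ Finset.Icc c d → p.1 + n ≤ b →
      Conn (edges (Finset.Icc a b ×ˢ Finset.Icc c d)) p (p.1 + n, p.2) := by
    intro n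
    induction n with
    | zero =>
      intro p _ _
      have h1 : (p.1 + ((0 : ℕ) : ℤ), p.2) = p := Prod.ext (by simp) rfl
      rw [h1]
      exact Conn.refl _ _
    | succ n ih =>
      intro p hp hb
      have hp' := (hm p).1 hp
      push_cast at hb
      refine (ih p hp (by omega)).trans ?_
      have h1 : ((p.1 + (n : ℤ), p.2), true) ∈ edges (Finset.Icc a b ×ˢ Finset.Icc c d) := by
        rw [mem_edges, hm, hm, tip_t26]
        simp only
        refine ⟨⟨⟨?_, ?_⟩, ?_, ?_⟩, ⟨?_, ?_⟩, ?_, ?_⟩ <;> omega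
      have h2 := conn_edge h1
      rw [tip_t26] at h2
      have h3 : (p.1 + ((n + 1 : ℕ) : ℤ), p.2) = ((p.1 + (n : ℤ), p.2).1 + 1, (p.1 + (n : ℤ), p.2).2) := by
        refine Prod.ext ?_ rfl
        simp only
        push_cast
        ring
      rw [h3]
      exact h2
  have hv : ∀ (n : ℕ) (p : ℤ × ℤ), p ∈ Finset.Icc a b ×ˢ Finset.Icc c d → p.2 + n ≤ d →
      Conn (edges (Finset.Icc a b ×ˢ Finset.Icc c d)) p (p.1, p.2 + n) := by
    intro n
    induction n with
    | zero =>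
      intro p _ _
      have h1 : (p.1, p.2 + ((0 : ℕ) : ℤ)) = p := Prod.ext rfl (by simp)
      rw [h1]
      exact Conn.refl _ _
    | succ n ih =>
      intro p hp hb
      have hp' := (hm p).1 hp
      push_cast at hb
      refine (ih p hp (by omega)).trans ?_
      have h1 : ((p.1, p.2 + (n : ℤ)), false) ∈ edges (Finset.Icc a b ×ˢ Finset.Icc c d) := by
        rw [mem_edges, hm, hm, tip_f26]
        simp only
        refine ⟨⟨⟨?_, ?_⟩, ?_, ?_⟩, ⟨?_, ?_⟩, ?_, ?_⟩ <;> omega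
      have h2 := conn_edge h1
      rw [tip_f26] at h2
      have h3 : (p.1, p.2 + ((n + 1 : ℕ) : ℤ)) = ((p.1, p.2 + (n : ℤ)).1, (p.1, p.2 + (n : ℤ)).2 + 1) := by
        refine Prod.ext rfl ?_
        simp only
        push_cast
        ring
      rw [h3]
      exact h2
  have key : ∀ z : ℤ × ℤ, z ∈ Finset.Icc a b ×ˢ Finset.Icc c d →
      Conn (edges (Finset.Icc a b ×ˢ Finset.Icc c d)) (a, c) z := by
    intro z hz
    have hz' := (hm z).1 hz
    have h1 := hh (z.1 - a).toNat (a, c) ((hm _).2 ⟨⟨le_rfl, by omega⟩, le_rfl, by omega⟩)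
      (by simp only; omega)
    have h2 : ((a, c).1 + ((z.1 - a).toNat : ℤ), (a, c).2) = (z.1, c) := by
      refine Prod.ext ?_ rfl
      simp only
      omega
    rw [h2] at h1
    have h3 := hv (z.2 - c).toNat (z.1, c) ((hm _).2 ⟨hz'.1, le_rfl, by simp only; omega⟩)
      (by simp only; omega)
    have h4 : ((z.1, c).1, (z.1, c).2 + ((z.2 - c).toNat : ℤ)) = z := by
      refine Prod.ext rfl ?_
      simp only
      omega
    rw [h4] at h3
    exact h1.trans h3
  exact (key x hx).symm.trans (key y hy)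

open Classical in
private theorem ncl_pos26 {D : Finset (ℤ × ℤ)} {ω : Finset Edge} (h : D.Nonempty) : 1 ≤ ncl D ω := by
  unfold ncl
  exact Finset.card_pos.2 (h.image _)

open Classical in
private theorem ncl_le26 {D I : Finset (ℤ × ℤ)} {η : Finset Edge} {c : ℤ × ℤ}
    (h : ∀ x ∈ D, x ∉ I → Conn η c x) : ncl D η ≤ I.card + 1 := by
  unfold ncl
  have h1 : (D.image fun x => (gr η).connectedComponentMk x) ⊆
      insert ((gr η).connectedComponentMk c) (I.image fun x => (gr η).connectedComponentMk x) := by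
    intro y hy
    rw [Finset.mem_image] at hy
    obtain ⟨x, hx, rfl⟩ := hy
    rw [Finset.mem_insert]
    by_cases hxI : x ∈ I
    · exact Or.inr (Finset.mem_image_of_mem _ hxI)
    · refine Or.inl (SimpleGraph.ConnectedComponent.eq.2 ?_)
      exact (h x hx hxI).symm
  refine (Finset.card_le_card h1).trans ((Finset.card_insert_le _ _).trans ?_)
  exact Nat.add_le_add_right Finset.card_image_le 1

private theorem ds_insert26 {M : ℕ} {ω : Finset Edge} {e : Edge} (he : e ∈ edges (box M))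
    (heω : e ∉ ω) : ds M ω = insert (du e) (ds M (insert e ω)) ∧ du e ∉ ds M (insert e ω) := by
  have h1 : du e ∉ ω.image du := by
    intro h
    rw [Finset.mem_image] at h
    obtain ⟨e', he', h'⟩ := h
    rw [du_inj26 h'] at he'
    exact heω he'
  have h2 : du e ∉ ds M (insert e ω) := by
    unfold ds
    rw [Finset.mem_sdiff]
    exact fun h => h.2 (Finset.mem_image_of_mem _ (Finset.mem_insert_self e ω))
  refine ⟨?_, h2⟩
  ext f
  unfold ds
  rw [Finset.mem_insert, Finset.mem_sdiff, Finset.mem_sdiff, Finset.image_insert, Finset.mem_insert]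
  constructor
  · rintro ⟨h3, h4⟩
    by_cases h5 : f = du e
    · exact Or.inl h5
    · exact Or.inr ⟨h3, fun h => h.elim h5 h4⟩
  · rintro (h3 | ⟨h3, h4⟩)
    · rw [h3]
      exact ⟨du_mem he, h1⟩
    · exact ⟨h3, fun h => h4 (Or.inr h)⟩

/-- adding an edge -/
private theorem step26 {M : ℕ} {ω : Finset Edge} {e : Edge} (he : e ∈ edges (box M)) (heω : e ∉ ω) :
    ncl (box M) (insert e ω) + 1 + ncl (dbox M) (ds M ω) ≤
      ncl (box M) ω + ncl (dbox M) (ds M (insert e ω)) := by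
  obtain ⟨h1, h2⟩ := ds_insert26 he heω
  have hcross : ∀ e' ∈ ω, du e' ∉ ds M (insert e ω) := by
    intro e' he' h
    unfold ds at h
    rw [Finset.mem_sdiff] at h
    exact h.2 (Finset.mem_image_of_mem _ (Finset.mem_insert_of_mem he'))
  rw [h1]
  by_cases h3 : Conn ω e.1 (tip e)
  · rw [ncl_insert_of_conn h3]
    have h4 := ncl_insert_of_not_conn (du_mem he) (not_both hcross heω h2 h3)
    omega
  · have h4 := ncl_insert_of_not_conn he h3
    by_cases h5 : Conn (ds M (insert e ω)) (du e).1 (tip (du e))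
    · rw [ncl_insert_of_conn h5]
      omega
    · have h6 := ncl_insert_of_not_conn (du_mem he) h5
      omega

private theorem upper26 {M : ℕ} (ω : Finset Edge) (hω : ω ⊆ edges (box M)) :
    ncl (box M) ω + ω.card + 1 ≤ ncl (dbox M) (ds M ω) + (box M).card := by
  induction ω using Finset.induction_on with
  | empty =>
    rw [ncl_empty, Finset.card_empty]
    have h1 : (dbox M).Nonempty := ⟨(0, 0), by rw [mem_dbox26]; simp only; omega⟩
    have h2 := ncl_pos26 (ω := ds M ∅) h1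
    omega
  | insert e ω he ih =>
    have h1 := ih fun x hx => hω (Finset.mem_insert_of_mem hx)
    have h2 := step26 (M := M) (hω (Finset.mem_insert_self e ω)) he
    rw [Finset.card_insert_of_notMem he]
    omega

private theorem lower26 {M : ℕ} (h : ncl (dbox M) (ds M (edges (box M))) + (box M).card ≤
      ncl (box M) (edges (box M)) + (edges (box M)).card + 1)
    (ξ : Finset Edge) (hξ : ξ ⊆ edges (box M)) :
    ncl (dbox M) (ds M (edges (box M) \ ξ)) + (box M).card ≤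
      ncl (box M) (edges (box M) \ ξ) + (edges (box M) \ ξ).card + 1 := by
  induction ξ using Finset.induction_on with
  | empty =>
    rw [Finset.sdiff_empty]
    exact h
  | insert e ξ he ih =>
    have h1 := ih fun x hx => hξ (Finset.mem_insert_of_mem hx)
    have he' : e ∈ edges (box M) := hξ (Finset.mem_insert_self e ξ)
    have he2 : e ∉ edges (box M) \ insert e ξ := fun h =>
      (Finset.mem_sdiff.1 h).2 (Finset.mem_insert_self e ξ)
    have h2 := step26 (M := M) he' he2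
    have h3 : insert e (edges (box M) \ insert e ξ) = edges (box M) \ ξ := by
      ext f
      rw [Finset.mem_insert, Finset.mem_sdiff, Finset.mem_sdiff, Finset.mem_insert]
      constructor
      · rintro (rfl | ⟨h4, h5⟩)
        · exact ⟨he', he⟩
        · exact ⟨h4, fun h => h5 (Or.inr h)⟩
      · rintro ⟨h4, h5⟩
        by_cases h6 : f = e
        · exact Or.inl h6
        · exact Or.inr ⟨h4, fun h => h.elim h6 h5⟩
    have h4 := Finset.card_insert_of_notMem he2
    rw [h3] at h2 h4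
    omega

private theorem box_card26 (M : ℕ) : (box M).card = (2 * M + 1) * (2 * M + 1) := by
  unfold box
  rw [Finset.card_product, Int.card_Icc]
  have h1 : ((M : ℤ) + 1 - -(M : ℤ)).toNat = 2 * M + 1 := by omega
  rw [h1]

private theorem edges_card26 (M : ℕ) : 2 * (2 * M * (2 * M + 1)) ≤ (edges (box M)).card := by
  set A : Finset Edge := (Finset.Icc (-(M : ℤ)) (M - 1) ×ˢ Finset.Icc (-(M : ℤ)) M) ×ˢ {true} with hA
  set B : Finset Edge := (Finset.Icc (-(M : ℤ)) M ×ˢ Finset.Icc (-(M : ℤ)) (M - 1)) ×ˢ {false} with hB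
  have h1 : ((M : ℤ) + 1 - -(M : ℤ)).toNat = 2 * M + 1 := by omega
  have h2 : ((M : ℤ) - 1 + 1 - -(M : ℤ)).toNat = 2 * M := by omega
  have hAc : A.card = 2 * M * (2 * M + 1) := by
    rw [hA, Finset.card_product, Finset.card_product, Int.card_Icc, Int.card_Icc, h1, h2,
      Finset.card_singleton, mul_one]
  have hBc : B.card = 2 * M * (2 * M + 1) := by
    rw [hB, Finset.card_product, Finset.card_product, Int.card_Icc, Int.card_Icc, h1, h2,
      Finset.card_singleton, mul_one, mul_comm]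
  have hd : Disjoint A B := by
    rw [Finset.disjoint_left]
    rintro ⟨x, b⟩ h3 h4
    rw [hA, Finset.mem_product, Finset.mem_singleton] at h3
    rw [hB, Finset.mem_product, Finset.mem_singleton] at h4
    have h5 : b = true := h3.2
    have h6 : b = false := h4.2
    rw [h5] at h6
    exact absurd h6 (by decide)
  have hs : A ∪ B ⊆ edges (box M) := by
    rintro ⟨x, b⟩ h3
    rw [mem_edges, mem_box26, mem_box26]
    rcases Finset.mem_union.1 h3 with h3 | h3
    · rw [hA, Finset.mem_product, Finset.mem_product, Finset.mem_Icc, Finset.mem_Icc,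
        Finset.mem_singleton] at h3
      have h5 : b = true := h3.2
      subst h5
      rw [tip_t26]
      simp only at h3 ⊢
      refine ⟨⟨⟨?_, ?_⟩, ?_, ?_⟩, ⟨?_, ?_⟩, ?_, ?_⟩ <;> omega
    · rw [hB, Finset.mem_product, Finset.mem_product, Finset.mem_Icc, Finset.mem_Icc,
        Finset.mem_singleton] at h3
      have h5 : b = false := h3.2
      subst h5
      rw [tip_f26]
      simp only at h3 ⊢
      refine ⟨⟨⟨?_, ?_⟩, ?_, ?_⟩, ⟨?_, ?_⟩, ?_, ?_⟩ <;> omega
  have h3 := Finset.card_le_card hs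
  rw [Finset.card_union_of_disjoint hd, hAc, hBc] at h3
  omega

/-- the edges of an outer row or column do not cross edges of the box -/
private theorem outer26 {M : ℕ} {a b c d : ℤ} (ha : -(M : ℤ) - 1 ≤ a) (hb : b ≤ M)
    (hc : -(M : ℤ) - 1 ≤ c) (hd : d ≤ M)
    (h : (c = d ∧ (d = M ∨ d = -(M : ℤ) - 1)) ∨ (a = b ∧ (b = M ∨ b = -(M : ℤ) - 1))) :
    edges (Finset.Icc a b ×ˢ Finset.Icc c d) ⊆ ds M (edges (box M)) := by
  rintro ⟨x, t⟩ he
  rw [mem_edges, Finset.mem_product, Finset.mem_product, Finset.mem_Icc, Finset.mem_Icc,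
    Finset.mem_Icc, Finset.mem_Icc] at he
  unfold ds
  rw [Finset.mem_sdiff, mem_edges, mem_dbox26, mem_dbox26, Finset.mem_image]
  constructor
  · cases t
    · rw [tip_f26] at he ⊢
      simp only at he ⊢
      refine ⟨⟨⟨?_, ?_⟩, ?_, ?_⟩, ⟨?_, ?_⟩, ?_, ?_⟩ <;> omega
    · rw [tip_t26] at he ⊢
      simp only at he ⊢
      refine ⟨⟨⟨?_, ?_⟩, ?_, ?_⟩, ⟨?_, ?_⟩, ?_, ?_⟩ <;> omega
  · rintro ⟨⟨y, t'⟩, hy, hyx⟩
    rw [mem_edges, mem_box26, mem_box26] at hy
    cases t'
    · rw [du_f26, Prod.mk.injEq] at hyx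
      obtain ⟨h1, h2⟩ := hyx
      subst h2
      subst h1
      rw [tip_f26] at hy
      rw [tip_t26] at he
      simp only at hy he
      omega
    · rw [du_t26, Prod.mk.injEq] at hyx
      obtain ⟨h1, h2⟩ := hyx
      subst h2
      subst h1
      rw [tip_t26] at hy
      rw [tip_f26] at he
      simp only at hy he
      omega

private theorem full26 (M : ℕ) : ncl (dbox M) (ds M (edges (box M))) ≤ 2 * M * (2 * M) + 1 := by
  have h1 : (Finset.Icc (-(M : ℤ)) (M - 1) ×ˢ Finset.Icc (-(M : ℤ)) (M - 1)).card =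
      2 * M * (2 * M) := by
    have h2 : ((M : ℤ) - 1 + 1 - -(M : ℤ)).toNat = 2 * M := by omega
    rw [Finset.card_product, Int.card_Icc, h2]
  rw [← h1]
  refine ncl_le26 (c := ((M : ℤ), (M : ℤ))) ?_
  intro x hx hxI
  rw [mem_dbox26] at hx
  rw [Finset.mem_product, Finset.mem_Icc, Finset.mem_Icc] at hxI
  have hm : ∀ (a b c d : ℤ) (z : ℤ × ℤ), (a ≤ z.1 ∧ z.1 ≤ b) ∧ (c ≤ z.2 ∧ z.2 ≤ d) →
      z ∈ Finset.Icc a b ×ˢ Finset.Icc c d := by
    intro a b c d z h
    rw [Finset.mem_product, Finset.mem_Icc, Finset.mem_Icc]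
    exact h
  have hrow : ∀ (j : ℤ), (j = M ∨ j = -(M : ℤ) - 1) → ∀ i i' : ℤ, -(M : ℤ) - 1 ≤ i → i ≤ M →
      -(M : ℤ) - 1 ≤ i' → i' ≤ M → Conn (ds M (edges (box M))) (i, j) (i', j) := by
    intro j hj i i' h2 h3 h4 h5
    refine Conn.mono (outer26 (M := M) (a := -(M : ℤ) - 1) (b := M) (c := j) (d := j) le_rfl le_rfl
      (by omega) (by omega) (Or.inl ⟨rfl, hj⟩)) ?_
    exact rect_conn (hm _ _ _ _ _ ⟨⟨h2, h3⟩, le_rfl, le_rfl⟩) (hm _ _ _ _ _ ⟨⟨h4, h5⟩, le_rfl, le_rfl⟩)
  have hcol : ∀ (i : ℤ), (i = M ∨ i = -(M : ℤ) - 1) → ∀ j j' : ℤ, -(M : ℤ) - 1 ≤ j → j ≤ M →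
      -(M : ℤ) - 1 ≤ j' → j' ≤ M → Conn (ds M (edges (box M))) (i, j) (i, j') := by
    intro i hi j j' h2 h3 h4 h5
    refine Conn.mono (outer26 (M := M) (a := i) (b := i) (c := -(M : ℤ) - 1) (d := M) (by omega)
      (by omega) le_rfl le_rfl (Or.inr ⟨rfl, hi⟩)) ?_
    exact rect_conn (hm _ _ _ _ _ ⟨⟨le_rfl, le_rfl⟩, h2, h3⟩) (hm _ _ _ _ _ ⟨⟨le_rfl, le_rfl⟩, h4, h5⟩)
  obtain ⟨i, j⟩ := x
  simp only at hx hxI
  by_cases hj : j = M ∨ j = -(M : ℤ) - 1
  · have h2 := hcol M (Or.inl rfl) M j (by omega) le_rfl (by omega) (by omega)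
    have h3 := hrow j hj M i (by omega) le_rfl (by omega) (by omega)
    exact h2.trans h3
  · have hi : i = M ∨ i = -(M : ℤ) - 1 := by
      by_contra hi
      apply hxI
      refine ⟨⟨?_, ?_⟩, ?_, ?_⟩ <;> omega
    have h2 := hrow M (Or.inl rfl) M i (by omega) le_rfl (by omega) (by omega)
    have h3 := hcol i hi M j (by omega) le_rfl (by omega) (by omega)
    exact h2.trans h3

theorem euler {M : ℕ} {ω : Finset Edge} (hω : ω ⊆ edges (box M)) :
    ncl (box M) ω + ω.card + 1 = ncl (dbox M) (ds M ω) + (box M).card := by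
  have h1 := upper26 ω hω
  have h2 : ncl (dbox M) (ds M (edges (box M))) + (box M).card ≤
      ncl (box M) (edges (box M)) + (edges (box M)).card + 1 := by
    have h3 := full26 M
    have h4 := edges_card26 M
    have h5 := box_card26 M
    have h6 : 1 ≤ ncl (box M) (edges (box M)) :=
      ncl_pos26 ⟨(0, 0), by rw [mem_box26]; simp only; omega⟩
    rw [h5]
    nlinarith
  have h3 := lower26 h2 (edges (box M) \ ω) Finset.sdiff_subset
  rw [Finset.sdiff_sdiff_eq_self hω] at h3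
  omega

theorem wt_dual {q ρ : ℝ} (hq : 0 < q) (hρ : 0 < ρ) (M : ℕ) :
    ∃ κ : ℝ, 0 < κ ∧ ∀ ω, ω ⊆ edges (box M) →
      wt q (hom ρ) (box M) ω = κ * wt q (hom (q / ρ)) (dbox M) (ds M ω) := by
  have hqρ : 0 < q / ρ := div_pos hq hρ
  refine ⟨q ^ (box M).card / q / (q / ρ) ^ (edges (dbox M)).card,
    div_pos (div_pos (pow_pos hq _) hq) (pow_pos hqρ _), fun ω hω => ?_⟩
  have h1 := euler hω
  have h2 : (ds M ω).card + ω.card = (edges (dbox M)).card := by
    unfold ds
    have h3 : ω.image du ⊆ edges (dbox M) := by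
      intro f hf
      rw [Finset.mem_image] at hf
      obtain ⟨e, he, rfl⟩ := hf
      exact du_mem (hω he)
    have h4 : (ω.image du).card = ω.card :=
      Finset.card_image_of_injective ω fun _ _ h => du_inj26 h
    have h5 := Finset.card_sdiff_add_card_eq_card h3
    rw [h4] at h5
    exact h5
  unfold wt hom
  rw [Finset.prod_const, Finset.prod_const, ← h2, pow_add (q / ρ)]
  have h6 : q ^ (box M).card * q ^ ncl (dbox M) (ds M ω) = q ^ ncl (box M) ω * q ^ ω.card * q := by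
    rw [← pow_add, ← pow_add, ← pow_succ]
    congr 1
    omega
  have hq0 : q ≠ 0 := hq.ne'
  have hρ0 : ρ ≠ 0 := hρ.ne'
  have h7 : (q / ρ) ^ (ds M ω).card ≠ 0 := (pow_pos hqρ _).ne'
  have h8 : (q / ρ) ^ ω.card ≠ 0 := (pow_pos hqρ _).ne'
  have h9 : q ^ (box M).card / q / ((q / ρ) ^ (ds M ω).card * (q / ρ) ^ ω.card) *
      ((q / ρ) ^ (ds M ω).card * q ^ ncl (dbox M) (ds M ω)) =
      (q ^ (box M).card * q ^ ncl (dbox M) (ds M ω)) / (q * (q / ρ) ^ ω.card) := by
    field_simp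
  rw [h9, h6, div_pow]
  have h10 : q ^ ω.card ≠ 0 := (pow_pos hq _).ne'
  have h11 : ρ ^ ω.card ≠ 0 := (pow_pos hρ _).ne'
  field_simp

end Pool.Helper71.XD
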