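import Pool.Agent.Helper71.XD.Wire

/-!
Project XD.  Block XD-8: comparison of the mean numbers of open edges (wired at `ρ₁`, free at `ρ₂ > ρ₁`).

Let `E = edges (box N)`, `w₁ ω = q ^ ncl (box (N + 1)) (ω ∪ ring N)`, `w₀ ω = q ^ ncl (box N) ω`, `Zᵢ ρ = ∑ ω ⊆ E, ρ ^ |ω| * wᵢ ω`.
(1) `w₁ ≤ w₀ ≤ q ^ (8 N + 1) * w₁`: every vertex of `box (N + 1)` is joined by the ring to a vertex of `box N`, so the
    components of `gr ω` meeting `box N` are mapped onto the components of `gr (ω ∪ ring N)` meeting `box (N + 1)`; and the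
    components of `gr ω` meeting `box N` which contain no vertex with a coordinate `± N` are components of
    `gr (ω ∪ ring N)`, the number of the others is at most the number of such vertices, `≤ 8 N + 1`.
(2) Jensen (`Real.exp` is convex; Mathlib `inner_le_nnorm_mul_nnorm` is not needed: use
    `exp x ≥ exp m * (1 + x - m)`, `Real.add_one_le_exp`): with `ℓ = log (ρ₂ / ρ₁) > 0`:
    `Z₁ ρ₂ / Z₁ ρ₁ = E¹_ρ₁ exp (ℓ |ω|) ≥ exp (ℓ * E¹_ρ₁ |ω|)` and `Z₀ ρ₁ / Z₀ ρ₂ = E⁰_ρ₂ exp (- ℓ |ω|) ≥ exp (- ℓ * E⁰_ρ₂ |ω|)`.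
(3) `ℓ * E¹_ρ₁ |ω| ≤ log Z₁ ρ₂ - log Z₁ ρ₁ ≤ log Z₀ ρ₂ - log Z₀ ρ₁ + (8 N + 1) * log q ≤ ℓ * E⁰_ρ₂ |ω| + (8 N + 1) * log q`.
(4) `E |ω| = ∑ e ∈ E, P (e ∈ ω)`; `prW_eq_av`, `ex_eq_av` (a constant factor of the weights cancels).
-/

namespace Pool.Helper71.XD

open Pool.Helper49.FK

private theorem mem_bx8 {n : ℕ} {y : ℤ × ℤ} : y ∈ box n ↔ |y.1| ≤ n ∧ |y.2| ≤ n := by
  unfold box
  rw [Finset.mem_product, Finset.mem_Icc, Finset.mem_Icc, abs_le, abs_le]

private theorem box_mono8 (N : ℕ) : box N ⊆ box (N + 1) := by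
  intro y hy
  rw [mem_bx8] at *
  push_cast
  omega

private theorem edges_sdiff8 (N : ℕ) : edges (box (N + 1)) \ ring N = edges (box N) := by
  unfold ring
  exact Finset.sdiff_sdiff_eq_self (edges_mono (box_mono8 N))

private theorem ring_sub8 (N : ℕ) : ring N ⊆ edges (box (N + 1)) := Finset.sdiff_subset

private theorem ring_disj8 {N : ℕ} {e : Edge} (he : e ∈ edges (box N)) : e ∉ ring N := by
  unfold ring
  rw [Finset.mem_sdiff]
  exact fun h => h.2 he

open Classical in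
private theorem card_image_le8 {β γ : Type*} {S : Finset (ℤ × ℤ)} {f : ℤ × ℤ → β} {g : ℤ × ℤ → γ}
    (h : ∀ x ∈ S, ∀ y ∈ S, g x = g y → f x = f y) : (S.image f).card ≤ (S.image g).card := by
  have h1 : ∀ b : β, ∃ x : ℤ × ℤ, b ∈ S.image f → x ∈ S ∧ f x = b := by
    intro b
    by_cases hb : b ∈ S.image f
    · obtain ⟨x, hx, hx2⟩ := Finset.mem_image.1 hb
      exact ⟨x, fun _ => ⟨hx, hx2⟩⟩
    · exact ⟨0, fun h => absurd h hb⟩
  choose p hp using h1
  refine Finset.card_le_card_of_injOn (fun b => g (p b)) ?_ ?_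
  · intro b hb
    exact Finset.mem_image_of_mem _ (hp b hb).1
  · intro b hb b' hb' hbb
    have h2 := h _ (hp b hb).1 _ (hp b' hb').1 hbb
    rw [(hp b hb).2, (hp b' hb').2] at h2
    exact h2

private theorem mk_eq8 {ω : Finset Edge} {x y : ℤ × ℤ} :
    (gr ω).connectedComponentMk x = (gr ω).connectedComponentMk y ↔ Conn ω x y :=
  SimpleGraph.ConnectedComponent.eq

private theorem out8 (N : ℕ) {y : ℤ × ℤ} (hy : y ∈ box (N + 1)) (hy' : y ∉ box N) :
    Conn (ring N) y ((N : ℤ), 0) := by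
  have h := @out_conn (0, 0) N (N + 1) le_rfl y ((N : ℤ), 0) (by rw [bx_zero]; exact hy) (by
    rw [bx_zero, mem_bx8]
    push_cast
    simp only [abs_zero]
    rw [abs_of_nonneg (by omega : (0 : ℤ) ≤ N)]
    omega) (by
    rw [mem_bx8] at hy'
    simp only [sub_zero]
    rw [le_max_iff]
    by_contra hc
    apply hy'
    omega) (by
    simp only [sub_zero]
    exact le_max_of_le_left (le_abs_self _))
  rw [bx_zero, bx_zero] at h
  exact h

private theorem ncl_le8 (N : ℕ) (ω : Finset Edge) : ncl (box (N + 1)) (ω ∪ ring N) ≤ ncl (box N) ω := by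
  classical
  have h1 : ncl (box (N + 1)) (ω ∪ ring N) =
      ((box N).image fun x => (gr (ω ∪ ring N)).connectedComponentMk x).card := by
    unfold ncl
    congr 1
    apply Finset.Subset.antisymm
    · intro c hc
      obtain ⟨x, hx, rfl⟩ := Finset.mem_image.1 hc
      by_cases hxN : x ∈ box N
      · exact Finset.mem_image_of_mem _ hxN
      · have h2 := (out8 N hx hxN).mono (Finset.subset_union_right (s₁ := ω))
        rw [mk_eq8.2 h2]
        refine Finset.mem_image_of_mem _ ?_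
        rw [mem_bx8]
        simp only [abs_zero]
        rw [abs_of_nonneg (by omega : (0 : ℤ) ≤ N)]
        omega
    · exact Finset.image_subset_image (box_mono8 N)
  rw [h1]
  unfold ncl
  refine card_image_le8 fun x _ y _ hxy => ?_
  exact mk_eq8.2 ((mk_eq8.1 hxy).mono Finset.subset_union_left)

open Classical in
/-- The boundary of the box. -/
private noncomputable def bd8 (N : ℕ) : Finset (ℤ × ℤ) := (box N).filter fun y => |y.1| = N ∨ |y.2| = N

private theorem bd_card8 (N : ℕ) : (bd8 N).card ≤ 8 * N + 1 := by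
  classical
  have h0 : (box N).card = (2 * N + 1) * (2 * N + 1) := by
    unfold box
    rw [Finset.card_product, Int.card_Icc]
    have : ((N : ℤ) + 1 - -(N : ℤ)).toNat = 2 * N + 1 := by omega
    rw [this]
  rcases Nat.eq_zero_or_pos N with hN | hN
  · subst hN
    have h1 : (bd8 0).card ≤ (box 0).card := Finset.card_le_card (Finset.filter_subset _ _)
    rw [h0] at h1
    simpa using h1
  · obtain ⟨M, rfl⟩ : ∃ M, N = M + 1 := ⟨N - 1, by omega⟩
    have h2 : (box M).card = (2 * M + 1) * (2 * M + 1) := by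
      unfold box
      rw [Finset.card_product, Int.card_Icc]
      have : ((M : ℤ) + 1 - -(M : ℤ)).toNat = 2 * M + 1 := by omega
      rw [this]
    have h3 : bd8 (M + 1) ⊆ box (M + 1) \ box M := by
      intro y hy
      unfold bd8 at hy
      rw [Finset.mem_filter] at hy
      rw [Finset.mem_sdiff, mem_bx8 (n := M)]
      refine ⟨hy.1, ?_⟩
      have := hy.2
      push_cast at this
      omega
    have h4 := Finset.card_le_card h3
    rw [Finset.card_sdiff_of_subset (box_mono8 M), h0, h2] at h4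
    have h5 : (2 * (M + 1) + 1) * (2 * (M + 1) + 1) = (2 * M + 1) * (2 * M + 1) + (8 * M + 8) := by ring
    omega

private theorem inner8 {N : ℕ} {y z : ℤ × ℤ} {e : Edge} (hy : y ∈ box N) (hb : y ∉ bd8 N)
    (h : (e.1 = y ∧ tip e = z) ∨ (e.1 = z ∧ tip e = y)) : e ∉ ring N := by
  apply ring_disj8
  have h1 : |y.1| < N ∧ |y.2| < N := by
    unfold bd8 at hb
    rw [Finset.mem_filter] at hb
    have h2 := mem_bx8.1 hy
    constructor
    · rcases lt_or_eq_of_le h2.1 with h3 | h3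
      · exact h3
      · exact absurd ⟨hy, Or.inl h3⟩ hb
    · rcases lt_or_eq_of_le h2.2 with h3 | h3
      · exact h3
      · exact absurd ⟨hy, Or.inr h3⟩ hb
  rw [abs_lt, abs_lt] at h1
  rw [mem_edges, mem_bx8, mem_bx8, abs_le, abs_le, abs_le, abs_le]
  unfold tip at *
  rcases h with ⟨h3, h4⟩ | ⟨h3, h4⟩
  · rw [← h3] at h1
    split_ifs at * <;> simp only <;> omega
  · rw [← h4] at h1
    split_ifs at * <;> simp only at * <;> omega

private theorem ncl_ge8 (N : ℕ) {ω : Finset Edge} (hω : ω ⊆ edges (box N)) :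
    ncl (box N) ω ≤ ncl (box (N + 1)) (ω ∪ ring N) + (8 * N + 1) := by
  classical
  set S : Finset (ℤ × ℤ) := (box N).filter fun x => ∀ y ∈ bd8 N, ¬ Conn ω x y with hS
  have h1 : ((box N).image fun x => (gr ω).connectedComponentMk x) ⊆
      (S.image fun x => (gr ω).connectedComponentMk x) ∪
        ((bd8 N).image fun x => (gr ω).connectedComponentMk x) := by
    intro c hc
    obtain ⟨x, hx, rfl⟩ := Finset.mem_image.1 hc
    by_cases hxS : ∀ y ∈ bd8 N, ¬ Conn ω x y
    · exact Finset.mem_union_left _ (Finset.mem_image_of_mem _ (Finset.mem_filter.2 ⟨hx, hxS⟩))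
    · push Not at hxS
      obtain ⟨y, hy, hxy⟩ := hxS
      apply Finset.mem_union_right
      rw [mk_eq8.2 hxy]
      exact Finset.mem_image_of_mem _ hy
  have h2 := (Finset.card_le_card h1).trans (Finset.card_union_le _ _)
  have h3 : ((bd8 N).image fun x => (gr ω).connectedComponentMk x).card ≤ 8 * N + 1 :=
    Finset.card_image_le.trans (bd_card8 N)
  have h4 : (S.image fun x => (gr ω).connectedComponentMk x).card ≤
      (S.image fun x => (gr (ω ∪ ring N)).connectedComponentMk x).card := by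
    refine card_image_le8 fun x hx y _ hxy => ?_
    rw [mk_eq8] at hxy ⊢
    rw [hS, Finset.mem_filter] at hx
    refine Conn.induct (S := {z | Conn ω x z}) hxy (Conn.refl ω x) ?_
    intro e he
    have key : ∀ z z' : ℤ × ℤ, ((e.1 = z ∧ tip e = z') ∨ (e.1 = z' ∧ tip e = z)) → Conn ω x z →
        Conn ω x z' := by
      intro z z' hzz hxz
      have hz : z ∈ box N := hxz.mem hω hx.1
      have hzb : z ∉ bd8 N := fun h => hx.2 z h hxz
      have h5 := inner8 hz hzb hzz
      have h6 : e ∈ ω := by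
        rcases Finset.mem_union.1 he with h7 | h7
        · exact h7
        · exact absurd h7 h5
      have h7 := conn_edge h6
      rcases hzz with ⟨h8, h9⟩ | ⟨h8, h9⟩
      · rw [h8, h9] at h7
        exact hxz.trans h7
      · rw [h8, h9] at h7
        exact hxz.trans h7.symm
    exact ⟨key _ _ (Or.inl ⟨rfl, rfl⟩), key _ _ (Or.inr ⟨rfl, rfl⟩)⟩
  have h5 : (S.image fun x => (gr (ω ∪ ring N)).connectedComponentMk x).card ≤
      ncl (box (N + 1)) (ω ∪ ring N) := by
    unfold ncl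
    exact Finset.card_le_card (Finset.image_subset_image ((Finset.filter_subset _ _).trans (box_mono8 N)))
  have h6 : ncl (box N) ω = ((box N).image fun x => (gr ω).connectedComponentMk x).card := rfl
  omega

/-- The partition function. -/
private noncomputable def ZZ8 (E : Finset Edge) (c : Finset Edge → ℝ) (ρ : ℝ) : ℝ :=
  ∑ ω ∈ E.powerset, ρ ^ ω.card * c ω

/-- The mean number of edges. -/
private noncomputable def MM8 (E : Finset Edge) (c : Finset Edge → ℝ) (ρ : ℝ) : ℝ :=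
  (∑ ω ∈ E.powerset, ρ ^ ω.card * c ω * ω.card) / ZZ8 E c ρ

private theorem ZZ_pos8 {E : Finset Edge} {c : Finset Edge → ℝ} {ρ : ℝ} (hρ : 0 < ρ)
    (hc : ∀ ω ∈ E.powerset, 0 < c ω) : 0 < ZZ8 E c ρ := by
  unfold ZZ8
  exact Finset.sum_pos (fun ω hω => mul_pos (pow_pos hρ _) (hc ω hω)) ⟨∅, Finset.empty_mem_powerset _⟩

private theorem jensen8 {E : Finset Edge} {c : Finset Edge → ℝ} {ρ ρ' : ℝ} (hρ : 0 < ρ) (hρ' : 0 < ρ')
    (hc : ∀ ω ∈ E.powerset, 0 < c ω) :
    Real.log (ρ' / ρ) * MM8 E c ρ ≤ Real.log (ZZ8 E c ρ') - Real.log (ZZ8 E c ρ) := by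
  set L := Real.log (ρ' / ρ) with hL
  set M := MM8 E c ρ with hM
  have hZ := ZZ_pos8 hρ hc
  have hZ' := ZZ_pos8 hρ' hc
  have hdiv : 0 < ρ' / ρ := div_pos hρ' hρ
  have h1 : ZZ8 E c ρ * Real.exp (L * M) ≤ ZZ8 E c ρ' := by
    have h2 : ∑ ω ∈ E.powerset, ρ ^ ω.card * c ω * (Real.exp (L * M) * (1 + (L * ω.card - L * M))) ≤
        ZZ8 E c ρ' := by
      unfold ZZ8
      refine Finset.sum_le_sum fun ω hω => ?_
      have h3 : ρ' ^ ω.card = ρ ^ ω.card * Real.exp (L * ω.card) := by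
        have h4 : Real.exp (L * ω.card) = (ρ' / ρ) ^ ω.card := by
          rw [mul_comm, Real.exp_nat_mul, hL, Real.exp_log hdiv]
        rw [h4, div_pow]
        field_simp
      rw [h3]
      have h5 : Real.exp (L * M) * (1 + (L * ω.card - L * M)) ≤ Real.exp (L * ω.card) := by
        have h6 : Real.exp (L * ω.card) = Real.exp (L * M) * Real.exp (L * ω.card - L * M) := by
          rw [← Real.exp_add]; congr 1; ring
        rw [h6]
        refine mul_le_mul_of_nonneg_left ?_ (Real.exp_pos _).le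
        have := Real.add_one_le_exp (L * ω.card - L * M)
        linarith
      have h7 : 0 ≤ ρ ^ ω.card * c ω := (mul_pos (pow_pos hρ _) (hc ω hω)).le
      calc ρ ^ ω.card * c ω * (Real.exp (L * M) * (1 + (L * ω.card - L * M)))
          ≤ ρ ^ ω.card * c ω * Real.exp (L * ω.card) := mul_le_mul_of_nonneg_left h5 h7
        _ = ρ ^ ω.card * Real.exp (L * ω.card) * c ω := by ring
    have h8 : ∑ ω ∈ E.powerset, ρ ^ ω.card * c ω * (Real.exp (L * M) * (1 + (L * ω.card - L * M))) =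
        Real.exp (L * M) * ((1 - L * M) * ZZ8 E c ρ + L * ∑ ω ∈ E.powerset, ρ ^ ω.card * c ω * ω.card) := by
      unfold ZZ8
      rw [Finset.mul_sum, Finset.mul_sum, ← Finset.sum_add_distrib, Finset.mul_sum]
      exact Finset.sum_congr rfl fun ω _ => by ring
    have h9 : ∑ ω ∈ E.powerset, ρ ^ ω.card * c ω * ω.card = M * ZZ8 E c ρ := by
      rw [hM]
      unfold MM8
      field_simp
    rw [h8, h9] at h2
    calc ZZ8 E c ρ * Real.exp (L * M) = Real.exp (L * M) * ((1 - L * M) * ZZ8 E c ρ + L * (M * ZZ8 E c ρ)) := by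
          ring
      _ ≤ _ := h2
  have h2 := Real.log_le_log (mul_pos hZ (Real.exp_pos _)) h1
  rw [Real.log_mul hZ.ne' (Real.exp_pos _).ne', Real.log_exp] at h2
  linarith

private theorem sum_ind8 {E ω : Finset Edge} (hω : ω ⊆ E) :
    (∑ e ∈ E, (open Classical in if e ∈ ω then (1 : ℝ) else 0)) = ω.card := by
  classical
  rw [← Finset.sum_filter, Finset.sum_const, nsmul_eq_mul, mul_one]
  congr 2
  ext e
  rw [Finset.mem_filter]
  exact ⟨fun h => h.2, fun h => ⟨hω h, h⟩⟩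

private theorem av_mean8 {E : Finset Edge} {c : Finset Edge → ℝ} {ρ K : ℝ} (hK : K ≠ 0)
    {μ : Finset Edge → ℝ} (hμ : ∀ ω ∈ E.powerset, μ ω = K * (ρ ^ ω.card * c ω))
    {g : Edge → Finset Edge → ℝ}
    (hg : ∀ e ∈ E, ∀ ω ∈ E.powerset, g e ω = open Classical in if e ∈ ω then (1 : ℝ) else 0) :
    ∑ e ∈ E, av E μ (g e) = MM8 E c ρ := by
  classical
  unfold av MM8 ZZ8
  rw [← Finset.sum_div]
  have h1 : ∑ ω ∈ E.powerset, μ ω = K * ∑ ω ∈ E.powerset, ρ ^ ω.card * c ω := by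
    rw [Finset.mul_sum]
    exact Finset.sum_congr rfl hμ
  have h2 : ∑ e ∈ E, ∑ ω ∈ E.powerset, μ ω * g e ω =
      K * ∑ ω ∈ E.powerset, ρ ^ ω.card * c ω * ω.card := by
    rw [Finset.sum_comm, Finset.mul_sum]
    refine Finset.sum_congr rfl fun ω hω => ?_
    rw [← Finset.mul_sum, hμ ω hω]
    have h3 : ∑ e ∈ E, g e ω = ω.card := by
      rw [Finset.sum_congr rfl fun e he => hg e he ω hω]
      exact sum_ind8 (Finset.mem_powerset.1 hω)
    rw [h3]
    ring
  rw [h1, h2, mul_div_mul_left _ _ hK]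

theorem edge_sum_le {q ρ₁ ρ₂ : ℝ} (hq : 1 ≤ q) (h₁ : 0 < ρ₁) (h₁₂ : ρ₁ < ρ₂) (N : ℕ) :
    ∑ e ∈ edges (box N), prW q (hom ρ₁) (box (N + 1)) (ring N) (fun ω => e ∈ ω) ≤
      ∑ e ∈ edges (box N), pr q (hom ρ₂) (box N) (fun ω => e ∈ ω) +
        (8 * N + 1) * Real.log q / Real.log (ρ₂ / ρ₁) := by
  classical
  have hq0 : 0 < q := by linarith
  have h₂ : 0 < ρ₂ := by linarith
  set E := edges (box N) with hE
  set w₁ : Finset Edge → ℝ := fun ω => q ^ ncl (box (N + 1)) (ω ∪ ring N) with hw₁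
  set w₀ : Finset Edge → ℝ := fun ω => q ^ ncl (box N) ω with hw₀
  have hw₁p : ∀ ω ∈ E.powerset, 0 < w₁ ω := fun ω _ => pow_pos hq0 _
  have hw₀p : ∀ ω ∈ E.powerset, 0 < w₀ ω := fun ω _ => pow_pos hq0 _
  have hA : ∑ e ∈ E, prW q (hom ρ₁) (box (N + 1)) (ring N) (fun ω => e ∈ ω) = MM8 E w₁ ρ₁ := by
    have h1 : ∀ e ∈ E, prW q (hom ρ₁) (box (N + 1)) (ring N) (fun ω => e ∈ ω) =
        av E (fun ω => wt q (hom ρ₁) (box (N + 1)) (ω ∪ ring N))
          (fun ω => if e ∈ ω ∪ ring N then 1 else 0) := by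
      intro e _
      have h0 := prW_eq_av (r := hom ρ₁) (A := fun ω => e ∈ ω) hq0 (fun _ => h₁) (ring_sub8 N)
      rw [edges_sdiff8] at h0
      convert h0
    rw [Finset.sum_congr rfl h1]
    refine av_mean8 (K := ρ₁ ^ (ring N).card) (pow_pos h₁ _).ne' ?_ ?_
    · intro ω hω
      rw [Finset.mem_powerset] at hω
      unfold wt
      have h2 : Disjoint ω (ring N) := by
        rw [Finset.disjoint_left]
        exact fun e he => ring_disj8 (hω he)
      rw [Finset.prod_union h2]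
      simp only [hom, Finset.prod_const, hw₁]
      ring
    · intro e he ω _
      have h3 : e ∉ ring N := ring_disj8 he
      simp only [Finset.mem_union, h3, or_false]
  have hB : ∑ e ∈ E, pr q (hom ρ₂) (box N) (fun ω => e ∈ ω) = MM8 E w₀ ρ₂ := by
    have h1 : ∀ e ∈ E, pr q (hom ρ₂) (box N) (fun ω => e ∈ ω) =
        av E (wt q (hom ρ₂) (box N)) (fun ω => if e ∈ ω then 1 else 0) := by
      intro e _
      unfold pr
      rw [ex_eq_av]
      congr 1
      funext ω
      by_cases h : e ∈ ω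
      · simp [h]
      · simp [h]
    rw [Finset.sum_congr rfl h1]
    refine av_mean8 (K := 1) one_ne_zero ?_ ?_
    · intro ω hω
      unfold wt
      simp only [hom, Finset.prod_const, hw₀, one_mul]
    · intro e _ ω _
      rfl
  rw [hA, hB]
  have hL : 0 < Real.log (ρ₂ / ρ₁) := Real.log_pos (by rw [lt_div_iff₀ h₁]; linarith)
  have hJ1 := jensen8 h₁ h₂ hw₁p
  have hJ0 := jensen8 h₂ h₁ hw₀p
  have hinv : Real.log (ρ₁ / ρ₂) = - Real.log (ρ₂ / ρ₁) := by
    rw [← Real.log_inv, inv_div]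
  rw [hinv] at hJ0
  have hZ1 : Real.log (ZZ8 E w₁ ρ₂) ≤ Real.log (ZZ8 E w₀ ρ₂) := by
    refine Real.log_le_log (ZZ_pos8 h₂ hw₁p) ?_
    unfold ZZ8
    refine Finset.sum_le_sum fun ω _ => ?_
    refine mul_le_mul_of_nonneg_left ?_ (pow_pos h₂ _).le
    exact pow_le_pow_right₀ hq (ncl_le8 N ω)
  have hZ0 : Real.log (ZZ8 E w₀ ρ₁) ≤ (8 * N + 1) * Real.log q + Real.log (ZZ8 E w₁ ρ₁) := by
    have h1 : ZZ8 E w₀ ρ₁ ≤ q ^ (8 * N + 1) * ZZ8 E w₁ ρ₁ := by
      unfold ZZ8
      rw [Finset.mul_sum]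
      refine Finset.sum_le_sum fun ω hω => ?_
      have h2 : w₀ ω ≤ q ^ (8 * N + 1) * w₁ ω := by
        simp only [hw₀, hw₁]
        rw [← pow_add]
        refine pow_le_pow_right₀ hq ?_
        have := ncl_ge8 N (Finset.mem_powerset.1 hω)
        omega
      calc ρ₁ ^ ω.card * w₀ ω ≤ ρ₁ ^ ω.card * (q ^ (8 * N + 1) * w₁ ω) :=
            mul_le_mul_of_nonneg_left h2 (pow_pos h₁ _).le
        _ = q ^ (8 * N + 1) * (ρ₁ ^ ω.card * w₁ ω) := by ring
    have h3 := Real.log_le_log (ZZ_pos8 h₁ hw₀p) h1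
    rw [Real.log_mul (pow_pos hq0 _).ne' (ZZ_pos8 h₁ hw₁p).ne', Real.log_pow] at h3
    push_cast at h3
    exact h3
  rw [← sub_le_iff_le_add', le_div_iff₀ hL]
  nlinarith [hJ1, hJ0, hZ1, hZ0]

end Pool.Helper71.XD
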