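import Pool.Agent.Helper71.XD.Abs

/-!
Project XD.  Block XD-2: the OSSS inequality for log-supermodular weights (Duminil-Copin, Raoufi, Tassion), by
induction on the decision tree.

PROOF.  For a tree `T`, and informations `(F, ξ)` (for `X`) and `(F, η)` (for `Y`), `ξ, η ⊆ F`, define
`K T F ξ η` = the expectation of `f X * g Y`, where `X` and `Y` are revealed along `T` (the tree reads `X`) with the
monotone coupling, and at the leaf `Y` is completed independently:
* `K leaf F ξ η = ce F ξ f * ce F η g`;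
* `K (node e T0 T1) F ξ η = min a b * K T1 F' ξ' η' + (a - min a b) * K T1 F' ξ' η + (b - min a b) * K T0 F' ξ η'
   + (1 - max a b) * K T0 F' ξ η`, where `F' = insert e F`, `ξ' = insert e ξ`, `η' = insert e η`, `a = ce F ξ (op e)`,
   `b = ce F η (op e)`, so `0 ≤ a, b ≤ 1`, and `ce F ξ g = a * ce F' ξ' g + (1 - a) * ce F' ξ g` (`ms_split`).
Let `K1` be the same with `f = 1`: `K1 T F ξ η = ce F η g` (induction).
(1) For `f ≥ 0`: `K T F ξ` is monotone in `η` (`η ⊆ η₂ ⊆ F`): induction; leaf: `ce_mono`; node: `b` increases with `η`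
    (`ce_mono` for `op e`), `min a b` and `b - min a b` increase with `b`, and `K T1 F' ξ' η ≤ K T1 F' ξ' η'` etc.
    By linearity in `f`, applied to `f` and `1 - f`: for `0 ≤ f ≤ 1`, `η ⊆ η₂`:
    `0 ≤ K T F ξ η₂ - K T F ξ η ≤ ce F η₂ g - ce F η g`.
(2) If `T` computes `f` then `K T F ξ ξ = ce F ξ (f * g)` (induction; `a = b`; at the leaf `f` is constant on the fibre).
(3) One step: `K (node e T0 T1) F ξ η ≤ a * (b * K T1 F' ξ' η' + (1 - b) * K T1 F' ξ' η) + (1 - a) * (b * K T0 F' ξ η'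
    + (1 - b) * K T0 F' ξ η) + b * (1 - b) * (ce F' η' g - ce F' η g)`: the difference of the first two terms is
    `c * ((K T1 η' - K T1 η) - (K T0 η' - K T0 η))` with `c = min a b - a * b ∈ [0, b * (1 - b)]`; use (1).
    Moreover `b * (1 - b) * (ce F' η' g - ce F' η g) = ce F η (g * op e) - ce F η g * ce F η (op e)`.
(4) Put `B T F ξ = (∑ η ∈ F.powerset, ms F η 1 * K T F ξ η) / ∑ μ`.  By (3) and
    `∑ η, ms F η 1 * (ce F η (g * op e) - ce F η g * ce F η (op e)) ≤ (∑ μ) * cov g (op e)` (FKG for the increasing functions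
    `ω ↦ ce F (ω ∩ F) g` and `ω ↦ ce F (ω ∩ F) (op e)`), and `ms F η 1 * b = ms F' η' 1`, `ms F η 1 * (1 - b) = ms F' η 1`:
    `B (node e T0 T1) F ξ ≤ a * B T1 F' ξ' + (1 - a) * B T0 F' ξ + cov g (op e)`.
    For the leaf `B leaf F ξ = ce F ξ f * av g`.
(5) By induction on `T`: `B T F ξ ≤ ce F ξ f * av g + ce F ξ (fun ω => ∑ e' ∈ T.vis ω, cov g (op e'))`.
(6) `F = ξ = ∅`: `B T ∅ ∅ = K T ∅ ∅ ∅ = av (f * g)` by (2), and `T.vis ω ⊆ E` by `Computes` (the sum over `T.vis ω` is the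
    sum over `e ∈ E` of the indicator).
-/

namespace Pool.Helper71.XD

variable {α : Type*} [DecidableEq α]

/-- Decision trees: `node e T0 T1` reveals `e` and continues with `T0` if `e` is closed and with `T1` if `e` is open. -/
inductive Tree (α : Type*) where
  | leaf : Tree α
  | node : α → Tree α → Tree α → Tree α

/-- The edges revealed by the tree. -/
def Tree.vis : Tree α → Finset α → Finset α
  | .leaf, _ => ∅
  | .node e T0 T1, ω => insert e (if e ∈ ω then T1.vis ω else T0.vis ω)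

/-- Started with the information `(F, ξ)`, the tree reveals only new edges of `E` and determines `f`. -/
def Tree.Computes (E : Finset α) (f : Finset α → ℝ) : Tree α → Finset α → Finset α → Prop
  | .leaf, F, ξ => ∀ ω ω', ω ⊆ E → ω' ⊆ E → ω ∩ F = ξ → ω' ∩ F = ξ → f ω = f ω'
  | .node e T0 T1, F, ξ => e ∈ E ∧ e ∉ F ∧ T0.Computes E f (insert e F) ξ ∧
      T1.Computes E f (insert e F) (insert e ξ)

section aux86

variable {E : Finset α} {μ : Finset α → ℝ} {F ξ η : Finset α} {f g : Finset α → ℝ}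

/-- The edges of the tree are new edges of `E`. -/
private def Wf86 (E : Finset α) : Tree α → Finset α → Prop
  | .leaf, _ => True
  | .node e T0 T1, F => e ∈ E ∧ e ∉ F ∧ Wf86 E T0 (insert e F) ∧ Wf86 E T1 (insert e F)

/-- The coupled expectation. -/
private noncomputable def kk86 (E : Finset α) (μ f g : Finset α → ℝ) :
    Tree α → Finset α → Finset α → Finset α → ℝ
  | .leaf, F, ξ, η => ce E μ F ξ f * ce E μ F η g
  | .node e T0 T1, F, ξ, η =>
      min (ce E μ F ξ (op e)) (ce E μ F η (op e)) *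
        kk86 E μ f g T1 (insert e F) (insert e ξ) (insert e η) +
      (ce E μ F ξ (op e) - min (ce E μ F ξ (op e)) (ce E μ F η (op e))) *
        kk86 E μ f g T1 (insert e F) (insert e ξ) η +
      (ce E μ F η (op e) - min (ce E μ F ξ (op e)) (ce E μ F η (op e))) *
        kk86 E μ f g T0 (insert e F) ξ (insert e η) +
      (1 - ce E μ F ξ (op e) - ce E μ F η (op e) +
        min (ce E μ F ξ (op e)) (ce E μ F η (op e))) *
        kk86 E μ f g T0 (insert e F) ξ η

private theorem wf_of_computes86 (T : Tree α) :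
    ∀ F ξ : Finset α, T.Computes E f F ξ → Wf86 E T F := by
  induction T with
  | leaf => intro F ξ _; trivial
  | node e T0 T1 ih0 ih1 =>
    intro F ξ hT
    obtain ⟨h1, h2, h3, h4⟩ := hT
    exact ⟨h1, h2, ih0 _ _ h3, ih1 _ _ h4⟩

private theorem vis86 (T : Tree α) :
    ∀ F : Finset α, Wf86 E T F → ∀ ω e, e ∈ T.vis ω → e ∈ E ∧ e ∉ F := by
  induction T with
  | leaf =>
    intro F _ ω e he
    simp [Tree.vis] at he
  | node e T0 T1 ih0 ih1 =>
    intro F hT ω e' he'
    obtain ⟨h1, h2, h3, h4⟩ := hT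
    simp only [Tree.vis, Finset.mem_insert] at he'
    rcases he' with he' | he'
    · rw [he']
      exact ⟨h1, h2⟩
    · split_ifs at he' with hω
      · obtain ⟨h5, h6⟩ := ih1 _ h4 ω e' he'
        exact ⟨h5, fun hF => h6 (Finset.mem_insert_of_mem hF)⟩
      · obtain ⟨h5, h6⟩ := ih0 _ h3 ω e' he'
        exact ⟨h5, fun hF => h6 (Finset.mem_insert_of_mem hF)⟩

private theorem ce_add86 :
    ce E μ F ξ (fun ω => f ω + g ω) = ce E μ F ξ f + ce E μ F ξ g := by
  rw [ce, ce, ce, ms_add, add_div]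

private theorem ce_smul86 (c : ℝ) : ce E μ F ξ (fun ω => c * g ω) = c * ce E μ F ξ g := by
  rw [ce, ce, ms_smul, mul_div_assoc]

private theorem ce_congr86 (hfg : ∀ ω, ω ⊆ E → ω ∩ F = ξ → f ω = g ω) :
    ce E μ F ξ f = ce E μ F ξ g := by
  rw [ce, ce, ms_congr hfg]

private theorem ms_ce86 (h : Good E μ) (hF : F ⊆ E) (hξ : ξ ⊆ F) :
    ms E μ F ξ (fun _ => 1) * ce E μ F ξ g = ms E μ F ξ g := by
  rw [ce, mul_div_assoc']
  rw [mul_div_cancel_left₀ _ (ms_pos h hF hξ).ne']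

private theorem mem_of_inter86 {e : α} {ω : Finset α} (h : ω ∩ insert e F = insert e ξ) :
    e ∈ ω := by
  have : e ∈ ω ∩ insert e F := by
    rw [h]
    exact Finset.mem_insert_self _ _
  exact (Finset.mem_inter.1 this).1

private theorem notMem_of_inter86 {e : α} {ω : Finset α} (he' : e ∉ F) (hξ : ξ ⊆ F)
    (h : ω ∩ insert e F = ξ) : e ∉ ω := by
  intro hω
  have : e ∈ ω ∩ insert e F := Finset.mem_inter.2 ⟨hω, Finset.mem_insert_self _ _⟩
  rw [h] at this
  exact he' (hξ this)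

private theorem ms_op86 {e : α} (he : e ∈ E) (he' : e ∉ F) (hξ : ξ ⊆ F) :
    ms E μ F ξ (op e) = ms E μ (insert e F) (insert e ξ) (fun _ => 1) := by
  rw [ms_split (g := op e) he he' hξ]
  have h1 : ms E μ (insert e F) (insert e ξ) (op e) =
      ms E μ (insert e F) (insert e ξ) (fun _ => 1) := by
    refine ms_congr fun ω _ hω => ?_
    rw [op, if_pos (mem_of_inter86 hω)]
  have h2 : ms E μ (insert e F) ξ (op e) = 0 := by
    rw [ms]
    refine Finset.sum_eq_zero fun ω hω => ?_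
    rw [op, if_neg (notMem_of_inter86 he' hξ (Finset.mem_filter.1 hω).2), mul_zero]
  rw [h1, h2, add_zero]

private theorem step_mul86 (h : Good E μ) {e : α} (he : e ∈ E) (he' : e ∉ F) (hF : F ⊆ E)
    (hξ : ξ ⊆ F) :
    ms E μ F ξ (fun _ => 1) * ce E μ F ξ (op e) =
        ms E μ (insert e F) (insert e ξ) (fun _ => 1) ∧
      ms E μ F ξ (fun _ => 1) * (1 - ce E μ F ξ (op e)) =
        ms E μ (insert e F) ξ (fun _ => 1) := by
  have h1 : ms E μ F ξ (fun _ => 1) * ce E μ F ξ (op e) =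
      ms E μ (insert e F) (insert e ξ) (fun _ => 1) := by
    rw [ms_ce86 h hF hξ, ms_op86 he he' hξ]
  refine ⟨h1, ?_⟩
  have h2 := ms_split (E := E) (μ := μ) (g := fun _ => (1 : ℝ)) he he' hξ
  rw [mul_sub, h1, mul_one, h2]
  ring

private theorem insF86 {e : α} (he : e ∈ E) (hF : F ⊆ E) : insert e F ⊆ E :=
  Finset.insert_subset he hF

private theorem insξ86 (e : α) (hξ : ξ ⊆ F) : insert e ξ ⊆ insert e F :=
  Finset.insert_subset_insert e hξ

private theorem subξ86 (e : α) (hξ : ξ ⊆ F) : ξ ⊆ insert e F :=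
  hξ.trans (Finset.subset_insert e F)

private theorem step_bd86 (h : Good E μ) {e : α} (he : e ∈ E) (he' : e ∉ F) (hF : F ⊆ E)
    (hξ : ξ ⊆ F) : 0 ≤ ce E μ F ξ (op e) ∧ ce E μ F ξ (op e) ≤ 1 := by
  obtain ⟨h1, h2⟩ := step_mul86 h he he' hF hξ
  have h0 := ms_pos h hF hξ
  have h3 := ms_pos h (insF86 he hF) (insξ86 e hξ)
  have h4 := ms_pos h (insF86 he hF) (subξ86 e hξ)
  constructor
  · by_contra hcon
    have := mul_neg_of_pos_of_neg h0 (not_le.1 hcon)
    linarith
  · by_contra hcon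
    have : 1 - ce E μ F ξ (op e) < 0 := by linarith [not_le.1 hcon]
    have := mul_neg_of_pos_of_neg h0 this
    linarith

private theorem step_split86 (h : Good E μ) {e : α} (he : e ∈ E) (he' : e ∉ F) (hF : F ⊆ E)
    (hξ : ξ ⊆ F) (g : Finset α → ℝ) :
    ce E μ F ξ g = ce E μ F ξ (op e) * ce E μ (insert e F) (insert e ξ) g +
      (1 - ce E μ F ξ (op e)) * ce E μ (insert e F) ξ g := by
  obtain ⟨h1, h2⟩ := step_mul86 h he he' hF hξ
  have h0 := ms_pos h hF hξ
  have h3 := ms_ce86 (g := g) h (insF86 he hF) (insξ86 e hξ)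
  have h4 := ms_ce86 (g := g) h (insF86 he hF) (subξ86 e hξ)
  have h5 := ms_split (E := E) (μ := μ) (g := g) he he' hξ
  have h6 := ms_ce86 (g := g) h hF hξ
  have h7 : ms E μ F ξ (fun _ => 1) * ce E μ F ξ g = ms E μ F ξ (fun _ => 1) *
      (ce E μ F ξ (op e) * ce E μ (insert e F) (insert e ξ) g +
      (1 - ce E μ F ξ (op e)) * ce E μ (insert e F) ξ g) := by
    rw [h6, h5, mul_add, ← mul_assoc, ← mul_assoc, h1, h2, h3, h4]
  exact mul_left_cancel₀ h0.ne' h7

private theorem kk_one86 (h : Good E μ) (T : Tree α) :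
    ∀ F ξ η : Finset α, Wf86 E T F → F ⊆ E → ξ ⊆ F → η ⊆ F →
      kk86 E μ (fun _ => 1) g T F ξ η = ce E μ F η g := by
  induction T with
  | leaf =>
    intro F ξ η _ hF hξ hη
    rw [kk86, ce_const h hF hξ, one_mul]
  | node e T0 T1 ih0 ih1 =>
    intro F ξ η hT hF hξ hη
    obtain ⟨h1, h2, h3, h4⟩ := hT
    have hF' := insF86 h1 hF
    rw [kk86, ih1 _ _ _ h4 hF' (insξ86 e hξ) (insξ86 e hη),
      ih1 _ _ _ h4 hF' (insξ86 e hξ) (subξ86 e hη),
      ih0 _ _ _ h3 hF' (subξ86 e hξ) (insξ86 e hη),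
      ih0 _ _ _ h3 hF' (subξ86 e hξ) (subξ86 e hη), step_split86 h h1 h2 hF hη g]
    ring

private theorem kk_sub86 (h : Good E μ) (T : Tree α) :
    ∀ F ξ η : Finset α, Wf86 E T F → F ⊆ E → ξ ⊆ F → η ⊆ F →
      kk86 E μ (fun ω => 1 - f ω) g T F ξ η = ce E μ F η g - kk86 E μ f g T F ξ η := by
  induction T with
  | leaf =>
    intro F ξ η _ hF hξ hη
    have h1 : ce E μ F ξ (fun ω => 1 - f ω) = 1 - ce E μ F ξ f := by
      have h2 : ce E μ F ξ (fun ω => 1 - f ω) = ce E μ F ξ (fun ω => 1 + (-1) * f ω) :=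
        ce_congr86 fun ω _ _ => by ring
      rw [h2, ce_add86 (f := fun _ => 1) (g := fun ω => (-1) * f ω), ce_smul86,
        ce_const h hF hξ]
      ring
    rw [kk86, kk86, h1]
    ring
  | node e T0 T1 ih0 ih1 =>
    intro F ξ η hT hF hξ hη
    obtain ⟨h1, h2, h3, h4⟩ := hT
    have hF' := insF86 h1 hF
    rw [kk86, kk86, ih1 _ _ _ h4 hF' (insξ86 e hξ) (insξ86 e hη),
      ih1 _ _ _ h4 hF' (insξ86 e hξ) (subξ86 e hη),
      ih0 _ _ _ h3 hF' (subξ86 e hξ) (insξ86 e hη),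
      ih0 _ _ _ h3 hF' (subξ86 e hξ) (subξ86 e hη), step_split86 h h1 h2 hF hη g]
    ring

private theorem ce_nonneg86 (h : Good E μ) (hF : F ⊆ E) (hξ : ξ ⊆ F)
    (hf : ∀ ω, ω ⊆ E → 0 ≤ f ω) : 0 ≤ ce E μ F ξ f :=
  div_nonneg (ms_nonneg h hf) (ms_pos h hF hξ).le

private theorem kk_mono86 (h : Good E μ) (hg : Inc E g) (hf : ∀ ω, ω ⊆ E → 0 ≤ f ω)
    (T : Tree α) :
    ∀ F ξ η η₂ : Finset α, Wf86 E T F → F ⊆ E → ξ ⊆ F → η ⊆ η₂ → η₂ ⊆ F →
      kk86 E μ f g T F ξ η ≤ kk86 E μ f g T F ξ η₂ := by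
  induction T with
  | leaf =>
    intro F ξ η η₂ _ hF hξ hη hη₂
    rw [kk86, kk86]
    exact mul_le_mul_of_nonneg_left (ce_mono h hg hη hη₂ hF) (ce_nonneg86 h hF hξ hf)
  | node e T0 T1 ih0 ih1 =>
    intro F ξ η η₂ hT hF hξ hη hη₂
    obtain ⟨h1, h2, h3, h4⟩ := hT
    have hF' := insF86 h1 hF
    have hηF : η ⊆ F := hη.trans hη₂
    obtain ⟨ha0, ha1⟩ := step_bd86 h h1 h2 hF hξ
    obtain ⟨hb0, hb1⟩ := step_bd86 h h1 h2 hF hηF
    obtain ⟨hc0, hc1⟩ := step_bd86 h h1 h2 hF hη₂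
    have hbc : ce E μ F η (op e) ≤ ce E μ F η₂ (op e) := ce_mono h (op_inc e) hη hη₂ hF
    have i1 := ih1 _ (insert e ξ) η η₂ h4 hF' (insξ86 e hξ) hη (subξ86 e hη₂)
    have i2 := ih1 _ (insert e ξ) (insert e η) (insert e η₂) h4 hF' (insξ86 e hξ)
      (Finset.insert_subset_insert e hη) (insξ86 e hη₂)
    have i3 := ih1 _ (insert e ξ) η (insert e η) h4 hF' (insξ86 e hξ)
      (Finset.subset_insert e η) (insξ86 e hηF)
    have j1 := ih0 _ ξ η η₂ h3 hF' (subξ86 e hξ) hη (subξ86 e hη₂)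
    have j2 := ih0 _ ξ (insert e η) (insert e η₂) h3 hF' (subξ86 e hξ)
      (Finset.insert_subset_insert e hη) (insξ86 e hη₂)
    have j3 := ih0 _ ξ η (insert e η) h3 hF' (subξ86 e hξ)
      (Finset.subset_insert e η) (insξ86 e hηF)
    rw [kk86, kk86]
    generalize ce E μ F ξ (op e) = a at *
    generalize ce E μ F η (op e) = b at *
    generalize ce E μ F η₂ (op e) = c at *
    generalize kk86 E μ f g T1 (insert e F) (insert e ξ) η = x1 at *
    generalize kk86 E μ f g T1 (insert e F) (insert e ξ) (insert e η) = x2 at *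
    generalize kk86 E μ f g T1 (insert e F) (insert e ξ) η₂ = x3 at *
    generalize kk86 E μ f g T1 (insert e F) (insert e ξ) (insert e η₂) = x4 at *
    generalize kk86 E μ f g T0 (insert e F) ξ η = y1 at *
    generalize kk86 E μ f g T0 (insert e F) ξ (insert e η) = y2 at *
    generalize kk86 E μ f g T0 (insert e F) ξ η₂ = y3 at *
    generalize kk86 E μ f g T0 (insert e F) ξ (insert e η₂) = y4 at *
    have hm : min a b ≤ min a c := min_le_min_left a hbc
    have hm0 : 0 ≤ min a c := le_min ha0 hc0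
    have hma : min a c ≤ a := min_le_left _ _
    have hmc : min a c ≤ c := min_le_right _ _
    have hmb : b - min a b ≤ c - min a c := by
      rcases le_total a b with hab | hab
      · rw [min_eq_left hab, min_eq_left (hab.trans hbc)]
        linarith
      · rw [min_eq_right hab]
        linarith
    have hmax : 0 ≤ 1 - a - c + min a c := by
      rcases le_total a c with hac | hac
      · rw [min_eq_left hac]
        linarith
      · rw [min_eq_right hac]
        linarith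
    have e1 := mul_nonneg hm0 (sub_nonneg.2 i2)
    have e2 := mul_nonneg (sub_nonneg.2 hma) (sub_nonneg.2 i1)
    have e3 := mul_nonneg (sub_nonneg.2 hmc) (sub_nonneg.2 j2)
    have e4 := mul_nonneg hmax (sub_nonneg.2 j1)
    have e5 := mul_nonneg (sub_nonneg.2 hm) (sub_nonneg.2 i3)
    have e6 := mul_nonneg (sub_nonneg.2 hmb) (sub_nonneg.2 j3)
    linarith

private theorem kk_diff86 (h : Good E μ) (hg : Inc E g)
    (hf : ∀ ω, ω ⊆ E → 0 ≤ f ω ∧ f ω ≤ 1) (T : Tree α) {η₂ : Finset α}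
    (hT : Wf86 E T F) (hF : F ⊆ E) (hξ : ξ ⊆ F) (hη : η ⊆ η₂) (hη₂ : η₂ ⊆ F) :
    kk86 E μ f g T F ξ η ≤ kk86 E μ f g T F ξ η₂ ∧
      kk86 E μ f g T F ξ η₂ - kk86 E μ f g T F ξ η ≤ ce E μ F η₂ g - ce E μ F η g := by
  refine ⟨kk_mono86 h hg (fun ω hω => (hf ω hω).1) T F ξ η η₂ hT hF hξ hη hη₂, ?_⟩
  have h1 := kk_mono86 (f := fun ω => 1 - f ω) h hg
    (fun ω hω => sub_nonneg.2 (hf ω hω).2) T F ξ η η₂ hT hF hξ hη hη₂
  rw [kk_sub86 h T F ξ η hT hF hξ (hη.trans hη₂), kk_sub86 h T F ξ η₂ hT hF hξ hη₂] at h1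
  linarith

private theorem kk_diag86 (h : Good E μ) (T : Tree α) :
    ∀ F ξ : Finset α, T.Computes E f F ξ → F ⊆ E → ξ ⊆ F →
      kk86 E μ f g T F ξ ξ = ce E μ F ξ (fun ω => f ω * g ω) := by
  induction T with
  | leaf =>
    intro F ξ hT hF hξ
    have hξE : ξ ⊆ E := hξ.trans hF
    have hξF : ξ ∩ F = ξ := Finset.inter_eq_left.2 hξ
    have h1 : ∀ ω, ω ⊆ E → ω ∩ F = ξ → f ω = f ξ := fun ω hω hωF => hT ω ξ hω hξE hωF hξF
    have h2 : ce E μ F ξ f = f ξ := by
      rw [ce_congr86 (g := fun _ => f ξ) h1, ce_const h hF hξ]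
    have h3 : ce E μ F ξ (fun ω => f ω * g ω) = f ξ * ce E μ F ξ g := by
      rw [ce_congr86 (g := fun ω => f ξ * g ω) (fun ω hω hωF => by rw [h1 ω hω hωF]), ce_smul86]
    rw [kk86, h2, h3]
  | node e T0 T1 ih0 ih1 =>
    intro F ξ hT hF hξ
    obtain ⟨h1, h2, h3, h4⟩ := hT
    have hF' := insF86 h1 hF
    rw [kk86, ih1 _ _ h4 hF' (insξ86 e hξ), ih0 _ _ h3 hF' (subξ86 e hξ),
      step_split86 h h1 h2 hF hξ (fun ω => f ω * g ω), min_self]
    ring

private theorem cov_step86 (h : Good E μ) {e : α} (he : e ∈ E) (he' : e ∉ F) (hF : F ⊆ E)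
    (hη : η ⊆ F) :
    ce E μ F η (op e) * (1 - ce E μ F η (op e)) *
        (ce E μ (insert e F) (insert e η) g - ce E μ (insert e F) η g) =
      ce E μ F η (fun ω => g ω * op e ω) - ce E μ F η g * ce E μ F η (op e) := by
  have h1 := step_split86 h he he' hF hη (fun ω => g ω * op e ω)
  have h2 := step_split86 h he he' hF hη g
  have h3 : ce E μ (insert e F) (insert e η) (fun ω => g ω * op e ω) =
      ce E μ (insert e F) (insert e η) g := by
    refine ce_congr86 fun ω _ hω => ?_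
    rw [op, if_pos (mem_of_inter86 hω), mul_one]
  have h4 : ce E μ (insert e F) η (fun ω => g ω * op e ω) = 0 := by
    have h5 : ce E μ (insert e F) η (fun ω => g ω * op e ω) =
        ce E μ (insert e F) η (fun _ => 0) := by
      refine ce_congr86 fun ω _ hω => ?_
      rw [op, if_neg (notMem_of_inter86 he' hη hω), mul_zero]
    rw [h5, ce_const h (insF86 he hF) (subξ86 e hη)]
  rw [h3, h4] at h1
  rw [h1, h2]
  ring

private theorem kk_step86 (h : Good E μ) (hg : Inc E g)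
    (hf : ∀ ω, ω ⊆ E → 0 ≤ f ω ∧ f ω ≤ 1) {e : α} {T0 T1 : Tree α}
    (hT : Wf86 E (Tree.node e T0 T1) F) (hF : F ⊆ E) (hξ : ξ ⊆ F) (hη : η ⊆ F) :
    kk86 E μ f g (Tree.node e T0 T1) F ξ η ≤
      ce E μ F ξ (op e) *
        (ce E μ F η (op e) * kk86 E μ f g T1 (insert e F) (insert e ξ) (insert e η) +
          (1 - ce E μ F η (op e)) * kk86 E μ f g T1 (insert e F) (insert e ξ) η) +
      (1 - ce E μ F ξ (op e)) *
        (ce E μ F η (op e) * kk86 E μ f g T0 (insert e F) ξ (insert e η) +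
          (1 - ce E μ F η (op e)) * kk86 E μ f g T0 (insert e F) ξ η) +
      (ce E μ F η (fun ω => g ω * op e ω) - ce E μ F η g * ce E μ F η (op e)) := by
  obtain ⟨h1, h2, h3, h4⟩ := hT
  have hF' := insF86 h1 hF
  obtain ⟨ha0, ha1⟩ := step_bd86 h h1 h2 hF hξ
  obtain ⟨hb0, hb1⟩ := step_bd86 h h1 h2 hF hη
  rw [← cov_step86 h h1 h2 hF hη]
  have i1 := kk_diff86 h hg hf T1 h4 hF' (insξ86 e hξ) (Finset.subset_insert e η) (insξ86 e hη)
  have j1 := kk_diff86 h hg hf T0 h3 hF' (subξ86 e hξ) (Finset.subset_insert e η) (insξ86 e hη)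
  have k1 : ce E μ (insert e F) η g ≤ ce E μ (insert e F) (insert e η) g :=
    ce_mono h hg (Finset.subset_insert e η) (insξ86 e hη) hF'
  rw [kk86]
  generalize ce E μ F ξ (op e) = a at *
  generalize ce E μ F η (op e) = b at *
  generalize kk86 E μ f g T1 (insert e F) (insert e ξ) η = x1 at *
  generalize kk86 E μ f g T1 (insert e F) (insert e ξ) (insert e η) = x2 at *
  generalize kk86 E μ f g T0 (insert e F) ξ η = y1 at *
  generalize kk86 E μ f g T0 (insert e F) ξ (insert e η) = y2 at *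
  generalize ce E μ (insert e F) (insert e η) g = z2 at *
  generalize ce E μ (insert e F) η g = z1 at *
  have hc0 : 0 ≤ min a b - a * b := by
    rcases le_total a b with hab | hab
    · rw [min_eq_left hab]
      nlinarith
    · rw [min_eq_right hab]
      nlinarith
  have hc1 : min a b - a * b ≤ b * (1 - b) := by
    rcases le_total a b with hab | hab
    · rw [min_eq_left hab]
      nlinarith
    · rw [min_eq_right hab]
      nlinarith
  have e1 : (min a b - a * b) * ((x2 - x1) - (y2 - y1)) ≤ (min a b - a * b) * (z2 - z1) :=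
    mul_le_mul_of_nonneg_left (by linarith [i1.2, j1.1]) hc0
  have e2 : (min a b - a * b) * (z2 - z1) ≤ b * (1 - b) * (z2 - z1) :=
    mul_le_mul_of_nonneg_right hc1 (by linarith)
  linarith

/-- The averages over the second information. -/
private noncomputable def bb86 (E : Finset α) (μ f g : Finset α → ℝ) (T : Tree α)
    (F ξ : Finset α) : ℝ :=
  ∑ η ∈ F.powerset, ms E μ F η (fun _ => 1) * kk86 E μ f g T F ξ η

private theorem sum_inter86 (hF : F ⊆ E) (φ : Finset α → ℝ) :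
    ∑ η ∈ F.powerset, ms E μ F η (fun _ => 1) * φ η =
      ∑ ω ∈ E.powerset, μ ω * φ (ω ∩ F) := by
  rw [← sum_ms (E := E) (μ := μ) (g := fun ω => φ (ω ∩ F)) hF]
  refine Finset.sum_congr rfl fun η _ => ?_
  have h1 : ms E μ F η (fun ω => φ (ω ∩ F)) = ms E μ F η (fun _ => φ η * 1) := by
    refine ms_congr fun ω _ hω => ?_
    rw [hω, mul_one]
  rw [h1, ms_smul, mul_comm]

private theorem sum_ce86 (h : Good E μ) (hF : F ⊆ E) (g : Finset α → ℝ) :
    ∑ η ∈ F.powerset, ms E μ F η (fun _ => 1) * ce E μ F η g =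
      ∑ ω ∈ E.powerset, μ ω * g ω := by
  rw [← sum_ms (E := E) (μ := μ) (g := g) hF]
  refine Finset.sum_congr rfl fun η hη => ?_
  exact ms_ce86 h hF (Finset.mem_powerset.1 hη)

private theorem av_mul86 (h : Good E μ) (g : Finset α → ℝ) :
    (∑ ω ∈ E.powerset, μ ω) * av E μ g = ∑ ω ∈ E.powerset, μ ω * g ω := by
  rw [av, mul_div_assoc', mul_div_cancel_left₀ _ (av_pos_den h).ne']

private theorem inter_inc86 (h : Good E μ) (hg : Inc E g) (hF : F ⊆ E) :
    Inc E (fun ω => ce E μ F (ω ∩ F) g) := by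
  intro a b hab _
  exact ce_mono h hg (Finset.inter_subset_inter_right hab) Finset.inter_subset_right hF

private theorem cov_sum86 (h : Good E μ) (hg : Inc E g) (hF : F ⊆ E) (e : α) :
    ∑ η ∈ F.powerset, ms E μ F η (fun _ => 1) *
        (ce E μ F η (fun ω => g ω * op e ω) - ce E μ F η g * ce E μ F η (op e)) ≤
      (∑ ω ∈ E.powerset, μ ω) * cov E μ g (op e) := by
  have h1 : ∑ η ∈ F.powerset, ms E μ F η (fun _ => 1) *
        (ce E μ F η (fun ω => g ω * op e ω) - ce E μ F η g * ce E μ F η (op e)) =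
      (∑ η ∈ F.powerset, ms E μ F η (fun _ => 1) * ce E μ F η (fun ω => g ω * op e ω)) -
      ∑ η ∈ F.powerset, ms E μ F η (fun _ => 1) * (ce E μ F η g * ce E μ F η (op e)) := by
    rw [← Finset.sum_sub_distrib]
    exact Finset.sum_congr rfl fun η _ => by ring
  have h2 := sum_inter86 (E := E) (μ := μ) hF (fun η => ce E μ F η g * ce E μ F η (op e))
  have h3 := av_fkg h (inter_inc86 h hg hF) (inter_inc86 h (op_inc e) hF)
  have h4 : ∀ k : Finset α → ℝ, av E μ (fun ω => ce E μ F (ω ∩ F) k) = av E μ k := by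
    intro k
    rw [av, av, ← sum_inter86 (E := E) (μ := μ) hF (fun η => ce E μ F η k), sum_ce86 h hF]
  rw [h4, h4] at h3
  have h5 := mul_le_mul_of_nonneg_left h3 (av_pos_den h).le
  rw [av_mul86 h (fun ω => ce E μ F (ω ∩ F) g * ce E μ F (ω ∩ F) (op e)), ← h2] at h5
  rw [h1, sum_ce86 h hF, ← av_mul86 h, cov]
  linarith

private theorem bb_split86 (h : Good E μ) {e : α} (he : e ∈ E) (he' : e ∉ F) (hF : F ⊆ E)
    (φ : Finset α → ℝ) :
    ∑ η ∈ F.powerset, ms E μ F η (fun _ => 1) *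
        (ce E μ F η (op e) * φ (insert e η) + (1 - ce E μ F η (op e)) * φ η) =
      ∑ η ∈ (insert e F).powerset, ms E μ (insert e F) η (fun _ => 1) * φ η := by
  rw [Finset.sum_powerset_insert he', ← Finset.sum_add_distrib]
  refine Finset.sum_congr rfl fun η hη => ?_
  obtain ⟨h1, h2⟩ := step_mul86 h he he' hF (Finset.mem_powerset.1 hη)
  rw [mul_add, ← mul_assoc, ← mul_assoc, h1, h2]
  ring

private theorem bb_step86 (h : Good E μ) (hg : Inc E g)
    (hf : ∀ ω, ω ⊆ E → 0 ≤ f ω ∧ f ω ≤ 1) {e : α} {T0 T1 : Tree α}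
    (hT : Wf86 E (Tree.node e T0 T1) F) (hF : F ⊆ E) (hξ : ξ ⊆ F) :
    bb86 E μ f g (Tree.node e T0 T1) F ξ ≤
      ce E μ F ξ (op e) * bb86 E μ f g T1 (insert e F) (insert e ξ) +
      (1 - ce E μ F ξ (op e)) * bb86 E μ f g T0 (insert e F) ξ +
      (∑ ω ∈ E.powerset, μ ω) * cov E μ g (op e) := by
  have h1 := hT.1
  have h2 := hT.2.1
  have hle : bb86 E μ f g (Tree.node e T0 T1) F ξ ≤ ∑ η ∈ F.powerset,
      ms E μ F η (fun _ => 1) * (ce E μ F ξ (op e) *
        (ce E μ F η (op e) * kk86 E μ f g T1 (insert e F) (insert e ξ) (insert e η) +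
          (1 - ce E μ F η (op e)) * kk86 E μ f g T1 (insert e F) (insert e ξ) η) +
      (1 - ce E μ F ξ (op e)) *
        (ce E μ F η (op e) * kk86 E μ f g T0 (insert e F) ξ (insert e η) +
          (1 - ce E μ F η (op e)) * kk86 E μ f g T0 (insert e F) ξ η) +
      (ce E μ F η (fun ω => g ω * op e ω) - ce E μ F η g * ce E μ F η (op e))) := by
    rw [bb86]
    refine Finset.sum_le_sum fun η hη => ?_
    have hηF := Finset.mem_powerset.1 hη
    exact mul_le_mul_of_nonneg_left (kk_step86 h hg hf hT hF hξ hηF) (ms_pos h hF hηF).le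
  refine hle.trans ?_
  have hsplit : ∑ η ∈ F.powerset,
      ms E μ F η (fun _ => 1) * (ce E μ F ξ (op e) *
        (ce E μ F η (op e) * kk86 E μ f g T1 (insert e F) (insert e ξ) (insert e η) +
          (1 - ce E μ F η (op e)) * kk86 E μ f g T1 (insert e F) (insert e ξ) η) +
      (1 - ce E μ F ξ (op e)) *
        (ce E μ F η (op e) * kk86 E μ f g T0 (insert e F) ξ (insert e η) +
          (1 - ce E μ F η (op e)) * kk86 E μ f g T0 (insert e F) ξ η) +
      (ce E μ F η (fun ω => g ω * op e ω) - ce E μ F η g * ce E μ F η (op e))) =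
      ce E μ F ξ (op e) * (∑ η ∈ F.powerset, ms E μ F η (fun _ => 1) *
        (ce E μ F η (op e) * kk86 E μ f g T1 (insert e F) (insert e ξ) (insert e η) +
          (1 - ce E μ F η (op e)) * kk86 E μ f g T1 (insert e F) (insert e ξ) η)) +
      (1 - ce E μ F ξ (op e)) * (∑ η ∈ F.powerset, ms E μ F η (fun _ => 1) *
        (ce E μ F η (op e) * kk86 E μ f g T0 (insert e F) ξ (insert e η) +
          (1 - ce E μ F η (op e)) * kk86 E μ f g T0 (insert e F) ξ η)) +
      ∑ η ∈ F.powerset, ms E μ F η (fun _ => 1) *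
        (ce E μ F η (fun ω => g ω * op e ω) - ce E μ F η g * ce E μ F η (op e)) := by
    rw [Finset.mul_sum, Finset.mul_sum, ← Finset.sum_add_distrib, ← Finset.sum_add_distrib]
    exact Finset.sum_congr rfl fun η _ => by ring
  rw [hsplit, bb_split86 h h1 h2 hF (fun η => kk86 E μ f g T1 (insert e F) (insert e ξ) η),
    bb_split86 h h1 h2 hF (fun η => kk86 E μ f g T0 (insert e F) ξ η)]
  have := cov_sum86 h hg hF e
  rw [bb86, bb86]
  linarith

private theorem bb_le86 (h : Good E μ) (hg : Inc E g)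
    (hf : ∀ ω, ω ⊆ E → 0 ≤ f ω ∧ f ω ≤ 1) (T : Tree α) :
    ∀ F ξ : Finset α, Wf86 E T F → F ⊆ E → ξ ⊆ F →
      bb86 E μ f g T F ξ ≤ (∑ ω ∈ E.powerset, μ ω) * (ce E μ F ξ f * av E μ g +
        ce E μ F ξ (fun ω => ∑ e' ∈ T.vis ω, cov E μ g (op e'))) := by
  induction T with
  | leaf =>
    intro F ξ _ hF hξ
    have h1 : ce E μ F ξ (fun ω => ∑ e' ∈ (Tree.leaf : Tree α).vis ω, cov E μ g (op e')) = 0 := by
      have h2 : ce E μ F ξ (fun ω => ∑ e' ∈ (Tree.leaf : Tree α).vis ω, cov E μ g (op e')) =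
          ce E μ F ξ (fun _ => 0) := by
        refine ce_congr86 fun ω _ _ => ?_
        simp [Tree.vis]
      rw [h2, ce_const h hF hξ]
    have h3 : bb86 E μ f g Tree.leaf F ξ =
        ce E μ F ξ f * ∑ η ∈ F.powerset, ms E μ F η (fun _ => 1) * ce E μ F η g := by
      rw [bb86, Finset.mul_sum]
      refine Finset.sum_congr rfl fun η _ => ?_
      rw [kk86]
      ring
    rw [h1, h3, sum_ce86 h hF, ← av_mul86 h]
    apply le_of_eq
    ring
  | node e T0 T1 ih0 ih1 =>
    intro F ξ hT hF hξ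
    have hT' := hT
    obtain ⟨h1, h2, h3, h4⟩ := hT'
    have hF' := insF86 h1 hF
    obtain ⟨ha0, ha1⟩ := step_bd86 h h1 h2 hF hξ
    have i1 := mul_le_mul_of_nonneg_left (ih1 _ _ h4 hF' (insξ86 e hξ)) ha0
    have i0 := mul_le_mul_of_nonneg_left (ih0 _ _ h3 hF' (subξ86 e hξ)) (sub_nonneg.2 ha1)
    have hs := bb_step86 h hg hf hT hF hξ
    have hsf := step_split86 h h1 h2 hF hξ f
    have hsV := step_split86 h h1 h2 hF hξ
      (fun ω => ∑ e' ∈ (Tree.node e T0 T1).vis ω, cov E μ g (op e'))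
    have hV1 : ce E μ (insert e F) (insert e ξ)
        (fun ω => ∑ e' ∈ (Tree.node e T0 T1).vis ω, cov E μ g (op e')) =
        cov E μ g (op e) + ce E μ (insert e F) (insert e ξ)
          (fun ω => ∑ e' ∈ T1.vis ω, cov E μ g (op e')) := by
      have h5 : ce E μ (insert e F) (insert e ξ)
          (fun ω => ∑ e' ∈ (Tree.node e T0 T1).vis ω, cov E μ g (op e')) =
          ce E μ (insert e F) (insert e ξ)
          (fun ω => cov E μ g (op e) + ∑ e' ∈ T1.vis ω, cov E μ g (op e')) := by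
        refine ce_congr86 fun ω _ hω => ?_
        have h6 : e ∉ T1.vis ω := fun hcon =>
          (vis86 T1 _ h4 ω e hcon).2 (Finset.mem_insert_self _ _)
        rw [Tree.vis, if_pos (mem_of_inter86 hω), Finset.sum_insert h6]
      rw [h5, ce_add86 (f := fun _ => cov E μ g (op e)), ce_const h hF' (insξ86 e hξ)]
    have hV0 : ce E μ (insert e F) ξ
        (fun ω => ∑ e' ∈ (Tree.node e T0 T1).vis ω, cov E μ g (op e')) =
        cov E μ g (op e) + ce E μ (insert e F) ξ
          (fun ω => ∑ e' ∈ T0.vis ω, cov E μ g (op e')) := by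
      have h5 : ce E μ (insert e F) ξ
          (fun ω => ∑ e' ∈ (Tree.node e T0 T1).vis ω, cov E μ g (op e')) =
          ce E μ (insert e F) ξ
          (fun ω => cov E μ g (op e) + ∑ e' ∈ T0.vis ω, cov E μ g (op e')) := by
        refine ce_congr86 fun ω _ hω => ?_
        have h6 : e ∉ T0.vis ω := fun hcon =>
          (vis86 T0 _ h3 ω e hcon).2 (Finset.mem_insert_self _ _)
        rw [Tree.vis, if_neg (notMem_of_inter86 h2 hξ hω), Finset.sum_insert h6]
      rw [h5, ce_add86 (f := fun _ => cov E μ g (op e)), ce_const h hF' (subξ86 e hξ)]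
    rw [hsf, hsV, hV1, hV0]
    refine hs.trans ?_
    refine (add_le_add (add_le_add i1 i0) le_rfl).trans (le_of_eq ?_)
    ring

end aux86

theorem osss {E : Finset α} {μ : Finset α → ℝ} (h : Good E μ) {f g : Finset α → ℝ}
    (hf : ∀ ω, ω ⊆ E → 0 ≤ f ω ∧ f ω ≤ 1) (hg : Inc E g) (T : Tree α) (hT : T.Computes E f ∅ ∅) :
    cov E μ f g ≤
      ∑ e ∈ E, av E μ (fun ω => if e ∈ T.vis ω then 1 else 0) * cov E μ g (op e) := by
  have hW := wf_of_computes86 T ∅ ∅ hT
  have hZ := av_pos_den h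
  have h1 := bb_le86 h hg hf T ∅ ∅ hW (Finset.empty_subset _) (Finset.Subset.refl _)
  have h2 : bb86 E μ f g T ∅ ∅ = (∑ ω ∈ E.powerset, μ ω) * av E μ (fun ω => f ω * g ω) := by
    rw [bb86, Finset.powerset_empty, Finset.sum_singleton,
      kk_diag86 h T ∅ ∅ hT (Finset.empty_subset _) (Finset.Subset.refl _), ce_empty, ms_empty]
    congr 1
    exact Finset.sum_congr rfl fun ω _ => mul_one _
  rw [h2, ce_empty, ce_empty] at h1
  have h3 := le_of_mul_le_mul_left h1 hZ
  have h4 : av E μ (fun ω => ∑ e' ∈ T.vis ω, cov E μ g (op e')) =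
      ∑ e ∈ E, av E μ (fun ω => if e ∈ T.vis ω then 1 else 0) * cov E μ g (op e) := by
    have h5 : av E μ (fun ω => ∑ e' ∈ T.vis ω, cov E μ g (op e')) =
        av E μ (fun ω => ∑ e ∈ E, cov E μ g (op e) * (if e ∈ T.vis ω then 1 else 0)) := by
      refine av_congr fun ω _ => ?_
      have hsub : T.vis ω ⊆ E := fun e he => (vis86 T ∅ hW ω e he).1
      rw [← Finset.sum_subset hsub (fun e _ he => by rw [if_neg he, mul_zero])]
      exact Finset.sum_congr rfl fun e he => by rw [if_pos he, mul_one]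
    rw [h5, av_sum]
    refine Finset.sum_congr rfl fun e _ => ?_
    rw [av_smul, mul_comm]
  rw [h4] at h3
  rw [cov]
  linarith

end Pool.Helper71.XD
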