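import Pool.Agent.Helper71.XD.Abs

/-!
Project XD.  Block XD-16: covariances of decreasing functions (abstract).

* `cov_piv`: let `g ω = F (ω.erase e) - F (insert e ω) ≥ 0`.  `F ω = F (ω.erase e) - op e ω * g ω`, so
  `- cov F (op e) = - cov (F ∘ erase e) (op e) + cov (op e * g) (op e) ≥ av (op e * g) * (1 - av (op e))`
  (`av_fkg` for `- F (ω.erase e)` and `op e`; `op e * op e = op e`).
  `av (op e * g) ≥ c₁ * av ((1 - op e) * g) = c₁ * av (F ω - F (insert e ω))`: the bijection `ω ↦ insert e ω` from the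
  configurations without `e` to those with `e` preserves `g` and `c₁ * μ ω ≤ μ (insert e ω)`.
  `1 - av (op e) ≥ c₂ * av (op e)`, hence `1 - av (op e) ≥ c₂ / (1 + c₂)`.
* `av_insert_le`: for `h ≥ 0`: `∑ μ ω h (insert e ω)` = sum over `ω ∋ e` of `μ ω h ω`, plus sum over `ω ∌ e` of `μ ω h (insert e ω)`, which
  is at most `c₁⁻¹ * μ (insert e ω) * h (insert e ω)`.
* `av_union_le`: induction on `A`: `F ω - F (ω ∪ insert e A) = (F ω - F (insert e ω)) + (F ω' - F (ω' ∪ A))` with `ω' = insert e ω`; by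
  `av_insert_le` the mean of the second is at most `C * av (F ω - F (ω ∪ A))`, `C = 1 + c₁⁻¹ ≥ 1`.
-/

namespace Pool.Helper71.XD

variable {α : Type*} [DecidableEq α] {E : Finset α} {μ : Finset α → ℝ} {F : Finset α → ℝ}

private theorem sum_split {e₀ : α} (he : e₀ ∈ E) (g : Finset α → ℝ) :
    ∑ ω ∈ E.powerset, g ω =
      ∑ ω ∈ (E.erase e₀).powerset, g (insert e₀ ω) + ∑ ω ∈ (E.erase e₀).powerset, g ω := by
  conv_lhs => rw [← Finset.insert_erase he]
  rw [Finset.sum_powerset_insert (Finset.notMem_erase e₀ E), add_comm]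

theorem cov_piv (h : Good E μ) (hF : ∀ a b, a ⊆ b → b ⊆ E → F b ≤ F a) {e : α} (he : e ∈ E)
    {c₁ c₂ : ℝ} (hc₁ : 0 < c₁) (h₁ : ∀ ω, ω ⊆ E → e ∉ ω → c₁ * μ ω ≤ μ (insert e ω))
    (hc₂ : 0 < c₂) (h₂ : ∀ ω, ω ⊆ E → e ∉ ω → c₂ * μ (insert e ω) ≤ μ ω) :
    c₁ * (c₂ / (1 + c₂)) * av E μ (fun ω => F ω - F (insert e ω)) ≤ -cov E μ F (op e) := by
  have hZ := av_pos_den h
  set g : Finset α → ℝ := fun ω => F (ω.erase e) - F (insert e ω) with hg
  have hsub : ∀ ω ∈ (E.erase e).powerset, ω ⊆ E ∧ e ∉ ω := by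
    intro ω hω
    rw [Finset.mem_powerset] at hω
    exact ⟨hω.trans (Finset.erase_subset _ _), fun h => Finset.notMem_erase e E (hω h)⟩
  have hg0 : ∀ ω, ω ⊆ E → 0 ≤ g ω := by
    intro ω hω
    have := hF (ω.erase e) (insert e ω)
      ((Finset.erase_subset _ _).trans (Finset.subset_insert _ _)) (Finset.insert_subset he hω)
    show 0 ≤ F (ω.erase e) - F (insert e ω)
    linarith
  -- the decomposition
  have hdec : ∀ ω, F ω = F (ω.erase e) - op e ω * g ω := by
    intro ω
    unfold op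
    by_cases h1 : e ∈ ω
    · rw [if_pos h1, hg]
      show F ω = F (ω.erase e) - 1 * (F (ω.erase e) - F (insert e ω))
      rw [Finset.insert_eq_of_mem h1]; ring
    · rw [if_neg h1, Finset.erase_eq_of_notMem h1]; ring
  have hop : ∀ ω : Finset α, op e ω * op e ω = op e ω := by
    intro ω
    unfold op
    split_ifs <;> norm_num
  -- FKG part
  have hfkg : av E μ (fun ω => F (ω.erase e) * op e ω) ≤
      av E μ (fun ω => F (ω.erase e)) * av E μ (op e) := by
    have h3 : Inc E (fun ω => -F (ω.erase e)) := by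
      intro a b hab hb
      have := hF (a.erase e) (b.erase e) (Finset.erase_subset_erase _ hab)
        ((Finset.erase_subset _ _).trans hb)
      show -F (a.erase e) ≤ -F (b.erase e)
      linarith
    have h4 := av_fkg h h3 (op_inc (E := E) e)
    have h5 : av E μ (fun ω => -F (ω.erase e)) = -av E μ (fun ω => F (ω.erase e)) := by
      have := av_smul (E := E) (μ := μ) (g := fun ω => F (ω.erase e)) (-1)
      simpa using this
    have h6 : av E μ (fun ω => -F (ω.erase e) * op e ω) =
        -av E μ (fun ω => F (ω.erase e) * op e ω) := by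
      have := av_smul (E := E) (μ := μ) (g := fun ω => F (ω.erase e) * op e ω) (-1)
      rw [← neg_one_mul, ← this]
      exact av_congr fun ω _ => by ring
    rw [h5, h6] at h4
    linarith
  have hcov : av E μ (fun ω => op e ω * g ω) * (1 - av E μ (op e)) ≤ -cov E μ F (op e) := by
    have h3 : av E μ (fun ω => F ω * op e ω) =
        av E μ (fun ω => F (ω.erase e) * op e ω) - av E μ (fun ω => op e ω * g ω) := by
      have h4 : av E μ (fun ω => F ω * op e ω) =
          av E μ (fun ω => F (ω.erase e) * op e ω + (-1) * (op e ω * g ω)) := by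
        refine av_congr fun ω _ => ?_
        rw [hdec ω]
        have := hop ω
        linear_combination (-g ω) * this
      rw [h4, av_add, av_smul]; ring
    have h5 : av E μ F = av E μ (fun ω => F (ω.erase e)) - av E μ (fun ω => op e ω * g ω) := by
      have h6 : av E μ F = av E μ (fun ω => F (ω.erase e) + (-1) * (op e ω * g ω)) := by
        refine av_congr fun ω _ => ?_
        rw [hdec ω]
        ring
      rw [h6, av_add, av_smul]; ring
    unfold cov
    rw [h3, h5]
    nlinarith [hfkg]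
  -- finite energy
  have hfe : c₁ * av E μ (fun ω => F ω - F (insert e ω)) ≤ av E μ (fun ω => op e ω * g ω) := by
    unfold av
    rw [← mul_div_assoc]
    refine div_le_div_of_nonneg_right ?_ hZ.le
    rw [sum_split he, sum_split he, mul_add, Finset.mul_sum, Finset.mul_sum]
    have h3 : ∑ ω ∈ (E.erase e).powerset,
        c₁ * (μ (insert e ω) * (F (insert e ω) - F (insert e (insert e ω)))) = 0 := by
      refine Finset.sum_eq_zero fun ω _ => ?_
      rw [Finset.insert_idem]; ring
    have h4 : ∑ ω ∈ (E.erase e).powerset, μ ω * (op e ω * g ω) = 0 := by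
      refine Finset.sum_eq_zero fun ω hω => ?_
      unfold op
      rw [if_neg (hsub ω hω).2]; ring
    rw [h3, h4, zero_add, add_zero]
    refine Finset.sum_le_sum fun ω hω => ?_
    obtain ⟨h5, h6⟩ := hsub ω hω
    have h7 : op e (insert e ω) = 1 := by
      unfold op
      rw [if_pos (Finset.mem_insert_self _ _)]
    have h8 : g (insert e ω) = F ω - F (insert e ω) := by
      show F ((insert e ω).erase e) - F (insert e (insert e ω)) = _
      rw [Finset.erase_insert h6, Finset.insert_idem]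
    show c₁ * (μ ω * (F ω - F (insert e ω))) ≤ μ (insert e ω) * (op e (insert e ω) * g (insert e ω))
    rw [h7, h8, one_mul]
    have h9 : 0 ≤ F ω - F (insert e ω) := by
      have := hF ω (insert e ω) (Finset.subset_insert _ _) (Finset.insert_subset he h5)
      linarith
    nlinarith [h₁ ω h5 h6]
  have hcl : c₂ * av E μ (op e) ≤ 1 - av E μ (op e) := by
    have h3 : 1 - av E μ (op e) = av E μ (fun ω => 1 - op e ω) := by
      have h4 : av E μ (fun ω => 1 - op e ω) = av E μ (fun ω => 1 + (-1) * op e ω) :=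
        av_congr fun ω _ => by ring
      rw [h4, av_add, av_smul, av_const h]; ring
    rw [h3]
    unfold av
    rw [← mul_div_assoc]
    refine div_le_div_of_nonneg_right ?_ hZ.le
    rw [sum_split he, sum_split he, mul_add, Finset.mul_sum, Finset.mul_sum]
    have h4 : ∑ ω ∈ (E.erase e).powerset, c₂ * (μ ω * op e ω) = 0 := by
      refine Finset.sum_eq_zero fun ω hω => ?_
      unfold op
      rw [if_neg (hsub ω hω).2]; ring
    have h5 : ∑ ω ∈ (E.erase e).powerset, μ (insert e ω) * (1 - op e (insert e ω)) = 0 := by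
      refine Finset.sum_eq_zero fun ω hω => ?_
      unfold op
      rw [if_pos (Finset.mem_insert_self _ _)]; ring
    rw [h4, h5, zero_add, add_zero]
    refine Finset.sum_le_sum fun ω hω => ?_
    obtain ⟨h6, h7⟩ := hsub ω hω
    show c₂ * (μ (insert e ω) * op e (insert e ω)) ≤ μ ω * (1 - op e ω)
    unfold op
    rw [if_pos (Finset.mem_insert_self _ _), if_neg h7]
    have := h₂ ω h6 h7
    linarith
  have h3 : c₂ / (1 + c₂) ≤ 1 - av E μ (op e) := by
    rw [div_le_iff₀ (by linarith)]
    nlinarith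
  have h4 : 0 ≤ av E μ (fun ω => op e ω * g ω) := by
    have h5 : av E μ (fun _ => (0 : ℝ)) ≤ av E μ (fun ω => op e ω * g ω) := by
      refine av_le h fun ω hω => mul_nonneg ?_ (hg0 ω hω)
      unfold op
      split_ifs <;> norm_num
    rwa [av_const h] at h5
  have h5 : 0 < c₂ / (1 + c₂) := by positivity
  calc c₁ * (c₂ / (1 + c₂)) * av E μ (fun ω => F ω - F (insert e ω))
      = c₁ * av E μ (fun ω => F ω - F (insert e ω)) * (c₂ / (1 + c₂)) := by ring
    _ ≤ av E μ (fun ω => op e ω * g ω) * (c₂ / (1 + c₂)) :=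
        mul_le_mul_of_nonneg_right hfe h5.le
    _ ≤ av E μ (fun ω => op e ω * g ω) * (1 - av E μ (op e)) :=
        mul_le_mul_of_nonneg_left h3 h4
    _ ≤ _ := hcov

theorem av_insert_le (h : Good E μ) {e : α} (he : e ∈ E) {c₁ : ℝ} (hc₁ : 0 < c₁)
    (h₁ : ∀ ω, ω ⊆ E → e ∉ ω → c₁ * μ ω ≤ μ (insert e ω)) {g : Finset α → ℝ}
    (hg : ∀ ω, ω ⊆ E → 0 ≤ g ω) :
    av E μ (fun ω => g (insert e ω)) ≤ (1 + c₁⁻¹) * av E μ g := by
  have hZ := av_pos_den h
  have hsub : ∀ ω ∈ (E.erase e).powerset, ω ⊆ E ∧ e ∉ ω := by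
    intro ω hω
    rw [Finset.mem_powerset] at hω
    exact ⟨hω.trans (Finset.erase_subset _ _), fun h => Finset.notMem_erase e E (hω h)⟩
  unfold av
  rw [← mul_div_assoc]
  refine div_le_div_of_nonneg_right ?_ hZ.le
  rw [sum_split he, sum_split he, mul_add, Finset.mul_sum, Finset.mul_sum]
  have h3 : ∑ ω ∈ (E.erase e).powerset, μ (insert e ω) * g (insert e (insert e ω)) +
      ∑ ω ∈ (E.erase e).powerset, μ ω * g (insert e ω) ≤
      ∑ ω ∈ (E.erase e).powerset, (1 + c₁⁻¹) * (μ (insert e ω) * g (insert e ω)) := by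
    rw [← Finset.sum_add_distrib]
    refine Finset.sum_le_sum fun ω hω => ?_
    obtain ⟨h6, h7⟩ := hsub ω hω
    rw [Finset.insert_idem]
    have h8 : 0 ≤ g (insert e ω) := hg _ (Finset.insert_subset he h6)
    have h9 : μ ω ≤ c₁⁻¹ * μ (insert e ω) := by
      rw [← div_eq_inv_mul, le_div_iff₀ hc₁]
      have := h₁ ω h6 h7
      linarith
    nlinarith [mul_le_mul_of_nonneg_right h9 h8]
  have h4 : 0 ≤ ∑ ω ∈ (E.erase e).powerset, (1 + c₁⁻¹) * (μ ω * g ω) := by
    refine Finset.sum_nonneg fun ω hω => ?_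
    obtain ⟨h6, h7⟩ := hsub ω hω
    exact mul_nonneg (by positivity) (mul_nonneg (h.pos ω h6).le (hg ω h6))
  linarith

theorem av_union_le (h : Good E μ) (hF : ∀ a b, a ⊆ b → b ⊆ E → F b ≤ F a) {c₁ : ℝ} (hc₁ : 0 < c₁)
    (h₁ : ∀ e ∈ E, ∀ ω, ω ⊆ E → e ∉ ω → c₁ * μ ω ≤ μ (insert e ω)) (A : Finset α) (hA : A ⊆ E) :
    av E μ (fun ω => F ω - F (ω ∪ A)) ≤
      (1 + c₁⁻¹) ^ A.card * ∑ e ∈ A, av E μ (fun ω => F ω - F (insert e ω)) := by
  have hC : 1 ≤ 1 + c₁⁻¹ := by
    have : 0 < c₁⁻¹ := by positivity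
    linarith
  have hnn : ∀ e ∈ E, 0 ≤ av E μ (fun ω => F ω - F (insert e ω)) := by
    intro e he
    have h5 : av E μ (fun _ => (0 : ℝ)) ≤ av E μ (fun ω => F ω - F (insert e ω)) := by
      refine av_le h fun ω hω => ?_
      have := hF ω (insert e ω) (Finset.subset_insert _ _) (Finset.insert_subset he hω)
      linarith
    rwa [av_const h] at h5
  induction A using Finset.induction_on with
  | empty =>
    have h2 : av E μ (fun ω => F ω - F (ω ∪ ∅)) = av E μ (fun _ => (0 : ℝ)) :=
      av_congr fun ω _ => by rw [Finset.union_empty]; ring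
    rw [h2, av_const h]
    simp
  | insert a A ha ih =>
    have haE : a ∈ E := hA (Finset.mem_insert_self _ _)
    have hAE : A ⊆ E := (Finset.subset_insert _ _).trans hA
    have ih' := ih hAE
    have h2 : av E μ (fun ω => F ω - F (ω ∪ insert a A)) =
        av E μ (fun ω => F ω - F (insert a ω)) +
          av E μ (fun ω => (fun η => F η - F (η ∪ A)) (insert a ω)) := by
      rw [← av_add]
      refine av_congr fun ω _ => ?_
      have h3 : insert a ω ∪ A = ω ∪ insert a A := by
        ext x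
        simp only [Finset.mem_union, Finset.mem_insert]
        tauto
      show _ = F ω - F (insert a ω) + (F (insert a ω) - F (insert a ω ∪ A))
      rw [h3]; ring
    have h4 := av_insert_le h haE hc₁ (h₁ a haE) (g := fun η => F η - F (η ∪ A)) (by
      intro ω hω
      have := hF ω (ω ∪ A) Finset.subset_union_left (Finset.union_subset hω hAE)
      show 0 ≤ F ω - F (ω ∪ A)
      linarith)
    rw [h2, Finset.card_insert_of_notMem ha, Finset.sum_insert ha, pow_succ]
    have h5 : av E μ (fun ω => F ω - F (insert a ω)) ≤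
        (1 + c₁⁻¹) ^ A.card * (1 + c₁⁻¹) * av E μ (fun ω => F ω - F (insert a ω)) := by
      have h6 : 1 ≤ (1 + c₁⁻¹) ^ A.card * (1 + c₁⁻¹) := by
        rw [← pow_succ]
        exact one_le_pow₀ hC
      nlinarith [hnn a haE]
    have h7 : (1 + c₁⁻¹) * av E μ (fun η => F η - F (η ∪ A)) ≤
        (1 + c₁⁻¹) * ((1 + c₁⁻¹) ^ A.card * ∑ e ∈ A, av E μ (fun ω => F ω - F (insert e ω))) :=
      mul_le_mul_of_nonneg_left ih' (by linarith)
    nlinarith [h4, h5, h7]

end Pool.Helper71.XD
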