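import Pool.Agent.Helper71.XD.Wire

/-!
Project XD.  Block XD-6: the wired one-arm probabilities `tauW q ρ n` and the bound of the revealment.

* `tauW_anti`: for `n ≤ m`: `Arm m (0, 0)` implies `Arm n (0, 0)` (`arm_of_conn`), and `prW_ring_anti`.
* `tauW_mono`: `prW_mono`.
* `tauW_lt`: if the four edges at `(0, 0)` are closed then `Arm n (0, 0)` fails (`n ≥ 1`); given that the ring is open they are closed
  with probability at least `(1 + ρ)⁻¹ ^ 4`: removing from `ω` the open ones among them multiplies the weight by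
  at least `ρ⁻¹` for each (`ncl` does not decrease), and every configuration arises from at most `2 ^ 4` ones; more
  exactly: `∑ over the subsets T of the four edges of wt (ω ∪ T) ≤ (1 + ρ) ^ 4 * wt ω`.
* `reveal`: let `s = ‖x‖ ≤ n`, `1 ≤ k ≤ n`, `j = min |s - k| (n / 2)`.  If `x` is joined to `y ∈ sph k` then `Arm j x` occurs
  (`arm_of_conn`, `Conn.mono`), and `prW (box (2n+1)) (ring (2n)) (Arm j x) ≤ prW (bx x (2j+1)) (rg x (2j)) (Arm j x) = tauW j`
  (`prW_le_ring`, `arm_incr`, `arm_dep`, `Dep_mono`, `prW_ring_tr`; `bx x (2 j) ⊆ box (2 n)`).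
  Every value of `|s - k|` is taken at most twice, so the `k` with `|s - k| < n / 2` contribute at most
  `2 * ∑ j < n / 2, tauW j`; the others at most `n * tauW (n / 2) ≤ 3 * (n / 2) * tauW (n / 2) ≤ 3 * ∑ j < n / 2, tauW j` if
  `n ≥ 2` (`tauW_anti`); `n = 1` is clear (`tauW 0 = 1`).
-/

namespace Pool.Helper71.XD

open Pool.Helper49.FK

/-- The sphere of radius `k`. -/
noncomputable def sph (k : ℕ) : Finset (ℤ × ℤ) := (box k).filter fun y => |y.1| = k ∨ |y.2| = k

/-- The wired one-arm probability. -/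
noncomputable def tauW (q ρ : ℝ) (n : ℕ) : ℝ :=
  prW q (hom ρ) (box (2 * n + 1)) (ring (2 * n)) (Arm n (0, 0))

variable {q ρ : ℝ}

private theorem h80_hom (hρ : 0 < ρ) : ∀ e, 0 ≤ hom ρ e := fun _ => hρ.le

private theorem h80_ring_sub (n : ℕ) : ring n ⊆ edges (box (n + 1)) := Finset.sdiff_subset

private theorem h80_mem_bx {x y : ℤ × ℤ} {n : ℕ} : y ∈ bx x n ↔
    (x.1 - n ≤ y.1 ∧ y.1 ≤ x.1 + n) ∧ (x.2 - n ≤ y.2 ∧ y.2 ≤ x.2 + n) := by
  simp only [bx, Finset.mem_product, Finset.mem_Icc]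

private theorem h80_mem_box {y : ℤ × ℤ} {n : ℕ} : y ∈ box n ↔
    (-(n : ℤ) ≤ y.1 ∧ y.1 ≤ n) ∧ (-(n : ℤ) ≤ y.2 ∧ y.2 ≤ n) := by
  simp only [box, Finset.mem_product, Finset.mem_Icc]

theorem tauW_nonneg (hq : 1 ≤ q) (hρ : 0 < ρ) (n : ℕ) : 0 ≤ tauW q ρ n :=
  prW_nonneg (by linarith) (h80_hom hρ) _ _

theorem tauW_le_one (hq : 1 ≤ q) (hρ : 0 < ρ) (n : ℕ) : tauW q ρ n ≤ 1 :=
  prW_le_one (by linarith) (h80_hom hρ) _ _

private theorem h80_pos (hq : 1 ≤ q) (hρ : 0 < ρ) (n : ℕ) :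
    0 < pr q (hom ρ) (box (n + 1)) (fun ω => ring n ⊆ ω) :=
  pr_open_pos (by linarith) (h80_hom hρ) (h80_ring_sub n) fun _ _ => hρ

theorem tauW_zero (hq : 1 ≤ q) (hρ : 0 < ρ) : tauW q ρ 0 = 1 := by
  have h := h80_pos hq hρ (2 * 0)
  unfold tauW prW
  rw [div_eq_one_iff_eq h.ne']
  refine pr_congr fun ω _ => ⟨fun h => h.1, fun h => ⟨h, (0, 0), ?_, ?_, Conn.refl _ _⟩⟩
  · rw [h80_mem_bx]; simp
  · simp

theorem tauW_anti (hq : 1 ≤ q) (hρ : 0 < ρ) {n m : ℕ} (h : n ≤ m) : tauW q ρ m ≤ tauW q ρ n := by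
  have h1 : tauW q ρ m ≤ prW q (hom ρ) (box (2 * m + 1)) (ring (2 * m)) (Arm n (0, 0)) := by
    refine prW_mono_event (by linarith) (h80_hom hρ) _ fun ω _ _ hA => ?_
    obtain ⟨y, hy, h1, h2⟩ := hA
    refine arm_of_conn (h2.mono Finset.inter_subset_left) ?_
    have h' : (n : ℤ) ≤ m := by exact_mod_cast h
    rcases h1 with h1 | h1
    · exact le_max_of_le_left (by rw [h1]; exact h')
    · exact le_max_of_le_right (by rw [h1]; exact h')
  refine h1.trans (prW_ring_anti hq hρ (by omega) (arm_incr n _) ?_)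
  refine Dep_mono ?_ (arm_dep n _)
  refine edges_mono fun y hy => ?_
  rw [h80_mem_bx] at hy
  rw [h80_mem_box]
  simp only at hy
  push_cast
  omega

theorem tauW_mono (hq : 1 ≤ q) (hρ : 0 < ρ) {ρ' : ℝ} (h : ρ ≤ ρ') (n : ℕ) :
    tauW q ρ n ≤ tauW q ρ' n :=
  prW_mono hq (h80_hom hρ) (fun _ => h) (Finset.Subset.refl _) (Finset.Subset.refl _)
    (h80_ring_sub _) (fun _ _ => hρ.trans_le h) (arm_incr n _)

private theorem h80_close {E T : Finset Edge} {μ : Finset Edge → ℝ} {c : ℝ} (hc : 0 ≤ c)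
    (hT : T ⊆ E) (hμ : ∀ e ∈ T, ∀ ω, ω ⊆ E → e ∉ ω → μ (insert e ω) ≤ c * μ ω) :
    ∑ ω ∈ E.powerset, μ ω ≤ (1 + c) ^ T.card * ∑ ω ∈ (E \ T).powerset, μ ω := by
  induction T using Finset.induction_on with
  | empty => simp
  | insert a T ha ih =>
    have haE : a ∈ E := hT (Finset.mem_insert_self _ _)
    have hTE : T ⊆ E := (Finset.subset_insert _ _).trans hT
    have h1 := ih hTE fun e he => hμ e (Finset.mem_insert_of_mem he)
    have h2 : E \ T = insert a (E \ insert a T) := by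
      ext x
      simp only [Finset.mem_sdiff, Finset.mem_insert]
      constructor
      · rintro ⟨h3, h4⟩
        by_cases hx : x = a
        · exact Or.inl hx
        · exact Or.inr ⟨h3, fun h5 => h5.elim hx h4⟩
      · rintro (h3 | ⟨h3, h4⟩)
        · rw [h3]; exact ⟨haE, ha⟩
        · exact ⟨h3, fun h5 => h4 (Or.inr h5)⟩
    have h3 : a ∉ E \ insert a T := by simp
    have h4 : ∑ ω ∈ (E \ T).powerset, μ ω ≤ (1 + c) * ∑ ω ∈ (E \ insert a T).powerset, μ ω := by
      rw [h2, Finset.sum_powerset_insert h3, add_mul, one_mul, Finset.mul_sum]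
      refine add_le_add le_rfl ?_
      refine Finset.sum_le_sum fun ω hω => ?_
      have hω' := Finset.mem_powerset.1 hω
      exact hμ a (Finset.mem_insert_self _ _) ω (hω'.trans Finset.sdiff_subset)
        fun h => h3 (hω' h)
    rw [Finset.card_insert_of_notMem ha, pow_succ, mul_assoc]
    exact h1.trans (mul_le_mul_of_nonneg_left h4 (by positivity))

private theorem h80_wt (hq : 1 ≤ q) (hρ : 0 < ρ) (D : Finset (ℤ × ℤ)) {e : Edge} (he : e ∈ edges D)
    {ω : Finset Edge} (h : e ∉ ω) : wt q (hom ρ) D (insert e ω) ≤ ρ * wt q (hom ρ) D ω := by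
  have hn : ncl D (insert e ω) ≤ ncl D ω := by
    by_cases hc : Conn ω e.1 (tip e)
    · rw [ncl_insert_of_conn hc]
    · have := ncl_insert_of_not_conn he hc
      omega
  unfold wt
  rw [Finset.prod_insert h]
  have h1 : q ^ ncl D (insert e ω) ≤ q ^ ncl D ω := pow_le_pow_right₀ hq hn
  have h2 : 0 ≤ ∏ e ∈ ω, hom ρ e := Finset.prod_nonneg fun e _ => (h80_hom hρ) e
  calc hom ρ e * (∏ e ∈ ω, hom ρ e) * q ^ ncl D (insert e ω)
      ≤ hom ρ e * (∏ e ∈ ω, hom ρ e) * q ^ ncl D ω :=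
        mul_le_mul_of_nonneg_left h1 (mul_nonneg hρ.le h2)
    _ = ρ * ((∏ e ∈ ω, hom ρ e) * q ^ ncl D ω) := by unfold hom; ring

/-- the four edges at the origin -/
private def h80E : Finset Edge := {((0, 0), true), ((0, 0), false), ((-1, 0), true), ((0, -1), false)}

private theorem h80E_card : h80E.card = 4 := by decide

private theorem h80_arm {n : ℕ} (hn : 1 ≤ n) {ω : Finset Edge} (h : Arm n (0, 0) ω) :
    ¬ Disjoint ω h80E := by
  intro hd
  obtain ⟨y, hy, h1, h2⟩ := h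
  have h3 : y ∈ ({(0, 0)} : Set (ℤ × ℤ)) := by
    refine h2.induct rfl fun e he => ?_
    have he' := (Finset.mem_inter.1 he).1
    have hne : e ∉ h80E := Finset.disjoint_left.1 hd he'
    obtain ⟨⟨a, b⟩, c⟩ := e
    simp only [Set.mem_singleton_iff, tip, Prod.mk.injEq]
    have key : ¬ (a = 0 ∧ b = 0) ∧ ¬ (tip ((a, b), c) = (0, 0)) := by
      constructor
      · rintro ⟨rfl, rfl⟩
        apply hne
        cases c <;> simp [h80E]
      · intro ht
        apply hne
        cases c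
        · simp only [tip] at ht
          simp at ht
          obtain ⟨rfl, hb⟩ := ht
          have : b = -1 := by omega
          subst this
          simp [h80E]
        · simp only [tip] at ht
          simp at ht
          obtain ⟨ha, rfl⟩ := ht
          have : a = -1 := by omega
          subst this
          simp [h80E]
    constructor
    · intro h; exact absurd h key.1
    · intro h; exact absurd h key.2
  rw [Set.mem_singleton_iff] at h3
  rw [h3] at h1
  simp at h1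
  omega

theorem tauW_lt (hq : 1 ≤ q) (hρ : 0 < ρ) {n : ℕ} (hn : 1 ≤ n) :
    tauW q ρ n ≤ 1 - ((1 + ρ)⁻¹) ^ 4 := by
  classical
  have hF := h80_ring_sub (2 * n)
  obtain ⟨E, hE⟩ : ∃ E, E = edges (box (2 * n + 1)) \ ring (2 * n) := ⟨_, rfl⟩
  obtain ⟨μ, hμ⟩ : ∃ μ : Finset Edge → ℝ, μ = fun ω =>
    wt q (hom ρ) (box (2 * n + 1)) (ω ∪ ring (2 * n)) := ⟨_, rfl⟩
  have hgood : Good E μ := by
    rw [hE, hμ]
    exact good_wired hq (fun _ => hρ) hF
  have hin : h80E ⊆ edges (box (2 * n)) := by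
    intro e he
    have hn' : (1 : ℤ) ≤ n := by exact_mod_cast hn
    simp only [h80E, Finset.mem_insert, Finset.mem_singleton] at he
    rw [mem_edges, h80_mem_box, h80_mem_box]
    rcases he with rfl | rfl | rfl | rfl <;> simp [tip] <;> omega
  have h4E : h80E ⊆ E := by
    intro e he
    rw [hE, Finset.mem_sdiff]
    have h1 := hin he
    refine ⟨edges_mono ?_ h1, fun h2 => (Finset.mem_sdiff.1 h2).2 h1⟩
    intro y hy
    rw [h80_mem_box] at hy ⊢
    push_cast at hy ⊢
    omega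
  have hμe : ∀ e ∈ h80E, ∀ ω, ω ⊆ E → e ∉ ω → μ (insert e ω) ≤ ρ * μ ω := by
    intro e he ω _ heω
    rw [hμ]
    simp only
    rw [Finset.insert_union]
    have h1 := h4E he
    rw [hE, Finset.mem_sdiff] at h1
    refine h80_wt hq hρ _ h1.1 ?_
    rw [Finset.mem_union]
    exact fun h => h.elim heω h1.2
  have hsum := h80_close hρ.le h4E hμe
  rw [h80E_card] at hsum
  have hZ := av_pos_den hgood
  -- the average of the indicator that the four edges are closed
  obtain ⟨c, hc⟩ : ∃ c : Finset Edge → ℝ, c = fun ω => if Disjoint ω h80E then 1 else 0 := ⟨_, rfl⟩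
  have hcav : ((1 + ρ)⁻¹) ^ 4 ≤ av E μ c := by
    unfold av
    have h1 : ∑ ω ∈ E.powerset, μ ω * c ω = ∑ ω ∈ (E \ h80E).powerset, μ ω := by
      rw [hc]
      simp only [mul_ite, mul_one, mul_zero]
      rw [← Finset.sum_filter]
      refine Finset.sum_congr ?_ fun _ _ => rfl
      ext ω
      simp only [Finset.mem_filter, Finset.mem_powerset]
      constructor
      · rintro ⟨h2, h3⟩ e he
        exact Finset.mem_sdiff.2 ⟨h2 he, Finset.disjoint_left.1 h3 he⟩
      · intro h2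
        exact ⟨h2.trans Finset.sdiff_subset, Finset.disjoint_left.2 fun e he =>
          (Finset.mem_sdiff.1 (h2 he)).2⟩
    rw [h1, le_div_iff₀ hZ, inv_pow, inv_mul_le_iff₀ (by positivity)]
    exact hsum
  have hle : av E μ (fun ω => (if Arm n (0, 0) (ω ∪ ring (2 * n)) then (1 : ℝ) else 0) + c ω) ≤ 1 := by
    refine le_trans (av_le hgood (g := fun _ => 1) fun ω _ => ?_) (av_const hgood 1).le
    rw [hc]
    simp only
    by_cases h1 : Arm n (0, 0) (ω ∪ ring (2 * n))
    · have h2 : ¬ Disjoint ω h80E := by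
        intro h3
        apply h80_arm hn h1
        rw [Finset.disjoint_union_left]
        refine ⟨h3, ?_⟩
        rw [Finset.disjoint_right]
        intro e he h4
        exact (Finset.mem_sdiff.1 h4).2 (hin he)
      rw [if_pos h1, if_neg h2]
      norm_num
    · rw [if_neg h1, zero_add]
      split_ifs <;> norm_num
  rw [av_add] at hle
  have h5 : tauW q ρ n = av E μ (fun ω => if Arm n (0, 0) (ω ∪ ring (2 * n)) then (1 : ℝ) else 0) := by
    unfold tauW
    rw [prW_eq_av (r := hom ρ) (by linarith) (fun _ => hρ) hF, hE, hμ]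
  rw [h5]
  linarith

private theorem h80_term (hq : 1 ≤ q) (hρ : 0 < ρ) {n j : ℕ} {x : ℤ × ℤ} (hx : x ∈ box n)
    (hj : 2 * j ≤ n) :
    prW q (hom ρ) (box (2 * n + 1)) (ring (2 * n)) (Arm j x) ≤ tauW q ρ j := by
  have h1 : prW q (hom ρ) (box (2 * n + 1)) (ring (2 * n)) (Arm j x) ≤
      prW q (hom ρ) (bx x (2 * j + 1)) (rg x (2 * j)) (Arm j x) := by
    refine prW_le_ring hq hρ (arm_incr j x) (Dep_mono ?_ (arm_dep j x)) (h80_ring_sub _) ?_
    · refine edges_mono fun y hy => ?_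
      rw [h80_mem_bx] at hy ⊢
      push_cast
      omega
    · rw [Finset.disjoint_left]
      intro e he h2
      refine (Finset.mem_sdiff.1 he).2 (edges_mono ?_ h2)
      intro y hy
      rw [h80_mem_bx] at hy
      rw [h80_mem_box] at hx ⊢
      push_cast at hy ⊢
      omega
  rw [prW_ring_tr] at h1
  exact h1

theorem reveal (hq : 1 ≤ q) (hρ : 0 < ρ) {n : ℕ} (hn : 1 ≤ n) {x : ℤ × ℤ} (hx : x ∈ box n) :
    ∑ k ∈ Finset.Icc 1 n, prW q (hom ρ) (box (2 * n + 1)) (ring (2 * n))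
      (fun ω => ∃ s ∈ sph k, Conn (ω ∩ edges (box n)) s x) ≤
    5 * ∑ j ∈ Finset.range n, tauW q ρ j := by
  have t0 : ∀ j, 0 ≤ tauW q ρ j := tauW_nonneg hq hρ
  rcases Nat.lt_or_ge n 2 with h2 | h2
  · have : n = 1 := by omega
    subst this
    rw [Finset.Icc_self, Finset.sum_singleton, Finset.sum_range_one, tauW_zero hq hρ]
    have := prW_le_one (D := box (2 * 1 + 1)) (r := hom ρ) (q := q) (by linarith) (h80_hom hρ)
      (ring (2 * 1)) (fun ω => ∃ s ∈ sph 1, Conn (ω ∩ edges (box 1)) s x)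
    linarith
  obtain ⟨s0, hs0⟩ : ∃ s0 : ℕ, s0 = max x.1.natAbs x.2.natAbs := ⟨_, rfl⟩
  obtain ⟨h, hh⟩ : ∃ h : ℕ, h = n / 2 := ⟨_, rfl⟩
  have hh1 : 2 * h ≤ n := by omega
  have hh2 : n ≤ 3 * h := by omega
  have hterm : ∀ k ∈ Finset.Icc 1 n, prW q (hom ρ) (box (2 * n + 1)) (ring (2 * n))
      (fun ω => ∃ s ∈ sph k, Conn (ω ∩ edges (box n)) s x) ≤
      ∑ j ∈ Finset.range h, (if (s0 - k) + (k - s0) = j then tauW q ρ j else 0) + tauW q ρ h := by
    intro k _
    have h3 : ∀ j : ℕ, j ≤ (s0 - k) + (k - s0) → 2 * j ≤ n →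
        prW q (hom ρ) (box (2 * n + 1)) (ring (2 * n))
        (fun ω => ∃ s ∈ sph k, Conn (ω ∩ edges (box n)) s x) ≤ tauW q ρ j := by
      intro j hj hj2
      refine le_trans (prW_mono_event (by linarith) (h80_hom hρ) _ fun ω _ _ hA => ?_)
        (h80_term hq hρ hx hj2)
      obtain ⟨y, hy, h4⟩ := hA
      refine arm_of_conn (y := y) (h4.symm.mono Finset.inter_subset_left) ?_
      unfold sph at hy
      rw [Finset.mem_filter, h80_mem_box] at hy
      obtain ⟨h5, h6⟩ := hy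
      have a1 := le_abs_self (y.1 - x.1)
      have a2 := neg_abs_le (y.1 - x.1)
      have a3 := le_abs_self (y.2 - x.2)
      have a4 := neg_abs_le (y.2 - x.2)
      have b1 := le_max_left |y.1 - x.1| |y.2 - x.2|
      have b2 := le_max_right |y.1 - x.1| |y.2 - x.2|
      generalize max |y.1 - x.1| |y.2 - x.2| = M at b1 b2 ⊢
      generalize |y.1 - x.1| = A at a1 a2 b1
      generalize |y.2 - x.2| = B at a3 a4 b2
      rcases h6 with h6 | h6
      · rcases abs_cases y.1 with h7 | h7 <;> omega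
      · rcases abs_cases y.2 with h7 | h7 <;> omega
    rcases Nat.lt_or_ge ((s0 - k) + (k - s0)) h with h4 | h4
    · have h5 := h3 _ le_rfl (by omega)
      have h6 : ∑ j ∈ Finset.range h, (if (s0 - k) + (k - s0) = j then tauW q ρ j else 0) =
          tauW q ρ ((s0 - k) + (k - s0)) := by
        rw [Finset.sum_ite_eq, if_pos (Finset.mem_range.2 h4)]
      rw [h6]
      linarith [t0 h]
    · have h5 := h3 h h4 hh1
      have h6 : 0 ≤ ∑ j ∈ Finset.range h, (if (s0 - k) + (k - s0) = j then tauW q ρ j else 0) :=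
        Finset.sum_nonneg fun j _ => by split_ifs <;> simp [t0]
      linarith
  refine (Finset.sum_le_sum hterm).trans ?_
  rw [Finset.sum_add_distrib, Finset.sum_comm, Finset.sum_const, Nat.card_Icc, nsmul_eq_mul]
  have h7 : ∀ j ∈ Finset.range h, ∑ k ∈ Finset.Icc 1 n,
      (if (s0 - k) + (k - s0) = j then tauW q ρ j else 0) ≤ 2 * tauW q ρ j := by
    intro j _
    rw [← Finset.sum_filter, Finset.sum_const, nsmul_eq_mul]
    refine mul_le_mul_of_nonneg_right ?_ (t0 j)
    have h8 : (Finset.Icc 1 n).filter (fun k => (s0 - k) + (k - s0) = j) ⊆ {s0 + j, s0 - j} := by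
      intro k hk
      rw [Finset.mem_filter] at hk
      simp only [Finset.mem_insert, Finset.mem_singleton]
      omega
    have h9 := (Finset.card_le_card h8).trans Finset.card_le_two
    exact_mod_cast h9
  have h8 := Finset.sum_le_sum h7
  rw [← Finset.mul_sum] at h8
  have h9 : (h : ℝ) * tauW q ρ h ≤ ∑ j ∈ Finset.range h, tauW q ρ j := by
    have : ∑ j ∈ Finset.range h, tauW q ρ h ≤ ∑ j ∈ Finset.range h, tauW q ρ j :=
      Finset.sum_le_sum fun j hj => tauW_anti hq hρ (Finset.mem_range.1 hj).le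
    rwa [Finset.sum_const, Finset.card_range, nsmul_eq_mul] at this
  have h10 : ∑ j ∈ Finset.range h, tauW q ρ j ≤ ∑ j ∈ Finset.range n, tauW q ρ j :=
    Finset.sum_le_sum_of_subset_of_nonneg (Finset.range_subset_range.2 (by omega))
      fun j _ _ => t0 j
  have h11 : ((n + 1 - 1 : ℕ) : ℝ) * tauW q ρ h ≤ 3 * ((h : ℝ) * tauW q ρ h) := by
    have h12 : ((n + 1 - 1 : ℕ) : ℝ) ≤ 3 * h := by
      rw [Nat.add_sub_cancel]
      exact_mod_cast hh2
    have := mul_le_mul_of_nonneg_right h12 (t0 h)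
    linarith
  linarith

end Pool.Helper71.XD
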