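import Pool.Agent.Helper71.XD.Two
import Pool.Agent.Helper71.XD.Piv
import Pool.Agent.Helper71.XD.Russo
import Pool.Agent.Helper71.XD.Tau

/-!
Project XD.  Blocks XD-17 (`nc_*`, `two_drop`) and XD-18 (`piv_false`): counting boundary clusters.

`nc S ω` is the number of clusters meeting `S`.  `Fb N ω = nc (sph N) (ω ∩ edges (box N))`: the number of clusters of the box
which touch its boundary; decreasing in `ω`, between `0` and `|sph N| ≤ 8 N + 1`.
* `nc_drop`: the map from the classes of `ω` to the classes of `ω'` is surjective and not injective.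
* `two_drop`: let `z ∈ box (N - K)` (`K ≤ N`), so `bx z K ⊆ box N ⊆ bx z (2 N)`.  If `Two K (2 N) z ω` with `x`, `x'`: the vertex `y` on the
  boundary of `bx z (2 N)` has `‖y‖ ≥ 2 N - (N - K) ≥ N`, so `x` is joined in `ω ∩ edges (box N)` to a vertex `s ∈ sph N` (if `y ∈ box N` and
  the connection stays in `box N` take `s = y`, otherwise `exit`), in the same way `x'` to `s' ∈ sph N`; `s`, `s'` are not joined in
  `ω ∩ edges (box N)`, but in `(ω ∪ edges (bx z K)) ∩ edges (box N)`.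
* `piv_false`: for `N ≥ K` let `M` be given by `h`, `E = edges (box M)`, `μ_ρ = wt q (hom ρ) (box M)`, `F = Fb N`,
  `G ρ = ex q (hom ρ) (box M) F ∈ [0, 8 N + 1]`.  For `ρ ∈ [ρ₁, ρ₂]`: `c₁ = ρ₁ / q`, `c₂ = 1 / ρ₂` satisfy the hypotheses of `cov_piv`
  (`wt (insert e ω) = ρ * wt ω` or `ρ / q * wt ω`).  Let `Z = {((2K+1) i, (2K+1) j)} ∩ box (N - K)`; `|Z| ≥ (2 t + 1) ^ 2` with
  `t = (N - K) / (2K + 1)`; the sets `A_z = edges (bx z K) ⊆ edges (box N)`, `z ∈ Z`, are disjoint, with the same cardinality `a`.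
  By `two_drop`, `av_union_le`: `1/4 ≤ δ ≤ av (F ω - F (ω ∪ A_z)) ≤ C ^ a * ∑ e ∈ A_z, av (F ω - F (insert e ω))`; sum over `Z` and
  `cov_piv` (all terms `≥ 0`): `|Z| * δ ≤ C ^ a / (c₁ c₂ / (1 + c₂)) * ∑ e ∈ E, - cov F (op e)`, so by Russo (`hasDerivAt_av` for
  `w ω = q ^ ncl (box M) ω`, `wt = ρ ^ |ω| * w ω`) `G' ≤ - κ * |Z|` on `[ρ₁, ρ₂]` with `κ > 0` independent of `N`.
  So `κ * |Z| * (ρ₂ - ρ₁) ≤ 8 N + 1` for all `N ≥ K`: false for large `N`, since `|Z|` grows like `N ^ 2`.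
-/

namespace Pool.Helper71.XD

open Pool.Helper49.FK

open Classical in
/-- The number of clusters meeting `S`. -/
noncomputable def nc (S : Finset (ℤ × ℤ)) (ω : Finset Edge) : ℕ :=
  (S.image fun x => (gr ω).connectedComponentMk x).card

/-- The number of boundary clusters of the box. -/
noncomputable def Fb (N : ℕ) (ω : Finset Edge) : ℝ := (nc (sph N) (ω ∩ edges (box N)) : ℝ)

private theorem gr_mono71 {ω ω' : Finset Edge} (h : ω ⊆ ω') : gr ω ≤ gr ω' := by
  rintro x y ⟨e, he, h1⟩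
  exact ⟨e, h he, h1⟩

open Classical in
private theorem nc_image (S : Finset (ℤ × ℤ)) {ω ω' : Finset Edge} (h : ω ⊆ ω') :
    (S.image fun x => (gr ω').connectedComponentMk x) =
      (S.image fun x => (gr ω).connectedComponentMk x).image
        (SimpleGraph.ConnectedComponent.map (SimpleGraph.Hom.ofLE (gr_mono71 h))) := by
  rw [Finset.image_image]
  rfl

theorem nc_anti (S : Finset (ℤ × ℤ)) {ω ω' : Finset Edge} (h : ω ⊆ ω') : nc S ω' ≤ nc S ω := by
  classical
  unfold nc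
  rw [nc_image S h]
  exact Finset.card_image_le

theorem nc_le (S : Finset (ℤ × ℤ)) (ω : Finset Edge) : nc S ω ≤ S.card := by
  classical
  unfold nc
  exact Finset.card_image_le

theorem nc_drop {S : Finset (ℤ × ℤ)} {ω ω' : Finset Edge} (h : ω ⊆ ω') {s s' : ℤ × ℤ} (hs : s ∈ S)
    (hs' : s' ∈ S) (h1 : ¬ Conn ω s s') (h2 : Conn ω' s s') : nc S ω' + 1 ≤ nc S ω := by
  classical
  unfold nc
  rw [nc_image S h]
  refine Nat.succ_le_of_lt (lt_of_le_of_ne Finset.card_image_le ?_)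
  intro h3
  rw [Finset.card_image_iff] at h3
  have h4 := h3 (Finset.mem_coe.2 (Finset.mem_image_of_mem (fun x => (gr ω).connectedComponentMk x) hs))
    (Finset.mem_coe.2 (Finset.mem_image_of_mem (fun x => (gr ω).connectedComponentMk x) hs')) (by
      show (gr ω').connectedComponentMk s = (gr ω').connectedComponentMk s'
      exact SimpleGraph.ConnectedComponent.eq.2 h2)
  exact h1 (SimpleGraph.ConnectedComponent.eq.1 h4)

private theorem mem_box71 {N : ℕ} {y : ℤ × ℤ} :
    y ∈ box N ↔ (-(N : ℤ) ≤ y.1 ∧ y.1 ≤ N) ∧ (-(N : ℤ) ≤ y.2 ∧ y.2 ≤ N) := by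
  unfold box
  rw [Finset.mem_product, Finset.mem_Icc, Finset.mem_Icc]

private theorem mem_bx71 {z y : ℤ × ℤ} {n : ℕ} :
    y ∈ bx z n ↔ (z.1 - n ≤ y.1 ∧ y.1 ≤ z.1 + n) ∧ (z.2 - n ≤ y.2 ∧ y.2 ≤ z.2 + n) := by
  unfold bx
  rw [Finset.mem_product, Finset.mem_Icc, Finset.mem_Icc]

theorem sph_card (N : ℕ) : (sph N).card ≤ 8 * N + 1 := by
  rcases Nat.eq_zero_or_pos N with h0 | h0
  · subst h0
    have h1 : sph 0 ⊆ {(0, 0)} := by
      intro y hy
      unfold sph at hy
      rw [Finset.mem_filter, mem_box71] at hy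
      rw [Finset.mem_singleton]
      refine Prod.ext ?_ ?_
      · have := hy.1.1
        push_cast at this
        show y.1 = 0
        omega
      · have := hy.1.2
        push_cast at this
        show y.2 = 0
        omega
    exact (Finset.card_le_card h1).trans (by simp)
  · have h1 : sph N ⊆ (({-(N : ℤ), (N : ℤ)} : Finset ℤ) ×ˢ Finset.Icc (-(N : ℤ)) N) ∪
        (Finset.Icc (-(N : ℤ) + 1) (N - 1) ×ˢ ({-(N : ℤ), (N : ℤ)} : Finset ℤ)) := by
      intro y hy
      unfold sph at hy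
      rw [Finset.mem_filter, mem_box71] at hy
      rw [Finset.mem_union, Finset.mem_product, Finset.mem_product, Finset.mem_Icc, Finset.mem_Icc,
        Finset.mem_insert, Finset.mem_singleton, Finset.mem_insert, Finset.mem_singleton]
      obtain ⟨h2, h3⟩ := hy
      have h4 : y.1 = -N ∨ y.1 = N ∨ y.2 = -N ∨ y.2 = N := by
        rcases h3 with h3 | h3
        · rcases abs_choice y.1 with h5 | h5
          · right; left; omega
          · left; omega
        · rcases abs_choice y.2 with h5 | h5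
          · right; right; right; omega
          · right; right; left; omega
      omega
    refine (Finset.card_le_card h1).trans ((Finset.card_union_le _ _).trans ?_)
    rw [Finset.card_product, Finset.card_product, Int.card_Icc, Int.card_Icc]
    have h2 : ({-(N : ℤ), (N : ℤ)} : Finset ℤ).card ≤ 2 := Finset.card_le_two
    have h3 : ((N : ℤ) + 1 - -(N : ℤ)).toNat = 2 * N + 1 := by omega
    have h4 : ((N : ℤ) - 1 + 1 - (-(N : ℤ) + 1)).toNat = 2 * N - 1 := by omega
    rw [h3, h4]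
    calc ({-(N : ℤ), (N : ℤ)} : Finset ℤ).card * (2 * N + 1) +
        (2 * N - 1) * ({-(N : ℤ), (N : ℤ)} : Finset ℤ).card ≤ 2 * (2 * N + 1) + (2 * N - 1) * 2 := by
          gcongr
      _ ≤ 8 * N + 1 := by omega

theorem bx_conn {z : ℤ × ℤ} {K : ℕ} {x y : ℤ × ℤ} (hx : x ∈ bx z K) (hy : y ∈ bx z K) :
    Conn (edges (bx z K)) x y := rect_conn hx hy

private theorem near71 {e : Edge} {a b : ℤ × ℤ} (h : (e.1 = a ∧ tip e = b) ∨ (e.1 = b ∧ tip e = a)) :
    (b.1 = a.1 ∧ (b.2 = a.2 + 1 ∨ b.2 = a.2 - 1)) ∨ (b.2 = a.2 ∧ (b.1 = a.1 + 1 ∨ b.1 = a.1 - 1)) := by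
  have h2 := tip_near e
  rcases h with ⟨h4, h5⟩ | ⟨h4, h5⟩
  · rw [h4, h5] at h2
    omega
  · rw [h4, h5] at h2
    omega

private theorem reach_sph {N : ℕ} {x y : ℤ × ℤ} {ω : Finset Edge} (hx : x ∈ box N)
    (hy : (N : ℤ) ≤ max |y.1| |y.2|) (h : Conn ω x y) :
    ∃ s ∈ sph N, Conn (ω ∩ edges (box N)) x s := by
  by_contra hcon
  push Not at hcon
  have key : y ∈ {v : ℤ × ℤ | v ∈ box N ∧ Conn (ω ∩ edges (box N)) x v} := by
    refine h.induct ⟨hx, Conn.refl _ _⟩ ?_
    have step : ∀ e ∈ ω, ∀ a b : ℤ × ℤ, ((e.1 = a ∧ tip e = b) ∨ (e.1 = b ∧ tip e = a)) →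
        (a ∈ box N ∧ Conn (ω ∩ edges (box N)) x a) → (b ∈ box N ∧ Conn (ω ∩ edges (box N)) x b) := by
      intro e he a b hab ha
      have h1 : a ∉ sph N := fun h2 => hcon a h2 ha.2
      have h3 := near71 hab
      have h4 : b ∈ box N := by
        unfold sph at h1
        rw [Finset.mem_filter, not_and, not_or] at h1
        have h5 := h1 ha.1
        have h6 := ha.1
        rw [mem_box71] at h6 ⊢
        have h7 : a.1 ≠ N ∧ a.1 ≠ -N ∧ a.2 ≠ N ∧ a.2 ≠ -N := by
          refine ⟨?_, ?_, ?_, ?_⟩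
          · intro h8; apply h5.1; rw [h8]; exact abs_of_nonneg (by positivity)
          · intro h8; apply h5.1; rw [h8, abs_neg]; exact abs_of_nonneg (by positivity)
          · intro h8; apply h5.2; rw [h8]; exact abs_of_nonneg (by positivity)
          · intro h8; apply h5.2; rw [h8, abs_neg]; exact abs_of_nonneg (by positivity)
        omega
      have h9 : e ∈ ω ∩ edges (box N) := by
        rw [Finset.mem_inter, mem_edges]
        refine ⟨he, ?_⟩
        rcases hab with ⟨h5, h6⟩ | ⟨h5, h6⟩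
        · rw [h5, h6]; exact ⟨ha.1, h4⟩
        · rw [h5, h6]; exact ⟨h4, ha.1⟩
      refine ⟨h4, ha.2.trans ?_⟩
      have h10 := conn_edge h9
      rcases hab with ⟨h5, h6⟩ | ⟨h5, h6⟩
      · rw [h5, h6] at h10; exact h10
      · rw [h5, h6] at h10; exact h10.symm
    intro e he
    exact ⟨fun h1 => step e he e.1 (tip e) (Or.inl ⟨rfl, rfl⟩) h1,
      fun h1 => step e he (tip e) e.1 (Or.inr ⟨rfl, rfl⟩) h1⟩
  obtain ⟨h1, h2⟩ := key
  refine hcon y ?_ h2
  unfold sph
  rw [Finset.mem_filter]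
  refine ⟨h1, ?_⟩
  rw [mem_box71] at h1
  rcases le_max_iff.1 hy with h3 | h3
  · left
    refine le_antisymm ?_ h3
    rw [abs_le]; omega
  · right
    refine le_antisymm ?_ h3
    rw [abs_le]; omega

theorem two_drop {K N : ℕ} (hK : K ≤ N) {z : ℤ × ℤ} (hz : z ∈ box (N - K)) {ω : Finset Edge}
    (h : Two K (2 * N) z ω) : Fb N (ω ∪ edges (bx z K)) + 1 ≤ Fb N ω := by
  obtain ⟨x, hx, x', hx', hf, hf', hnc⟩ := h
  have hzz := hz
  rw [mem_box71] at hzz
  have hcast : ((N - K : ℕ) : ℤ) = (N : ℤ) - K := by omega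
  rw [hcast] at hzz
  have hsub : bx z K ⊆ box N := by
    intro y hy
    rw [mem_bx71] at hy
    rw [mem_box71]
    omega
  have hsub2 : box N ⊆ bx z (2 * N) := by
    intro y hy
    rw [mem_box71] at hy
    rw [mem_bx71]
    push_cast
    omega
  have hfar : ∀ x ∈ bx z K, Far (2 * N) z x ω → ∃ s ∈ sph N, Conn (ω ∩ edges (box N)) x s := by
    intro x hx hf
    obtain ⟨y, hy, hy', hc⟩ := hf
    refine reach_sph (hsub hx) ?_ (hc.mono Finset.inter_subset_left)
    push_cast at hy'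
    rcases hy' with h1 | h1
    · refine le_trans ?_ (le_max_left _ _)
      have h2 := abs_sub_abs_le_abs_sub (y.1 - z.1) (-z.1)
      have h3 : y.1 - z.1 - -z.1 = y.1 := by ring
      rw [h3, h1, abs_neg] at h2
      have h4 : |z.1| ≤ (N : ℤ) - K := by rw [abs_le]; omega
      omega
    · refine le_trans ?_ (le_max_right _ _)
      have h2 := abs_sub_abs_le_abs_sub (y.2 - z.2) (-z.2)
      have h3 : y.2 - z.2 - -z.2 = y.2 := by ring
      rw [h3, h1, abs_neg] at h2
      have h4 : |z.2| ≤ (N : ℤ) - K := by rw [abs_le]; omega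
      omega
  obtain ⟨s, hs, hs1⟩ := hfar x hx hf
  obtain ⟨s', hs', hs1'⟩ := hfar x' hx' hf'
  have hmono : ω ∩ edges (box N) ⊆ (ω ∪ edges (bx z K)) ∩ edges (box N) :=
    Finset.inter_subset_inter Finset.subset_union_left (Finset.Subset.refl _)
  have h1 : ¬ Conn (ω ∩ edges (box N)) s s' := by
    intro h2
    apply hnc
    exact (hs1.trans (h2.trans hs1'.symm)).mono
      (Finset.inter_subset_inter (Finset.Subset.refl _) (edges_mono hsub2))
  have h2 : Conn ((ω ∪ edges (bx z K)) ∩ edges (box N)) s s' := by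
    refine (hs1.mono hmono).symm.trans (Conn.trans ?_ (hs1'.mono hmono))
    refine (bx_conn hx hx').mono ?_
    intro e he
    rw [Finset.mem_inter, Finset.mem_union]
    exact ⟨Or.inr he, edges_mono hsub he⟩
  have h3 := nc_drop hmono hs hs' h1 h2
  unfold Fb
  exact_mod_cast h3

end Pool.Helper71.XD
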