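import Pool.Agent.Helper49.FK.Comp

/-!
Project XD.  Block XD-12: parity of the crossings of a dual path.

The faces of the square lattice are indexed by `ℤ × ℤ`: the face `(i, j)` has the centre `(i + 1/2, j + 1/2)`.  The primal
edge `((i, j), true)` is crossed by the dual edge `du ((i, j), true) = ((i, j - 1), false)` (it joins the faces `(i, j - 1)`
and `(i, j)`), the primal edge `((i, j), false)` by `((i - 1, j), true)` (it joins the faces `(i - 1, j)` and `(i, j)`).

`parity`: for a dual path from `u` to `w` with edges in `η` let `N v` be the number modulo 2 of its steps between the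
faces `(x, v.2 - 1)` and `(x, v.2)` with `x ≥ v.1` (the crossings with the horizontal half line to the right of `v`).
For one step `u → u'` (adjacent faces) put `c v = 1` if `u.1 = u'.1 ≥ v.1` and `{u.2, u'.2} = {v.2 - 1, v.2}`, else `0`; then:
* horizontal edge `((i, j), true)`: `c (i, j) ≠ c (i + 1, j)` only if the step crosses this edge;
* vertical edge `((i, j), false)`: with `A = {(x, j) : x ≥ i}`, `c (i, j) + c (i, j + 1) = 1_A u + 1_A u'` modulo 2, unless the
  step crosses this edge;
* if the two faces have first coordinate `< v.1` then `c v = 0`, if they have first coordinate `≥ v.1` then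
  `c v = 1 (v.2 ≤ u.2) + 1 (v.2 ≤ u'.2)` modulo 2.
Add over the path (induction on the connection: `SimpleGraph.Walk` induction or `Relation.ReflTransGen`); modulo 2
the right-hand sides telescope.  The path stays in the vertex set `V` (`Conn.mem`).
-/

namespace Pool.Helper71.XD

open Pool.Helper49.FK

/-- The dual edge crossing `e`. -/
def du (e : Edge) : Edge :=
  if e.2 = true then ((e.1.1, e.1.2 - 1), false) else ((e.1.1 - 1, e.1.2), true)

/-- The primal edge crossed by the dual edge `e`. -/
def dv (e : Edge) : Edge :=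
  if e.2 = true then ((e.1.1 + 1, e.1.2), false) else ((e.1.1, e.1.2 + 1), true)

theorem dv_du (e : Edge) : dv (du e) = e := by
  obtain ⟨⟨i, j⟩, b⟩ := e
  cases b <;> simp [du, dv]

theorem du_dv (e : Edge) : du (dv e) = e := by
  obtain ⟨⟨i, j⟩, b⟩ := e
  cases b <;> simp [du, dv]

/-- Indicator in `ZMod 2`. -/
def ind (P : Prop) [Decidable P] : ZMod 2 := if P then 1 else 0

private theorem h80_zz (a : ZMod 2) : a + a = 0 := by
  revert a; decide

private theorem h80_const {ω : Finset Edge} (f : ℤ × ℤ → ZMod 2)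
    (hf : ∀ e ∈ ω, f e.1 = f (tip e)) {x y : ℤ × ℤ} (h : Conn ω x y) : f y = f x := by
  have := Conn.induct (S := {v | f v = f x}) h rfl (by
    intro e he
    simp only [Set.mem_setOf_eq]
    rw [hf e he])
  exact this

private theorem h80_eq {a b : ZMod 2} (h : a + b = 0) : a = b := by
  revert a b; decide

private def h80c (f : Edge) (v : ℤ × ℤ) : ZMod 2 :=
  ind (f.2 = false ∧ v.2 = f.1.2 + 1 ∧ v.1 ≤ f.1.1)

private theorem h80_c1 {f e : Edge} (he : e.2 = true) (h : f ≠ du e) :
    h80c f e.1 + h80c f (tip e) = 0 := by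
  obtain ⟨⟨x, y⟩, b⟩ := f
  obtain ⟨⟨i, j⟩, b'⟩ := e
  simp only at he
  subst he
  cases b
  · simp only [du, tip, h80c, ind, if_true, true_and] at *
    by_cases h1 : j = y + 1
    · by_cases h2 : i ≤ x
      · by_cases h3 : i + 1 ≤ x
        · simp [h1, h2, h3]; decide
        · exfalso
          apply h
          have : x = i := by omega
          simp [this, h1]
      · have h3 : ¬ (i + 1 ≤ x) := by omega
        simp [h1, h2, h3]
    · simp [h1]
  · simp [h80c, ind]

private theorem h80_c2 {f e : Edge} (he : e.2 = false) (h : f ≠ du e) :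
    h80c f e.1 + h80c f (tip e) =
      ind (f.1.2 = e.1.2 ∧ e.1.1 ≤ f.1.1) + ind ((tip f).2 = e.1.2 ∧ e.1.1 ≤ (tip f).1) := by
  obtain ⟨⟨x, y⟩, b⟩ := f
  obtain ⟨⟨i, j⟩, b'⟩ := e
  simp only at he
  subst he
  cases b
  · simp only [du, tip, h80c, ind, if_true, true_and] at *
    by_cases h1 : i ≤ x
    · by_cases h2 : j = y + 1
      · have h3 : ¬ (y = j) := by omega
        simp [h1, h2, h3]
      · by_cases h3 : y = j
        · simp [h1, h3]
        · have h4 : ¬ (y + 1 = j) := by omega
          have h5 : ¬ (j + 1 = y + 1) := by omega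
          simp [h1, h2, h3, h4, h5]
    · simp [h1]
  · simp only [du, tip, h80c, ind, if_true, true_and] at *
    by_cases h3 : y = j
    · by_cases h1 : i ≤ x
      · have h2 : i ≤ x + 1 := by omega
        simp [h1, h2, h3]; decide
      · by_cases h2 : i ≤ x + 1
        · exfalso
          apply h
          have : x = i - 1 := by omega
          simp [this, h3]
        · simp [h1, h2, h3]
    · simp [h3]

private theorem h80_c4 {f : Edge} {v : ℤ × ℤ} (h1 : v.1 ≤ f.1.1) :
    h80c f v = ind (v.2 ≤ f.1.2) + ind (v.2 ≤ (tip f).2) := by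
  obtain ⟨⟨x, y⟩, b⟩ := f
  obtain ⟨i, j⟩ := v
  simp only at h1
  cases b
  · simp only [tip, h80c, ind]
    by_cases h2 : j = y + 1
    · have h3 : ¬ (j ≤ y) := by omega
      simp [h1, h2]
    · by_cases h3 : j ≤ y
      · have h4 : j ≤ y + 1 := by omega
        simp [h1, h2, h3, h4]; decide
      · have h4 : ¬ (j ≤ y + 1) := by omega
        simp [h1, h2, h3, h4]
  · simp only [tip, h80c, ind]
    by_cases h3 : j ≤ y
    · simp [h3]; decide
    · simp [h3]

theorem parity {η : Finset Edge} {V : Finset (ℤ × ℤ)} (hη : η ⊆ edges V) {u w : ℤ × ℤ} (hu : u ∈ V)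
    (h : Conn η u w) :
    ∃ N : ℤ × ℤ → ZMod 2,
      (∀ e : Edge, e.2 = true → du e ∉ η → N e.1 = N (tip e)) ∧
      (∀ e : Edge, e.2 = false → du e ∉ η →
        N e.1 + N (tip e) = ind (u.2 = e.1.2 ∧ e.1.1 ≤ u.1) + ind (w.2 = e.1.2 ∧ e.1.1 ≤ w.1)) ∧
      (∀ v : ℤ × ℤ, (∀ x ∈ V, x.1 < v.1) → N v = 0) ∧
      ∀ v : ℤ × ℤ, (∀ x ∈ V, v.1 ≤ x.1) → N v = ind (v.2 ≤ u.2) + ind (v.2 ≤ w.2) := by
  obtain ⟨p⟩ := h
  induction p with
  | nil =>
    refine ⟨fun _ => 0, ?_, ?_, ?_, ?_⟩
    · intro e _ _; rfl
    · intro e _ _; rw [h80_zz, h80_zz]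
    · intro v _; rfl
    · intro v _; rw [h80_zz]
  | @cons u' u w hadj p ih =>
    obtain ⟨f, hf, hfe⟩ := hadj
    have hfV := mem_edges.mp (hη hf)
    have huV : u ∈ V := by
      rcases hfe with ⟨h1, h2⟩ | ⟨h1, h2⟩
      · rw [← h2]; exact hfV.2
      · rw [← h1]; exact hfV.1
    obtain ⟨N, N1, N2, N3, N4⟩ := ih huV
    -- sums over the two ends of f
    have hs : ∀ g : ℤ × ℤ → ZMod 2, g u' + g u = g f.1 + g (tip f) := by
      intro g
      rcases hfe with ⟨h1, h2⟩ | ⟨h1, h2⟩
      · rw [h1, h2]
      · rw [h1, h2, add_comm]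
    refine ⟨fun v => N v + h80c f v, ?_, ?_, ?_, ?_⟩
    · intro e he hd
      have hne : f ≠ du e := fun h => hd (h ▸ hf)
      have := h80_eq (h80_c1 he hne)
      simp only
      rw [N1 e he hd, this]
    · intro e he hd
      have hne : f ≠ du e := fun h => hd (h ▸ hf)
      have h1 := h80_c2 he hne
      have h2 := N2 e he hd
      have h3 := hs fun v => ind (v.2 = e.1.2 ∧ e.1.1 ≤ v.1)
      simp only at h3 ⊢
      calc N e.1 + h80c f e.1 + (N (tip e) + h80c f (tip e))
          = (N e.1 + N (tip e)) + (h80c f e.1 + h80c f (tip e)) := by ring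
        _ = (ind (u.2 = e.1.2 ∧ e.1.1 ≤ u.1) + ind (w.2 = e.1.2 ∧ e.1.1 ≤ w.1)) +
            (ind (u'.2 = e.1.2 ∧ e.1.1 ≤ u'.1) + ind (u.2 = e.1.2 ∧ e.1.1 ≤ u.1)) := by
            rw [h2, h1, ← h3]
        _ = (ind (u'.2 = e.1.2 ∧ e.1.1 ≤ u'.1) + ind (w.2 = e.1.2 ∧ e.1.1 ≤ w.1)) +
            (ind (u.2 = e.1.2 ∧ e.1.1 ≤ u.1) + ind (u.2 = e.1.2 ∧ e.1.1 ≤ u.1)) := by ring
        _ = _ := by rw [h80_zz, add_zero]
    · intro v hv
      have h1 := hv _ hfV.1
      have : h80c f v = 0 := by
        unfold h80c ind
        rw [if_neg]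
        rintro ⟨_, _, h⟩
        omega
      simp only
      rw [N3 v hv, this, add_zero]
    · intro v hv
      have h1 := h80_c4 (f := f) (hv _ hfV.1)
      have h3 := hs fun x => ind (v.2 ≤ x.2)
      simp only at h3 ⊢
      rw [N4 v hv, h1, ← h3]
      calc ind (v.2 ≤ u.2) + ind (v.2 ≤ w.2) + (ind (v.2 ≤ u'.2) + ind (v.2 ≤ u.2))
          = (ind (v.2 ≤ u'.2) + ind (v.2 ≤ w.2)) + (ind (v.2 ≤ u.2) + ind (v.2 ≤ u.2)) := by ring
        _ = _ := by rw [h80_zz, add_zero]

/-- A primal connection and a dual connection between the two ends of an edge `e` and of its dual edge do not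
exist at the same time.  Proof: apply `parity` to the dual connection; for `e` vertical the right-hand side of the second
property is `0` for all vertical edges except `e`, so `N` is constant on the clusters of `ω`, but
`N e.1 + N (tip e) = 1`.  For `e = ((i, j), true)` the function `N v + ind (v.2 = j ∧ v.1 ≤ i)` is constant on the
clusters of `ω` and differs at the two ends of `e`. -/
theorem not_both {ω η : Finset Edge} (hcross : ∀ e' ∈ ω, du e' ∉ η) {e : Edge} (he : e ∉ ω)
    (hη : du e ∉ η) (h : Conn ω e.1 (tip e)) : ¬ Conn η (du e).1 (tip (du e)) := by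
  intro h'
  have hη' : η ⊆ edges (η.image (fun f => f.1) ∪ η.image tip ∪ {(du e).1}) := by
    intro f hf
    rw [mem_edges]
    constructor
    · simp only [Finset.mem_union, Finset.mem_image]
      exact Or.inl (Or.inl ⟨f, hf, rfl⟩)
    · simp only [Finset.mem_union, Finset.mem_image]
      exact Or.inl (Or.inr ⟨f, hf, rfl⟩)
  obtain ⟨N, N1, N2, -, -⟩ := parity hη' (by simp) h'
  obtain ⟨⟨i, j⟩, b⟩ := e
  cases b
  · have hc := h80_const N (by
      intro e' he'
      obtain ⟨⟨i', j'⟩, b'⟩ := e'
      cases b'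
      · have h2 := N2 _ rfl (hcross _ he')
        apply h80_eq
        rw [h2]
        simp only [du, tip, ind]
        by_cases h3 : j = j'
        · by_cases h4 : i' ≤ i - 1
          · have h5 : i' ≤ i := by omega
            simp [h3, h4, h5]; decide
          · by_cases h5 : i' ≤ i
            · exfalso
              apply he
              have : i = i' := by omega
              rw [this, h3]
              exact he'
            · simp [h3, h4, h5]
        · simp [h3]
      · exact N1 _ rfl (hcross _ he')) h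
    have h2 := N2 _ rfl hη
    rw [hc, h80_zz] at h2
    simp [du, tip, ind] at h2
  · have hc := h80_const (fun v => N v + ind (v.2 = j ∧ v.1 ≤ i)) (by
      intro e' he'
      obtain ⟨⟨i', j'⟩, b'⟩ := e'
      cases b'
      · have h2 := N2 _ rfl (hcross _ he')
        apply h80_eq
        simp only
        have : N (i', j') + ind (j' = j ∧ i' ≤ i) + (N (tip ((i', j'), false)) +
            ind ((tip ((i', j'), false)).2 = j ∧ (tip ((i', j'), false)).1 ≤ i)) =
            (N (i', j') + N (tip ((i', j'), false))) + (ind (j' = j ∧ i' ≤ i) +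
              ind ((tip ((i', j'), false)).2 = j ∧ (tip ((i', j'), false)).1 ≤ i)) := by ring
        rw [this, h2]
        simp only [du, tip, ind]
        by_cases h4 : i' ≤ i
        · by_cases h3 : j = j'
          · have h5 : ¬ (j - 1 = j') := by omega
            simp [h3, h4]; decide
          · have h3' : ¬ (j' = j) := fun h => h3 h.symm
            by_cases h5 : j - 1 = j'
            · have h6 : j' + 1 = j := by omega
              simp [h3, h3', h4, h5, h6]; decide
            · have h6 : ¬ (j' + 1 = j) := by omega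
              simp [h3, h3', h5, h6]
        · simp [h4]
      · have h1 := N1 _ rfl (hcross _ he')
        simp only at h1 ⊢
        rw [h1]
        congr 1
        simp only [tip, ind]
        by_cases h3 : j' = j
        · by_cases h4 : i' + 1 ≤ i
          · have h5 : i' ≤ i := by omega
            simp [h3, h4, h5]
          · by_cases h5 : i' ≤ i
            · exfalso
              apply he
              have : i = i' := by omega
              rw [this, ← h3]
              exact he'
            · simp [h3, h4, h5]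
        · simp [h3]) h
    have h1 := N1 _ rfl hη
    simp only at h1 hc
    rw [h1] at hc
    have h2 := add_left_cancel hc
    simp [tip, ind] at h2

/-- In the rectangle `[a, b] × [c, d]` there is no open left-right crossing if there is a dual bottom-top
crossing in the faces `[a, b - 1] × [c - 1, d]`.  Proof: by `parity` (`u.2 = c - 1`, `w.2 = d`, `V` the set of these
faces) `N` is constant on the clusters of `ω` in the rectangle, `N = 1` on the left side and `N = 0` on the right
side. -/
theorem no_cross {ω η : Finset Edge} (hcross : ∀ e' ∈ ω, du e' ∉ η) {a b c d : ℤ}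
    (hω : ω ⊆ edges (Finset.Icc a b ×ˢ Finset.Icc c d))
    (hη : η ⊆ edges (Finset.Icc a (b - 1) ×ˢ Finset.Icc (c - 1) d))
    {u w : ℤ × ℤ} (hu : u ∈ Finset.Icc a (b - 1) ×ˢ Finset.Icc (c - 1) d) (hu' : u.2 = c - 1)
    (hw : w.2 = d) (h : Conn η u w) {y z : ℤ × ℤ} (hy : y.1 = a) (hyc : c ≤ y.2 ∧ y.2 ≤ d)
    (hz : z.1 = b) : ¬ Conn ω y z := by
  intro h'
  obtain ⟨N, N1, N2, N3, N4⟩ := parity hη hu h
  have hc := h80_const N (by
      intro e' he'
      obtain ⟨⟨i', j'⟩, b'⟩ := e'
      cases b'
      · have h2 := N2 _ rfl (hcross _ he')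
        apply h80_eq
        rw [h2]
        have h3 := mem_edges.mp (hω he')
        simp only [tip, Finset.mem_product, Finset.mem_Icc] at h3
        have h4 : ¬ (u.2 = j') := by
          rw [hu']; have := h3.1.2.1; omega
        have h5 : ¬ (w.2 = j') := by
          rw [hw]
          have := h3.2.2.2
          simp at this
          omega
        simp [ind, h4, h5]
      · exact N1 _ rfl (hcross _ he')) h'
  have hy1 := N4 y (by
    intro x hx
    rw [hy]
    simp only [Finset.mem_product, Finset.mem_Icc] at hx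
    exact hx.1.1)
  have hz1 := N3 z (by
    intro x hx
    rw [hz]
    simp only [Finset.mem_product, Finset.mem_Icc] at hx
    have := hx.1.2
    omega)
  rw [hy1, hz1, hu', hw] at hc
  have h6 : ¬ (y.2 ≤ c - 1) := by have := hyc.1; omega
  simp [ind, h6, hyc.2] at hc

end Pool.Helper71.XD
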