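import Pool.Agent.Helper71.XD.Sym
import Pool.Agent.Helper49.FK.Comp

/-!
Project XD.  Block XD-5a: the number of clusters does not change when everything outside is opened.

`ncl_ring`: let `m + 1 ≤ L`, `F' = edges (bx x L) \ edges (bx x m)`.  All vertices of `bx x L` which are not in the interior of
`bx x m` (that is: outside of `bx x m`, or in `bx x m` with a coordinate at distance `m` from that of `x`) are in one
component of `gr (ω ∪ F')`, and of `gr (ω ∪ rg x m)` if they are in `bx x (m + 1)` (`out_conn`).  The other components meeting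
`bx x L` (or `bx x (m + 1)`) are in both cases the components of `gr ω` inside `bx x m` which contain no vertex on the
boundary of `bx x m`.  So both numbers are `1 +` the number of these.
(One way in Lean: both numbers are the cardinalities of images of `connectedComponentMk`; the image of `bx x L` is the
union of the class of a fixed outer vertex and of the images of the vertices of `bx x m` not joined to the outside; the map
between the latter classes is bijective because for such vertices `Conn (ω ∪ F') y z ↔ Conn ω y z ↔ Conn (ω ∪ rg x m) y z`,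
by `Conn.induct`.)
-/

namespace Pool.Helper71.XD

open Pool.Helper49.FK

/-- The ring around the box. -/
noncomputable def rg (x : ℤ × ℤ) (m : ℕ) : Finset Edge := edges (bx x (m + 1)) \ edges (bx x m)

theorem bx_zero (n : ℕ) : bx (0, 0) n = box n := by
  unfold bx box
  simp only [zero_sub, zero_add]

theorem rg_zero (n : ℕ) : rg (0, 0) n = ring n := by
  unfold rg ring
  rw [bx_zero, bx_zero]

private theorem mem_bx26 {x z : ℤ × ℤ} {n : ℕ} :
    z ∈ bx x n ↔ (x.1 - n ≤ z.1 ∧ z.1 ≤ x.1 + n) ∧ (x.2 - n ≤ z.2 ∧ z.2 ≤ x.2 + n) := by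
  unfold bx
  rw [Finset.mem_product, Finset.mem_Icc, Finset.mem_Icc]

private theorem tip_t26 (x : ℤ × ℤ) : tip (x, true) = (x.1 + 1, x.2) := rfl

private theorem tip_f26 (x : ℤ × ℤ) : tip (x, false) = (x.1, x.2 + 1) := rfl

private theorem hseg26 {ω : Finset Edge} {b : ℤ} (n : ℕ) : ∀ p : ℤ,
    (∀ i, p ≤ i → i < p + n → ((i, b), true) ∈ ω) → Conn ω (p, b) (p + n, b) := by
  induction n with
  | zero =>
    intro p _
    have h1 : ((p + ((0 : ℕ) : ℤ), b) : ℤ × ℤ) = (p, b) := Prod.ext (by simp) rfl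
    rw [h1]
    exact Conn.refl _ _
  | succ n ih =>
    intro p h
    refine (ih p fun i h1 h2 => h i h1 (by push_cast; omega)).trans ?_
    have h1 := conn_edge (h (p + n) (by omega) (by push_cast; omega))
    rw [tip_t26] at h1
    have h3 : ((p + ((n + 1 : ℕ) : ℤ), b) : ℤ × ℤ) = ((p + (n : ℤ), b).1 + 1, (p + (n : ℤ), b).2) := by
      refine Prod.ext ?_ rfl
      simp only
      push_cast
      ring
    rw [h3]
    exact h1

private theorem vseg26 {ω : Finset Edge} {a : ℤ} (n : ℕ) : ∀ p : ℤ,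
    (∀ i, p ≤ i → i < p + n → ((a, i), false) ∈ ω) → Conn ω (a, p) (a, p + n) := by
  induction n with
  | zero =>
    intro p _
    have h1 : ((a, p + ((0 : ℕ) : ℤ)) : ℤ × ℤ) = (a, p) := Prod.ext rfl (by simp)
    rw [h1]
    exact Conn.refl _ _
  | succ n ih =>
    intro p h
    refine (ih p fun i h1 h2 => h i h1 (by push_cast; omega)).trans ?_
    have h1 := conn_edge (h (p + n) (by omega) (by push_cast; omega))
    rw [tip_f26] at h1
    have h3 : ((a, p + ((n + 1 : ℕ) : ℤ)) : ℤ × ℤ) = ((a, p + (n : ℤ)).1, (a, p + (n : ℤ)).2 + 1) := by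
      refine Prod.ext rfl ?_
      simp only
      push_cast
      ring
    rw [h3]
    exact h1

/-- a horizontal segment -/
private theorem hcon26 {ω : Finset Edge} {b p p' : ℤ}
    (h : ∀ i, min p p' ≤ i → i < max p p' → ((i, b), true) ∈ ω) : Conn ω (p, b) (p', b) := by
  rcases le_total p p' with h1 | h1
  · have h2 := hseg26 (ω := ω) (b := b) (p' - p).toNat p fun i h3 h4 => h i
      (by rw [min_eq_left h1]; exact h3) (by rw [max_eq_right h1]; omega)
    have h3 : p + (((p' - p).toNat : ℕ) : ℤ) = p' := by omega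
    rw [h3] at h2
    exact h2
  · have h2 := hseg26 (ω := ω) (b := b) (p - p').toNat p' fun i h3 h4 => h i
      (by rw [min_eq_right h1]; exact h3) (by rw [max_eq_left h1]; omega)
    have h3 : p' + (((p - p').toNat : ℕ) : ℤ) = p := by omega
    rw [h3] at h2
    exact h2.symm

/-- a vertical segment -/
private theorem vcon26 {ω : Finset Edge} {a p p' : ℤ}
    (h : ∀ i, min p p' ≤ i → i < max p p' → ((a, i), false) ∈ ω) : Conn ω (a, p) (a, p') := by
  rcases le_total p p' with h1 | h1
  · have h2 := vseg26 (ω := ω) (a := a) (p' - p).toNat p fun i h3 h4 => h i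
      (by rw [min_eq_left h1]; exact h3) (by rw [max_eq_right h1]; omega)
    have h3 : p + (((p' - p).toNat : ℕ) : ℤ) = p' := by omega
    rw [h3] at h2
    exact h2
  · have h2 := vseg26 (ω := ω) (a := a) (p - p').toNat p' fun i h3 h4 => h i
      (by rw [min_eq_right h1]; exact h3) (by rw [max_eq_left h1]; omega)
    have h3 : p' + (((p - p').toNat : ℕ) : ℤ) = p := by omega
    rw [h3] at h2
    exact h2.symm

private theorem mem_h26 {x : ℤ × ℤ} {m L : ℕ} {i j : ℤ}
    (h1 : x.1 - L ≤ i ∧ i + 1 ≤ x.1 + L) (h2 : x.2 - L ≤ j ∧ j ≤ x.2 + L)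
    (h3 : i < x.1 - m ∨ x.1 + m < i + 1 ∨ j < x.2 - m ∨ x.2 + m < j) :
    ((i, j), true) ∈ edges (bx x L) \ edges (bx x m) := by
  rw [Finset.mem_sdiff, mem_edges, mem_edges, mem_bx26, mem_bx26, mem_bx26, mem_bx26, tip_t26]
  simp only
  constructor
  · refine ⟨⟨⟨?_, ?_⟩, ?_, ?_⟩, ⟨?_, ?_⟩, ?_, ?_⟩ <;> omega
  · rintro ⟨⟨⟨_, _⟩, _, _⟩, ⟨_, _⟩, _, _⟩
    omega

private theorem mem_v26 {x : ℤ × ℤ} {m L : ℕ} {i j : ℤ}
    (h1 : x.1 - L ≤ i ∧ i ≤ x.1 + L) (h2 : x.2 - L ≤ j ∧ j + 1 ≤ x.2 + L)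
    (h3 : j < x.2 - m ∨ x.2 + m < j + 1 ∨ i < x.1 - m ∨ x.1 + m < i) :
    ((i, j), false) ∈ edges (bx x L) \ edges (bx x m) := by
  rw [Finset.mem_sdiff, mem_edges, mem_edges, mem_bx26, mem_bx26, mem_bx26, mem_bx26, tip_f26]
  simp only
  constructor
  · refine ⟨⟨⟨?_, ?_⟩, ?_, ?_⟩, ⟨?_, ?_⟩, ?_, ?_⟩ <;> omega
  · rintro ⟨⟨⟨_, _⟩, _, _⟩, ⟨_, _⟩, _, _⟩
    omega

private theorem max_ge26 {x z : ℤ × ℤ} {m : ℕ} :
    (m : ℤ) ≤ max |z.1 - x.1| |z.2 - x.2| ↔
      (x.1 + m ≤ z.1 ∨ z.1 ≤ x.1 - m) ∨ (x.2 + m ≤ z.2 ∨ z.2 ≤ x.2 - m) := by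
  rw [le_max_iff, le_abs, le_abs]
  constructor
  · rintro ((h | h) | (h | h))
    · exact Or.inl (Or.inl (by omega))
    · exact Or.inl (Or.inr (by omega))
    · exact Or.inr (Or.inl (by omega))
    · exact Or.inr (Or.inr (by omega))
  · rintro ((h | h) | (h | h))
    · exact Or.inl (Or.inl (by omega))
    · exact Or.inl (Or.inr (by omega))
    · exact Or.inr (Or.inl (by omega))
    · exact Or.inr (Or.inr (by omega))

/-- connection to the corner -/
private theorem corner26 {x : ℤ × ℤ} {m L : ℕ} (hL : m + 1 ≤ L) {y : ℤ × ℤ} (hy : y ∈ bx x L)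
    (hy' : (m : ℤ) ≤ max |y.1 - x.1| |y.2 - x.2|) :
    Conn (edges (bx x L) \ edges (bx x m)) y (x.1 + L, x.2 + L) := by
  obtain ⟨a, b⟩ := y
  rw [mem_bx26] at hy
  rw [max_ge26] at hy'
  simp only at hy hy'
  have hrow : ∀ j : ℤ, (j = x.2 + L ∨ j = x.2 - L) → ∀ p p' : ℤ, x.1 - L ≤ p → p ≤ x.1 + L →
      x.1 - L ≤ p' → p' ≤ x.1 + L →
      Conn (edges (bx x L) \ edges (bx x m)) (p, j) (p', j) := by
    intro j hj p p' h1 h2 h3 h4
    refine hcon26 fun i h5 h6 => mem_h26 ⟨?_, ?_⟩ ⟨?_, ?_⟩ ?_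
    · rcases min_le_iff.1 h5 with h | h <;> omega
    · rcases lt_max_iff.1 h6 with h | h <;> omega
    · omega
    · omega
    · omega
  have hcol : ∀ i : ℤ, (i = x.1 + L ∨ i = x.1 - L) → ∀ p p' : ℤ, x.2 - L ≤ p → p ≤ x.2 + L →
      x.2 - L ≤ p' → p' ≤ x.2 + L →
      Conn (edges (bx x L) \ edges (bx x m)) (i, p) (i, p') := by
    intro i hi p p' h1 h2 h3 h4
    refine vcon26 fun j h5 h6 => mem_v26 ⟨?_, ?_⟩ ⟨?_, ?_⟩ ?_
    · omega
    · omega
    · rcases min_le_iff.1 h5 with h | h <;> omega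
    · rcases lt_max_iff.1 h6 with h | h <;> omega
    · omega
  rcases hy' with (h | h) | (h | h)
  · have c1 : Conn (edges (bx x L) \ edges (bx x m)) (a, b) (x.1 + L, b) := by
      refine hcon26 fun i h5 h6 => ?_
      rw [min_eq_left (by omega)] at h5
      rw [max_eq_right (by omega)] at h6
      refine mem_h26 ⟨?_, ?_⟩ ⟨?_, ?_⟩ ?_ <;> omega
    exact c1.trans (hcol _ (Or.inl rfl) _ _ (by omega) (by omega) (by omega) (by omega))
  · have c1 : Conn (edges (bx x L) \ edges (bx x m)) (a, b) (x.1 - L, b) := by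
      refine hcon26 fun i h5 h6 => ?_
      rw [min_eq_right (by omega)] at h5
      rw [max_eq_left (by omega)] at h6
      refine mem_h26 ⟨?_, ?_⟩ ⟨?_, ?_⟩ ?_ <;> omega
    exact (c1.trans (hcol _ (Or.inr rfl) _ (x.2 + L) (by omega) (by omega) (by omega)
      (by omega))).trans (hrow _ (Or.inl rfl) _ _ (by omega) (by omega) (by omega) (by omega))
  · have c1 : Conn (edges (bx x L) \ edges (bx x m)) (a, b) (a, x.2 + L) := by
      refine vcon26 fun i h5 h6 => ?_
      rw [min_eq_left (by omega)] at h5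
      rw [max_eq_right (by omega)] at h6
      refine mem_v26 ⟨?_, ?_⟩ ⟨?_, ?_⟩ ?_ <;> omega
    exact c1.trans (hrow _ (Or.inl rfl) _ _ (by omega) (by omega) (by omega) (by omega))
  · have c1 : Conn (edges (bx x L) \ edges (bx x m)) (a, b) (a, x.2 - L) := by
      refine vcon26 fun i h5 h6 => ?_
      rw [min_eq_right (by omega)] at h5
      rw [max_eq_left (by omega)] at h6
      refine mem_v26 ⟨?_, ?_⟩ ⟨?_, ?_⟩ ?_ <;> omega
    exact (c1.trans (hrow _ (Or.inr rfl) _ (x.1 + L) (by omega) (by omega) (by omega)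
      (by omega))).trans (hcol _ (Or.inl rfl) _ _ (by omega) (by omega) (by omega) (by omega))

/-- The vertices which are not in the interior of `bx x m` are connected by the edges not inside `bx x m`. -/
theorem out_conn {x : ℤ × ℤ} {m L : ℕ} (hL : m + 1 ≤ L) {y z : ℤ × ℤ} (hy : y ∈ bx x L) (hz : z ∈ bx x L)
    (hy' : (m : ℤ) ≤ max |y.1 - x.1| |y.2 - x.2|) (hz' : (m : ℤ) ≤ max |z.1 - x.1| |z.2 - x.2|) :
    Conn (edges (bx x L) \ edges (bx x m)) y z := by
  exact (corner26 hL hy hy').trans (corner26 hL hz hz').symm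

/-- the vertices not joined to the boundary of the box -/
private def inn26 (x : ℤ × ℤ) (m : ℕ) (ω : Finset Edge) (y : ℤ × ℤ) : Prop :=
  ∀ z, Conn ω y z → max |z.1 - x.1| |z.2 - x.2| < m

private theorem card_image26 {α β γ : Type*} [DecidableEq β] [DecidableEq γ] (I : Finset α)
    (f : α → β) (g : α → γ) (h : ∀ y ∈ I, ∀ z ∈ I, (f y = f z ↔ g y = g z)) :
    (I.image f).card = (I.image g).card := by
  have h1 : ((I.image fun y => (f y, g y)).image Prod.fst).card = (I.image fun y => (f y, g y)).card := by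
    refine Finset.card_image_of_injOn ?_
    intro p hp p' hp' hpp
    rw [Finset.mem_coe, Finset.mem_image] at hp hp'
    obtain ⟨y, hy, rfl⟩ := hp
    obtain ⟨z, hz, rfl⟩ := hp'
    have h2 : f y = f z := hpp
    exact Prod.ext h2 ((h y hy z hz).1 h2)
  have h3 : ((I.image fun y => (f y, g y)).image Prod.snd).card = (I.image fun y => (f y, g y)).card := by
    refine Finset.card_image_of_injOn ?_
    intro p hp p' hp' hpp
    rw [Finset.mem_coe, Finset.mem_image] at hp hp'
    obtain ⟨y, hy, rfl⟩ := hp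
    obtain ⟨z, hz, rfl⟩ := hp'
    have h2 : g y = g z := hpp
    exact Prod.ext ((h y hy z hz).2 h2) h2
  rw [Finset.image_image] at h1 h3
  exact h1.trans h3.symm

open Classical in
private theorem ncl_eq26 {x : ℤ × ℤ} {m L : ℕ} (hL : m + 1 ≤ L) {ω : Finset Edge}
    (hω : ω ⊆ edges (bx x m)) :
    ncl (bx x L) (ω ∪ (edges (bx x L) \ edges (bx x m))) =
      (((bx x m).filter fun y => inn26 x m ω y).image fun y => (gr ω).connectedComponentMk y).card
        + 1 := by
  obtain ⟨η, hη⟩ : ∃ η, η = ω ∪ (edges (bx x L) \ edges (bx x m)) := ⟨_, rfl⟩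
  rw [← hη]
  obtain ⟨I, hI⟩ : ∃ I, I = (bx x m).filter fun y => inn26 x m ω y := ⟨_, rfl⟩
  rw [← hI]
  have hImem : ∀ y, y ∈ I ↔ y ∈ bx x m ∧ inn26 x m ω y := by
    intro y
    rw [hI]
    exact Finset.mem_filter
  have hsub : ω ⊆ η := by
    rw [hη]
    exact Finset.subset_union_left
  have hsub' : edges (bx x L) \ edges (bx x m) ⊆ η := by
    rw [hη]
    exact Finset.subset_union_right
  have hbx : bx x m ⊆ bx x L := by
    intro z hz
    rw [mem_bx26] at hz ⊢
    refine ⟨⟨?_, ?_⟩, ?_, ?_⟩ <;> omega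
  obtain ⟨c, hc⟩ : ∃ c : ℤ × ℤ, c = (x.1 + L, x.2 + L) := ⟨_, rfl⟩
  have hcL : c ∈ bx x L := by
    rw [hc, mem_bx26]
    simp only
    refine ⟨⟨?_, ?_⟩, ?_, ?_⟩ <;> omega
  have hcm : c ∉ bx x m := by
    rw [hc, mem_bx26]
    simp only
    omega
  -- the vertices outside of `I`
  have hout : ∀ y ∈ bx x L, y ∉ I → Conn η y c := by
    intro y hy hyI
    by_cases hym : y ∈ bx x m
    · have h1 : ¬ inn26 x m ω y := fun h => hyI ((hImem y).2 ⟨hym, h⟩)
      unfold inn26 at h1
      push Not at h1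
      obtain ⟨z, hz, hzm⟩ := h1
      have h2 : z ∈ bx x m := Conn.mem hω hz hym
      rw [hc]
      exact (hz.mono hsub).trans ((corner26 hL (hbx h2) hzm).mono hsub')
    · rw [hc]
      refine (corner26 hL hy ?_).mono hsub'
      rw [max_ge26]
      rw [mem_bx26] at hym
      omega
  -- the vertices of `I`
  have hin : ∀ y ∈ I, ∀ z, Conn η y z → Conn ω y z := by
    intro y hy z hz
    have hy' := ((hImem y).1 hy).2
    refine Conn.induct (S := {w | Conn ω y w}) hz (Conn.refl _ _) fun e he => ?_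
    rw [hη, Finset.mem_union] at he
    rcases he with he | he
    · exact ⟨fun h => Conn.trans h (conn_edge he), fun h => Conn.trans h (conn_edge he).symm⟩
    · rw [Finset.mem_sdiff, mem_edges, mem_edges, mem_bx26, mem_bx26, mem_bx26, mem_bx26] at he
      have ht : (tip e = (e.1.1 + 1, e.1.2)) ∨ tip e = (e.1.1, e.1.2 + 1) := by
        unfold tip
        split_ifs
        · exact Or.inl rfl
        · exact Or.inr rfl
      refine iff_of_false (fun h => ?_) (fun h => ?_)
      · have h1 := hy' _ h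
        rw [← not_le, max_ge26] at h1
        rcases ht with ht | ht
        · rw [ht] at he
          simp only at he
          omega
        · rw [ht] at he
          simp only at he
          omega
      · have h1 := hy' _ h
        rw [← not_le, max_ge26] at h1
        rcases ht with ht | ht
        · rw [ht] at he h1
          simp only at he h1
          omega
        · rw [ht] at he h1
          simp only at he h1
          omega
  unfold ncl
  have h1 : ((bx x L).image fun y => (gr η).connectedComponentMk y) =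
      insert ((gr η).connectedComponentMk c) (I.image fun y => (gr η).connectedComponentMk y) := by
    ext C
    rw [Finset.mem_insert, Finset.mem_image, Finset.mem_image]
    constructor
    · rintro ⟨y, hy, rfl⟩
      by_cases hyI : y ∈ I
      · exact Or.inr ⟨y, hyI, rfl⟩
      · exact Or.inl (SimpleGraph.ConnectedComponent.eq.2 (hout y hy hyI))
    · rintro (rfl | ⟨y, hy, rfl⟩)
      · exact ⟨c, hcL, rfl⟩
      · exact ⟨y, hbx ((hImem y).1 hy).1, rfl⟩
  have h2 : (gr η).connectedComponentMk c ∉ I.image fun y => (gr η).connectedComponentMk y := by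
    rw [Finset.mem_image]
    rintro ⟨y, hy, hyc⟩
    have h3 : Conn η y c := SimpleGraph.ConnectedComponent.eq.1 hyc
    exact hcm (Conn.mem hω (hin y hy c h3) ((hImem y).1 hy).1)
  rw [h1, Finset.card_insert_of_notMem h2]
  congr 1
  refine card_image26 I _ _ fun y hy z hz => ?_
  constructor
  · intro h
    exact SimpleGraph.ConnectedComponent.eq.2 (hin y hy z (SimpleGraph.ConnectedComponent.eq.1 h))
  · intro h
    have h3 : Conn ω y z := SimpleGraph.ConnectedComponent.eq.1 h
    exact SimpleGraph.ConnectedComponent.eq.2 (h3.mono hsub)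

theorem ncl_ring {x : ℤ × ℤ} {m L : ℕ} (hL : m + 1 ≤ L) {ω : Finset Edge} (hω : ω ⊆ edges (bx x m)) :
    ncl (bx x L) (ω ∪ (edges (bx x L) \ edges (bx x m))) = ncl (bx x (m + 1)) (ω ∪ rg x m) := by
  unfold rg
  rw [ncl_eq26 hL hω, ncl_eq26 le_rfl hω]

end Pool.Helper71.XD
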