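import Pool.Agent.Helper49.FK.Cond

/-!
Project XD.  Block XD-0: symmetries of the lattice, and two elementary facts on connections.

* `conn_aut`: the graph of `ω.map a.ge` is the image of the graph of `ω` under `a.g` (a graph isomorphism).
* `ncl_aut`: `ncl` counts the components meeting `D`; the isomorphism maps components to components.
* `ex_aut`: `ω ↦ ω.map a.ge` maps the subsets of `edges D` bijectively to those of `edges (D.map a.g)` and preserves
  `wt q (hom ρ)` (`ncl_aut`, cardinality).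
* `exit`: along the connection from `x` to `y` take the first vertex outside of `D` (induction along the path,
  `Conn.induct`: the set of the vertices which are joined to `x` in `ω ∩ edges D`, if no open edge leaves it ...).
-/

namespace Pool.Helper71.XD

open Pool.Helper49.FK

/-- A symmetry of the lattice with its action on the edges. -/
structure Aut where
  g : ℤ × ℤ ≃ ℤ × ℤ
  ge : Edge ≃ Edge
  h : ∀ e, (g e.1 = (ge e).1 ∧ g (tip e) = tip (ge e)) ∨ (g e.1 = tip (ge e) ∧ g (tip e) = (ge e).1)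

variable {q ρ : ℝ} {D : Finset (ℤ × ℤ)} {ω : Finset Edge}

private theorem adj_aut92 (a : Aut) (ω : Finset Edge) (x y : ℤ × ℤ) :
    (gr (ω.map a.ge.toEmbedding)).Adj (a.g x) (a.g y) ↔ (gr ω).Adj x y := by
  constructor
  · rintro ⟨e', he', h⟩
    obtain ⟨e, he, rfl⟩ := Finset.mem_map.1 he'
    refine ⟨e, he, ?_⟩
    simp only [Equiv.coe_toEmbedding] at h
    rcases a.h e with ⟨h1, h2⟩ | ⟨h1, h2⟩
    · rw [← h1, ← h2] at h
      simpa only [a.g.injective.eq_iff] using h
    · rw [← h1, ← h2] at h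
      simp only [a.g.injective.eq_iff] at h
      tauto
  · rintro ⟨e, he, h⟩
    refine ⟨a.ge e, Finset.mem_map_of_mem _ he, ?_⟩
    rcases a.h e with ⟨h1, h2⟩ | ⟨h1, h2⟩
    · rw [← h1, ← h2]
      simpa only [a.g.injective.eq_iff] using h
    · rw [← h1, ← h2]
      simp only [a.g.injective.eq_iff]
      tauto

/-- the isomorphism of the graphs -/
private def iso92 (a : Aut) (ω : Finset Edge) : gr ω ≃g gr (ω.map a.ge.toEmbedding) where
  toEquiv := a.g
  map_rel_iff' := by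
    intro x y
    exact adj_aut92 a ω x y

theorem conn_aut (a : Aut) (ω : Finset Edge) (x y : ℤ × ℤ) :
    Conn (ω.map a.ge.toEmbedding) (a.g x) (a.g y) ↔ Conn ω x y :=
  (iso92 a ω).reachable_iff

theorem edges_aut (a : Aut) (D : Finset (ℤ × ℤ)) :
    edges (D.map a.g.toEmbedding) = (edges D).map a.ge.toEmbedding := by
  ext e'
  obtain ⟨e, rfl⟩ := a.ge.surjective e'
  have h3 : ∀ z : ℤ × ℤ, a.g z ∈ D.map a.g.toEmbedding ↔ z ∈ D := fun z =>
    Finset.mem_map' a.g.toEmbedding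
  have h4 : a.ge e ∈ (edges D).map a.ge.toEmbedding ↔ e ∈ edges D :=
    Finset.mem_map' a.ge.toEmbedding
  rw [mem_edges, h4, mem_edges]
  rcases a.h e with ⟨h1, h2⟩ | ⟨h1, h2⟩
  · rw [← h1, ← h2, h3, h3]
  · rw [← h1, ← h2, h3, h3, and_comm]

theorem ncl_aut (a : Aut) (D : Finset (ℤ × ℤ)) (ω : Finset Edge) :
    ncl (D.map a.g.toEmbedding) (ω.map a.ge.toEmbedding) = ncl D ω := by
  classical
  unfold ncl
  rw [← Finset.card_image_of_injective (D.image fun x => (gr ω).connectedComponentMk x)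
    (iso92 a ω).connectedComponentEquiv.injective]
  congr 1
  rw [Finset.image_image, Finset.map_eq_image _ D, Finset.image_image]
  rfl

private theorem wt_aut92 (a : Aut) (D : Finset (ℤ × ℤ)) (ω : Finset Edge) :
    wt q (hom ρ) (D.map a.g.toEmbedding) (ω.map a.ge.toEmbedding) = wt q (hom ρ) D ω := by
  unfold wt
  rw [ncl_aut, Finset.prod_map]
  rfl

private theorem sum_aut92 (a : Aut) (f : Finset Edge → ℝ) :
    ∑ ω ∈ (edges (D.map a.g.toEmbedding)).powerset, f ω
      = ∑ ω ∈ (edges D).powerset, f (ω.map a.ge.toEmbedding) := by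
  rw [edges_aut]
  symm
  refine Finset.sum_bij (fun ω _ => ω.map a.ge.toEmbedding) ?_ ?_ ?_ ?_
  · intro ω hω
    exact Finset.mem_powerset.2 (Finset.map_subset_map.2 (Finset.mem_powerset.1 hω))
  · intro ω _ ω' _ h
    exact Finset.map_injective _ h
  · intro ω' hω'
    rw [Finset.mem_powerset] at hω'
    refine ⟨ω'.map a.ge.symm.toEmbedding, Finset.mem_powerset.2 ?_, ?_⟩
    · intro e he
      obtain ⟨e', he', rfl⟩ := Finset.mem_map.1 he
      obtain ⟨e'', he'', h⟩ := Finset.mem_map.1 (hω' he')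
      rw [← h]
      simpa using he''
    · rw [Finset.map_map]
      ext e
      simp
  · intro ω _
    rfl

theorem ex_aut (a : Aut) (f : Finset Edge → ℝ) :
    ex q (hom ρ) (D.map a.g.toEmbedding) f =
      ex q (hom ρ) D (fun ω => f (ω.map a.ge.toEmbedding)) := by
  unfold ex Z
  rw [sum_aut92, sum_aut92]
  simp only [wt_aut92]

theorem pr_aut (a : Aut) (A : Finset Edge → Prop) :
    pr q (hom ρ) (D.map a.g.toEmbedding) A =
      pr q (hom ρ) D (fun ω => A (ω.map a.ge.toEmbedding)) := by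
  unfold pr
  rw [ex_aut]

theorem prW_aut (a : Aut) (F : Finset Edge) (A : Finset Edge → Prop) :
    prW q (hom ρ) (D.map a.g.toEmbedding) (F.map a.ge.toEmbedding) A =
      prW q (hom ρ) D F (fun ω => A (ω.map a.ge.toEmbedding)) := by
  unfold prW
  rw [pr_aut, pr_aut]
  congr 1
  · exact pr_congr fun ω _ => by rw [Finset.map_subset_map]
  · exact pr_congr fun ω _ => by rw [Finset.map_subset_map]

/-- The translation by `v`. -/
theorem exists_tr (v : ℤ × ℤ) : ∃ a : Aut, (∀ x, a.g x = x + v) ∧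
    ∀ e, a.ge e = (e.1 + v, e.2) := by
  refine ⟨⟨Equiv.addRight v, Equiv.prodCongr (Equiv.addRight v) (Equiv.refl Bool), ?_⟩,
    fun _ => rfl, fun _ => rfl⟩
  rintro ⟨⟨x, y⟩, b⟩
  left
  refine ⟨rfl, ?_⟩
  cases b <;> simp [tip, Prod.ext_iff] <;> ring

private def flipX92 (c : ℤ) : Edge → Edge := fun e =>
  if e.2 = true then ((c - e.1.1 - 1, e.1.2), true) else ((c - e.1.1, e.1.2), false)

private theorem flipX_inv92 (c : ℤ) : Function.Involutive (flipX92 c) := by
  rintro ⟨⟨x, y⟩, b⟩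
  cases b
  · simp [flipX92]
  · simp [flipX92]
    ring

/-- The reflection `x ↦ c - x` of the first coordinate. -/
theorem exists_flipX (c : ℤ) : ∃ a : Aut, (∀ x, a.g x = (c - x.1, x.2)) ∧
    ∀ e, a.ge e = if e.2 = true then ((c - e.1.1 - 1, e.1.2), true) else ((c - e.1.1, e.1.2), false) := by
  have hinv : Function.Involutive (fun x : ℤ × ℤ => ((c - x.1, x.2) : ℤ × ℤ)) := by
    rintro ⟨x, y⟩
    simp
  refine ⟨⟨hinv.toPerm _, (flipX_inv92 c).toPerm _, ?_⟩, fun _ => rfl, fun _ => rfl⟩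
  rintro ⟨⟨x, y⟩, b⟩
  cases b
  · left
    simp [tip, flipX92, Function.Involutive.coe_toPerm]
  · right
    simp [tip, flipX92, Function.Involutive.coe_toPerm]
    ring

private def flipY92 (c : ℤ) : Edge → Edge := fun e =>
  if e.2 = true then ((e.1.1, c - e.1.2), true) else ((e.1.1, c - e.1.2 - 1), false)

private theorem flipY_inv92 (c : ℤ) : Function.Involutive (flipY92 c) := by
  rintro ⟨⟨x, y⟩, b⟩
  cases b
  · simp [flipY92]
    ring
  · simp [flipY92]

/-- The reflection of the second coordinate. -/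
theorem exists_flipY (c : ℤ) : ∃ a : Aut, (∀ x, a.g x = (x.1, c - x.2)) ∧
    ∀ e, a.ge e = if e.2 = true then ((e.1.1, c - e.1.2), true) else ((e.1.1, c - e.1.2 - 1), false) := by
  have hinv : Function.Involutive (fun x : ℤ × ℤ => ((x.1, c - x.2) : ℤ × ℤ)) := by
    rintro ⟨x, y⟩
    simp
  refine ⟨⟨hinv.toPerm _, (flipY_inv92 c).toPerm _, ?_⟩, fun _ => rfl, fun _ => rfl⟩
  rintro ⟨⟨x, y⟩, b⟩
  cases b
  · right
    simp [tip, flipY92, Function.Involutive.coe_toPerm]
    ring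
  · left
    simp [tip, flipY92, Function.Involutive.coe_toPerm]

private def swp92 : Edge → Edge := fun e => ((e.1.2, e.1.1), !e.2)

private theorem swp_inv92 : Function.Involutive swp92 := by
  rintro ⟨⟨x, y⟩, b⟩
  simp [swp92]

/-- The exchange of the coordinates. -/
theorem exists_swap : ∃ a : Aut, (∀ x, a.g x = (x.2, x.1)) ∧
    ∀ e, a.ge e = ((e.1.2, e.1.1), !e.2) := by
  have hinv : Function.Involutive (fun x : ℤ × ℤ => ((x.2, x.1) : ℤ × ℤ)) := by
    rintro ⟨x, y⟩
    rfl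
  refine ⟨⟨hinv.toPerm _, swp_inv92.toPerm _, ?_⟩, fun _ => rfl, fun _ => rfl⟩
  rintro ⟨⟨x, y⟩, b⟩
  left
  cases b <;> simp [tip, swp92, Function.Involutive.coe_toPerm]

/-- First exit from `D`. -/
theorem exit {x y : ℤ × ℤ} (hx : x ∈ D) (hy : y ∉ D) (h : Conn ω x y) :
    ∃ z ∈ D, ∃ z' ∉ D, Conn (ω ∩ edges D) x z ∧
      ∃ e ∈ ω, (e.1 = z ∧ tip e = z') ∨ (e.1 = z' ∧ tip e = z) := by
  by_contra hcon
  have hno : ∀ z ∈ D, ∀ z' ∉ D, Conn (ω ∩ edges D) x z → ∀ e ∈ ω,
      ¬ ((e.1 = z ∧ tip e = z') ∨ (e.1 = z' ∧ tip e = z)) := by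
    intro z hz z' hz' hc e he hh
    exact hcon ⟨z, hz, z', hz', hc, e, he, hh⟩
  have hyS : y ∈ {z : ℤ × ℤ | z ∈ D ∧ Conn (ω ∩ edges D) x z} := by
    refine Conn.induct h ⟨hx, Conn.refl _ _⟩ fun e he => ?_
    constructor
    · rintro ⟨h1, h2⟩
      have h3 : tip e ∈ D := by
        by_contra h3
        exact hno _ h1 _ h3 h2 e he (Or.inl ⟨rfl, rfl⟩)
      have he' : e ∈ ω ∩ edges D := Finset.mem_inter.2 ⟨he, mem_edges.2 ⟨h1, h3⟩⟩
      exact ⟨h3, h2.trans (conn_edge he')⟩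
    · rintro ⟨h1, h2⟩
      have h3 : e.1 ∈ D := by
        by_contra h3
        exact hno _ h1 _ h3 h2 e he (Or.inr ⟨rfl, rfl⟩)
      have he' : e ∈ ω ∩ edges D := Finset.mem_inter.2 ⟨he, mem_edges.2 ⟨h3, h1⟩⟩
      exact ⟨h3, h2.trans (conn_edge he').symm⟩
  exact hy hyS.1

/-- Neighbours differ by one in one coordinate. -/
theorem tip_near (e : Edge) : (tip e).1 - e.1.1 + ((tip e).2 - e.1.2) = 1 ∧
    0 ≤ (tip e).1 - e.1.1 ∧ 0 ≤ (tip e).2 - e.1.2 := by
  unfold tip
  split_ifs <;> simp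

end Pool.Helper71.XD
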