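import Pool.Agent.Helper71.XD.Eul
import Pool.Agent.Helper71.XD.Sym

/-!
Project XD.  Block XD-14: at and below the self-dual point a self-dual rectangle is crossed with probability at most
one half.

PROOF of `cross_le_half`.  Let `Q = [-n, n] × [-n, n - 1]`, `V'` = the faces `[-n, n - 1] × [-n - 1, n - 1]`, `DV` the event (for dual
configurations) that there are `u, w ∈ V'` with `u.2 = -n - 1`, `w.2 = n - 1`, `Conn (η ∩ edges V') u w`.
(1) `DV (ds M ω)` implies that `Cross n ω` fails (`no_cross` for `ω ∩ edges Q` and `ds M ω ∩ edges V'`).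
(2) By `wt_dual` and the bijection `ω ↦ ds M ω` from the subsets of `edges (box M)` onto the configurations `η ⊆ edges (dbox M)`
    which contain `R = ds M (edges (box M))`: `pr (box M) (DV ∘ ds M) = prW q (hom (q / ρ)) (dbox M) R DV`.
(3) `prW q (hom (q / ρ)) (dbox M) R DV ≥ pr q (hom (q / ρ)) (dbox M) DV ≥ pr q (hom ρ) (dbox M) DV`
    (`prW_empty`, `prW_mono`, `pr_mono_r`; `ρ ≤ q / ρ`).
(4) The swap maps `dbox M` to itself and `V'` to `[-n - 1, n - 1] × [-n, n - 1]`; translate by `(1, 0)`: `dbox M + (1, 0) ⊇ box M`,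
    the event becomes `Cross n`: `pr q (hom ρ) (dbox M) DV = pr q (hom ρ) (dbox M + (1, 0)) (Cross n) ≥ pr q (hom ρ) (box M) (Cross n)`
    (`pr_aut`, `pr_mono_D`; for the connection inside the image of `V'` use `conn_aut`, `edges_aut`).
(5) So `1 - P (Cross n) ≥ P (DV ∘ ds M) ≥ P (Cross n)` (`pr_add_compl`, `pr_mono`).
`cross_le_half_tr`: let `box M ⊆ z + box M'` with `M' = M + |z.1| + |z.2|`: `pr_mono_D` and `pr_aut` (translation by `z`).
-/

set_option linter.unusedVariables false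

namespace Pool.Helper71.XD

open Pool.Helper49.FK

/-- Left-right crossing of the rectangle `z + [-n, n] × [-n, n - 1]`. -/
def Cross (n : ℕ) (z : ℤ × ℤ) (ω : Finset Edge) : Prop :=
  ∃ y y' : ℤ × ℤ, y.1 = z.1 - n ∧ y'.1 = z.1 + n ∧ z.2 - n ≤ y.2 ∧ y.2 ≤ z.2 + n - 1 ∧
    Conn (ω ∩ edges (Finset.Icc (z.1 - n) (z.1 + n) ×ˢ Finset.Icc (z.2 - n) (z.2 + n - 1))) y y'

theorem cross_incr (n : ℕ) (z : ℤ × ℤ) : Incr (Cross n z) := by
  rintro ω ω' h ⟨y, y', h1, h2, h3, h4, h5⟩
  exact ⟨y, y', h1, h2, h3, h4, h5.mono (Finset.inter_subset_inter_right h)⟩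

/-- The faces of the self-dual rectangle. -/
private noncomputable def vv76 (n : ℕ) : Finset (ℤ × ℤ) :=
  Finset.Icc (-(n : ℤ)) ((n : ℤ) - 1) ×ˢ Finset.Icc (-(n : ℤ) - 1) ((n : ℤ) - 1)

/-- The dual crossing. -/
private def DV76 (n : ℕ) (η : Finset Edge) : Prop :=
  ∃ u w : ℤ × ℤ, u ∈ vv76 n ∧ u.2 = -(n : ℤ) - 1 ∧ w.2 = (n : ℤ) - 1 ∧
    Conn (η ∩ edges (vv76 n)) u w

private theorem dv_incr76 (n : ℕ) : Incr (DV76 n) := by
  rintro ω ω' h ⟨u, w, h1, h2, h3, h4⟩
  exact ⟨u, w, h1, h2, h3, h4.mono (Finset.inter_subset_inter_right h)⟩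

/-- Step (1). -/
private theorem not_cross76 (n M : ℕ) (ω : Finset Edge) (h : DV76 n (ds M ω)) :
    ¬ Cross n (0, 0) ω := by
  rintro ⟨y, y', h1, h2, h3, h4, h5⟩
  obtain ⟨u, w, g1, g2, g3, g4⟩ := h
  simp only [zero_sub, zero_add] at h1 h2 h3 h4 h5
  refine no_cross (ω := ω ∩ edges (Finset.Icc (-(n : ℤ)) n ×ˢ Finset.Icc (-(n : ℤ)) ((n : ℤ) - 1)))
    (η := ds M ω ∩ edges (vv76 n)) (a := -(n : ℤ)) (b := n) (c := -(n : ℤ)) (d := (n : ℤ) - 1)
    ?_ Finset.inter_subset_right Finset.inter_subset_right g1 g2 g3 g4 h1 ⟨h3, h4⟩ h2 h5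
  intro e' he' hd
  have h6 := (Finset.mem_inter.1 hd).1
  unfold ds at h6
  exact (Finset.mem_sdiff.1 h6).2 (Finset.mem_image_of_mem _ (Finset.mem_inter.1 he').1)

private theorem du_inj76 : Function.Injective du :=
  Function.LeftInverse.injective dv_du

/-- The bijection with the dual configurations. -/
private theorem sum_ds76 (M : ℕ) (f : Finset Edge → ℝ) :
    ∑ ω ∈ (edges (box M)).powerset, f (ds M ω) =
      ∑ η ∈ (edges (dbox M)).powerset.filter (fun η => ds M (edges (box M)) ⊆ η), f η := by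
  classical
  refine Finset.sum_bij' (fun ω _ => ds M ω)
    (fun η _ => (edges (box M)).filter (fun e => du e ∉ η)) ?_ ?_ ?_ ?_ ?_
  · intro ω hω
    rw [Finset.mem_powerset] at hω
    rw [Finset.mem_filter, Finset.mem_powerset]
    exact ⟨Finset.sdiff_subset, Finset.sdiff_subset_sdiff le_rfl (Finset.image_subset_image hω)⟩
  · intro η _
    rw [Finset.mem_powerset]
    exact Finset.filter_subset _ _
  · intro ω hω
    rw [Finset.mem_powerset] at hω
    ext e
    rw [Finset.mem_filter]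
    unfold ds
    rw [Finset.mem_sdiff]
    constructor
    · rintro ⟨h1, h2⟩
      have h3 : du e ∈ ω.image du := by
        by_contra h4
        exact h2 ⟨du_mem h1, h4⟩
      obtain ⟨e', he', h5⟩ := Finset.mem_image.1 h3
      rwa [← du_inj76 h5]
    · intro h1
      exact ⟨hω h1, fun h2 => h2.2 (Finset.mem_image_of_mem _ h1)⟩
  · intro η hη
    rw [Finset.mem_filter, Finset.mem_powerset] at hη
    ext e
    unfold ds at hη ⊢
    rw [Finset.mem_sdiff, Finset.mem_image]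
    constructor
    · rintro ⟨h1, h2⟩
      by_contra h3
      by_cases h4 : e ∈ (edges (box M)).image du
      · obtain ⟨e', he', rfl⟩ := Finset.mem_image.1 h4
        exact h2 ⟨e', Finset.mem_filter.2 ⟨he', h3⟩, rfl⟩
      · exact h3 (hη.2 (Finset.mem_sdiff.2 ⟨h1, h4⟩))
    · intro h1
      refine ⟨hη.1 h1, ?_⟩
      rintro ⟨e', he', rfl⟩
      exact (Finset.mem_filter.1 he').2 h1
  · intro ω _
    rfl

open Classical in
/-- Step (2). -/
private theorem pr_dual76 {q ρ : ℝ} (hq : 0 < q) (hρ : 0 < ρ) (M : ℕ) (A : Finset Edge → Prop) :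
    pr q (hom ρ) (box M) (fun ω => A (ds M ω)) =
      prW q (hom (q / ρ)) (dbox M) (ds M (edges (box M))) A := by
  obtain ⟨κ, hκ, hw⟩ := wt_dual hq hρ M
  have hZ : 0 < Z q (hom (q / ρ)) (dbox M) := Z_pos hq fun _ => (div_pos hq hρ).le
  obtain ⟨R, hR⟩ : ∃ R, R = ds M (edges (box M)) := ⟨_, rfl⟩
  have e1 : ∑ ω ∈ (edges (box M)).powerset,
      wt q (hom ρ) (box M) ω * (if A (ds M ω) then (1 : ℝ) else 0) =
      κ * ∑ η ∈ (edges (dbox M)).powerset.filter (fun η => R ⊆ η),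
        wt q (hom (q / ρ)) (dbox M) η * (if A η then (1 : ℝ) else 0) := by
    rw [hR, ← sum_ds76 M (fun η => wt q (hom (q / ρ)) (dbox M) η * (if A η then (1 : ℝ) else 0)),
      Finset.mul_sum]
    refine Finset.sum_congr rfl fun ω hω => ?_
    rw [hw ω (Finset.mem_powerset.1 hω), mul_assoc]
  have e2 : Z q (hom ρ) (box M) = κ * ∑ η ∈ (edges (dbox M)).powerset.filter (fun η => R ⊆ η),
        wt q (hom (q / ρ)) (dbox M) η := by
    rw [hR, ← sum_ds76 M (fun η => wt q (hom (q / ρ)) (dbox M) η), Finset.mul_sum]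
    unfold Z
    refine Finset.sum_congr rfl fun ω hω => ?_
    exact hw ω (Finset.mem_powerset.1 hω)
  have e3 : ∀ A : Finset Edge → Prop, pr q (hom (q / ρ)) (dbox M) (fun η => R ⊆ η ∧ A η) =
      (∑ η ∈ (edges (dbox M)).powerset.filter (fun η => R ⊆ η),
        wt q (hom (q / ρ)) (dbox M) η * (if A η then (1 : ℝ) else 0)) /
        Z q (hom (q / ρ)) (dbox M) := by
    intro A
    unfold pr ex
    congr 1
    rw [Finset.sum_filter]
    refine Finset.sum_congr rfl fun η _ => ?_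
    beta_reduce
    by_cases h1 : R ⊆ η
    · by_cases h2 : A η
      · rw [if_pos ⟨h1, h2⟩, if_pos h1, if_pos h2]
      · rw [if_neg (fun h => h2 h.2), if_pos h1, if_neg h2]
    · rw [if_neg (fun h => h1 h.1), if_neg h1, mul_zero]
  have e4 : pr q (hom (q / ρ)) (dbox M) (fun η => R ⊆ η) =
      (∑ η ∈ (edges (dbox M)).powerset.filter (fun η => R ⊆ η),
        wt q (hom (q / ρ)) (dbox M) η) / Z q (hom (q / ρ)) (dbox M) := by
    have e6 : pr q (hom (q / ρ)) (dbox M) (fun η => R ⊆ η) =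
        pr q (hom (q / ρ)) (dbox M) (fun η => R ⊆ η ∧ True) := by
      simp only [and_true]
    rw [e6, e3 (fun _ => True)]
    simp only [if_true, mul_one]
  have e5 : pr q (hom ρ) (box M) (fun ω => A (ds M ω)) =
      (κ * ∑ η ∈ (edges (dbox M)).powerset.filter (fun η => R ⊆ η),
        wt q (hom (q / ρ)) (dbox M) η * (if A η then (1 : ℝ) else 0)) /
      (κ * ∑ η ∈ (edges (dbox M)).powerset.filter (fun η => R ⊆ η),
        wt q (hom (q / ρ)) (dbox M) η) := by
    rw [← e2, ← e1]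
    unfold pr ex
    congr 1
  rw [e5, ← hR, prW, e3, e4, mul_div_mul_left _ _ hκ.ne',
    div_div_div_cancel_right₀ hZ.ne']

private theorem conn_loc76 (a : Aut) (η : Finset Edge) (V : Finset (ℤ × ℤ)) (x y : ℤ × ℤ) :
    Conn ((η.map a.ge.toEmbedding) ∩ edges (V.map a.g.toEmbedding)) (a.g x) (a.g y) ↔
      Conn (η ∩ edges V) x y := by
  rw [edges_aut, ← Finset.map_inter, conn_aut]

/-- Step (4). -/
private theorem swap_tr76 {q ρ : ℝ} (hq : 1 ≤ q) (hρ : 0 < ρ) (n M : ℕ) :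
    pr q (hom ρ) (box M) (Cross n (0, 0)) ≤ pr q (hom ρ) (dbox M) (DV76 n) := by
  have h0 : 0 < q := zero_lt_one.trans_le hq
  obtain ⟨a, ha, -⟩ := exists_swap
  obtain ⟨b, hb, -⟩ := exists_tr (1, 0)
  have hsub : box M ⊆ ((dbox M).map a.g.toEmbedding).map b.g.toEmbedding := by
    intro z hz
    simp only [box, Finset.mem_product, Finset.mem_Icc] at hz
    rw [Finset.mem_map]
    refine ⟨(z.1 - 1, z.2), ?_, ?_⟩
    · rw [Finset.mem_map]
      refine ⟨(z.2, z.1 - 1), ?_, ?_⟩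
      · simp only [dbox, Finset.mem_product, Finset.mem_Icc]
        omega
      · change a.g _ = _
        rw [ha]
    · change b.g _ = _
      rw [hb]
      ext <;> simp
  have hQ : ((vv76 n).map a.g.toEmbedding).map b.g.toEmbedding =
      Finset.Icc (-(n : ℤ)) n ×ˢ Finset.Icc (-(n : ℤ)) ((n : ℤ) - 1) := by
    ext z
    simp only [Finset.mem_map, vv76, Finset.mem_product, Finset.mem_Icc,
      Equiv.coe_toEmbedding]
    constructor
    · rintro ⟨z1, ⟨z2, h2, rfl⟩, rfl⟩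
      rw [hb, ha]
      simp only [Prod.fst_add, Prod.snd_add]
      omega
    · intro hz
      refine ⟨(z.1 - 1, z.2), ⟨(z.2, z.1 - 1), ?_, ha _⟩, ?_⟩
      · simp only
        omega
      · rw [hb]
        ext <;> simp
  calc pr q (hom ρ) (box M) (Cross n (0, 0))
      ≤ pr q (hom ρ) (((dbox M).map a.g.toEmbedding).map b.g.toEmbedding) (Cross n (0, 0)) :=
        pr_mono_D hq (fun _ => hρ.le) hsub (cross_incr n _)
    _ = pr q (hom ρ) (dbox M)
        (fun η => Cross n (0, 0) ((η.map a.ge.toEmbedding).map b.ge.toEmbedding)) := by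
        rw [pr_aut, pr_aut]
    _ ≤ pr q (hom ρ) (dbox M) (DV76 n) := by
        refine pr_mono h0 (fun _ => hρ.le) fun η _ => ?_
        rintro ⟨y, y', h1, h2, h3, h4, h5⟩
        simp only [zero_sub, zero_add] at h1 h2 h3 h4 h5
        refine ⟨(y.2, y.1 - 1), (y'.2, y'.1 - 1), ?_, ?_, ?_, ?_⟩
        · simp only [vv76, Finset.mem_product, Finset.mem_Icc]
          omega
        · simp only
          omega
        · simp only
          omega
        · rw [← conn_loc76 a, ← conn_loc76 b, hQ, ha, ha, hb, hb]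
          have e1 : ((y.1 - 1, y.2) : ℤ × ℤ) + (1, 0) = y := by ext <;> simp
          have e2 : ((y'.1 - 1, y'.2) : ℤ × ℤ) + (1, 0) = y' := by ext <;> simp
          simp only
          rw [e1, e2]
          exact h5

theorem cross_le_half {q ρ : ℝ} (hq : 1 ≤ q) (hρ : 0 < ρ) (hρq : ρ ^ 2 ≤ q) {n M : ℕ} (hn : 1 ≤ n)
    (hM : n ≤ M) : pr q (hom ρ) (box M) (Cross n (0, 0)) ≤ 1 / 2 := by
  have h0 : 0 < q := zero_lt_one.trans_le hq
  have hρ' : ρ ≤ q / ρ := by
    rw [le_div_iff₀ hρ]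
    nlinarith
  have hr : ∀ e, 0 ≤ hom (q / ρ) e := fun _ => (div_pos h0 hρ).le
  have h1 := pr_add_compl (q := q) (r := hom ρ) (D := box M) h0 (fun _ => hρ.le) (Cross n (0, 0))
  have h2 : pr q (hom ρ) (box M) (fun ω => DV76 n (ds M ω)) ≤
      pr q (hom ρ) (box M) (fun ω => ¬ Cross n (0, 0) ω) :=
    pr_mono h0 (fun _ => hρ.le) fun ω _ h => not_cross76 n M ω h
  rw [pr_dual76 h0 hρ M (DV76 n)] at h2
  have h3 : prW q (hom (q / ρ)) (dbox M) ∅ (DV76 n) ≤
      prW q (hom (q / ρ)) (dbox M) (ds M (edges (box M))) (DV76 n) :=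
    prW_mono hq hr (fun _ => le_rfl) (Finset.Subset.refl _) (Finset.empty_subset _)
      Finset.sdiff_subset (fun _ _ => div_pos h0 hρ) (dv_incr76 n)
  rw [prW_empty h0 hr] at h3
  have h4 : pr q (hom ρ) (dbox M) (DV76 n) ≤ pr q (hom (q / ρ)) (dbox M) (DV76 n) :=
    pr_mono_r hq (fun _ => hρ.le) (fun _ => hρ') (dv_incr76 n)
  have h5 := swap_tr76 hq hρ n M
  linarith

theorem cross_le_half_tr {q ρ : ℝ} (hq : 1 ≤ q) (hρ : 0 < ρ) (hρq : ρ ^ 2 ≤ q) {n : ℕ} (hn : 1 ≤ n)
    (M : ℕ) (z : ℤ × ℤ) : pr q (hom ρ) (box M) (Cross n z) ≤ 1 / 2 := by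
  have h0 : 0 < q := zero_lt_one.trans_le hq
  obtain ⟨M', hM'⟩ : ∃ M' : ℕ, M' = M + z.1.natAbs + z.2.natAbs + n := ⟨_, rfl⟩
  obtain ⟨a, ha, -⟩ := exists_tr z
  have hsub : box M ⊆ (box M').map a.g.toEmbedding := by
    intro x hx
    simp only [box, Finset.mem_product, Finset.mem_Icc] at hx
    rw [Finset.mem_map]
    refine ⟨x - z, ?_, ?_⟩
    · simp only [box, Finset.mem_product, Finset.mem_Icc, Prod.fst_sub, Prod.snd_sub]
      omega
    · change a.g _ = _
      rw [ha, sub_add_cancel]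
  have hQ : (Finset.Icc (-(n : ℤ)) n ×ˢ Finset.Icc (-(n : ℤ)) ((n : ℤ) - 1)).map a.g.toEmbedding =
      Finset.Icc (z.1 - n) (z.1 + n) ×ˢ Finset.Icc (z.2 - n) (z.2 + n - 1) := by
    ext x
    simp only [Finset.mem_map, Finset.mem_product, Finset.mem_Icc, Equiv.coe_toEmbedding]
    constructor
    · rintro ⟨x1, h2, rfl⟩
      rw [ha]
      simp only [Prod.fst_add, Prod.snd_add]
      omega
    · intro hx
      refine ⟨x - z, ?_, ?_⟩
      · simp only [Prod.fst_sub, Prod.snd_sub]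
        omega
      · rw [ha, sub_add_cancel]
  calc pr q (hom ρ) (box M) (Cross n z)
      ≤ pr q (hom ρ) ((box M').map a.g.toEmbedding) (Cross n z) :=
        pr_mono_D hq (fun _ => hρ.le) hsub (cross_incr n _)
    _ = pr q (hom ρ) (box M') (fun η => Cross n z (η.map a.ge.toEmbedding)) := by
        rw [pr_aut]
    _ ≤ pr q (hom ρ) (box M') (Cross n (0, 0)) := by
        refine pr_mono h0 (fun _ => hρ.le) fun η _ => ?_
        rintro ⟨y, y', h1, h2, h3, h4, h5⟩
        refine ⟨y - z, y' - z, ?_, ?_, ?_, ?_, ?_⟩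
        · simp only [Prod.fst_sub]
          omega
        · simp only [Prod.fst_sub]
          omega
        · simp only [Prod.snd_sub]
          omega
        · simp only [Prod.snd_sub]
          omega
        · simp only [zero_sub, zero_add]
          rw [← conn_loc76 a, hQ, ha, ha, sub_add_cancel, sub_add_cancel]
          exact h5
    _ ≤ 1 / 2 := cross_le_half hq hρ hρq hn (by omega)

end Pool.Helper71.XD
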