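import Pool.Agent.Helper71.XD.ZO

/-!
Project XD.  Block XD-11: the square root trick.

Let `sq n = [-n, n - 1] ^ 2`, `K' = K + 1 ≤ n`, `M = N + 1`.  Let `L` be the event that some `x ∈ sq K'` is joined in `ω ∩ edges (sq n)` to
some `y ∈ sq n` with `y.1 = -n`; `R`, `B`, `T` the same with `y.1 = n - 1`, `y.2 = -n`, `y.2 = n - 1`.
(1) `Reach K n` implies `L ∨ R ∨ B ∨ T`: `x ∈ box K ⊆ sq K' ⊆ sq n`; if `y ∈ sq n` and the connection stays inside, `‖y‖ ≥ n` means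
    that a coordinate of `y` is `-n`; otherwise use `exit` for `D = sq n` (if `y ∈ sq n` but `¬ Conn (ω ∩ edges (sq n)) x y`, the set of
    the vertices of `sq n` joined to `x` inside has an open edge of `ω` to a vertex outside of `sq n`, by `Conn.induct`): the
    vertex `z` before the exit has a neighbour outside of `sq n`.
(2) `pr (box N) (Reach K n) ≤ pr (sq M) (L ∨ R ∨ B ∨ T)` (`pr_mono_D`, `pr_mono`).
(3) The reflections `x ↦ -1 - x`, `y ↦ -1 - y` and the swap map `sq M`, `sq n`, `sq K'` to themselves and exchange the four events: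
    by `pr_aut` they have the same probability `p` in `sq M`.
(4) FKG for the decreasing complements (`fkg` for minus the indicators): `(1 - p) ^ 4 ≤ P (¬ L ∧ ¬ R ∧ ¬ B ∧ ¬ T) ≤ ε ^ 4`, `p ≥ 1 - ε`.
(5) `L` implies `LArm K' n (0,0)` and `sq M ⊆ box M`: `pr_mono_D`.  The translate by `(1, 0)` of `R` implies `RArm K' n (0,0)`, and
    `sq M + (1, 0) ⊆ box M`: `pr_aut`, `pr_mono_D`.
-/

namespace Pool.Helper71.XD

open Pool.Helper49.FK

/-- The rectangle `z + [-n, n] × [-n, n - 1]`. -/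
noncomputable def Qr (n : ℕ) (z : ℤ × ℤ) : Finset (ℤ × ℤ) :=
  Finset.Icc (z.1 - n) (z.1 + n) ×ˢ Finset.Icc (z.2 - n) (z.2 + n - 1)

/-- `bx z K` is joined to the left side of the rectangle. -/
def LArm (K n : ℕ) (z : ℤ × ℤ) (ω : Finset Edge) : Prop :=
  ∃ x ∈ bx z K, ∃ y ∈ Qr n z, y.1 = z.1 - n ∧ Conn (ω ∩ edges (Qr n z)) x y

/-- `bx z K` is joined to the right side of the rectangle. -/
def RArm (K n : ℕ) (z : ℤ × ℤ) (ω : Finset Edge) : Prop :=
  ∃ x ∈ bx z K, ∃ y ∈ Qr n z, y.1 = z.1 + n ∧ Conn (ω ∩ edges (Qr n z)) x y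

theorem larm_incr (K n : ℕ) (z : ℤ × ℤ) : Incr (LArm K n z) := by
  rintro ω ω' h ⟨x, hx, y, hy, hy1, hc⟩
  exact ⟨x, hx, y, hy, hy1, hc.mono (Finset.inter_subset_inter_right h)⟩

theorem rarm_incr (K n : ℕ) (z : ℤ × ℤ) : Incr (RArm K n z) := by
  rintro ω ω' h ⟨x, hx, y, hy, hy1, hc⟩
  exact ⟨x, hx, y, hy, hy1, hc.mono (Finset.inter_subset_inter_right h)⟩

private theorem mem_map13 {a : Aut} {A B : Finset (ℤ × ℤ)} (h : ∀ x, a.g x ∈ B ↔ x ∈ A) :
    A.map a.g.toEmbedding = B := by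
  ext y
  rw [Finset.mem_map]
  constructor
  · rintro ⟨x, hx, rfl⟩; exact (h x).2 hx
  · intro hy
    exact ⟨a.g.symm y, (h _).1 (by rw [Equiv.apply_symm_apply]; exact hy), by simp⟩

/-- Events of the form: a point of `A` is joined inside `B` to a point of `B` with the property `φ`. -/
private def Ev13 (A B : Finset (ℤ × ℤ)) (φ : ℤ × ℤ → Prop) (ω : Finset Edge) : Prop :=
  ∃ x ∈ A, ∃ y ∈ B, φ y ∧ Conn (ω ∩ edges B) x y

private theorem ev_incr13 (A B : Finset (ℤ × ℤ)) (φ : ℤ × ℤ → Prop) : Incr (Ev13 A B φ) := by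
  rintro ω ω' h ⟨x, hx, y, hy, hy1, hc⟩
  exact ⟨x, hx, y, hy, hy1, hc.mono (Finset.inter_subset_inter_right h)⟩

private theorem ev_map13 (a : Aut) {A A' B B' : Finset (ℤ × ℤ)} (hA : ∀ x, a.g x ∈ A' ↔ x ∈ A)
    (hB : ∀ x, a.g x ∈ B' ↔ x ∈ B) (φ : ℤ × ℤ → Prop) (ω : Finset Edge) :
    Ev13 A' B' φ (ω.map a.ge.toEmbedding) ↔ Ev13 A B (fun x => φ (a.g x)) ω := by
  have hE : ω.map a.ge.toEmbedding ∩ edges B' = (ω ∩ edges B).map a.ge.toEmbedding := by
    rw [← mem_map13 hB, edges_aut, Finset.map_inter]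
  unfold Ev13
  rw [hE]
  constructor
  · rintro ⟨x, hx, y, hy, hy1, hc⟩
    refine ⟨a.g.symm x, (hA _).1 (by rw [Equiv.apply_symm_apply]; exact hx), a.g.symm y,
      (hB _).1 (by rw [Equiv.apply_symm_apply]; exact hy),
      by change φ (a.g (a.g.symm y)); rw [Equiv.apply_symm_apply]; exact hy1, ?_⟩
    rw [← conn_aut a, Equiv.apply_symm_apply, Equiv.apply_symm_apply]
    exact hc
  · rintro ⟨x, hx, y, hy, hy1, hc⟩
    exact ⟨a.g x, (hA x).2 hx, a.g y, (hB y).2 hy, hy1, (conn_aut a _ _ _).2 hc⟩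

private theorem mem_bx13 {z x : ℤ × ℤ} {n : ℕ} : x ∈ bx z n ↔
    (z.1 - n ≤ x.1 ∧ x.1 ≤ z.1 + n) ∧ z.2 - n ≤ x.2 ∧ x.2 ≤ z.2 + n := by
  unfold bx
  rw [Finset.mem_product, Finset.mem_Icc, Finset.mem_Icc]

private theorem mem_box13 {x : ℤ × ℤ} {n : ℕ} : x ∈ box n ↔
    (-(n : ℤ) ≤ x.1 ∧ x.1 ≤ n) ∧ -(n : ℤ) ≤ x.2 ∧ x.2 ≤ n := by
  unfold box
  rw [Finset.mem_product, Finset.mem_Icc, Finset.mem_Icc]

private theorem mem_Qr13 {z x : ℤ × ℤ} {n : ℕ} : x ∈ Qr n z ↔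
    (z.1 - n ≤ x.1 ∧ x.1 ≤ z.1 + n) ∧ z.2 - n ≤ x.2 ∧ x.2 ≤ z.2 + n - 1 := by
  unfold Qr
  rw [Finset.mem_product, Finset.mem_Icc, Finset.mem_Icc]

theorem larm_tr {q ρ : ℝ} (K n M : ℕ) (z : ℤ × ℤ) :
    pr q (hom ρ) (bx z M) (LArm K n z) = pr q (hom ρ) (box M) (LArm K n (0, 0)) := by
  obtain ⟨a, ha, _⟩ := exists_tr z
  have h1 : (box M).map a.g.toEmbedding = bx z M := mem_map13 fun x => by
    rw [ha, mem_bx13, mem_box13, Prod.fst_add, Prod.snd_add]; omega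
  rw [← h1, pr_aut]
  refine pr_congr fun ω _ => ?_
  have h2 := ev_map13 a (A := bx (0, 0) K) (A' := bx z K) (B := Qr n (0, 0)) (B' := Qr n z)
    (fun x => by rw [ha, mem_bx13, mem_bx13, Prod.fst_add, Prod.snd_add]; dsimp only; omega)
    (fun x => by rw [ha, mem_Qr13, mem_Qr13, Prod.fst_add, Prod.snd_add]; dsimp only; omega)
    (fun y => y.1 = z.1 - n) ω
  refine h2.trans ?_
  have h3 : (fun x : ℤ × ℤ => (a.g x).1 = z.1 - n) = fun x => x.1 = (0, 0).1 - (n : ℤ) := by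
    funext x
    rw [ha, Prod.fst_add]
    exact propext ⟨fun h => by dsimp only; omega, fun h => by dsimp only at h; omega⟩
  rw [h3]
  rfl

theorem rarm_tr {q ρ : ℝ} (K n M : ℕ) (z : ℤ × ℤ) :
    pr q (hom ρ) (bx z M) (RArm K n z) = pr q (hom ρ) (box M) (RArm K n (0, 0)) := by
  obtain ⟨a, ha, _⟩ := exists_tr z
  have h1 : (box M).map a.g.toEmbedding = bx z M := mem_map13 fun x => by
    rw [ha, mem_bx13, mem_box13, Prod.fst_add, Prod.snd_add]; omega
  rw [← h1, pr_aut]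
  refine pr_congr fun ω _ => ?_
  have h2 := ev_map13 a (A := bx (0, 0) K) (A' := bx z K) (B := Qr n (0, 0)) (B' := Qr n z)
    (fun x => by rw [ha, mem_bx13, mem_bx13, Prod.fst_add, Prod.snd_add]; dsimp only; omega)
    (fun x => by rw [ha, mem_Qr13, mem_Qr13, Prod.fst_add, Prod.snd_add]; dsimp only; omega)
    (fun y => y.1 = z.1 + n) ω
  refine h2.trans ?_
  have h3 : (fun x : ℤ × ℤ => (a.g x).1 = z.1 + n) = fun x => x.1 = (0, 0).1 + (n : ℤ) := by
    funext x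
    rw [ha, Prod.fst_add]
    exact propext ⟨fun h => by dsimp only; omega, fun h => by dsimp only at h; omega⟩
  rw [h3]
  rfl

/-- The square `[-n, n - 1] ^ 2`. -/
private noncomputable def sq13 (n : ℕ) : Finset (ℤ × ℤ) :=
  Finset.Icc (-(n : ℤ)) ((n : ℤ) - 1) ×ˢ Finset.Icc (-(n : ℤ)) ((n : ℤ) - 1)

private theorem mem_sq13 {x : ℤ × ℤ} {n : ℕ} : x ∈ sq13 n ↔
    (-(n : ℤ) ≤ x.1 ∧ x.1 ≤ (n : ℤ) - 1) ∧ -(n : ℤ) ≤ x.2 ∧ x.2 ≤ (n : ℤ) - 1 := by
  unfold sq13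
  rw [Finset.mem_product, Finset.mem_Icc, Finset.mem_Icc]

/-- Invariance of the probability of the events under the symmetries of the square. -/
private theorem ev_sym13 {q ρ : ℝ} (a : Aut) (hS : ∀ (k : ℕ) (x : ℤ × ℤ), a.g x ∈ sq13 k ↔ x ∈ sq13 k) (K' n M : ℕ)
    (φ : ℤ × ℤ → Prop) : pr q (hom ρ) (sq13 M) (Ev13 (sq13 K') (sq13 n) φ) =
      pr q (hom ρ) (sq13 M) (Ev13 (sq13 K') (sq13 n) (fun x => φ (a.g x))) := by
  have h1 : (sq13 M).map a.g.toEmbedding = sq13 M := mem_map13 (hS M)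
  nth_rewrite 1 [← h1]
  rw [pr_aut]
  exact pr_congr fun ω _ => ev_map13 a (hS K') (hS n) φ ω

/-- The square root trick for two increasing events. -/
private theorem or_ge13 {q : ℝ} {r : Edge → ℝ} {D : Finset (ℤ × ℤ)} (hq : 1 ≤ q) (hr : ∀ e, 0 ≤ r e)
    {A B : Finset Edge → Prop} (hA : Incr A) (hB : Incr B) :
    (1 - pr q r D A) * (1 - pr q r D B) ≤ 1 - pr q r D (fun ω => A ω ∨ B ω) := by
  have hq0 : 0 < q := one_pos.trans_le hq
  have h1 := pr_fkg (D := D) hq hr hA hB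
  have h2 := pr_split (q := q) (r := r) (D := D) (fun ω => A ω ∨ B ω) A
  have h3 : pr q r D (fun ω => (A ω ∨ B ω) ∧ A ω) = pr q r D A := pr_congr fun ω _ => by tauto
  have h4 := pr_split (q := q) (r := r) (D := D) B A
  have h5 : pr q r D (fun ω => (A ω ∨ B ω) ∧ ¬ A ω) = pr q r D (fun ω => B ω ∧ ¬ A ω) :=
    pr_congr fun ω _ => by tauto
  have h6 : pr q r D (fun ω => B ω ∧ A ω) = pr q r D (fun ω => A ω ∧ B ω) := pr_congr fun ω _ => by tauto
  rw [h3, h5] at h2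
  rw [h6] at h4
  nlinarith [h1]

private theorem or_incr13 {A B : Finset Edge → Prop} (hA : Incr A) (hB : Incr B) :
    Incr (fun ω => A ω ∨ B ω) := fun ω ω' h h' => h'.imp (hA ω ω' h) (hB ω ω' h)

/-- A connection from the small square to a far point reaches one of the four sides. -/
private theorem reach_sides13 {K n : ℕ} (hKn : K + 1 ≤ n) {ω : Finset Edge} (h : Reach K n ω) :
    Ev13 (sq13 (K + 1)) (sq13 n) (fun y => y.1 = -(n : ℤ)) ω ∨
    Ev13 (sq13 (K + 1)) (sq13 n) (fun y => y.1 = (n : ℤ) - 1) ω ∨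
    Ev13 (sq13 (K + 1)) (sq13 n) (fun y => y.2 = -(n : ℤ)) ω ∨
    Ev13 (sq13 (K + 1)) (sq13 n) (fun y => y.2 = (n : ℤ) - 1) ω := by
  obtain ⟨x, hx, y, hy, hc⟩ := h
  rw [mem_box13] at hx
  have hxK : x ∈ sq13 (K + 1) := by rw [mem_sq13]; push_cast; omega
  have hxn : x ∈ sq13 n := by
    rw [mem_sq13]
    have : (K : ℤ) + 1 ≤ n := by exact_mod_cast hKn
    omega
  by_contra hcon
  push Not at hcon
  obtain ⟨c1, c2, c3, c4⟩ := hcon
  have hint : ∀ v ∈ sq13 n, Conn (ω ∩ edges (sq13 n)) x v →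
      v.1 ≠ -(n : ℤ) ∧ v.1 ≠ (n : ℤ) - 1 ∧ v.2 ≠ -(n : ℤ) ∧ v.2 ≠ (n : ℤ) - 1 := by
    intro v hv hcv
    exact ⟨fun h => c1 ⟨x, hxK, v, hv, h, hcv⟩, fun h => c2 ⟨x, hxK, v, hv, h, hcv⟩,
      fun h => c3 ⟨x, hxK, v, hv, h, hcv⟩, fun h => c4 ⟨x, hxK, v, hv, h, hcv⟩⟩
  have hyS : y ∈ {v : ℤ × ℤ | v ∈ sq13 n ∧ Conn (ω ∩ edges (sq13 n)) x v} := by
    refine Conn.induct hc ⟨hxn, Conn.refl _ _⟩ fun e he => ?_
    have ht := tip_near e
    constructor
    · rintro ⟨h1, h2⟩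
      have h3 := hint _ h1 h2
      have h4 : tip e ∈ sq13 n := by
        rw [mem_sq13] at h1 ⊢
        omega
      exact ⟨h4, h2.trans (conn_edge (Finset.mem_inter.2 ⟨he, mem_edges.2 ⟨h1, h4⟩⟩))⟩
    · rintro ⟨h1, h2⟩
      have h3 := hint _ h1 h2
      have h4 : e.1 ∈ sq13 n := by
        rw [mem_sq13] at h1 ⊢
        omega
      exact ⟨h4, h2.trans (conn_edge (Finset.mem_inter.2 ⟨he, mem_edges.2 ⟨h4, h1⟩⟩)).symm⟩
  obtain ⟨h1, h2⟩ := hyS
  have h3 := hint _ h1 h2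
  rw [mem_sq13] at h1
  have h5 : |y.1| < n := by rw [abs_lt]; omega
  have h6 : |y.2| < n := by rw [abs_lt]; omega
  have h7 := max_lt h5 h6
  omega

theorem side_arms {q ρ : ℝ} (hq : 1 ≤ q) (hρ : 0 < ρ) {K n N : ℕ} (hKn : K + 1 ≤ n) {ε : ℝ}
    (hε : 0 ≤ ε) (h : 1 - ε ^ 4 ≤ pr q (hom ρ) (box N) (Reach K n)) :
    1 - ε ≤ pr q (hom ρ) (box (N + 1)) (LArm (K + 1) n (0, 0)) ∧
      1 - ε ≤ pr q (hom ρ) (box (N + 1)) (RArm (K + 1) n (0, 0)) := by
  have hq0 : 0 < q := one_pos.trans_le hq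
  have hr : ∀ e : Edge, 0 ≤ hom ρ e := fun _ => hρ.le
  have hS : box N ⊆ sq13 (N + 1) := by
    intro x hx
    rw [mem_box13] at hx
    rw [mem_sq13]; push_cast; omega
  set P := fun φ : ℤ × ℤ → Prop => pr q (hom ρ) (sq13 (N + 1)) (Ev13 (sq13 (K + 1)) (sq13 n) φ) with hP
  -- the four sides have the same probability
  have e1 : P (fun y => y.1 = (n : ℤ) - 1) = P (fun y => y.1 = -(n : ℤ)) := by
    obtain ⟨a, ha, _⟩ := exists_flipX (-1)
    have h1 := ev_sym13 (q := q) (ρ := ρ) a (fun k x => by rw [ha, mem_sq13, mem_sq13]; dsimp only; omega)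
      (K + 1) n (N + 1) (fun y => y.1 = (n : ℤ) - 1)
    have h2 : (fun x : ℤ × ℤ => (a.g x).1 = (n : ℤ) - 1) = fun y => y.1 = -(n : ℤ) := by
      funext x
      rw [ha]
      exact propext ⟨fun h => by dsimp only at h; omega, fun h => by dsimp only; omega⟩
    rw [h2] at h1
    exact h1
  have e2 : P (fun y => y.2 = (n : ℤ) - 1) = P (fun y => y.2 = -(n : ℤ)) := by
    obtain ⟨a, ha, _⟩ := exists_flipY (-1)
    have h1 := ev_sym13 (q := q) (ρ := ρ) a (fun k x => by rw [ha, mem_sq13, mem_sq13]; dsimp only; omega)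
      (K + 1) n (N + 1) (fun y => y.2 = (n : ℤ) - 1)
    have h2 : (fun x : ℤ × ℤ => (a.g x).2 = (n : ℤ) - 1) = fun y => y.2 = -(n : ℤ) := by
      funext x
      rw [ha]
      exact propext ⟨fun h => by dsimp only at h; omega, fun h => by dsimp only; omega⟩
    rw [h2] at h1
    exact h1
  have e3 : P (fun y => y.2 = -(n : ℤ)) = P (fun y => y.1 = -(n : ℤ)) := by
    obtain ⟨a, ha, _⟩ := exists_swap
    have h1 := ev_sym13 (q := q) (ρ := ρ) a (fun k x => by rw [ha, mem_sq13, mem_sq13]; dsimp only; tauto)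
      (K + 1) n (N + 1) (fun y => y.2 = -(n : ℤ))
    have h2 : (fun x : ℤ × ℤ => (a.g x).2 = -(n : ℤ)) = fun y => y.1 = -(n : ℤ) := by
      funext x
      rw [ha]
    rw [h2] at h1
    exact h1
  set p := P (fun y => y.1 = -(n : ℤ)) with hp
  have hup : 1 - ε ^ 4 ≤ pr q (hom ρ) (sq13 (N + 1)) (fun ω =>
      Ev13 (sq13 (K + 1)) (sq13 n) (fun y => y.1 = -(n : ℤ)) ω ∨
      Ev13 (sq13 (K + 1)) (sq13 n) (fun y => y.1 = (n : ℤ) - 1) ω ∨
      Ev13 (sq13 (K + 1)) (sq13 n) (fun y => y.2 = -(n : ℤ)) ω ∨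
      Ev13 (sq13 (K + 1)) (sq13 n) (fun y => y.2 = (n : ℤ) - 1) ω) := by
    refine h.trans ((pr_mono_D hq hr hS (reach_incr K n)).trans ?_)
    exact pr_mono hq0 hr fun ω _ hω => reach_sides13 hKn hω
  have i1 := ev_incr13 (sq13 (K + 1)) (sq13 n) (fun y => y.1 = -(n : ℤ))
  have i2 := ev_incr13 (sq13 (K + 1)) (sq13 n) (fun y => y.1 = (n : ℤ) - 1)
  have i3 := ev_incr13 (sq13 (K + 1)) (sq13 n) (fun y => y.2 = -(n : ℤ))
  have i4 := ev_incr13 (sq13 (K + 1)) (sq13 n) (fun y => y.2 = (n : ℤ) - 1)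
  have p1 : p ≤ 1 := pr_le_one hq0 hr _
  have f3 := or_ge13 (D := sq13 (N + 1)) hq hr i3 i4
  have f2 := or_ge13 (D := sq13 (N + 1)) hq hr i2 (or_incr13 i3 i4)
  have f1 := or_ge13 (D := sq13 (N + 1)) hq hr i1 (or_incr13 i2 (or_incr13 i3 i4))
  change (1 - P _) * (1 - P _) ≤ _ at f3
  change (1 - P _) * _ ≤ _ at f2
  change (1 - P _) * _ ≤ _ at f1
  rw [e2, e3] at f3
  rw [e1] at f2
  have hpow : (1 - p) ^ 4 ≤ ε ^ 4 := by
    have g0 : 0 ≤ 1 - p := by linarith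
    have g1 := mul_le_mul_of_nonneg_left f3 g0
    have g2 := mul_le_mul_of_nonneg_left (g1.trans f2) g0
    have g3 := g2.trans f1
    calc (1 - p) ^ 4 = (1 - p) * ((1 - p) * ((1 - p) * (1 - p))) := by ring
      _ ≤ _ := g3
      _ ≤ ε ^ 4 := by linarith
  have hpe : 1 - p ≤ ε := by
    by_contra hcon
    push Not at hcon
    have := pow_lt_pow_left₀ hcon hε (by norm_num : (4 : ℕ) ≠ 0)
    linarith
  constructor
  · calc 1 - ε ≤ p := by linarith
      _ ≤ pr q (hom ρ) (sq13 (N + 1)) (LArm (K + 1) n (0, 0)) := by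
          refine pr_mono hq0 hr fun ω _ hω => ?_
          obtain ⟨x, hx, y, hy, hy1, hc⟩ := hω
          have hsub : sq13 n ⊆ Qr n (0, 0) := by
            intro v hv
            rw [mem_sq13] at hv
            rw [mem_Qr13]; dsimp only; omega
          refine ⟨x, ?_, y, hsub hy, ?_, hc.mono (Finset.inter_subset_inter_left (edges_mono hsub))⟩
          · rw [mem_sq13] at hx
            rw [mem_bx13]; dsimp only; omega
          · dsimp only; omega
      _ ≤ _ := by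
          refine pr_mono_D hq hr ?_ (larm_incr _ _ _)
          intro v hv
          rw [mem_sq13] at hv
          rw [mem_box13]; omega
  · obtain ⟨a, ha, _⟩ := exists_tr (1, 0)
    calc 1 - ε ≤ p := by linarith
      _ = P (fun y => y.1 = (n : ℤ) - 1) := e1.symm
      _ ≤ pr q (hom ρ) (sq13 (N + 1)) (fun ω => RArm (K + 1) n (0, 0) (ω.map a.ge.toEmbedding)) := by
          refine pr_mono hq0 hr fun ω _ hω => ?_
          obtain ⟨x, hx, y, hy, hy1, hc⟩ := hω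
          have hc' := (conn_aut a _ _ _).2 hc
          have hsub : (sq13 n).map a.g.toEmbedding ⊆ Qr n (0, 0) := by
            intro v hv
            rw [Finset.mem_map] at hv
            obtain ⟨u, hu, rfl⟩ := hv
            rw [mem_sq13] at hu
            change a.g u ∈ _
            rw [ha, mem_Qr13, Prod.fst_add, Prod.snd_add]; dsimp only; omega
          refine ⟨a.g x, ?_, a.g y, hsub (Finset.mem_map_of_mem _ hy), ?_, hc'.mono ?_⟩
          · rw [mem_sq13] at hx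
            rw [ha, mem_bx13, Prod.fst_add, Prod.snd_add]; dsimp only; omega
          · rw [ha, Prod.fst_add]; dsimp only at hy1 ⊢; omega
          · rw [Finset.map_inter, ← edges_aut]
            exact Finset.inter_subset_inter_left (edges_mono hsub)
      _ = pr q (hom ρ) ((sq13 (N + 1)).map a.g.toEmbedding) (RArm (K + 1) n (0, 0)) := (pr_aut a _).symm
      _ ≤ _ := by
          refine pr_mono_D hq hr ?_ (rarm_incr _ _ _)
          intro v hv
          rw [Finset.mem_map] at hv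
          obtain ⟨u, hu, rfl⟩ := hv
          rw [mem_sq13] at hu
          change a.g u ∈ _
          rw [ha, mem_box13, Prod.fst_add, Prod.snd_add]; push_cast at hu ⊢; omega

end Pool.Helper71.XD
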