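import Pool.Agent.Helper71.XD.SQ
import Pool.Agent.Helper71.XD.SD

/-!
Project XD.  Block XD-15: two different clusters with positive probability.

`two_of_arms`: let `Q = Qr (n + 1) z ⊇ bx z n ⊇ bx z K`; `x ∈ bx z K` is joined in `Q` to `y` with `y.1 = z.1 - (n + 1)`, so `y ∉ bx z n`, and
`exit` for `bx z n` and `ω ∩ edges Q` gives a vertex on the boundary of `bx z n` joined to `x` in `ω ∩ edges (bx z n)`.  The same
for `x'` and the right side.  If `Conn (ω ∩ edges (bx z n)) x x'` then `y` and `y'` are joined in `Q`, which is `Cross (n + 1) z`.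
`two_lb`: `ε = 1/8`.  `zero_one` at `ρ₁` with `ε ^ 4` gives `K₀`; put `K = K₀ + 1`.  Let `N ≥ K`, `n = 2 N + 1`, and `N₁` with
`1 - ε ^ 4 ≤ pr (box N₁) (Reach K₀ n)` at `ρ₁`; `side_arms`: `LArm K n (0,0)` and `RArm K n (0,0)` have probability `≥ 7/8` in
`box (N₁ + 1)` at `ρ₁`.  Let `M = N₁ + 1 + N`; for `z ∈ box N`: `bx z (N₁ + 1) ⊆ box M`, so by `pr_mono_D`, `pr_mono_r`, `larm_tr`,
`rarm_tr` the arms at `z` have probability `≥ 7/8` in `box M` for `ρ ≥ ρ₁`, and `Cross n z` has probability `≤ 1/2` for `ρ ≤ ρ₂`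
(`cross_le_half_tr`).  So `P (Two K (2 N) z) ≥ 7/8 + 7/8 - 1 - 1/2 = 1/4`.
-/

namespace Pool.Helper71.XD

open Pool.Helper49.FK

/-- `x` is joined inside `bx z n` to the boundary of `bx z n`. -/
def Far (n : ℕ) (z x : ℤ × ℤ) (ω : Finset Edge) : Prop :=
  ∃ y ∈ bx z n, (|y.1 - z.1| = n ∨ |y.2 - z.2| = n) ∧ Conn (ω ∩ edges (bx z n)) x y

/-- Two different clusters of `bx z n` meet `bx z K` and the boundary of `bx z n`. -/
def Two (K n : ℕ) (z : ℤ × ℤ) (ω : Finset Edge) : Prop :=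
  ∃ x ∈ bx z K, ∃ x' ∈ bx z K, Far n z x ω ∧ Far n z x' ω ∧ ¬ Conn (ω ∩ edges (bx z n)) x x'

private theorem mem_bx30 {z y : ℤ × ℤ} {n : ℕ} :
    y ∈ bx z n ↔ (z.1 - n ≤ y.1 ∧ y.1 ≤ z.1 + n) ∧ (z.2 - n ≤ y.2 ∧ y.2 ≤ z.2 + n) := by
  unfold bx
  rw [Finset.mem_product, Finset.mem_Icc, Finset.mem_Icc]

private theorem mem_Qr30 {z y : ℤ × ℤ} {n : ℕ} :
    y ∈ Qr n z ↔ (z.1 - n ≤ y.1 ∧ y.1 ≤ z.1 + n) ∧ (z.2 - n ≤ y.2 ∧ y.2 ≤ z.2 + n - 1) := by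
  unfold Qr
  rw [Finset.mem_product, Finset.mem_Icc, Finset.mem_Icc]

private theorem bx_sub_Qr30 (n : ℕ) (z : ℤ × ℤ) : bx z n ⊆ Qr (n + 1) z := by
  intro y hy
  rw [mem_bx30] at hy
  rw [mem_Qr30]
  push_cast
  omega

/-- A connection in `Q` which leaves `bx z n`. -/
private theorem far30 {n : ℕ} {z x y : ℤ × ℤ} {ω : Finset Edge} {Q : Finset (ℤ × ℤ)} (hx : x ∈ bx z n)
    (hy : y ∉ bx z n) (h : Conn (ω ∩ edges Q) x y) : Far n z x ω := by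
  obtain ⟨w, hw, w', hw', h1, e, -, he⟩ := exit hx hy h
  refine ⟨w, hw, ?_, h1.mono ?_⟩
  · have h2 := tip_near e
    rw [mem_bx30] at hw hw'
    have h3 : (w'.1 - w.1 = 0 ∧ (w'.2 - w.2 = 1 ∨ w'.2 - w.2 = -1)) ∨
        (w'.2 - w.2 = 0 ∧ (w'.1 - w.1 = 1 ∨ w'.1 - w.1 = -1)) := by
      rcases he with ⟨h4, h5⟩ | ⟨h4, h5⟩
      · rw [h4, h5] at h2
        omega
      · rw [h4, h5] at h2
        omega
    have h6 : w.1 - z.1 = n ∨ w.1 - z.1 = -n ∨ w.2 - z.2 = n ∨ w.2 - z.2 = -n := by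
      omega
    have hn : (0 : ℤ) ≤ n := Int.natCast_nonneg n
    rcases h6 with h6 | h6 | h6 | h6
    · left
      rw [h6, abs_of_nonneg hn]
    · left
      rw [h6, abs_neg, abs_of_nonneg hn]
    · right
      rw [h6, abs_of_nonneg hn]
    · right
      rw [h6, abs_neg, abs_of_nonneg hn]
  · exact Finset.inter_subset_inter_right Finset.inter_subset_left

theorem two_of_arms {K n : ℕ} (hK : K ≤ n) {z : ℤ × ℤ} {ω : Finset Edge} (hL : LArm K (n + 1) z ω)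
    (hR : RArm K (n + 1) z ω) (hC : ¬ Cross (n + 1) z ω) : Two K n z ω := by
  obtain ⟨x, hx, y, hy, hy1, hxy⟩ := hL
  obtain ⟨x', hx', y', hy', hy1', hxy'⟩ := hR
  have hsub : ∀ v ∈ bx z K, v ∈ bx z n := by
    intro v hv
    rw [mem_bx30] at hv ⊢
    omega
  have hyn : y ∉ bx z n := by
    rw [mem_bx30]
    push_cast at hy1
    omega
  have hyn' : y' ∉ bx z n := by
    rw [mem_bx30]
    push_cast at hy1'
    omega
  refine ⟨x, hx, x', hx', far30 (hsub x hx) hyn hxy, far30 (hsub x' hx') hyn' hxy', fun hcon => hC ?_⟩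
  rw [mem_Qr30] at hy
  refine ⟨y, y', hy1, hy1', hy.2.1, hy.2.2, ?_⟩
  have h1 : Conn (ω ∩ edges (Qr (n + 1) z)) x x' :=
    hcon.mono (Finset.inter_subset_inter_left (edges_mono (bx_sub_Qr30 n z)))
  exact (hxy.symm.trans h1).trans hxy'

theorem two_lb {q ρ₁ ρ₂ θ : ℝ} (hq : 1 ≤ q) (h₁ : 0 < ρ₁) (h₂ : ρ₂ ^ 2 ≤ q)
    (hθ : 0 < θ) (h : ∀ n : ℕ, ∃ N : ℕ, θ ≤ pr q (hom ρ₁) (box N) (Arm n (0, 0))) :
    ∃ K : ℕ, ∀ N : ℕ, K ≤ N → ∃ M : ℕ, N ≤ M ∧ ∀ ρ, ρ₁ ≤ ρ → ρ ≤ ρ₂ → ∀ z ∈ box N,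
      1 / 4 ≤ pr q (hom ρ) (box M) (Two K (2 * N) z) := by
  have hq0 : 0 < q := by linarith
  obtain ⟨K₀, hK₀⟩ := zero_one hq h₁ hθ h (ε := (1 / 8) ^ 4) (by positivity)
  refine ⟨K₀ + 1, fun N hN => ?_⟩
  obtain ⟨N₁, hN₁⟩ := hK₀ (2 * N + 1)
  obtain ⟨hL, hR⟩ := side_arms hq h₁ (K := K₀) (n := 2 * N + 1) (N := N₁) (by omega)
    (ε := 1 / 8) (by norm_num) hN₁
  refine ⟨N₁ + 1 + N, by omega, fun ρ hρ1 hρ2 z hz => ?_⟩
  have hρ : 0 < ρ := h₁.trans_le hρ1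
  have hρq : ρ ^ 2 ≤ q := le_trans (pow_le_pow_left₀ hρ.le hρ2 2) h₂
  have hsub : bx z (N₁ + 1) ⊆ box (N₁ + 1 + N) := by
    intro v hv
    rw [mem_bx30] at hv
    unfold box at hz ⊢
    rw [Finset.mem_product, Finset.mem_Icc, Finset.mem_Icc] at hz ⊢
    push_cast at hv ⊢
    omega
  have hL2 : 1 - 1 / 8 ≤ pr q (hom ρ) (box (N₁ + 1 + N)) (LArm (K₀ + 1) (2 * N + 1) z) := by
    rw [← larm_tr (K₀ + 1) (2 * N + 1) (N₁ + 1) z] at hL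
    exact (hL.trans (pr_mono_D hq (fun _ => h₁.le) hsub (larm_incr _ _ _))).trans
      (pr_mono_r hq (fun _ => h₁.le) (fun _ => hρ1) (larm_incr _ _ _))
  have hR2 : 1 - 1 / 8 ≤ pr q (hom ρ) (box (N₁ + 1 + N)) (RArm (K₀ + 1) (2 * N + 1) z) := by
    rw [← rarm_tr (K₀ + 1) (2 * N + 1) (N₁ + 1) z] at hR
    exact (hR.trans (pr_mono_D hq (fun _ => h₁.le) hsub (rarm_incr _ _ _))).trans
      (pr_mono_r hq (fun _ => h₁.le) (fun _ => hρ1) (rarm_incr _ _ _))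
  have hC := cross_le_half_tr hq hρ hρq (n := 2 * N + 1) (by omega) (N₁ + 1 + N) z
  have hr : ∀ e, 0 ≤ hom ρ e := fun _ => hρ.le
  have e1 := pr_add_compl (q := q) (r := hom ρ) (D := box (N₁ + 1 + N)) hq0 hr
    (LArm (K₀ + 1) (2 * N + 1) z)
  have e2 := pr_add_compl (q := q) (r := hom ρ) (D := box (N₁ + 1 + N)) hq0 hr
    (RArm (K₀ + 1) (2 * N + 1) z)
  have e3 := pr_add_compl (q := q) (r := hom ρ) (D := box (N₁ + 1 + N)) hq0 hr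
    (Two (K₀ + 1) (2 * N) z)
  have e4 : pr q (hom ρ) (box (N₁ + 1 + N)) (fun ω => ¬ Two (K₀ + 1) (2 * N) z ω) ≤
      pr q (hom ρ) (box (N₁ + 1 + N)) (fun ω => ¬ LArm (K₀ + 1) (2 * N + 1) z ω ∨
        (¬ RArm (K₀ + 1) (2 * N + 1) z ω ∨ Cross (2 * N + 1) z ω)) := by
    refine pr_mono hq0 hr fun ω _ hω => ?_
    by_contra hcon
    push Not at hcon
    exact hω (two_of_arms (by omega) hcon.1 hcon.2.1 hcon.2.2)
  have e5 := pr_or_le (q := q) (r := hom ρ) (D := box (N₁ + 1 + N)) hq0 hr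
    (fun ω => ¬ LArm (K₀ + 1) (2 * N + 1) z ω)
    (fun ω => ¬ RArm (K₀ + 1) (2 * N + 1) z ω ∨ Cross (2 * N + 1) z ω)
  have e6 := pr_or_le (q := q) (r := hom ρ) (D := box (N₁ + 1 + N)) hq0 hr
    (fun ω => ¬ RArm (K₀ + 1) (2 * N + 1) z ω) (Cross (2 * N + 1) z)
  linarith

end Pool.Helper71.XD
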