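import Pool.Agent.Helper71.XD.Ring
import Pool.Agent.Helper71.XD.Abs
import Pool.Agent.Helper49.FK.Exp

/-!
Project XD.  Block XD-5: wired measures.

`prW q r D F A` is the probability of `A` in `D` given that all edges of `F` are open.

* `prW_eq_av`: the configurations `ω' ⊆ edges D` containing `F` are the `ω ∪ F`, `ω ⊆ edges D \ F`.
* `good_wired`: from `wt_super` (or `ncl_super`), `(a ∪ F) ∩ (b ∪ F) = (a ∩ b) ∪ F`.
* `prW_le_ring`.  (i) Let `L ≥ m + 1` with `D ⊆ bx x L` and `F' = edges (bx x L) \ edges (bx x m)`; by `prW_mono` the left-hand side is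
  at most `prW q (hom ρ) (bx x L) F' A`.  (ii) For `ω ⊆ edges (bx x m)`
  `ncl (bx x L) (ω ∪ F') = ncl (bx x (m + 1)) (ω ∪ rg x m)` (`ncl_ring`), so the weights `wt (bx x L) (ω ∪ F')` and
  `wt (bx x (m + 1)) (ω ∪ rg x m)` are proportional (constant factor `ρ ^ (|F'| - |rg x m|)`) and by `prW_eq_av` both
  probabilities are the same quotient of sums over `ω ⊆ edges (bx x m)`.
* `prW_ring_tr`: `prW_aut` for the translation by `x`.
* `prW_ring_anti`: `prW_le_ring`, since `ring m'` is disjoint from `edges (box m)` for `m ≤ m'`.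
* `ex_le_exW`: `ex f * P (F ⊆ ω) ≤ ex (f 1 (F ⊆ ω))` is FKG.
-/

namespace Pool.Helper71.XD

open Pool.Helper49.FK

variable {q ρ : ℝ} {D : Finset (ℤ × ℤ)} {r : Edge → ℝ} {F : Finset Edge} {A : Finset Edge → Prop}

private theorem sum_F27 (hF : F ⊆ edges D) (g : Finset Edge → ℝ) :
    ∑ ω ∈ (edges D).powerset, (if F ⊆ ω then g ω else 0) =
      ∑ ω ∈ (edges D \ F).powerset, g (ω ∪ F) := by
  rw [← Finset.sum_filter]
  symm
  refine Finset.sum_bij' (fun ω _ => ω ∪ F) (fun ω _ => ω \ F) ?_ ?_ ?_ ?_ ?_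
  · intro ω hω
    rw [Finset.mem_powerset] at hω
    rw [Finset.mem_filter, Finset.mem_powerset]
    exact ⟨Finset.union_subset (hω.trans Finset.sdiff_subset) hF, Finset.subset_union_right⟩
  · intro ω hω
    rw [Finset.mem_filter, Finset.mem_powerset] at hω
    rw [Finset.mem_powerset]
    exact Finset.sdiff_subset_sdiff hω.1 le_rfl
  · intro ω hω
    rw [Finset.mem_powerset] at hω
    rw [Finset.union_sdiff_right]
    exact Finset.sdiff_eq_self_of_disjoint
      (Finset.disjoint_of_subset_left hω Finset.sdiff_disjoint)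
  · intro ω hω
    rw [Finset.mem_filter] at hω
    exact Finset.sdiff_union_of_subset hω.2
  · intro ω _
    rfl

open Classical in
private theorem pr_eq27 (A : Finset Edge → Prop) :
    pr q r D A = (∑ ω ∈ (edges D).powerset, wt q r D ω * (if A ω then 1 else 0)) / Z q r D := rfl

open Classical in
private theorem pr_F27 (hF : F ⊆ edges D) (A : Finset Edge → Prop) :
    pr q r D (fun ω => F ⊆ ω ∧ A ω) =
      (∑ ω ∈ (edges D \ F).powerset, wt q r D (ω ∪ F) * (if A (ω ∪ F) then 1 else 0)) /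
        Z q r D := by
  rw [pr_eq27, ← sum_F27 hF (fun ω => wt q r D ω * (if A ω then 1 else 0))]
  congr 1
  refine Finset.sum_congr rfl fun ω _ => ?_
  by_cases h1 : F ⊆ ω
  · by_cases h2 : A ω
    · rw [if_pos ⟨h1, h2⟩, if_pos h1, if_pos h2]
    · rw [if_neg (fun h => h2 h.2), if_pos h1, if_neg h2]
  · rw [if_neg (fun h => h1 h.1), if_neg h1, mul_zero]

private theorem pr_F27' (hF : F ⊆ edges D) :
    pr q r D (fun ω => F ⊆ ω) =
      (∑ ω ∈ (edges D \ F).powerset, wt q r D (ω ∪ F)) / Z q r D := by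
  classical
  have h := pr_F27 (q := q) (r := r) hF (fun _ => True)
  have h2 : pr q r D (fun ω => F ⊆ ω ∧ True) = pr q r D (fun ω => F ⊆ ω) :=
    pr_congr fun ω _ => by rw [and_true]
  rw [h2] at h
  rw [h]
  congr 1
  refine Finset.sum_congr rfl fun ω _ => ?_
  rw [if_pos trivial, mul_one]

private theorem mem_bx27 {x y : ℤ × ℤ} {n : ℕ} : y ∈ bx x n ↔
    (x.1 - n ≤ y.1 ∧ y.1 ≤ x.1 + n) ∧ (x.2 - n ≤ y.2 ∧ y.2 ≤ x.2 + n) := by
  simp only [bx, Finset.mem_product, Finset.mem_Icc]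

private theorem mem_box27 {y : ℤ × ℤ} {n : ℕ} : y ∈ box n ↔
    (-(n : ℤ) ≤ y.1 ∧ y.1 ≤ n) ∧ (-(n : ℤ) ≤ y.2 ∧ y.2 ≤ n) := by
  simp only [box, Finset.mem_product, Finset.mem_Icc]

private theorem sub_bx27 (x : ℤ × ℤ) {n m : ℕ} (h : n ≤ m) : bx x n ⊆ bx x m := by
  intro z hz
  rw [mem_bx27] at hz ⊢
  omega

private theorem exists_bx27 (D : Finset (ℤ × ℤ)) (x : ℤ × ℤ) (m : ℕ) :
    ∃ L : ℕ, m ≤ L ∧ D ⊆ bx x L := by
  refine ⟨m + ∑ y ∈ D, ((y.1 - x.1).natAbs + (y.2 - x.2).natAbs), Nat.le_add_right _ _, ?_⟩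
  intro y hy
  have h := Finset.single_le_sum
    (f := fun y : ℤ × ℤ => (y.1 - x.1).natAbs + (y.2 - x.2).natAbs) (fun _ _ => Nat.zero_le _) hy
  generalize ∑ y ∈ D, ((y.1 - x.1).natAbs + (y.2 - x.2).natAbs) = S at *
  rw [mem_bx27]
  push_cast
  omega

/-- The image of a box under the translation. -/
private theorem map_box27 (a : Aut) (x : ℤ × ℤ) (h : ∀ y, a.g y = y + x) (n : ℕ) :
    (box n).map a.g.toEmbedding = bx x n := by
  ext z
  rw [Finset.mem_map, mem_bx27]
  constructor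
  · rintro ⟨y, hy, rfl⟩
    rw [mem_box27] at hy
    rw [Equiv.coe_toEmbedding, h, Prod.fst_add, Prod.snd_add]
    omega
  · intro hz
    refine ⟨z - x, ?_, ?_⟩
    · rw [mem_box27, Prod.fst_sub, Prod.snd_sub]
      omega
    · rw [Equiv.coe_toEmbedding, h, sub_add_cancel]

private theorem map_ring27 (a : Aut) (x : ℤ × ℤ) (h : ∀ y, a.g y = y + x) (n : ℕ) :
    (ring n).map a.ge.toEmbedding = rg x n := by
  unfold ring rg
  rw [Finset.map_sdiff, ← edges_aut, ← edges_aut, map_box27 a x h, map_box27 a x h]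

open Classical in
theorem ex_eq_av (f : Finset Edge → ℝ) : ex q r D f = av (edges D) (wt q r D) f := by
  rfl

open Classical in
theorem prW_eq_av (hq : 0 < q) (hr : ∀ e, 0 < r e) (hF : F ⊆ edges D) :
    prW q r D F A = av (edges D \ F) (fun ω => wt q r D (ω ∪ F)) (fun ω => if A (ω ∪ F) then 1 else 0) := by
  have hZ := Z_pos (D := D) hq (fun e => (hr e).le)
  unfold prW av
  rw [pr_F27 hF, pr_F27' hF]
  exact div_div_div_cancel_right₀ hZ.ne' _ _

theorem good_wt (hq : 1 ≤ q) (hr : ∀ e, 0 < r e) : Good (edges D) (wt q r D) := by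
  have hq0 : 0 < q := lt_of_lt_of_le one_pos hq
  refine ⟨fun ω _ => ?_, fun a b ha hb => wt_super hq (fun e => (hr e).le) ha hb⟩
  exact mul_pos (Finset.prod_pos fun e _ => hr e) (pow_pos hq0 _)

theorem good_wired (hq : 1 ≤ q) (hr : ∀ e, 0 < r e) (hF : F ⊆ edges D) :
    Good (edges D \ F) (fun ω => wt q r D (ω ∪ F)) := by
  have h := good_wt (D := D) hq hr
  have hs : ∀ a, a ⊆ edges D \ F → a ∪ F ⊆ edges D := fun a ha =>
    Finset.union_subset (ha.trans Finset.sdiff_subset) hF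
  refine ⟨fun ω hω => h.pos _ (hs ω hω), fun a b ha hb => ?_⟩
  have h1 := h.lsm _ _ (hs a ha) (hs b hb)
  have e1 : (a ∪ F) ∪ (b ∪ F) = (a ∪ b) ∪ F := by
    rw [← Finset.union_union_distrib_right]
  have e2 : (a ∪ F) ∩ (b ∪ F) = (a ∩ b) ∪ F := by
    rw [← Finset.inter_union_distrib_right]
  rw [e1, e2] at h1
  exact h1

theorem Dep_mono {F F' : Finset Edge} (h : F ⊆ F') (hA : Dep F A) : Dep F' A := by
  intro ω
  rw [← hA (ω ∩ F'), Finset.inter_assoc, Finset.inter_eq_right.2 h, hA]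

theorem prW_le_ring (hq : 1 ≤ q) (hρ : 0 < ρ) {x : ℤ × ℤ} {m : ℕ} (hA : Incr A)
    (hd : Dep (edges (bx x m)) A) (hF : F ⊆ edges D) (hFd : Disjoint F (edges (bx x m))) :
    prW q (hom ρ) D F A ≤ prW q (hom ρ) (bx x (m + 1)) (rg x m) A := by
  classical
  have hq0 : 0 < q := lt_of_lt_of_le one_pos hq
  have hr : ∀ e, 0 < hom ρ e := fun _ => hρ
  obtain ⟨L, hL, hDL⟩ := exists_bx27 D x (m + 1)
  have hsub1 : edges (bx x m) ⊆ edges (bx x L) := edges_mono (sub_bx27 x (by omega))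
  have hsub2 : edges (bx x m) ⊆ edges (bx x (m + 1)) := edges_mono (sub_bx27 x (by omega))
  have hF1 : F ⊆ edges (bx x L) \ edges (bx x m) := by
    intro e he
    exact Finset.mem_sdiff.2 ⟨edges_mono hDL (hF he), Finset.disjoint_left.1 hFd he⟩
  refine (prW_mono hq (fun e => (hr e).le) (fun e => le_rfl) hDL hF1 Finset.sdiff_subset
    (fun e _ => hr e) hA).trans (le_of_eq ?_)
  have e1 : edges (bx x L) \ (edges (bx x L) \ edges (bx x m)) = edges (bx x m) := by
    exact Finset.sdiff_sdiff_eq_self hsub1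
  have e2 : edges (bx x (m + 1)) \ rg x m = edges (bx x m) := by
    exact Finset.sdiff_sdiff_eq_self hsub2
  rw [prW_eq_av hq0 hr Finset.sdiff_subset, prW_eq_av (F := rg x m) hq0 hr Finset.sdiff_subset,
    e1, e2]
  have hcard : ∀ (D' : Finset (ℤ × ℤ)) (H ω : Finset Edge), Disjoint H ω →
      wt q (hom ρ) D' (ω ∪ H) = ρ ^ H.card * (ρ ^ ω.card * q ^ ncl D' (ω ∪ H)) := by
    intro D' H ω h
    unfold wt hom
    rw [Finset.prod_const, Finset.card_union_of_disjoint h.symm, pow_add]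
    ring
  have hw1 : ∀ ω ∈ (edges (bx x m)).powerset,
      wt q (hom ρ) (bx x L) (ω ∪ (edges (bx x L) \ edges (bx x m))) =
        ρ ^ (edges (bx x L) \ edges (bx x m)).card *
          (ρ ^ ω.card * q ^ ncl (bx x (m + 1)) (ω ∪ rg x m)) := by
    intro ω hω
    rw [Finset.mem_powerset] at hω
    rw [hcard _ _ _ (Finset.disjoint_of_subset_right hω Finset.sdiff_disjoint),
      ncl_ring hL hω]
  have hw2 : ∀ ω ∈ (edges (bx x m)).powerset,
      wt q (hom ρ) (bx x (m + 1)) (ω ∪ rg x m) =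
        ρ ^ (rg x m).card * (ρ ^ ω.card * q ^ ncl (bx x (m + 1)) (ω ∪ rg x m)) := by
    intro ω hω
    rw [Finset.mem_powerset] at hω
    exact hcard _ (rg x m) _ (Finset.disjoint_of_subset_right hω Finset.sdiff_disjoint)
  have hA1 : ∀ H : Finset Edge, Disjoint H (edges (bx x m)) → ∀ ω ∈ (edges (bx x m)).powerset,
      (A (ω ∪ H) ↔ A ω) := by
    intro H hH ω hω
    rw [Finset.mem_powerset] at hω
    rw [← hd (ω ∪ H), Finset.union_inter_distrib_right, Finset.disjoint_iff_inter_eq_empty.1 hH,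
      Finset.union_empty, Finset.inter_eq_left.2 hω]
  unfold av
  rw [Finset.sum_congr rfl hw1, Finset.sum_congr rfl hw2, ← Finset.mul_sum, ← Finset.mul_sum]
  have hs : ∀ (c : ℝ) (H : Finset Edge) (hH : Disjoint H (edges (bx x m)))
      (W : Finset Edge → ℝ) (V : Finset Edge → ℝ)
      (hW : ∀ ω ∈ (edges (bx x m)).powerset, W ω = c * V ω),
      ∑ ω ∈ (edges (bx x m)).powerset, W ω * (if A (ω ∪ H) then (1 : ℝ) else 0) =
        c * ∑ ω ∈ (edges (bx x m)).powerset, V ω * (if A ω then (1 : ℝ) else 0) := by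
    intro c H hH W V hW
    rw [Finset.mul_sum]
    refine Finset.sum_congr rfl fun ω hω => ?_
    rw [hW ω hω]
    have h1 := hA1 H hH ω hω
    by_cases h2 : A ω
    · rw [if_pos h2, if_pos (h1.2 h2)]
      ring
    · rw [if_neg h2, if_neg fun h3 => h2 (h1.1 h3)]
      ring
  rw [hs _ _ Finset.sdiff_disjoint _ _ hw1]
  have hx : Disjoint (rg x m) (edges (bx x m)) := Finset.sdiff_disjoint
  have h2 := hs _ _ hx _ _ hw2
  beta_reduce
  rw [h2]
  rw [mul_div_mul_left _ _ (pow_pos hρ _).ne', mul_div_mul_left _ _ (pow_pos hρ _).ne']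

theorem prW_ring_tr (x : ℤ × ℤ) (m j : ℕ) :
    prW q (hom ρ) (bx x (m + 1)) (rg x m) (Arm j x) =
      prW q (hom ρ) (box (m + 1)) (ring m) (Arm j (0, 0)) := by
  obtain ⟨a, h1, h2⟩ := exists_tr x
  rw [← map_box27 a x h1 (m + 1), ← map_ring27 a x h1 m, prW_aut]
  have key : ∀ ω : Finset Edge, Arm j x (ω.map a.ge.toEmbedding) ↔ Arm j (0, 0) ω := by
    intro ω
    unfold Arm
    have e1 : ω.map a.ge.toEmbedding ∩ edges (bx x j) =
        (ω ∩ edges (bx (0, 0) j)).map a.ge.toEmbedding := by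
      rw [Finset.map_inter, ← edges_aut, bx_zero, map_box27 a x h1]
    have e2 : a.g ((0, 0) : ℤ × ℤ) = x := by
      rw [h1]
      exact zero_add x
    rw [e1]
    constructor
    · rintro ⟨y, hy, h3, h4⟩
      refine ⟨y - x, ?_, ?_, ?_⟩
      · rw [mem_bx27] at hy ⊢
        simp only [Prod.fst_sub, Prod.snd_sub]
        omega
      · simpa using h3
      · have e3 : a.g (y - x) = y := by rw [h1, sub_add_cancel]
        rw [← conn_aut a, e2, e3]
        exact h4
    · rintro ⟨y, hy, h3, h4⟩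
      refine ⟨y + x, ?_, ?_, ?_⟩
      · rw [mem_bx27] at hy ⊢
        simp only [Prod.fst_add, Prod.snd_add]
        simp only at hy
        omega
      · simpa using h3
      · rw [← conn_aut a, e2, h1] at h4
        exact h4
  unfold prW
  rw [pr_congr fun ω _ => and_congr_right fun _ => key ω]

theorem prW_ring_edge (x : ℤ × ℤ) (m : ℕ) (b : Bool) :
    prW q (hom ρ) (bx x (m + 1)) (rg x m) (fun ω => (x, b) ∈ ω) =
      prW q (hom ρ) (box (m + 1)) (ring m) (fun ω => ((0, 0), b) ∈ ω) := by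
  obtain ⟨a, h1, h2⟩ := exists_tr x
  rw [← map_box27 a x h1 (m + 1), ← map_ring27 a x h1 m, prW_aut]
  have key : ∀ ω : Finset Edge, ((x, b) : Edge) ∈ ω.map a.ge.toEmbedding ↔
      (((0, 0), b) : Edge) ∈ ω := by
    intro ω
    have e2 : a.ge (((0, 0), b) : Edge) = (x, b) := by
      rw [h2]
      have : ((0, 0) : ℤ × ℤ) + x = x := zero_add x
      simp only [this]
    rw [← e2]
    exact Finset.mem_map' a.ge.toEmbedding
  unfold prW
  rw [pr_congr fun ω _ => and_congr_right fun _ => key ω]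

theorem prW_ring_anti (hq : 1 ≤ q) (hρ : 0 < ρ) {m m' : ℕ} (hm : m ≤ m') (hA : Incr A)
    (hd : Dep (edges (box m)) A) :
    prW q (hom ρ) (box (m' + 1)) (ring m') A ≤ prW q (hom ρ) (box (m + 1)) (ring m) A := by
  have hsub : edges (box m) ⊆ edges (box m') := by
    rw [← bx_zero, ← bx_zero]
    exact edges_mono (sub_bx27 _ hm)
  have h := prW_le_ring (q := q) (ρ := ρ) (D := box (m' + 1)) (F := ring m') (x := (0, 0)) (m := m)
    hq hρ hA (by rw [bx_zero]; exact hd) Finset.sdiff_subset (by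
      rw [bx_zero]
      exact Finset.disjoint_of_subset_right hsub Finset.sdiff_disjoint)
  rw [bx_zero, rg_zero] at h
  exact h

open Classical in
/-- Expectation given that all edges of `F` are open. -/
noncomputable def exW (q : ℝ) (r : Edge → ℝ) (D : Finset (ℤ × ℤ)) (F : Finset Edge)
    (f : Finset Edge → ℝ) : ℝ :=
  ex q r D (fun ω => if F ⊆ ω then f ω else 0) / pr q r D (fun ω => F ⊆ ω)

theorem ex_le_exW (hq : 1 ≤ q) (hr : ∀ e, 0 < r e) (hF : F ⊆ edges D) {f : Finset Edge → ℝ}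
    (hf : Mono f) : ex q r D f ≤ exW q r D F f := by
  classical
  have hq0 : 0 < q := lt_of_lt_of_le one_pos hq
  have hr' : ∀ e, 0 ≤ r e := fun e => (hr e).le
  have hpos := pr_open_pos hq0 hr' hF (fun e _ => hr e)
  have hg : Mono (fun ω => if F ⊆ ω then (1 : ℝ) else 0) := by
    intro ω ω' h
    show (if F ⊆ ω then (1 : ℝ) else 0) ≤ if F ⊆ ω' then (1 : ℝ) else 0
    by_cases h1 : F ⊆ ω
    · rw [if_pos h1, if_pos (h1.trans h)]
    · rw [if_neg h1]
      split_ifs <;> norm_num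
  have h := fkg (D := D) hq hr' hf hg
  unfold exW
  rw [le_div_iff₀ hpos]
  have e1 : pr q r D (fun ω => F ⊆ ω) = ex q r D (fun ω => if F ⊆ ω then (1 : ℝ) else 0) := by
    unfold pr
    refine ex_congr fun ω _ => ?_
    by_cases h1 : F ⊆ ω
    · rw [if_pos h1, if_pos h1]
    · rw [if_neg h1, if_neg h1]
  rw [e1]
  refine h.trans (le_of_eq (ex_congr fun ω _ => ?_))
  by_cases h1 : F ⊆ ω
  · rw [if_pos h1, if_pos h1, mul_one]
  · rw [if_neg h1, if_neg h1, mul_zero]

theorem exW_sum {ι : Type*} (s : Finset ι) (G : ι → Finset Edge → ℝ) :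
    exW q r D F (fun ω => ∑ i ∈ s, G i ω) = ∑ i ∈ s, exW q r D F (G i) := by
  unfold exW
  rw [← Finset.sum_div, ← ex_sum]
  congr 1
  refine ex_congr fun ω _ => ?_
  by_cases h1 : F ⊆ ω
  · simp only [if_pos h1]
  · simp only [if_neg h1, Finset.sum_const_zero]

theorem exW_sub (f g : Finset Edge → ℝ) :
    exW q r D F (fun ω => f ω - g ω) = exW q r D F f - exW q r D F g := by
  unfold exW
  rw [← sub_div]
  congr 1
  have h : ex q r D (fun ω => if F ⊆ ω then f ω - g ω else 0) =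
      ex q r D (fun ω => (if F ⊆ ω then f ω else 0) + (-1) * (if F ⊆ ω then g ω else 0)) := by
    refine ex_congr fun ω _ => ?_
    by_cases h1 : F ⊆ ω
    · simp only [if_pos h1]
      ring
    · simp only [if_neg h1]
      ring
  rw [h, ex_add, ex_const_mul]
  ring

open Classical in
theorem exW_ind : exW q r D F (fun ω => if A ω then 1 else 0) = prW q r D F A := by
  unfold exW prW
  congr 1
  unfold pr
  refine ex_congr fun ω _ => ?_
  beta_reduce
  by_cases h1 : F ⊆ ω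
  · by_cases h2 : A ω
    · rw [if_pos h1, if_pos h2, if_pos ⟨h1, h2⟩]
    · rw [if_pos h1, if_neg h2, if_neg fun h => h2 h.2]
  · rw [if_neg h1, if_neg fun h => h1 h.1]

end Pool.Helper71.XD
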