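import Pool.Agent.Helper71.XD.DM
import Pool.Agent.Helper71.XD.Sym
import Pool.Agent.Helper49.FK.Exp

/-!
Project XD.  Block XD-10: zero-one law in finite volume.

Let `p n N = pr (box N) (Arm n (0,0))`: increasing in `N` (`pr_mono_D`), decreasing in `n` (`arm_of_conn`), `p' n = ⨆ N, p n N ≥ θ`,
`I = ⨅ n, p' n ≥ θ`.  Let `η > 0` be small (`2 η ≤ ε * (θ - η)`, `η < θ`).
Choose `n'` with `p' n' ≤ I + η`, then `K ≥ n'` with `p n' K ≥ p' n' - η ≥ θ - η`.  Let `n` be given; if `n ≤ K` then `Reach K n` always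
holds (`x = y = (K, 0)`).  Let `n > K`, choose `N ≥ K` with `p n N ≥ p' n - η ≥ I - η`.
Let `B ω` be the negation of: there are `x ∈ box K`, `y` with `n ≤ ‖y‖` and `Conn (ω \ edges (box K)) x y`.
`Arm n (0,0) ω` implies `¬ B ω` (last exit from `box K`), and `¬ B ω` implies `Reach K n ω`.  By `dom_markov` (`D = box K`, `D' = box N`):
`p n' K * P (B) ≤ P (Arm n' ∧ B) ≤ P (Arm n' ∧ ¬ Arm n) = p n' N - p n N ≤ I + η - (I - η) = 2 η`.
So `P (B) ≤ 2 η / (θ - η) ≤ ε` and `P (Reach K n) ≥ 1 - ε`.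
Last exit in Lean: the set `S` of the vertices `v` such that `v ∈ box K` or some `x ∈ box K` has `Conn (ω \ edges (box K)) x v` contains
`(0, 0)` and is closed under the edges of `ω` (an edge with both ends in `box K` is fine; any other edge is in
`ω \ edges (box K)`); so every vertex joined to `(0, 0)` is in `S` (`Conn.induct`).
-/

namespace Pool.Helper71.XD

open Pool.Helper49.FK

/-- The box of radius `K` is joined to a vertex at distance at least `n` from the origin. -/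
def Reach (K n : ℕ) (ω : Finset Edge) : Prop :=
  ∃ x ∈ box K, ∃ y : ℤ × ℤ, (n : ℤ) ≤ max |y.1| |y.2| ∧ Conn ω x y

theorem reach_incr (K n : ℕ) : Incr (Reach K n) := by
  rintro ω ω' h ⟨x, hx, y, hy, hc⟩
  exact ⟨x, hx, y, hy, hc.mono h⟩

private theorem mem_box_zo {y : ℤ × ℤ} {n : ℕ} : y ∈ box n ↔
    (-(n : ℤ) ≤ y.1 ∧ y.1 ≤ n) ∧ (-(n : ℤ) ≤ y.2 ∧ y.2 ≤ n) := by
  simp only [box, Finset.mem_product, Finset.mem_Icc]

private theorem box_mono_zo {n m : ℕ} (h : n ≤ m) : box n ⊆ box m := by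
  intro y hy
  rw [mem_box_zo] at hy ⊢
  omega

/-- The box of radius `K` is joined to distance `n` outside of the box. -/
private def Out (K n : ℕ) (ω : Finset Edge) : Prop :=
  ∃ x ∈ box K, ∃ y : ℤ × ℤ, (n : ℤ) ≤ max |y.1| |y.2| ∧ Conn (ω \ edges (box K)) x y

private theorem arm_out {K n : ℕ} (hKn : K < n) {ω : Finset Edge} (h : Arm n (0, 0) ω) :
    Out K n ω := by
  obtain ⟨y, -, h1, h2⟩ := h
  have h3 : Conn ω (0, 0) y := h2.mono Finset.inter_subset_left
  have h0 : ((0, 0) : ℤ × ℤ) ∈ box K := by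
    rw [mem_box_zo]
    simp
  have key : y ∈ {v | v ∈ box K ∨ ∃ x ∈ box K, Conn (ω \ edges (box K)) x v} := by
    refine h3.induct (Or.inl h0) fun e he => ?_
    by_cases hin : e ∈ edges (box K)
    · rw [mem_edges] at hin
      exact ⟨fun _ => Or.inl hin.2, fun _ => Or.inl hin.1⟩
    · have he' : e ∈ ω \ edges (box K) := Finset.mem_sdiff.2 ⟨he, hin⟩
      have hc := conn_edge he'
      constructor
      · rintro (h4 | ⟨x, hx, h4⟩)
        · exact Or.inr ⟨e.1, h4, hc⟩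
        · exact Or.inr ⟨x, hx, h4.trans hc⟩
      · rintro (h4 | ⟨x, hx, h4⟩)
        · exact Or.inr ⟨tip e, h4, hc.symm⟩
        · exact Or.inr ⟨x, hx, h4.trans hc.symm⟩
  have hn : (n : ℤ) ≤ max |y.1| |y.2| := by
    simp only [sub_zero] at h1
    rcases h1 with h1 | h1
    · exact le_max_of_le_left h1.ge
    · exact le_max_of_le_right h1.ge
  rcases key with h4 | ⟨x, hx, h4⟩
  · exfalso
    rw [mem_box_zo] at h4
    have h5 : max |y.1| |y.2| ≤ (K : ℤ) := max_le (abs_le.2 h4.1) (abs_le.2 h4.2)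
    omega
  · exact ⟨x, hx, y, hn, h4⟩

theorem zero_one {q ρ θ : ℝ} (hq : 1 ≤ q) (hρ : 0 < ρ) (hθ : 0 < θ)
    (h : ∀ n : ℕ, ∃ N : ℕ, θ ≤ pr q (hom ρ) (box N) (Arm n (0, 0))) {ε : ℝ} (hε : 0 < ε) :
    ∃ K : ℕ, ∀ n : ℕ, ∃ N : ℕ, 1 - ε ≤ pr q (hom ρ) (box N) (Reach K n) := by
  have hq0 : (0 : ℝ) < q := by linarith
  have hr : ∀ e, 0 ≤ hom ρ e := fun _ => hρ.le
  set p : ℕ → ℕ → ℝ := fun n N => pr q (hom ρ) (box N) (Arm n (0, 0)) with hp
  have hp1 : ∀ n N, p n N ≤ 1 := fun n N => pr_le_one hq0 hr _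
  have hpN : ∀ n N N', N ≤ N' → p n N ≤ p n N' := fun n N N' hN =>
    pr_mono_D hq hr (box_mono_zo hN) (arm_incr n (0, 0))
  have hbdd : ∀ n, BddAbove (Set.range (p n)) := fun n => ⟨1, by rintro _ ⟨N, rfl⟩; exact hp1 n N⟩
  set p' : ℕ → ℝ := fun n => ⨆ N, p n N with hp'
  have hp'θ : ∀ n, θ ≤ p' n := by
    intro n
    obtain ⟨N, hN⟩ := h n
    exact hN.trans (le_ciSup (hbdd n) N)
  have hbdd' : BddBelow (Set.range p') := ⟨θ, by rintro _ ⟨n, rfl⟩; exact hp'θ n⟩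
  set I : ℝ := ⨅ n, p' n with hI
  have hIθ : θ ≤ I := le_ciInf hp'θ
  obtain ⟨η, hη0, hη1, hη2⟩ : ∃ η : ℝ, 0 < η ∧ η ≤ θ / 2 ∧ η ≤ ε * θ / 4 :=
    ⟨min (θ / 2) (ε * θ / 4), lt_min (by positivity) (by positivity), min_le_left _ _,
      min_le_right _ _⟩
  obtain ⟨n', hn'⟩ := exists_lt_of_ciInf_lt (show (⨅ n, p' n) < I + η by linarith)
  obtain ⟨K₀, hK₀⟩ := exists_lt_of_lt_ciSup (show p' n' - η < ⨆ N, p n' N by
    have : p' n' = ⨆ N, p n' N := rfl
    linarith)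
  refine ⟨max n' K₀, fun n => ?_⟩
  set K : ℕ := max n' K₀ with hK
  have hpK : θ - η ≤ p n' K := by
    have h1 := hpN n' K₀ K (le_max_right _ _)
    have h2 := ciInf_le hbdd' n'
    linarith
  rcases Nat.lt_or_ge K n with hKn | hKn
  swap
  · refine ⟨0, ?_⟩
    have h1 : pr q (hom ρ) (box 0) (Reach K n) = 1 := by
      have h2 := pr_add_compl (D := box 0) hq0 hr (Reach K n)
      have h3 : pr q (hom ρ) (box 0) (fun ω => ¬ Reach K n ω) = 0 := by
        have h4 : pr q (hom ρ) (box 0) (fun ω => ¬ Reach K n ω) ≤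
            pr q (hom ρ) (box 0) (fun _ => False) := by
          refine pr_mono hq0 hr fun ω _ h5 => h5 ?_
          refine ⟨((K : ℤ), 0), ?_, ((K : ℤ), 0), ?_, Conn.refl _ _⟩
          · rw [mem_box_zo]
            simp
          · refine le_max_of_le_left ?_
            simp only [Nat.abs_cast]
            exact_mod_cast hKn
        have h5 : pr q (hom ρ) (box 0) (fun _ => False) = 0 := by
          unfold pr ex
          simp
        exact le_antisymm (h4.trans h5.le) (pr_nonneg hq0 hr _)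
      linarith
    linarith
  obtain ⟨N₀, hN₀⟩ := exists_lt_of_lt_ciSup (show p' n - η < ⨆ N, p n N by
    have : p' n = ⨆ N, p n N := rfl
    linarith)
  refine ⟨max K N₀, ?_⟩
  set N : ℕ := max K N₀ with hN
  have hpN0 : I - η ≤ p n N := by
    have h1 := hpN n N₀ N (le_max_right _ _)
    have h2 := ciInf_le hbdd' n
    linarith
  have hD : box K ⊆ box N := box_mono_zo (le_max_left _ _)
  have hB : ∀ ω, (¬ Out K n ω) ↔ (¬ Out K n (ω \ edges (box K))) := by
    intro ω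
    unfold Out
    rw [sdiff_idem]
  have h1 := dom_markov (q := q) (r := hom ρ) (A := Arm n' (0, 0)) (B := fun ω => ¬ Out K n ω)
    hq hr hD (arm_incr n' (0, 0)) hB
  have h2 : pr q (hom ρ) (box N) (fun ω => Arm n' (0, 0) ω ∧ ¬ Out K n ω) ≤
      pr q (hom ρ) (box N) (fun ω => Arm n' (0, 0) ω ∧ ¬ Arm n (0, 0) ω) :=
    pr_mono hq0 hr fun ω _ h3 => ⟨h3.1, fun h4 => h3.2 (arm_out hKn h4)⟩
  have h3 := pr_split (q := q) (r := hom ρ) (D := box N) (Arm n' (0, 0)) (Arm n (0, 0))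
  have h4 : pr q (hom ρ) (box N) (Arm n (0, 0)) ≤
      pr q (hom ρ) (box N) (fun ω => Arm n' (0, 0) ω ∧ Arm n (0, 0) ω) := by
    refine pr_mono hq0 hr fun ω _ h5 => ⟨?_, h5⟩
    obtain ⟨y, -, h6, h7⟩ := h5
    refine arm_of_conn (y := y) (h7.mono Finset.inter_subset_left) ?_
    have hnn : (n' : ℤ) ≤ n := by
      have : n' ≤ K := le_max_left _ _
      omega
    rcases h6 with h6 | h6
    · exact le_max_of_le_left (by omega)
    · exact le_max_of_le_right (by omega)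
  have h5 : pr q (hom ρ) (box N) (Arm n' (0, 0)) ≤ I + η :=
    (le_ciSup (hbdd n') N).trans hn'.le
  have h6 : I - η ≤ pr q (hom ρ) (box N) (Arm n (0, 0)) := hpN0
  have h7 : pr q (hom ρ) (box K) (Arm n' (0, 0)) * pr q (hom ρ) (box N) (fun ω => ¬ Out K n ω) ≤
      2 * η := by linarith
  have h8 : 0 ≤ pr q (hom ρ) (box N) (fun ω => ¬ Out K n ω) := pr_nonneg hq0 hr _
  have h9 : (θ / 2) * pr q (hom ρ) (box N) (fun ω => ¬ Out K n ω) ≤ ε * θ / 2 := by
    have h10 : (θ / 2) ≤ pr q (hom ρ) (box K) (Arm n' (0, 0)) := by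
      have : p n' K = pr q (hom ρ) (box K) (Arm n' (0, 0)) := rfl
      linarith
    have h11 := mul_le_mul_of_nonneg_right h10 h8
    linarith
  have h10 : pr q (hom ρ) (box N) (fun ω => ¬ Out K n ω) ≤ ε := by
    have h11 : (θ / 2) * pr q (hom ρ) (box N) (fun ω => ¬ Out K n ω) ≤ (θ / 2) * ε := by linarith
    exact le_of_mul_le_mul_left h11 (by positivity)
  have h11 := pr_add_compl (D := box N) hq0 hr (Out K n)
  have h12 : pr q (hom ρ) (box N) (Out K n) ≤ pr q (hom ρ) (box N) (Reach K n) := by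
    refine pr_mono hq0 hr fun ω _ h13 => ?_
    obtain ⟨x, hx, y, hy, hc⟩ := h13
    exact ⟨x, hx, y, hy, hc.mono Finset.sdiff_subset⟩
  linarith

end Pool.Helper71.XD
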